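import Pool.Agent.Helper85.RC.Sys2
import Pool.Agent.Helper94.SubSUBF
import Pool.Agent.Helper10.RC.Basic

/-!
# The Subspace theorem as a `PSys` over number fields
-/

set_option autoImplicit false
set_option linter.unusedSectionVars false
set_option linter.style.haveILetI false

namespace Pool.Agent.Helper85.RC

open Pool.Agent.Helper85.Sub Pool.Agent.Helper10.Sub NumberField IsDedekindDomain
open Pool.Agent.Helper10.RC

section sub
variable {K : Type} [Field K] [NumberField K] {T : Finset Nat.Primes}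

/-- The matrix of forms at an embedding: the given one, or the identity. -/
noncomputable def fmx {C : Type} [Field C] {ι : Type} {M : ℕ} (b : Prop) [Decidable b]
    (f : ι ≃ Fin M) (A : Matrix ι ι K) (σ : K →+* C) : Matrix (Fin M) (Fin M) C :=
  if b then (Matrix.reindex f f A).map σ else 1

lemma fmx_alg {C : Type} [Field C] [CharZero C] {ι : Type} {M : ℕ} (b : Prop) [Decidable b]
    (f : ι ≃ Fin M) (A : Matrix ι ι K) (σ : K →+* C) (i j : Fin M) :
    IsAlgebraic ℚ (fmx b f A σ i j) := by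
  unfold fmx
  split_ifs
  · rw [Matrix.map_apply]
    have h1 : IsAlgebraic ℚ (Matrix.reindex f f A i j) := Algebra.IsAlgebraic.isAlgebraic _
    exact h1.algHom σ.toRatAlgHom
  · rw [Matrix.one_apply]
    split_ifs
    · exact isAlgebraic_one
    · exact isAlgebraic_zero

lemma fmx_det {C : Type} [Field C] {ι : Type} [Fintype ι] [DecidableEq ι] {M : ℕ}
    (b : Prop) [Decidable b]
    (f : ι ≃ Fin M) (A : Matrix ι ι K) (hA : A.det ≠ 0) (σ : K →+* C) :
    (fmx b f A σ).det ≠ 0 := by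
  unfold fmx
  split_ifs
  · have h3 : ((Matrix.reindex f f A).map σ).det = σ (Matrix.reindex f f A).det :=
      (RingHom.map_det σ _).symm
    rw [h3, map_ne_zero, Matrix.det_reindex_self]
    exact hA
  · rw [Matrix.det_one]
    exact one_ne_zero

lemma fmx_sum {C : Type} [Field C] {ι : Type} [Fintype ι] {M : ℕ} (b : Prop) [Decidable b]
    (f : ι ≃ Fin M) (A : Matrix ι ι K) (σ : K →+* C) (y : ι → K) (i : Fin M) :
    ∑ j, fmx b f A σ i j * σ (y (f.symm j)) =
      if b then σ (∑ j, A (f.symm i) j * y j) else σ (y (f.symm i)) := by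
  classical
  unfold fmx
  split_ifs with hb
  · rw [map_sum]
    refine Fintype.sum_equiv f.symm _ _ fun j => ?_
    rw [Matrix.map_apply, map_mul, Matrix.reindex_apply, Matrix.submatrix_apply]
  · rw [Finset.sum_eq_single i]
    · rw [Matrix.one_apply_eq, one_mul]
    · intro j _ hj
      rw [Matrix.one_apply_ne (Ne.symm hj), zero_mul]
    · simp

lemma sub_av [DecidableEq (Lam K T)] (σ₁ : Lam K T) (ι : Type) [Fintype ι] [DecidableEq ι]
    (A : Matrix ι ι K) (hι : 2 ≤ Fintype.card ι) (hA : A.det ≠ 0) (δ B : ℝ) (hδ : 0 < δ) :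
    ∃ 𝒲 : Finset (Submodule K (ι → K)), (∀ W ∈ 𝒲, W ≠ ⊤) ∧
      ∀ (Q : ℝ) (a : ι → ℝ) (y : ι → K), 1 ≤ Q → (∀ i, y i ∈ OP K (pprod (pr T))) →
        (∀ i, Q ^ (-B) ≤ a i ∧ a i ≤ Q ^ B) →
        (∀ σ i, Q ^ (-B) ≤ av K T σ (y i) ∧ av K T σ (y i) ≤ Q ^ B) →
        (∀ i, av K T σ₁ (∑ j, A i j * y j) ≤ a i) →
        (∏ i, a i) * ∏ i, ∏ σ ∈ Finset.univ.erase σ₁, av K T σ (y i) ≤ Q ^ (-δ) →
        ∃ W ∈ 𝒲, y ∈ W := by
  classical
  let M := Fintype.card ι
  let f : ι ≃ Fin M := Fintype.equivFin ι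
  let Fl : T → Type := fun t => FF K (pr T t)
  letI : ∀ t, NontriviallyNormedField (Fl t) := fun t => instNNF
  letI : ∀ t, NormedAlgebra ℚ_[pr T t] (Fl t) := fun t => instNA
  haveI : ∀ t, FiniteDimensional ℚ_[pr T t] (Fl t) := fun t => ff_finite K (pr T t)
  haveI : ∀ t, CharZero (Fl t) := fun t => inferInstanceAs (CharZero (FF K (pr T t)))
  letI : ∀ t, Fintype (K →+* Fl t) := fun t => inferInstanceAs (Fintype (K →+* FF K (pr T t)))
  obtain ⟨𝒲, h𝒲, hmain⟩ := Pool.Agent.Helper98.Sub.subspaceK Fl (fun t => card_emb) M hι δ B hδ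
    (fun ι _ _ hι A A' algA algA' dA dA' =>
      Pool.Agent.Helper94.Sub.subspaceF_all Fl (fun t => ff_span) (δ / 2) (B + 1)
        (pr_injective T) hι (by positivity) A A' algA algA' dA dA')
    (fun σ => fmx (Sum.inl σ = σ₁) f A σ) (fun t σ => fmx (Sum.inr ⟨t, σ⟩ = σ₁) f A σ)
    (fun σ i j => fmx_alg _ f A σ i j) (fun t σ i j => fmx_alg _ f A σ i j)
    (fun σ => fmx_det _ f A hA σ) (fun t σ => fmx_det _ f A hA σ)
  refine ⟨𝒲.image fun W => W.comap (LinearMap.funLeft K K f.symm), ?_, ?_⟩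
  · intro W hW
    obtain ⟨W', hW', rfl⟩ := Finset.mem_image.1 hW
    intro htop
    apply h𝒲 W' hW'
    rw [eq_top_iff]
    intro x _
    have h1 : (fun i => x (f i)) ∈ W'.comap (LinearMap.funLeft K K f.symm) := by
      rw [htop]; trivial
    rw [Submodule.mem_comap] at h1
    have h2 : LinearMap.funLeft K K f.symm (fun i => x (f i)) = x := by
      funext j
      simp [LinearMap.funLeft_apply]
    rwa [h2] at h1
  · intro Q a y hQ hy ha hav hrow hprod
    set aa : Lam K T → Fin M → ℝ := fun s i =>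
      if s = σ₁ then a (f.symm i) else av K T s (y (f.symm i)) with haa
    have haa1 : ∀ s i, Q ^ (-B) ≤ aa s i ∧ aa s i ≤ Q ^ B := by
      intro s i
      simp only [haa]
      split_ifs
      · exact ha _
      · exact hav _ _
    have hp : (∏ σ, ∏ i, aa (Sum.inl σ) i) * ∏ t, ∏ σ, ∏ i, aa (Sum.inr ⟨t, σ⟩) i ≤ Q ^ (-δ) := by
      refine le_trans (le_of_eq ?_) hprod
      have h1 : (∏ σ, ∏ i, aa (Sum.inl σ) i) * ∏ t, ∏ σ, ∏ i, aa (Sum.inr ⟨t, σ⟩) i =
          ∏ s : Lam K T, ∏ i, aa s i := by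
        rw [Fintype.prod_sum_type, Fintype.prod_sigma]
      rw [h1, ← Finset.mul_prod_erase Finset.univ _ (Finset.mem_univ σ₁)]
      congr 1
      · simp only [haa, if_true]
        exact Fintype.prod_equiv f.symm _ _ fun i => rfl
      · rw [Finset.prod_comm]
        refine Fintype.prod_equiv f.symm _ _ fun i => ?_
        refine Finset.prod_congr rfl fun s hs => ?_
        simp only [haa]
        rw [if_neg (Finset.ne_of_mem_erase hs)]
    obtain ⟨W, hW, hyW⟩ := hmain Q (fun σ => aa (Sum.inl σ)) (fun t σ => aa (Sum.inr ⟨t, σ⟩)) hQ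
      (fun σ i => haa1 _ _) (fun t σ i => haa1 _ _) hp (fun i => y (f.symm i))
      (fun k => hy _)
      (fun σ i => by
        rw [fmx_sum]
        simp only [haa]
        split_ifs with h
        · rw [← av_inl (T := T), h]
          exact hrow _
        · exact le_rfl)
      (fun t σ i => by
        rw [fmx_sum]
        simp only [haa]
        split_ifs with h
        · have h3 := hrow (f.symm i)
          rw [← h] at h3
          exact h3
        · exact le_rfl)
    exact ⟨_, Finset.mem_image_of_mem _ hW, hyW⟩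

/-- The system of absolute values. -/
noncomputable def sysT (K : Type) [Field K] [NumberField K] (T : Finset Nat.Primes)
    [DecidableEq (Lam K T)] : PSys K (Lam K T) where
  abv := av K T
  O := OP K (pprod (pr T))
  closed := OP_closed
  one_le := fun _ hx h0 => one_le_prod hx h0
  fin := fun B => finite_le B
  sub := fun σ₁ ι _ _ A hι hA δ B hδ => sub_av σ₁ ι A hι hA δ B hδ

end sub

section main

/-- A prime below a finite place. -/
lemma exists_prime_below {K : Type} [Field K] [NumberField K] (v : FinitePlace K) :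
    ∃ q : Nat.Primes, ((q : ℕ) : 𝓞 K) ∈ v.maximalIdeal.asIdeal := by
  obtain ⟨p, hp, h⟩ := exists_prime_mem v.maximalIdeal
  exact ⟨⟨p, hp⟩, h⟩

lemma pprod_mem {K : Type} [Field K] [NumberField K] (T : Finset Nat.Primes) (q : Nat.Primes)
    (hq : q ∈ T) (v : FinitePlace K) (h : ((q : ℕ) : 𝓞 K) ∈ v.maximalIdeal.asIdeal) :
    ((pprod (pr T) : ℕ) : 𝓞 K) ∈ v.maximalIdeal.asIdeal := by
  have h1 : (q : ℕ) ∣ pprod (pr T) := by
    unfold pprod
    exact Finset.dvd_prod_of_mem (pr T) (Finset.mem_univ (⟨q, hq⟩ : T))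
  obtain ⟨c, hc⟩ := h1
  rw [hc, Nat.cast_mul]
  exact Ideal.mul_mem_right _ _ h

/-- An embedding extends to a finite extension. -/
lemma exists_extend {K₀ K C : Type} [Field K₀] [NumberField K₀] [Field K] [NumberField K]
    [Algebra K₀ K] [Field C] [IsAlgClosed C] (τ : K₀ →+* C) :
    ∃ σ : K →+* C, ∀ x, σ (algebraMap K₀ K x) = τ x := by
  letI : Algebra K₀ C := τ.toAlgebra
  haveI : Algebra.IsAlgebraic K₀ K := Algebra.IsAlgebraic.tower_top (K := ℚ) K₀
  let φ : K →ₐ[K₀] C := IsAlgClosed.lift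
  exact ⟨φ, fun x => φ.commutes x⟩

/-- RC-SYS -/
theorem exists_psys (K₀ K : Type) [Field K₀] [NumberField K₀] [Field K] [NumberField K]
    [Algebra K₀ K] (S : Finset (FinitePlace K₀)) (F : Finset K) :
    ∃ (Λ : Type) (_ : Fintype Λ) (_ : DecidableEq Λ) (Z : PSys K Λ),
      (∀ x ∈ F, x ∈ Z.O) ∧
      (∀ x : K₀, (∀ v : FinitePlace K₀, v ∉ S → v x ≤ 1) → algebraMap K₀ K x ∈ Z.O) ∧
      (∀ w : InfinitePlace K₀, ∃ (σ : Λ) (κ : ℝ), 0 < κ ∧
        ∀ x : K₀, Z.abv σ (algebraMap K₀ K x) = (w x) ^ κ) ∧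
      (∀ v ∈ S, ∃ (σ : Λ) (κ : ℝ), 0 < κ ∧
        ∀ x : K₀, Z.abv σ (algebraMap K₀ K x) = (v x) ^ κ) ∧
      ∀ σ : Λ, (∃ (w : InfinitePlace K₀) (κ : ℝ), 0 < κ ∧
          ∀ x : K₀, Z.abv σ (algebraMap K₀ K x) = (w x) ^ κ) ∨
        ∃ (v : FinitePlace K₀) (κ : ℝ), 0 < κ ∧
          ∀ x : K₀, Z.abv σ (algebraMap K₀ K x) = (v x) ^ κ := by
  classical
  choose q hq using fun v : FinitePlace K₀ => exists_prime_below v
  choose q' hq' using fun v : FinitePlace K => exists_prime_below v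
  have hfin : ∀ x : K, {v : FinitePlace K | 1 < v x}.Finite := by
    intro x
    by_cases hx : x = 0
    · subst hx
      refine Set.finite_empty.subset ?_
      intro v hv
      simp only [Set.mem_ofPred_eq, map_zero] at hv
      linarith
    · exact (FinitePlace.hasFiniteMulSupport hx).subset fun v hv => (ne_of_gt hv)
  let T : Finset Nat.Primes := S.image q ∪ F.biUnion fun x => (hfin x).toFinset.image q'
  have hroot : ∀ (n : ℕ), n ≠ 0 → ∀ (a b : ℝ), 0 ≤ b → a = b ^ n → b = a ^ ((n : ℝ)⁻¹) := by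
    intro n hn a b hb hab
    rw [hab, Real.pow_rpow_inv_natCast hb hn]
  refine ⟨Lam K T, inferInstance, inferInstance, sysT K T, ?_, ?_, ?_, ?_, ?_⟩
  · intro x hx
    refine mem_OP_of_le (hfin x).toFinset _ ?_ x ?_
    · intro v hv
      refine pprod_mem T (q' v) ?_ v (hq' v)
      exact Finset.mem_union_right _ (Finset.mem_biUnion.2 ⟨x, hx, Finset.mem_image_of_mem _ hv⟩)
    · intro v hv
      rw [Set.Finite.mem_toFinset, Set.mem_ofPred_eq, not_lt] at hv
      exact hv
  · intro x hx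
    have h1 : x ∈ OP K₀ (pprod (pr T)) := by
      refine mem_OP_of_le S _ ?_ x hx
      intro v hv
      exact pprod_mem T (q v) (Finset.mem_union_left _ (Finset.mem_image_of_mem _ hv)) v (hq v)
    obtain ⟨n, hn⟩ := h1
    refine ⟨n, ?_⟩
    have h2 : ((pprod (pr T) : ℕ) : K) ^ n * algebraMap K₀ K x =
        algebraMap K₀ K (((pprod (pr T) : ℕ) : K₀) ^ n * x) := by
      rw [map_mul, map_pow, map_natCast]
    rw [h2]
    exact map_isIntegral_int (algebraMap K₀ K) hn
  · intro w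
    obtain ⟨σ, hσ⟩ := exists_extend (K := K) w.embedding
    refine ⟨Sum.inl σ, 1, one_pos, fun x => ?_⟩
    change ‖σ (algebraMap K₀ K x)‖ = _
    rw [hσ, Real.rpow_one, InfinitePlace.norm_embedding_eq]
  · intro v hv
    obtain ⟨n, hn0, ⟨σ₀, hσ₀⟩, -, hall⟩ := card_fiber (p := (q v : ℕ)) (hp := ⟨(q v).2⟩)
      v.maximalIdeal (hq v)
    haveI : Fact (q v : ℕ).Prime := ⟨(q v).2⟩
    obtain ⟨σ, hσ⟩ := exists_extend (K := K) σ₀
    have hqT : q v ∈ T := Finset.mem_union_left _ (Finset.mem_image_of_mem _ hv)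
    refine ⟨Sum.inr ⟨⟨q v, hqT⟩, lift σ⟩, (n : ℝ)⁻¹, by positivity, fun x => ?_⟩
    change ‖σ (algebraMap K₀ K x)‖ = _
    rw [hσ]
    refine hroot n hn0 _ _ (norm_nonneg _) ?_
    rw [← hall σ₀ hσ₀ x, FinitePlace.mk_maximalIdeal]
  · rintro (σ | ⟨t, σ⟩)
    · left
      refine ⟨InfinitePlace.mk (σ.comp (algebraMap K₀ K)), 1, one_pos, fun x => ?_⟩
      rw [Real.rpow_one]
      rfl
    · right
      obtain ⟨n, hn0, h⟩ := exists_pow ((liftEquiv σ).comp (algebraMap K₀ K))
      refine ⟨FinitePlace.mk (qH ((liftEquiv σ).comp (algebraMap K₀ K))), (n : ℝ)⁻¹,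
        by positivity, fun x => ?_⟩
      exact hroot n hn0 _ _ (apply_nonneg _ _) (h x)

end main

end Pool.Agent.Helper85.RC
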