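import Pool.Agent.Helper10.RC.Intr
import Pool.Agent.Helper10.RC.Final

/-!
# Integral points of covers of the multiplicative group
-/

set_option autoImplicit false

namespace Pool.Agent.Helper85.RC

open Pool.Agent.Helper10.RC MvPolynomial NumberField

section one
variable {K L : Type} [Field K] [Field L] [Algebra K L]

/-- A polynomial which takes values in the subfield at infinitely many points of the subfield. -/
lemma descend_poly (q : Polynomial L)
    (h : {t : K | ∃ y : K, algebraMap K L y = q.eval (algebraMap K L t)}.Infinite) :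
    ∃ p : Polynomial K, p.map (algebraMap K L) = q := by
  classical
  obtain ⟨s, hs, hcard⟩ := h.exists_subset_card_eq (q.natDegree + 1)
  have hs' : ∀ t ∈ s, ∃ y : K, algebraMap K L y = q.eval (algebraMap K L t) := fun t ht => hs ht
  choose! y hy using hs'
  refine ⟨Lagrange.interpolate s id y, ?_⟩
  have hinj : Function.Injective (algebraMap K L) := (algebraMap K L).injective
  apply Polynomial.eq_of_degrees_lt_of_eval_finset_eq (s.image (algebraMap K L))
  · rw [Finset.card_image_of_injective _ hinj, Polynomial.degree_map]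
    exact Lagrange.degree_interpolate_lt y (Function.injective_id.injOn)
  · rw [Finset.card_image_of_injective _ hinj, hcard]
    refine Polynomial.degree_le_natDegree.trans_lt ?_
    exact_mod_cast Nat.lt_succ_self _
  · intro x hx
    obtain ⟨t, ht, rfl⟩ := Finset.mem_image.1 hx
    rw [Polynomial.eval_map_algebraMap, Polynomial.aeval_algebraMap_apply, ← hy t ht]
    have h1 : Polynomial.eval t (Lagrange.interpolate s id y) = y t :=
      Lagrange.eval_interpolate_at_node y (Function.injective_id.injOn) ht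
    rw [Polynomial.coe_aeval_eq_eval, h1]

lemma finite_zpow (m : ℤ) (hm : m ≠ 0) (c : K) : {z : K | z ^ m = c}.Finite := by
  classical
  have key : ∀ (n : ℕ), 0 < n → ∀ c : K, {z : K | z ^ n = c}.Finite := by
    intro n hn c
    refine (Polynomial.nthRoots n c).toFinset.finite_toSet.subset ?_
    intro z hz
    rw [Finset.mem_coe, Multiset.mem_toFinset, Polynomial.mem_nthRoots hn]
    exact hz
  rcases Int.lt_or_lt_of_ne hm with h | h
  · refine (key (-m).toNat (by omega) c⁻¹).subset ?_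
    intro z hz
    have h1 : ((-m).toNat : ℤ) = -m := Int.toNat_of_nonneg (by omega)
    change z ^ (-m).toNat = c⁻¹
    rw [← zpow_natCast, h1, zpow_neg, show z ^ m = c from hz]
  · refine (key m.toNat (by omega) c).subset ?_
    intro z hz
    have h1 : (m.toNat : ℤ) = m := Int.toNat_of_nonneg (by omega)
    change z ^ m.toNat = c
    rw [← zpow_natCast, h1]
    exact hz

lemma evh_eq {n : ℕ} (P : Pl K n) (t : Fin n → K) (y : K) :
    evh t y P = (P.map (MvPolynomial.eval t)).eval y := by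
  unfold evh
  rw [Polynomial.coe_eval₂RingHom, Polynomial.eval_map]

lemma finite_roots {n : ℕ} (P : Pl K n) (hP : P.Monic) (t : Fin n → K) :
    {y : K | evh t y P = 0}.Finite := by
  classical
  have h0 : P.map (MvPolynomial.eval t) ≠ 0 := (hP.map _).ne_zero
  refine (P.map (MvPolynomial.eval t)).roots.toFinset.finite_toSet.subset ?_
  intro y hy
  rw [Finset.mem_coe, Multiset.mem_toFinset, Polynomial.mem_roots h0, Polynomial.IsRoot.def,
    ← evh_eq]
  exact hy

lemma finite_of_cov (E : Set ((Fin 1 → K) × K)) (hE : Cov E) :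
    {z : K | ∃ y, ((fun _ => z), y) ∈ E}.Finite := by
  classical
  obtain ⟨A, h1, h2⟩ := hE
  refine (A.finite_toSet.biUnion (t := fun a => {z : K | z ^ (a.1 0) = a.2}) ?_).subset ?_
  · intro a ha
    refine finite_zpow _ ?_ _
    intro h0
    apply h1 a ha
    funext j
    rw [Subsingleton.elim j 0]
    exact h0
  · rintro z ⟨y, hy⟩
    obtain ⟨a, ha, h⟩ := h2 _ hy
    rw [Set.mem_iUnion₂]
    refine ⟨a, ha, ?_⟩
    simpa using h

end one

lemma pw_map_eq_kum {K : Type} [Field K] {n : ℕ} (P : Pl K n) (N : ℕ) :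
    pw (P.map (MvPolynomial.map (algebraMap K (AlgebraicClosure K)))) N =
      kum (AlgebraicClosure K) P N := by
  unfold pw kum
  rw [Polynomial.map_map]

/-- A monic polynomial of degree one. -/
lemma evh_linear {L : Type} [Field L] {n : ℕ} (R : Pl L n) (hR : R.Monic) (hd : R.natDegree = 1)
    (T : Fin n → L) (y : L) : evh T y R = y + MvPolynomial.eval T (R.coeff 0) := by
  have h1 : R = Polynomial.X + Polynomial.C (R.coeff 0) :=
    hR.eq_X_add_C hd
  conv_lhs => rw [h1]
  unfold evh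
  rw [map_add, Polynomial.coe_eval₂RingHom, Polynomial.eval₂_X, Polynomial.eval₂_C]

/-- RC2-ONE, with the inputs as hypotheses. -/
theorem curves_one_of (K : Type) [Field K] [NumberField K] (S : Finset (FinitePlace K))
    (B : FinitePlace K → ℝ)
    (locData_one : ∀ (R : Pl (AlgebraicClosure K) 1), R.Monic → 2 ≤ R.natDegree →
      (∀ N, 1 ≤ N → Irreducible (pw R N)) → ∀ ν : Fin 1 → ℝ, ν ≠ 0 →
      ∃ N, 1 ≤ N ∧ LocData (pw R N) ν)
    (stable_factors : ∀ P : Pl (AlgebraicClosure K) 1, P.Monic →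
      ∃ (N : ℕ) (ℛ : Multiset (Pl (AlgebraicClosure K) 1)), 1 ≤ N ∧ pw P N = ℛ.prod ∧
        ∀ R ∈ ℛ, R.Monic ∧ 1 ≤ R.natDegree ∧ ∀ N', 1 ≤ N' → Irreducible (pw R N'))
    (main_global' : ∀ (s : ℕ), Fintype.card (InfinitePlace K) + S.card ≤ s →
      ∀ (N : ℕ), 1 ≤ N → ∀ (R : Pl (AlgebraicClosure K) 1),
      (∀ ν : Fin s → Fin 1 → ℝ, ∑ i, ν i = 0 → ν ≠ 0 →
        ∃ i, ν i ≠ 0 ∧ ∃ N', 1 ≤ N' ∧ LocData (pw R N') (ν i)) →
      Cov (PtsR S B N R))
    (fin_classes' : ∀ (N : ℕ), 1 ≤ N →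
      ∃ 𝒞 : Finset K, ∀ x : K, QU S B x → ∃ c ∈ 𝒞, ∃ t : K, x = c * t ^ N)
    (P : Pl K 1) (hP : P.Monic) :
    ∃ (F : Set (K × K)) (𝒞 : Finset (K × ℕ × Polynomial K)), F.Finite ∧
      (∀ c ∈ 𝒞, c.1 ≠ 0 ∧ 1 ≤ c.2.1 ∧
        ∀ t : K, evh (fun _ => c.1 * t ^ c.2.1) (c.2.2.eval t) P = 0) ∧
      ∀ z y : K, z ≠ 0 → (∀ v : FinitePlace K, v ∉ S → |Real.log (v z)| ≤ B v) →
        evh (fun _ => z) y P = 0 →
        (z, y) ∈ F ∨ ∃ c ∈ 𝒞, ∃ t : K, t ≠ 0 ∧ z = c.1 * t ^ c.2.1 ∧ y = c.2.2.eval t := by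
  classical
  set Kb := AlgebraicClosure K with hKb
  set Pb : Pl Kb 1 := P.map (MvPolynomial.map (algebraMap K Kb)) with hPb
  obtain ⟨N, ℛ, hN, hprod, hℛ⟩ := stable_factors Pb (hP.map _)
  obtain ⟨𝒞₀, h𝒞₀⟩ := fin_classes' N hN
  have hroot : ∀ c : K, ∃ γ : Kb, γ ^ N = algebraMap K Kb c :=
    fun c => IsAlgClosed.exists_pow_nat_eq _ (by omega)
  choose γ hγ using hroot
  -- evaluation of the product
  have hev : ∀ (T : Kb) (z y : K), T ^ N = algebraMap K Kb z →
      (ℛ.map (evh (fun _ => T) (algebraMap K Kb y))).prod =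
        algebraMap K Kb (evh (fun _ => z) y P) := by
    intro T z y hT
    rw [← evh_kum P N (fun _ => T) (fun _ => z) y (fun _ => hT), ← pw_map_eq_kum, hprod,
      map_multiset_prod]
  -- the first finite set
  let F₁ : Set (K × K) := {p | (∃ R ∈ ℛ, 2 ≤ R.natDegree ∧ ((fun _ => p.1), p.2) ∈ PtsR S B N R) ∧
    evh (fun _ => p.1) p.2 P = 0}
  have hF₁ : F₁.Finite := by
    have h1 : {z : K | ∃ R ∈ ℛ, 2 ≤ R.natDegree ∧
        ∃ y, ((fun _ : Fin 1 => z), y) ∈ PtsR S B N R}.Finite := by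
      refine ((ℛ.toFinset.filter fun R => 2 ≤ R.natDegree).finite_toSet.biUnion
        (t := fun R => {z : K | ∃ y, ((fun _ : Fin 1 => z), y) ∈ PtsR S B N R}) ?_).subset ?_
      · intro R hR
        rw [Finset.mem_coe, Finset.mem_filter, Multiset.mem_toFinset] at hR
        apply finite_of_cov
        refine main_global' _ le_rfl N hN R ?_
        intro ν _ hν
        have h2 : ∃ i, ν i ≠ 0 := by
          by_contra hcon
          push Not at hcon
          exact hν (funext hcon)
        obtain ⟨i, hi⟩ := h2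
        exact ⟨i, hi, locData_one R (hℛ R hR.1).1 hR.2 (hℛ R hR.1).2.2 (ν i) hi⟩
      · rintro z ⟨R, hR, hd, y, hy⟩
        rw [Set.mem_iUnion₂]
        refine ⟨R, ?_, y, hy⟩
        rw [Finset.mem_coe, Finset.mem_filter, Multiset.mem_toFinset]
        exact ⟨hR, hd⟩
    refine (h1.biUnion (t := fun z => (fun y => (z, y)) '' {y : K | evh (fun _ => z) y P = 0})
      fun z _ => (finite_roots P hP _).image _).subset ?_
    rintro ⟨z, y⟩ ⟨⟨R, hR, hd, hy⟩, h0⟩
    rw [Set.mem_iUnion₂]
    exact ⟨z, ⟨R, hR, hd, y, hy⟩, y, h0, rfl⟩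
  -- the curves
  let q : Pl Kb 1 → K → Polynomial Kb := fun R c =>
    MvPolynomial.aeval (fun _ => Polynomial.C (γ c) * Polynomial.X) (-(R.coeff 0))
  have hq : ∀ R c (t : Kb), (q R c).eval t =
      -MvPolynomial.eval (fun _ => γ c * t) (R.coeff 0) := by
    intro R c t
    have h1 : ∀ f : MvPolynomial (Fin 1) Kb,
        (MvPolynomial.aeval (fun _ : Fin 1 => Polynomial.C (γ c) * Polynomial.X) f :
          Polynomial Kb).eval t = MvPolynomial.eval (fun _ => γ c * t) f := by
      intro f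
      induction f using MvPolynomial.induction_on with
      | C a => simp
      | add p q hp hq => rw [map_add, Polynomial.eval_add, hp, hq, map_add]
      | mul_X p i hp =>
        rw [map_mul, Polynomial.eval_mul, hp, map_mul, aeval_X, eval_X]
        simp
    simp only [q]
    rw [h1, map_neg]
  let X : Pl Kb 1 → K → Set K := fun R c =>
    {t : K | ∃ y : K, algebraMap K Kb y = (q R c).eval (algebraMap K Kb t)}
  have hdesc : ∀ R c, (X R c).Infinite → ∃ p : Polynomial K, p.map (algebraMap K Kb) = q R c :=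
    fun R c h => descend_poly (q R c) h
  choose! p hp using hdesc
  let I : Finset (Pl Kb 1 × K) := (ℛ.toFinset.filter fun R => R.natDegree = 1) ×ˢ
    (𝒞₀.filter fun c => c ≠ 0)
  let G : Pl Kb 1 × K → Set (K × K) := fun i => {w | ∃ t ∈ X i.1 i.2, w.1 = i.2 * t ^ N ∧
    algebraMap K Kb w.2 = (q i.1 i.2).eval (algebraMap K Kb t)}
  have hG : ∀ i, (X i.1 i.2).Finite → (G i).Finite := by
    intro i hi
    refine (hi.biUnion (t := fun t => {w : K × K | w.1 = i.2 * t ^ N ∧
      algebraMap K Kb w.2 = (q i.1 i.2).eval (algebraMap K Kb t)}) fun t _ => ?_).subset ?_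
    · apply Set.Subsingleton.finite
      rintro ⟨a, b⟩ ⟨h1, h2⟩ ⟨a', b'⟩ ⟨h1', h2'⟩
      simp only at h1 h2 h1' h2'
      rw [h1, h1', (algebraMap K Kb).injective (h2.trans h2'.symm)]
    · rintro w ⟨t, ht, h⟩
      rw [Set.mem_iUnion₂]
      exact ⟨t, ht, h⟩
  refine ⟨F₁ ∪ ⋃ i ∈ I.filter (fun i => (X i.1 i.2).Finite), G i,
    (I.filter fun i => ¬ (X i.1 i.2).Finite).image fun i => (i.2, N, p i.1 i.2), ?_, ?_, ?_⟩
  · refine hF₁.union ((Finset.finite_toSet _).biUnion fun i hi => hG i ?_)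
    rw [Finset.mem_coe, Finset.mem_filter] at hi
    exact hi.2
  · intro c hc
    obtain ⟨⟨R, c⟩, hi, rfl⟩ := Finset.mem_image.1 hc
    simp only [I, Finset.mem_filter, Finset.mem_product, Multiset.mem_toFinset] at hi
    obtain ⟨⟨⟨hR, hd⟩, hc, hc0⟩, hinf⟩ := hi
    refine ⟨hc0, hN, fun t => ?_⟩
    simp only
    apply (algebraMap K Kb).injective
    have hT : (γ c * algebraMap K Kb t) ^ N = algebraMap K Kb (c * t ^ N) := by
      rw [mul_pow, hγ, map_mul, map_pow]
    rw [← hev _ _ _ hT, map_zero, Multiset.prod_eq_zero_iff, Multiset.mem_map]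
    refine ⟨R, hR, ?_⟩
    rw [evh_linear R (hℛ R hR).1 hd]
    have h1 : algebraMap K Kb ((p R c).eval t) = (q R c).eval (algebraMap K Kb t) := by
      rw [← hp R c hinf, Polynomial.eval_map_algebraMap, Polynomial.aeval_algebraMap_apply,
        Polynomial.coe_aeval_eq_eval]
    rw [h1, hq, neg_add_cancel]
  · intro z y hz hB h0
    have hQU : QU S B z := ⟨hz, hB⟩
    obtain ⟨c, hc, t, rfl⟩ := h𝒞₀ z hQU
    have hc0 : c ≠ 0 := left_ne_zero_of_mul hz
    have ht0 : t ≠ 0 := by
      rintro rfl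
      apply hz
      rw [zero_pow (by omega), mul_zero]
    have hT : (γ c * algebraMap K Kb t) ^ N = algebraMap K Kb (c * t ^ N) := by
      rw [mul_pow, hγ, map_mul, map_pow]
    have h1 := hev _ _ y hT
    rw [h0, map_zero, Multiset.prod_eq_zero_iff, Multiset.mem_map] at h1
    obtain ⟨R, hR, hR0⟩ := h1
    by_cases hd : 2 ≤ R.natDegree
    · left
      left
      refine ⟨⟨R, hR, hd, ?_⟩, h0⟩
      exact ⟨fun _ => hQU, fun _ => γ c * algebraMap K Kb t, fun _ => hT, hR0⟩
    · have hd1 : R.natDegree = 1 := by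
        have := (hℛ R hR).2.1
        omega
      rw [evh_linear R (hℛ R hR).1 hd1] at hR0
      have hy : algebraMap K Kb y = (q R c).eval (algebraMap K Kb t) := by
        rw [hq]
        exact eq_neg_of_add_eq_zero_left hR0
      have hI : (R, c) ∈ I := by
        simp only [I, Finset.mem_filter, Finset.mem_product, Multiset.mem_toFinset]
        exact ⟨⟨hR, hd1⟩, hc, hc0⟩
      by_cases hfin : (X R c).Finite
      · left
        right
        rw [Set.mem_iUnion₂]
        exact ⟨(R, c), Finset.mem_filter.2 ⟨hI, hfin⟩, t, ⟨y, hy⟩, rfl, hy⟩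
      · right
        refine ⟨(c, N, p R c), Finset.mem_image.2 ⟨(R, c), Finset.mem_filter.2 ⟨hI, hfin⟩, rfl⟩,
          t, ht0, rfl, ?_⟩
        apply (algebraMap K Kb).injective
        simp only
        rw [hy, ← hp R c hfin, Polynomial.eval_map_algebraMap, Polynomial.aeval_algebraMap_apply,
          Polynomial.coe_aeval_eq_eval]

end Pool.Agent.Helper85.RC
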