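import Pool.Agent.Helper85.SubLOCM2
import Pool.Agent.Helper10.Sub.KDefs

/-!
# A model of the local field of a number field at a finite place
-/

set_option autoImplicit false

namespace Pool.Agent.Helper85.Sub

open Pool.Agent.Helper10.Sub NumberField Polynomial IsDedekindDomain

section C
variable {K : Type} [Field K] [NumberField K]

lemma exists_prime_mem (P : HeightOneSpectrum (𝓞 K)) :
    ∃ p : ℕ, p.Prime ∧ (p : 𝓞 K) ∈ P.asIdeal := by
  classical
  have hex : ∃ n : ℕ, n ≠ 0 ∧ (n : 𝓞 K) ∈ P.asIdeal := by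
    refine ⟨Ideal.absNorm P.asIdeal, ?_, Ideal.absNorm_mem _⟩
    have := HeightOneSpectrum.one_lt_absNorm P
    omega
  set n := Nat.find hex with hn
  obtain ⟨hn0, hnP⟩ := Nat.find_spec hex
  refine ⟨n, ?_, hnP⟩
  rw [Nat.prime_def]
  have hn1 : n ≠ 1 := by
    intro h1
    rw [← hn, h1] at hnP
    apply P.isPrime.ne_top
    rw [Ideal.eq_top_iff_one]
    simpa using hnP
  refine ⟨by omega, ?_⟩
  intro m hm
  obtain ⟨k, hk⟩ := hm
  have hm0 : m ≠ 0 := by rintro rfl; simp at hk; omega
  have hk0 : k ≠ 0 := by rintro rfl; simp at hk; omega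
  have hmem : ((m : 𝓞 K) * (k : 𝓞 K)) ∈ P.asIdeal := by
    rw [← Nat.cast_mul, ← hk]
    exact hnP
  rcases P.isPrime.mem_or_mem hmem with h | h
  · right
    have h1 : n ≤ m := Nat.find_min' hex ⟨hm0, h⟩
    have h2 : m ≤ n := by
      rw [hk]; exact Nat.le_mul_of_pos_right m (Nat.pos_of_ne_zero hk0)
    omega
  · left
    have h1 : n ≤ k := Nat.find_min' hex ⟨hk0, h⟩
    have h2 : m * k ≤ k := by rw [← hk]; exact h1
    have h3 : m ≤ 1 := by
      by_contra h4
      push Not at h4
      nlinarith [Nat.pos_of_ne_zero hk0]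
    omega

variable (K) (p : ℕ) [hp : Fact p.Prime]

/-- The polynomial of a primitive element over `ℚ_p`. -/
noncomputable def gpoly : ℚ_[p][X] :=
  (minpoly ℚ (Field.powerBasisOfFiniteOfSeparable ℚ K).gen).map (algebraMap ℚ ℚ_[p])

/-- The splitting field of the polynomial of a primitive element. -/
noncomputable def FF : IntermediateField ℚ_[p] (PadicAlgCl p) :=
  IntermediateField.adjoin ℚ_[p] ((gpoly K p).rootSet (PadicAlgCl p))

lemma gpoly_ne_zero : gpoly K p ≠ 0 := by
  rw [gpoly, Polynomial.map_ne_zero_iff (algebraMap ℚ ℚ_[p]).injective]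
  exact minpoly.ne_zero (Algebra.IsIntegral.isIntegral _)

lemma ff_finite : FiniteDimensional ℚ_[p] (FF K p) := by
  have : Finite ((gpoly K p).rootSet (PadicAlgCl p)) := by
    have := Polynomial.rootSet_finite (gpoly K p) (PadicAlgCl p)
    exact this.to_subtype
  exact IntermediateField.finiteDimensional_adjoin (fun x _ => Algebra.IsIntegral.isIntegral x)

lemma ff_normal : Normal ℚ_[p] (FF K p) := by
  have : IsSplittingField ℚ_[p] (FF K p) (gpoly K p) :=
    IntermediateField.adjoin_rootSet_isSplittingField (IsAlgClosed.splits _)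
  exact Normal.of_isSplittingField (gpoly K p)

variable {K p}

lemma mem_ff (σ : K →+* PadicAlgCl p) (x : K) : σ x ∈ FF K p := by
  set pb := Field.powerBasisOfFiniteOfSeparable ℚ K with hpb
  have hθ : σ pb.gen ∈ FF K p := by
    apply IntermediateField.subset_adjoin
    rw [Polynomial.mem_rootSet]
    refine ⟨gpoly_ne_zero K p, ?_⟩
    rw [gpoly, aeval_map_algebraMap]
    have h1 := minpoly.aeval ℚ pb.gen
    have h2 := congrArg (RingHom.equivRatAlgHom K (PadicAlgCl p) σ) h1
    rw [map_zero, ← Polynomial.aeval_algHom_apply] at h2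
    exact h2
  obtain ⟨f, hf⟩ := pb.exists_eq_aeval' x
  rw [hf, aeval_eq_sum_range, map_sum]
  refine sum_mem ?_
  intro i _
  rw [Algebra.smul_def, map_mul, map_pow]
  refine mul_mem ?_ (pow_mem hθ i)
  rw [eq_ratCast, map_ratCast]
  exact SubfieldClass.ratCast_mem _ _

/-- Restriction of an embedding to the splitting field. -/
noncomputable def lift (σ : K →+* PadicAlgCl p) : K →+* FF K p :=
  σ.codRestrict (FF K p) (mem_ff σ)

/-- Embeddings in the splitting field and in the algebraic closure. -/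
noncomputable def liftEquiv : (K →+* FF K p) ≃ (K →+* PadicAlgCl p) where
  toFun σ := ((FF K p).val : FF K p →+* PadicAlgCl p).comp σ
  invFun σ := lift σ
  left_inv σ := by
    ext x
    rfl
  right_inv σ := by
    ext x
    rfl

lemma liftEquiv_apply (σ : K →+* FF K p) (x : K) : liftEquiv σ x = (σ x : PadicAlgCl p) := rfl

/-- The normed field structure on the splitting field. -/
noncomputable instance instNNF : NontriviallyNormedField (FF K p) where
  toNormedField := inferInstance
  non_trivial := by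
    obtain ⟨x, hx⟩ := NontriviallyNormedField.non_trivial (α := ℚ_[p])
    refine ⟨algebraMap ℚ_[p] (FF K p) x, ?_⟩
    change 1 < ‖algebraMap ℚ_[p] (PadicAlgCl p) x‖
    rw [PadicAlgCl.norm_extends]
    exact hx

lemma ff_norm (z : FF K p) : ‖z‖ = ‖(z : PadicAlgCl p)‖ := rfl

noncomputable instance instNA : NormedAlgebra ℚ_[p] (FF K p) where
  norm_smul_le := by
    intro r x
    rw [ff_norm, ff_norm]
    exact norm_smul_le r (x : PadicAlgCl p)

lemma ff_spectral (z : FF K p) : ‖z‖ = spectralNorm ℚ_[p] (FF K p) z := by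
  rw [spectralNorm.eq_of_tower (L := PadicAlgCl p), ff_norm]
  rfl

lemma ff_norm_equiv (τ : FF K p ≃ₐ[ℚ_[p]] FF K p) (z : FF K p) : ‖τ z‖ = ‖z‖ := by
  rw [ff_spectral, ff_spectral]
  exact (spectralNorm_eq_of_equiv τ z).symm

lemma ff_span : Submodule.span ℚ_[p] {x : FF K p | IsAlgebraic ℚ x} = ⊤ := by
  rw [eq_top_iff]
  intro z _
  have hz : (z : PadicAlgCl p) ∈ Algebra.adjoin ℚ_[p] ((gpoly K p).rootSet (PadicAlgCl p)) := by
    rw [← IntermediateField.adjoin_toSubalgebra_of_isAlgebraic
      (fun x _ => Algebra.IsAlgebraic.isAlgebraic x)]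
    exact z.2
  rw [← Subalgebra.mem_toSubmodule, Algebra.adjoin_eq_span] at hz
  have hW : Submodule.span ℚ_[p] (Submonoid.closure ((gpoly K p).rootSet (PadicAlgCl p)) :
      Set (PadicAlgCl p)) ≤
      (Submodule.span ℚ_[p] {x : FF K p | IsAlgebraic ℚ x}).map (FF K p).val.toLinearMap := by
    rw [Submodule.span_le]
    intro s hs
    have h1 : s ∈ FF K p ∧ IsAlgebraic ℚ s := by
      refine Submonoid.closure_induction (motive := fun s _ => s ∈ FF K p ∧ IsAlgebraic ℚ s)
        ?_ ?_ ?_ hs
      · intro x hx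
        refine ⟨IntermediateField.subset_adjoin _ _ hx, ?_⟩
        rw [Polynomial.mem_rootSet, gpoly, aeval_map_algebraMap] at hx
        exact ⟨_, minpoly.ne_zero (Algebra.IsIntegral.isIntegral _), hx.2⟩
      · exact ⟨one_mem _, isAlgebraic_one⟩
      · intro x y _ _ hx hy
        exact ⟨mul_mem hx.1 hy.1, hx.2.mul hy.2⟩
    refine ⟨⟨s, h1.1⟩, Submodule.subset_span ?_, rfl⟩
    obtain ⟨q, hq0, hq⟩ := h1.2
    refine ⟨q, hq0, ?_⟩
    apply (FF K p).val.injective
    rw [map_zero, ← hq]
    rw [aeval_eq_sum_range, aeval_eq_sum_range, map_sum]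
    refine Finset.sum_congr rfl ?_
    intro i _
    rw [Algebra.smul_def, Algebra.smul_def, map_mul, map_pow]
    rw [eq_ratCast, eq_ratCast, map_ratCast]
    rfl
  obtain ⟨w, hw, hwz⟩ := hW hz
  have : w = z := Subtype.ext hwz
  rw [← this]
  exact hw

/-- LOCM -/
theorem locModel (K : Type) [Field K] [NumberField K] (v : FinitePlace K) :
    Nonempty (LocModel K v) := by
  classical
  set P := v.maximalIdeal with hPdef
  have hvP : FinitePlace.mk P = v := FinitePlace.mk_maximalIdeal v
  obtain ⟨p, hp, hpP⟩ := exists_prime_mem P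
  have : Fact p.Prime := ⟨hp⟩
  obtain ⟨n, hn0, ⟨σ₀, hσ₀⟩, hcard, hall⟩ := card_fiber (p := p) P hpP
  have hchar : CharZero (FF K p) := inferInstance
  have hfin : FiniteDimensional ℚ_[p] (FF K p) := ff_finite K p
  refine ⟨{
    p := p
    hp := ⟨hp⟩
    F := FF K p
    nnf := instNNF
    na := instNA
    fd := hfin
    cz := hchar
    ft := inferInstance
    span := ff_span
    card := ?_
    σ := lift σ₀
    n := n
    hn := hn0
    G := Finset.univ.filter (fun σ => qH (liftEquiv σ) = P)
    cardG := ?_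
    hv := ?_
    hG := ?_
    hG' := ?_ }⟩
  · rw [Fintype.card_congr (liftEquiv (K := K) (p := p)),
      Fintype.card_congr (RingHom.equivRatAlgHom K (PadicAlgCl p))]
    exact AlgHom.card ℚ K (PadicAlgCl p)
  · rw [← hcard, Nat.card_eq_fintype_card, Fintype.card_subtype]
    refine Finset.card_bij (fun σ _ => liftEquiv σ) ?_ ?_ ?_
    · intro σ hσ
      simpa using hσ
    · intro a _ b _ hab
      exact liftEquiv.injective hab
    · intro σ hσ
      refine ⟨liftEquiv.symm σ, ?_, by simp⟩
      simpa using hσ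
  · intro x
    rw [← hvP, hall σ₀ hσ₀ x]
    rfl
  · intro σ' hσ'
    have hσ'P : qH (liftEquiv σ') = P := by simpa using hσ'
    have hnorm : ∀ x : K, ‖σ₀ x‖ = ‖liftEquiv σ' x‖ := by
      intro x
      have h1 := hall σ₀ hσ₀ x
      have h2 := hall _ hσ'P x
      rw [h1] at h2
      exact (pow_left_inj₀ (norm_nonneg _) (norm_nonneg _) hn0).1 h2
    set pb := Field.powerBasisOfFiniteOfSeparable ℚ K with hpb
    have hconj := isConjRoot_of_norm_eq (fun x => (hnorm x).symm) pb.gen
    have hconj' : IsConjRoot ℚ_[p] (σ' pb.gen) (lift σ₀ pb.gen) := by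
      have e1 : minpoly ℚ_[p] (σ' pb.gen) = minpoly ℚ_[p] (liftEquiv σ' pb.gen) :=
        (IntermediateField.minpoly_eq (σ' pb.gen))
      have e2 : minpoly ℚ_[p] (lift σ₀ pb.gen) = minpoly ℚ_[p] (σ₀ pb.gen) :=
        (IntermediateField.minpoly_eq (lift σ₀ pb.gen))
      rw [IsConjRoot, e1, e2]
      exact hconj
    have := ff_normal K p
    obtain ⟨τ, hτ⟩ := isConjRoot_iff_exists_algEquiv.1 hconj'
    refine ⟨τ.toRingEquiv, fun z => ff_norm_equiv τ z, ?_⟩
    have h3 : RingHom.equivRatAlgHom K (FF K p) σ' = RingHom.equivRatAlgHom K (FF K p)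
        ((τ.toRingEquiv : FF K p →+* FF K p).comp (lift σ₀)) := by
      refine pb.algHom_ext ?_
      exact hτ.symm
    exact (RingHom.equivRatAlgHom K (FF K p)).injective h3
  · intro σ' hσ'
    have hσ'P : qH (liftEquiv σ') ≠ P := by simpa using hσ'
    obtain ⟨n', hn', h⟩ := exists_pow (liftEquiv σ')
    refine ⟨FinitePlace.mk (qH (liftEquiv σ')), n', ?_, hn', ?_⟩
    · intro heq
      rw [← hvP, FinitePlace.mk_eq_iff] at heq
      exact hσ'P heq
    · intro x
      rw [h x]
      rfl

end C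

end Pool.Agent.Helper85.Sub
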