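import Pool.Agent.Helper81.SubLOC

/-!
# Local expansions of arbitrary order at reduced isolated points, uniformly

Module SUBAPP-EXP (for helper10, MP_26d9ad_nt).
-/

set_option autoImplicit false
set_option linter.unusedSectionVars false

namespace Pool.Agent.Helper85.Sub

open Pool.Agent.Helper10.Sub Pool.Agent.Helper81.Sub MvPolynomial Filter Topology

section lip

variable {K : Type*} [Field K] {L : Type*} [NontriviallyNormedField L] [Algebra K L] {κ : Type*}
  [Fintype κ]

lemma coord_le {M : ℝ} {x : κ → L} (hx : ‖x‖ ≤ M) (i : κ) : ‖x i‖ ≤ M :=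
  (norm_le_pi_norm x i).trans hx

/-- a polynomial is bounded on balls -/
lemma bdd_ball (f : MvPolynomial κ K) (M : ℝ) :
    ∃ D : ℝ, 0 ≤ D ∧ ∀ x : κ → L, ‖x‖ ≤ M → ‖aeval x f‖ ≤ D := by
  induction f using MvPolynomial.induction_on with
  | C a => exact ⟨‖algebraMap K L a‖, norm_nonneg _, fun x _ => by rw [aeval_C]⟩
  | add f g hf hg =>
    obtain ⟨D, hD0, hD⟩ := hf
    obtain ⟨E, hE0, hE⟩ := hg
    refine ⟨D + E, by positivity, fun x hx => ?_⟩
    rw [map_add]
    exact (norm_add_le _ _).trans (add_le_add (hD x hx) (hE x hx))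
  | mul_X f i hf =>
    obtain ⟨D, hD0, hD⟩ := hf
    refine ⟨D * |M|, by positivity, fun x hx => ?_⟩
    rw [map_mul, aeval_X, norm_mul]
    exact mul_le_mul (hD x hx) ((coord_le hx i).trans (le_abs_self M)) (norm_nonneg _) hD0

/-- a polynomial is Lipschitz on balls -/
lemma lip_ball (f : MvPolynomial κ K) (M : ℝ) :
    ∃ D : ℝ, 0 ≤ D ∧ ∀ x y : κ → L, ‖x‖ ≤ M → ‖y‖ ≤ M →
      ‖aeval x f - aeval y f‖ ≤ D * ‖x - y‖ := by
  induction f using MvPolynomial.induction_on with
  | C a =>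
    refine ⟨0, le_refl _, fun x y _ _ => ?_⟩
    rw [aeval_C, aeval_C, sub_self, norm_zero, zero_mul]
  | add f g hf hg =>
    obtain ⟨D, hD0, hD⟩ := hf
    obtain ⟨E, hE0, hE⟩ := hg
    refine ⟨D + E, by positivity, fun x y hx hy => ?_⟩
    rw [map_add, map_add]
    have h1 : aeval x f + aeval x g - (aeval y f + aeval y g) =
        (aeval x f - aeval y f) + (aeval x g - aeval y g) := by ring
    rw [h1, add_mul]
    exact (norm_add_le _ _).trans (add_le_add (hD x y hx hy) (hE x y hx hy))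
  | mul_X f i hf =>
    obtain ⟨D, hD0, hD⟩ := hf
    obtain ⟨E, hE0, hE⟩ := bdd_ball (L := L) f M
    refine ⟨D * |M| + E, by positivity, fun x y hx hy => ?_⟩
    rw [map_mul, map_mul, aeval_X, aeval_X]
    have h1 : aeval x f * x i - aeval y f * y i =
        (aeval x f - aeval y f) * x i + aeval y f * (x - y) i := by
      rw [Pi.sub_apply]; ring
    rw [h1, add_mul]
    refine (norm_add_le _ _).trans (add_le_add ?_ ?_)
    · rw [norm_mul]
      calc ‖aeval x f - aeval y f‖ * ‖x i‖ ≤ (D * ‖x - y‖) * |M| :=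
            mul_le_mul (hD x y hx hy) ((coord_le hx i).trans (le_abs_self M)) (norm_nonneg _)
              (by positivity)
        _ = D * |M| * ‖x - y‖ := by ring
    · rw [norm_mul]
      exact mul_le_mul (hE y hy) (norm_le_pi_norm _ i) (norm_nonneg _) hE0

lemma dif_bound (f : MvPolynomial κ K) (A : κ → L) :
    ∃ D : ℝ, 0 ≤ D ∧ ∀ v : κ → L, ‖dif f A v‖ ≤ D * ‖v‖ := by
  refine ⟨∑ i, ‖aeval A (pderiv i f)‖, Finset.sum_nonneg fun _ _ => norm_nonneg _, fun v => ?_⟩
  unfold dif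
  refine (norm_sum_le _ _).trans ?_
  rw [Finset.sum_mul]
  refine Finset.sum_le_sum fun i _ => ?_
  rw [norm_mul]
  exact mul_le_mul_of_nonneg_left (norm_le_pi_norm v i) (norm_nonneg _)

/-- two point Taylor estimate on balls -/
lemma taylor_ball (f : MvPolynomial κ K) (A : κ → L) (M : ℝ) (hA : ‖A‖ ≤ M) :
    ∃ D : ℝ, 0 ≤ D ∧ ∀ x y : κ → L, ‖x‖ ≤ M → ‖y‖ ≤ M →
      ‖aeval x f - aeval y f - dif f A (x - y)‖ ≤ D * (‖x - A‖ + ‖y - A‖) * ‖x - y‖ := by
  classical
  induction f using MvPolynomial.induction_on with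
  | C a =>
    refine ⟨0, le_refl _, fun x y _ _ => ?_⟩
    rw [aeval_C, aeval_C, sub_self, dif_C, sub_zero, norm_zero, zero_mul, zero_mul]
  | add f g hf hg =>
    obtain ⟨D, hD0, hD⟩ := hf
    obtain ⟨E, hE0, hE⟩ := hg
    refine ⟨D + E, by positivity, fun x y hx hy => ?_⟩
    rw [map_add, map_add, dif_add]
    have h1 : aeval x f + aeval x g - (aeval y f + aeval y g) -
        (dif f A (x - y) + dif g A (x - y)) =
        (aeval x f - aeval y f - dif f A (x - y)) + (aeval x g - aeval y g - dif g A (x - y)) := by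
      ring
    rw [h1, add_mul, add_mul]
    exact (norm_add_le _ _).trans (add_le_add (hD x y hx hy) (hE x y hx hy))
  | mul_X f i hf =>
    obtain ⟨D, hD0, hD⟩ := hf
    obtain ⟨E, hE0, hE⟩ := lip_ball (L := L) f M
    obtain ⟨F, hF0, hF⟩ := dif_bound f A
    refine ⟨D * |M| + F + E, by positivity, fun x y hx hy => ?_⟩
    have h1 : aeval x (f * X i) - aeval y (f * X i) - dif (f * X i) A (x - y) =
        (aeval x f - aeval y f - dif f A (x - y)) * x i + dif f A (x - y) * (x - A) i +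
          (aeval y f - aeval A f) * (x - y) i := by
      rw [dif_mul_X, map_mul, map_mul, aeval_X, aeval_X, Pi.sub_apply, Pi.sub_apply]
      ring
    rw [h1]
    have hxy := norm_nonneg (x - y)
    have hxA := norm_nonneg (x - A)
    have hyA := norm_nonneg (y - A)
    have e1 : ‖(aeval x f - aeval y f - dif f A (x - y)) * x i‖ ≤
        D * |M| * (‖x - A‖ + ‖y - A‖) * ‖x - y‖ := by
      rw [norm_mul]
      calc ‖aeval x f - aeval y f - dif f A (x - y)‖ * ‖x i‖ ≤
            (D * (‖x - A‖ + ‖y - A‖) * ‖x - y‖) * |M| :=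
            mul_le_mul (hD x y hx hy) ((coord_le hx i).trans (le_abs_self M)) (norm_nonneg _)
              (by positivity)
        _ = D * |M| * (‖x - A‖ + ‖y - A‖) * ‖x - y‖ := by ring
    have e2 : ‖dif f A (x - y) * (x - A) i‖ ≤ F * (‖x - A‖ + ‖y - A‖) * ‖x - y‖ := by
      rw [norm_mul]
      calc ‖dif f A (x - y)‖ * ‖(x - A) i‖ ≤ (F * ‖x - y‖) * (‖x - A‖ + ‖y - A‖) :=
            mul_le_mul (hF _) ((norm_le_pi_norm _ i).trans (by linarith)) (norm_nonneg _)
              (by positivity)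
        _ = F * (‖x - A‖ + ‖y - A‖) * ‖x - y‖ := by ring
    have e3 : ‖(aeval y f - aeval A f) * (x - y) i‖ ≤ E * (‖x - A‖ + ‖y - A‖) * ‖x - y‖ := by
      rw [norm_mul]
      refine mul_le_mul ((hE y A hy hA).trans ?_) (norm_le_pi_norm _ i) (norm_nonneg _)
        (by positivity)
      exact mul_le_mul_of_nonneg_left (by linarith) hE0
    refine (norm_add_le _ _).trans ((add_le_add ((norm_add_le _ _).trans (add_le_add e1 e2))
      e3).trans ?_)
    apply le_of_eq
    ring

end lip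

section exp

variable {K : Type} [Field K] {L : Type} [NontriviallyNormedField L] [Algebra K L] {κ I : Type}
  [Fintype κ] [DecidableEq κ] [Fintype I] [DecidableEq I]

/-- the relation between `z` and `u` -/
def Rel (J : Set (MvPolynomial κ K)) (G : I → MvPolynomial κ K) (e : I → ℕ) (c : I → K) (j : κ)
    (z : κ → L) (u : I → L) : Prop :=
  z j = 1 ∧ OnV J z ∧ ∀ i, aeval z (G i) = algebraMap K L (c i) * u i ^ e i

lemma aeval_comp' {B : Type} [Field B] [Algebra K B] [Algebra B L] [IsScalarTower K B L]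
    (P : κ → MvPolynomial I B) (f : MvPolynomial κ K) (u : I → L) :
    aeval u (aeval P f) = aeval (fun k => aeval u (P k)) f := by
  have h := comp_aeval_apply (R := K) P ((aeval (R := B) u).restrictScalars K) f
  exact h

/-- each polynomial of `J ∪ range G` becomes a polynomial in `u` without constant term -/
lemma exists_T (J : Set (MvPolynomial κ K)) (G : I → MvPolynomial κ K) (e : I → ℕ)
    (he : ∀ i, 1 ≤ e i) (c : I → K) (j : κ) (f : MvPolynomial κ K) :
    ∃ T : MvPolynomial I (algebraicClosure K L), aeval (0 : I → L) T = 0 ∧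
      (f ∈ J ∪ Set.range G → ∀ (z : κ → L) (u : I → L), Rel J G e c j z u →
        aeval z f = aeval u T) := by
  by_cases hf : f ∈ J
  · refine ⟨0, by simp, fun _ z u h => ?_⟩
    rw [h.2.1 f hf, map_zero]
  · by_cases hf2 : f ∈ Set.range G
    · obtain ⟨i, hi⟩ := hf2
      refine ⟨C (algebraMap K _ (c i)) * X i ^ e i, ?_, fun _ z u h => ?_⟩
      · rw [map_mul, map_pow, aeval_X, Pi.zero_apply, zero_pow (by have := he i; omega), mul_zero]
      · rw [← hi, h.2.2 i, map_mul, map_pow, aeval_X, aeval_C, ← IsScalarTower.algebraMap_apply]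
    · refine ⟨0, by simp, fun h => ?_⟩
      rcases h with h | h
      · exact absurd h hf
      · exact absurd h hf2

/-- near a common zero -/
lemma local_exp [CharZero K] (J : Set (MvPolynomial κ K)) (G : I → MvPolynomial κ K) (e : I → ℕ)
    (he : ∀ i, 1 ≤ e i) (c : I → K) (hc : ∀ i, c i ≠ 0) (j : κ)
    (A : κ → L) (hA : A j = 1) (hOn : OnV (J ∪ Set.range G) A)
    (hJac : Jac (J ∪ Set.range G) A) :
    ∃ U ∈ 𝓝 A, ∀ m : ℕ, ∃ (D : ℝ) (P : κ → MvPolynomial I (algebraicClosure K L)), 0 ≤ D ∧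
      (∀ k, aeval (0 : I → L) (P k) = A k) ∧ P j = 1 ∧
      ∀ z ∈ U, ∀ u : I → L, Rel J G e c j z u → ∀ k,
        ‖z k - aeval u (P k)‖ ≤ D * ‖u‖ ^ (m + 1) := by
  classical
  have hc' : ∀ i, algebraMap K L (c i) ≠ 0 := fun i => by
    rw [Ne, map_eq_zero]; exact hc i
  obtain ⟨halg, hlin⟩ := Pool.Agent.Helper28.Sub.jac_alg (J ∪ Set.range G) A j hA hOn hJac
  choose s a hs ha hv using hlin
  choose T hT0 hT using exists_T (L := L) J G e he c j
  let ab : κ → MvPolynomial κ K → algebraicClosure K L := fun k f =>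
    ⟨a k f, mem_algebraicClosure_iff.2 (ha k f)⟩
  let Ab : κ → algebraicClosure K L := fun k => ⟨A k, mem_algebraicClosure_iff.2 (halg k)⟩
  have hab : ∀ k f, algebraMap (algebraicClosure K L) L (ab k f) = a k f := fun k f => rfl
  have hAb : ∀ k, algebraMap (algebraicClosure K L) L (Ab k) = A k := fun k => rfl
  -- Taylor constants
  let M : ℝ := ‖A‖ + 1
  have hAM : ‖A‖ ≤ M := by simp [M]
  -- the error functional
  have key : ∀ (M' : ℝ), ‖A‖ ≤ M' → ∃ D : ℝ, 0 ≤ D ∧ ∀ x y : κ → L, ‖x‖ ≤ M' → ‖y‖ ≤ M' →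
      x j = y j → ∀ k,
      ‖(x k - y k) - ∑ f ∈ s k, a k f * (aeval x f - aeval y f)‖ ≤
        D * (‖x - A‖ + ‖y - A‖) * ‖x - y‖ := by
    intro M' hM'
    choose D hD0 hD using fun f : MvPolynomial κ K => taylor_ball f A M' hM'
    refine ⟨∑ k, ∑ f ∈ s k, ‖a k f‖ * D f, Finset.sum_nonneg fun k _ => Finset.sum_nonneg
      fun f _ => mul_nonneg (norm_nonneg _) (hD0 f), ?_⟩
    intro x y hx hy hxy k
    have h1 := hv k (x - y)
    have h2 : (x - y) j = 0 := by rw [Pi.sub_apply, hxy, sub_self]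
    rw [h2, mul_zero, sub_zero, Pi.sub_apply] at h1
    rw [h1, ← Finset.sum_sub_distrib]
    have h3 : ∀ f ∈ s k, ‖a k f * dif f A (x - y) - a k f * (aeval x f - aeval y f)‖ ≤
        (‖a k f‖ * D f) * ((‖x - A‖ + ‖y - A‖) * ‖x - y‖) := by
      intro f _
      rw [← mul_sub, norm_mul, mul_assoc, norm_sub_rev]
      refine mul_le_mul_of_nonneg_left ?_ (norm_nonneg _)
      rw [← mul_assoc]
      exact hD f x y hx hy
    refine (norm_sum_le _ _).trans ((Finset.sum_le_sum h3).trans ?_)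
    rw [← Finset.sum_mul, mul_assoc]
    refine mul_le_mul_of_nonneg_right ?_ (by positivity)
    exact Finset.single_le_sum (f := fun k => ∑ f ∈ s k, ‖a k f‖ * D f)
      (fun k _ => Finset.sum_nonneg fun f _ => mul_nonneg (norm_nonneg _) (hD0 f))
      (Finset.mem_univ k)
  -- bound for polynomials in `u`
  have hTb : ∀ Q : MvPolynomial I (algebraicClosure K L), ∃ D : ℝ, 0 ≤ D ∧ ∀ u : I → L, ‖u‖ ≤ 1 →
      ‖aeval u Q - aeval (0 : I → L) Q‖ ≤ D * ‖u‖ := by
    intro Q
    obtain ⟨D, hD0, hD⟩ := lip_ball (L := L) Q 1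
    refine ⟨D, hD0, fun u hu => ?_⟩
    have := hD u 0 hu (by rw [norm_zero]; exact zero_le_one)
    rwa [sub_zero] at this
  obtain ⟨D₀, hD₀0, hD₀⟩ := key M hAM
  -- the neighbourhood
  have hG0 : ∀ i, aeval A (G i) = 0 := fun i => hOn (G i) (Or.inr ⟨i, rfl⟩)
  have hU1 : ∀ᶠ z in 𝓝 A, ∀ i, ‖aeval z (G i)‖ < ‖algebraMap K L (c i)‖ := by
    rw [eventually_all]
    intro i
    refine (isOpen_lt (continuous_aeval' (G i)).norm continuous_const).mem_nhds ?_
    show ‖aeval A (G i)‖ < ‖algebraMap K L (c i)‖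
    rw [hG0 i, norm_zero]
    exact norm_pos_iff.2 (hc' i)
  have hU2 : ∀ᶠ z in 𝓝 A, ‖z - A‖ < min 1 (1 / (2 * (D₀ + 1))) := by
    have hcn : Continuous fun z : κ → L => ‖z - A‖ := (continuous_id.sub continuous_const).norm
    refine (isOpen_lt hcn continuous_const).mem_nhds ?_
    show ‖A - A‖ < min 1 (1 / (2 * (D₀ + 1)))
    rw [sub_self, norm_zero]
    positivity
  refine ⟨_, hU1.and hU2, ?_⟩
  have hu1 : ∀ (z : κ → L) (u : I → L), (∀ i, ‖aeval z (G i)‖ < ‖algebraMap K L (c i)‖) →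
      Rel J G e c j z u → ‖u‖ ≤ 1 := by
    intro z u hz h
    rw [pi_norm_le_iff_of_nonneg zero_le_one]
    intro i
    refine norm_upper (algebraMap K L (c i)) (u i) (e i) (hc' i) ?_
    rw [← h.2.2 i]
    exact hz i
  have hzM : ∀ z : κ → L, ‖z - A‖ < min 1 (1 / (2 * (D₀ + 1))) → ‖z‖ ≤ M := by
    intro z hz
    have h1 : ‖z - A‖ < 1 := hz.trans_le (min_le_left _ _)
    have h2 : z = A + (z - A) := by ring
    have h3 : ‖z‖ ≤ ‖A‖ + ‖z - A‖ := by
      conv_lhs => rw [h2]
      exact norm_add_le _ _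
    show ‖z‖ ≤ ‖A‖ + 1
    linarith
  -- values of `f`
  have hfz : ∀ k, ∀ f ∈ s k, ∀ (z : κ → L) (u : I → L), Rel J G e c j z u →
      aeval z f = aeval u (T f) := fun k f hf z u h => hT f (hs k hf) z u h
  -- the first estimate
  have hbase : ∃ D₁ : ℝ, 0 ≤ D₁ ∧ ∀ z : κ → L, (∀ i, ‖aeval z (G i)‖ < ‖algebraMap K L (c i)‖) →
      ‖z - A‖ < min 1 (1 / (2 * (D₀ + 1))) → ∀ u : I → L, Rel J G e c j z u →
      ‖z - A‖ ≤ D₁ * ‖u‖ := by
    choose E hE0 hE using fun f : MvPolynomial κ K => hTb (T f)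
    let S : ℝ := ∑ k, ∑ f ∈ s k, ‖a k f‖ * E f
    have hS0 : 0 ≤ S := Finset.sum_nonneg fun k _ => Finset.sum_nonneg
      fun f _ => mul_nonneg (norm_nonneg _) (hE0 f)
    refine ⟨2 * S, by positivity, fun z hz1 hz2 u hrel => ?_⟩
    have hu := hu1 z u hz1 hrel
    have hzAj : z j = A j := by rw [hrel.1, hA]
    have h5 : ‖z - A‖ ≤ D₀ * ‖z - A‖ * ‖z - A‖ + S * ‖u‖ := by
      rw [pi_norm_le_iff_of_nonneg (by positivity)]
      intro k
      have h1 := hD₀ z A (hzM z hz2) hAM hzAj k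
      rw [sub_self A, norm_zero, add_zero] at h1
      have h2 : ‖∑ f ∈ s k, a k f * (aeval z f - aeval A f)‖ ≤ S * ‖u‖ := by
        have h3 : ∀ f ∈ s k, ‖a k f * (aeval z f - aeval A f)‖ ≤ (‖a k f‖ * E f) * ‖u‖ := by
          intro f hf
          rw [hOn f (hs k hf), sub_zero, norm_mul, mul_assoc]
          refine mul_le_mul_of_nonneg_left ?_ (norm_nonneg _)
          rw [hfz k f hf z u hrel]
          have h4 := hE f u hu
          rwa [hT0, sub_zero] at h4
        refine (norm_sum_le _ _).trans ((Finset.sum_le_sum h3).trans ?_)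
        rw [← Finset.sum_mul]
        refine mul_le_mul_of_nonneg_right ?_ (norm_nonneg _)
        exact Finset.single_le_sum (f := fun k => ∑ f ∈ s k, ‖a k f‖ * E f)
          (fun k _ => Finset.sum_nonneg fun f _ => mul_nonneg (norm_nonneg _) (hE0 f))
          (Finset.mem_univ k)
      have h3 : (z - A) k = ((z k - A k) - ∑ f ∈ s k, a k f * (aeval z f - aeval A f)) +
          ∑ f ∈ s k, a k f * (aeval z f - aeval A f) := by
        rw [Pi.sub_apply]; ring
      rw [h3]
      exact (norm_add_le _ _).trans (add_le_add h1 h2)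
    have h6 : D₀ * ‖z - A‖ ≤ 1 / 2 := by
      have h7 : ‖z - A‖ < 1 / (2 * (D₀ + 1)) := hz2.trans_le (min_le_right _ _)
      rw [lt_div_iff₀ (by positivity)] at h7
      nlinarith [norm_nonneg (z - A)]
    nlinarith [norm_nonneg (z - A)]
  obtain ⟨D₁, hD₁0, hD₁⟩ := hbase
  intro m
  induction m with
  | zero =>
    refine ⟨D₁, fun k => C (Ab k), hD₁0, fun k => ?_, ?_, ?_⟩
    · rw [aeval_C, hAb]
    · have : Ab j = 1 := Subtype.ext hA
      show C (Ab j) = 1
      rw [this, C_1]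
    · rintro z ⟨hz1, hz2⟩ u hrel k
      rw [aeval_C, hAb, zero_add, pow_one, ← Pi.sub_apply]
      exact (norm_le_pi_norm _ k).trans (hD₁ z hz1 hz2 u hrel)
  | succ m ih =>
    obtain ⟨D, P, hD0, hP0, hPj, hP⟩ := ih
    -- `P(u)` is close to `A`
    choose E hE0 hE using fun k : κ => hTb (P k)
    let S : ℝ := ∑ k, E k
    have hS0 : 0 ≤ S := Finset.sum_nonneg fun k _ => hE0 k
    have hPA : ∀ u : I → L, ‖u‖ ≤ 1 → ‖(fun k => aeval u (P k)) - A‖ ≤ S * ‖u‖ := by
      intro u hu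
      rw [pi_norm_le_iff_of_nonneg (by positivity)]
      intro k
      rw [Pi.sub_apply, ← hP0 k]
      refine (hE k u hu).trans (mul_le_mul_of_nonneg_right ?_ (norm_nonneg _))
      exact Finset.single_le_sum (f := E) (fun k _ => hE0 k) (Finset.mem_univ k)
    have hPM : ∀ u : I → L, ‖u‖ ≤ 1 → ‖(fun k => aeval u (P k) : κ → L)‖ ≤ M + S := by
      intro u hu
      have h1 := hPA u hu
      have h2 : (fun k => aeval u (P k)) = A + ((fun k => aeval u (P k)) - A) := by ring
      have h3 : ‖(fun k => aeval u (P k) : κ → L)‖ ≤ ‖A‖ + ‖(fun k => aeval u (P k)) - A‖ := by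
        conv_lhs => rw [h2]
        exact norm_add_le _ _
      have h4 : S * ‖u‖ ≤ S := by nlinarith
      show _ ≤ ‖A‖ + 1 + S
      linarith
    obtain ⟨D₂, hD₂0, hD₂⟩ := key (M + S) (by linarith)
    refine ⟨D₂ * (D₁ + S) * D, fun k => if k = j then 1 else P k + ∑ f ∈ s k,
      C (ab k f) * (T f - aeval P f), by positivity, ?_, by simp, ?_⟩
    · intro k
      by_cases hk : k = j
      · simp only [hk, if_true, map_one, hA]
      · simp only [hk, if_false]
        rw [map_add, hP0, map_sum]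
        have : ∀ f ∈ s k, aeval (0 : I → L) (C (ab k f) * (T f - aeval P f)) = 0 := by
          intro f hf
          rw [map_mul, map_sub, hT0, aeval_comp']
          have h1 : (fun k => aeval (0 : I → L) (P k)) = A := funext hP0
          rw [h1, hOn f (hs k hf), sub_self, mul_zero]
        rw [Finset.sum_eq_zero this, add_zero]
    · rintro z ⟨hz1, hz2⟩ u hrel k
      have hu := hu1 z u hz1 hrel
      have hzA := hD₁ z hz1 hz2 u hrel
      have hun := norm_nonneg u
      by_cases hk : k = j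
      · simp only [hk, if_true, map_one, hrel.1, sub_self, norm_zero]
        positivity
      · simp only [hk, if_false]
        let y : κ → L := fun k => aeval u (P k)
        have hyj : z j = y j := by
          show z j = aeval u (P j)
          rw [hPj, map_one, hrel.1]
        have h1 := hD₂ z y ((hzM z hz2).trans (by linarith)) (hPM u hu) hyj k
        have h2 : aeval u (P k + ∑ f ∈ s k, C (ab k f) * (T f - aeval P f)) =
            y k + ∑ f ∈ s k, a k f * (aeval z f - aeval y f) := by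
          rw [map_add, map_sum]
          congr 1
          refine Finset.sum_congr rfl fun f hf => ?_
          rw [map_mul, map_sub, aeval_C, hab, aeval_comp', hfz k f hf z u hrel]
        rw [h2, ← sub_sub]
        refine h1.trans ?_
        have h3 : ‖z - y‖ ≤ D * ‖u‖ ^ (m + 1) := by
          rw [pi_norm_le_iff_of_nonneg (by positivity)]
          intro k
          exact hP z ⟨hz1, hz2⟩ u hrel k
        have h4 : ‖z - A‖ + ‖y - A‖ ≤ (D₁ + S) * ‖u‖ := by
          rw [add_mul]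
          exact add_le_add hzA (hPA u hu)
        calc D₂ * (‖z - A‖ + ‖y - A‖) * ‖z - y‖
            ≤ D₂ * ((D₁ + S) * ‖u‖) * (D * ‖u‖ ^ (m + 1)) := by gcongr
          _ = D₂ * (D₁ + S) * D * ‖u‖ ^ (m + 1 + 1) := by ring

/-- near a point of `J` where one of the `G i` does not vanish -/
lemma away_exp (J : Set (MvPolynomial κ K)) (G : I → MvPolynomial κ K) (e : I → ℕ)
    (he : ∀ i, 1 ≤ e i) (c : I → K) (hc : ∀ i, c i ≠ 0) (j : κ) (R : ℝ) (m : ℕ)
    (z0 : κ → L) (i : I) (h : aeval z0 (G i) ≠ 0) :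
    ∃ U ∈ 𝓝 z0, ∃ D : ℝ, 0 ≤ D ∧ ∀ z ∈ U, ‖z‖ ≤ R → ∀ u : I → L, Rel J G e c j z u → ∀ k,
      ‖z k‖ ≤ D * ‖u‖ ^ (m + 1) := by
  have hci : algebraMap K L (c i) ≠ 0 := by
    rw [Ne, map_eq_zero]; exact hc i
  have h1 : 0 < ‖aeval z0 (G i)‖ := norm_pos_iff.2 h
  let η : ℝ := min 1 (‖aeval z0 (G i)‖ / 2 / ‖algebraMap K L (c i)‖)
  have hη : 0 < η := lt_min one_pos (div_pos (by linarith) (norm_pos_iff.2 hci))
  refine ⟨{z | ‖aeval z0 (G i)‖ / 2 < ‖aeval z (G i)‖},
    (isOpen_lt continuous_const (continuous_aeval' (G i)).norm).mem_nhds (by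
      show ‖aeval z0 (G i)‖ / 2 < ‖aeval z0 (G i)‖; linarith), |R| / η ^ (m + 1), by positivity, ?_⟩
  intro z hz hzR u hrel k
  have h2 : η ≤ ‖u‖ := by
    refine le_trans ?_ (norm_le_pi_norm u i)
    apply norm_lower (algebraMap K L (c i)) (u i) (e i) (he i) hci
    rw [← hrel.2.2 i]
    exact le_of_lt hz
  have h3 : η ^ (m + 1) ≤ ‖u‖ ^ (m + 1) := by gcongr
  calc ‖z k‖ ≤ |R| := (coord_le hzR k).trans (le_abs_self R)
    _ = |R| / η ^ (m + 1) * η ^ (m + 1) := by field_simp
    _ ≤ |R| / η ^ (m + 1) * ‖u‖ ^ (m + 1) := by gcongr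

end exp

/-- EXP -/
theorem expansion {K : Type} [Field K] [CharZero K] {L : Type} [NontriviallyNormedField L]
    [ProperSpace L] [Algebra K L]
    {κ I : Type} [Fintype κ] [DecidableEq κ] [Fintype I] [DecidableEq I]
    (J : Set (MvPolynomial κ K))
    (G : I → MvPolynomial κ K) (e : I → ℕ) (he : ∀ i, 1 ≤ e i) (c : I → K) (hc : ∀ i, c i ≠ 0)
    (hJac : ∀ A : κ → L, A ≠ 0 → OnV (J ∪ Set.range G) A → Jac (J ∪ Set.range G) A)
    (j : κ) (R : ℝ) (m : ℕ) :
    ∃ (C : ℝ) (Ty : Finset (κ → MvPolynomial I (algebraicClosure K L))), 0 < C ∧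
      ∀ z : κ → L, z j = 1 → ‖z‖ ≤ R → OnV J z → ∀ u : I → L,
        (∀ i, aeval z (G i) = algebraMap K L (c i) * u i ^ e i) →
        ∃ P ∈ Ty, ∀ k, ‖z k - aeval u (P k)‖ ≤ C * ‖u‖ ^ (m + 1) := by
  classical
  have hK : IsCompact (Metric.closedBall (0 : κ → L) R ∩ {z | z j = 1}) :=
    (isCompact_closedBall _ _).inter_right (isClosed_eq (continuous_apply j) continuous_const)
  have main := hK.induction_on (p := fun s => ∃ (C : ℝ)
      (Ty : Finset (κ → MvPolynomial I (algebraicClosure K L))), 0 < C ∧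
      ∀ z ∈ s, ‖z‖ ≤ R → ∀ u : I → L, Rel J G e c j z u →
        ∃ P ∈ Ty, ∀ k, ‖z k - aeval u (P k)‖ ≤ C * ‖u‖ ^ (m + 1))
    ⟨1, ∅, one_pos, fun z hz => absurd hz id⟩
    (fun s t hst ⟨C, Ty, h1, h2⟩ => ⟨C, Ty, h1, fun z hz => h2 z (hst hz)⟩)
    (fun s t ⟨C, Ty, h1, h2⟩ ⟨C', Ty', h1', h2'⟩ => by
      refine ⟨max C C', Ty ∪ Ty', lt_max_of_lt_left h1, ?_⟩
      intro z hz hzR u hrel
      rcases hz with hz | hz
      · obtain ⟨P, hP, hP'⟩ := h2 z hz hzR u hrel
        exact ⟨P, Finset.mem_union_left _ hP, fun k => (hP' k).trans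
          (mul_le_mul_of_nonneg_right (le_max_left _ _) (by positivity))⟩
      · obtain ⟨P, hP, hP'⟩ := h2' z hz hzR u hrel
        exact ⟨P, Finset.mem_union_right _ hP, fun k => (hP' k).trans
          (mul_le_mul_of_nonneg_right (le_max_right _ _) (by positivity))⟩)
    (by
      rintro z0 ⟨hz0n, hz0j⟩
      have hz0j' : z0 j = 1 := hz0j
      by_cases hJ0 : OnV J z0
      · by_cases hG : ∃ i, aeval z0 (G i) ≠ 0
        · obtain ⟨i, hi⟩ := hG
          obtain ⟨U, hU, D, hD0, hD⟩ := away_exp J G e he c hc j R m z0 i hi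
          refine ⟨U, mem_nhdsWithin_of_mem_nhds hU, D + 1, {fun _ => 0}, by positivity, ?_⟩
          intro z hz hzR u hrel
          refine ⟨_, Finset.mem_singleton_self _, fun k => ?_⟩
          rw [map_zero, sub_zero]
          refine (hD z hz hzR u hrel k).trans
            (mul_le_mul_of_nonneg_right (by linarith) (by positivity))
        · push Not at hG
          have hOn : OnV (J ∪ Set.range G) z0 := by
            intro f hf
            rcases hf with hf | ⟨i, hi⟩
            · exact hJ0 f hf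
            · rw [← hi]; exact hG i
          have hz00 : z0 ≠ 0 := by
            rintro rfl
            exact zero_ne_one hz0j'
          obtain ⟨U, hU, hUm⟩ := local_exp J G e he c hc j z0 hz0j' hOn (hJac z0 hz00 hOn)
          obtain ⟨D, P, hD0, -, -, hD⟩ := hUm m
          refine ⟨U, mem_nhdsWithin_of_mem_nhds hU, D + 1, {P}, by positivity, ?_⟩
          intro z hz _ u hrel
          refine ⟨_, Finset.mem_singleton_self _, fun k => ?_⟩
          exact (hD z hz u hrel k).trans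
            (mul_le_mul_of_nonneg_right (by linarith) (by positivity))
      · refine ⟨{z | OnV J z}ᶜ, mem_nhdsWithin_of_mem_nhds
          ((isClosed_onV J).isOpen_compl.mem_nhds hJ0), 1, ∅, one_pos, ?_⟩
        intro z hz _ u hrel
        exact absurd hrel.2.1 hz)
  obtain ⟨C, Ty, h1, h2⟩ := main
  refine ⟨C, Ty, h1, fun z hzj hzR hzJ u hu => h2 z ⟨?_, hzj⟩ hzR u ⟨hzj, hzJ, hu⟩⟩
  rwa [mem_closedBall_zero_iff]

end Pool.Agent.Helper85.Sub

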