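import Pool.Agent.Helper65.Clique.Defs

/-!
# Maker's greedy strategy in the `(m : m)` clique game: rounds, potentials
-/

set_option autoImplicit false

namespace Pool.Agent.Helper85.CliqueLB

open Pool.Agent.Helper65.CliqueGame
open scoped Classical

/-! ### General facts on the game -/

section game
variable {n m q : ℕ}

lemma mem_free {M B : Finset (Sym2 (Fin n))} {e : Sym2 (Fin n)} :
    e ∈ free M B ↔ ¬ e.IsDiag ∧ e ∉ M ∧ e ∉ B := by
  simp [free, edges]

lemma exists_legal (m : ℕ) (M B D : Finset (Sym2 (Fin n))) (hD : D ⊆ free M B)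
    (hDc : D.card ≤ m) : ∃ S, D ⊆ S ∧ Legal m M B S := by
  have h1 : D.card ≤ min m (free M B).card := le_min hDc (Finset.card_le_card hD)
  obtain ⟨S, hDS, hS, hc⟩ := Finset.exists_subsuperset_card_eq hD h1 (min_le_right _ _)
  exact ⟨S, hDS, hS, hc⟩

lemma HasClique.mono {M M' : Finset (Sym2 (Fin n))} (h : M ⊆ M') (hc : HasClique q M) :
    HasClique q M' := by
  obtain ⟨A, hA, hA2⟩ := hc
  exact ⟨A, hA, fun u hu v hv huv => h (hA2 u hu v hv huv)⟩

lemma free_card_lt (hm : 1 ≤ m) {M B S M' B' : Finset (Sym2 (Fin n))}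
    (hne : free M B ≠ ∅) (hS : Legal m M B S) (h : M' ∪ B' = (M ∪ B) ∪ S) :
    (free M' B').card < (free M B).card := by
  apply Finset.card_lt_card
  have hSne : S.Nonempty := by
    rw [← Finset.card_pos, hS.2]
    exact lt_min hm (Finset.card_pos.2 (Finset.nonempty_iff_ne_empty.2 hne))
  obtain ⟨e, he⟩ := hSne
  rw [Finset.ssubset_iff_of_subset]
  · refine ⟨e, hS.1 he, ?_⟩
    intro hcon
    unfold free at hcon
    rw [h, Finset.mem_sdiff] at hcon
    exact hcon.2 (Finset.mem_union_right _ he)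
  · unfold free
    rw [h]
    intro x hx
    rw [Finset.mem_sdiff, Finset.mem_union] at hx
    rw [Finset.mem_sdiff]
    exact ⟨hx.1, fun h => hx.2 (Or.inl h)⟩

/-- Once Maker has the clique, he wins. -/
lemma wins_of_clique (hm : 1 ≤ m) : ∀ (k : ℕ) (t : Bool) (M B : Finset (Sym2 (Fin n))),
    (free M B).card ≤ k → HasClique q M → MakerWins n m q t M B := by
  intro k
  induction k with
  | zero =>
    intro t M B hk hc
    refine MakerWins.finish t M B ?_ hc
    exact Finset.card_eq_zero.1 (Nat.le_zero.1 hk)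
  | succ k ih =>
    intro t M B hk hc
    by_cases hne : free M B = ∅
    · exact MakerWins.finish t M B hne hc
    cases t with
    | true =>
      obtain ⟨S, _, hS⟩ := exists_legal m M B ∅ (Finset.empty_subset _) (by simp)
      refine MakerWins.maker M B S hne hS (ih _ _ _ ?_ (HasClique.mono Finset.subset_union_left hc))
      have := free_card_lt hm hne hS (M' := M ∪ S) (B' := B) (by
        ext e; simp only [Finset.mem_union]; tauto)
      omega
    | false =>
      refine MakerWins.breaker M B hne (fun S hS => ih _ _ _ ?_ hc)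
      have := free_card_lt hm hne hS (M' := M) (B' := B ∪ S) (by
        ext e; simp only [Finset.mem_union]; tauto)
      omega

/-- One round: Maker claims the wanted edges `D`, Breaker answers. -/
lemma round {M B D : Finset (Sym2 (Fin n))} (hMB : Disjoint M B)
    (hB : B ⊆ edges n) (hD : D ⊆ free M B) (hDne : D.Nonempty) (hDc : D.card ≤ m)
    (h : ∀ M' B', M ∪ D ⊆ M' → B ⊆ B' → Disjoint M' B' → B' ⊆ edges n → (B' \ B).card ≤ m →
      MakerWins n m q true M' B') : MakerWins n m q true M B := by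
  obtain ⟨S, hDS, hS⟩ := exists_legal m M B D hD hDc
  have hne : free M B ≠ ∅ := by
    intro h0
    rw [h0] at hD
    exact hDne.ne_empty (Finset.subset_empty.1 hD)
  have hMD : M ∪ D ⊆ M ∪ S := Finset.union_subset_union_right hDS
  have hdis : Disjoint (M ∪ S) B := by
    rw [Finset.disjoint_union_left]
    refine ⟨hMB, ?_⟩
    rw [Finset.disjoint_left]
    intro e he
    exact (mem_free.1 (hS.1 he)).2.2
  refine MakerWins.maker M B S hne hS ?_
  by_cases hf : free (M ∪ S) B = ∅
  · have h1 := h (M ∪ S) B hMD (Finset.Subset.refl _) hdis hB (by simp)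
    refine MakerWins.finish _ _ _ hf ?_
    cases h1 with
    | finish _ _ _ _ hc => exact hc
    | maker _ _ _ hne' _ _ => exact absurd hf hne'
  · refine MakerWins.breaker _ _ hf (fun S' hS' => ?_)
    refine h (M ∪ S) (B ∪ S') hMD Finset.subset_union_left ?_ ?_ ?_
    · rw [Finset.disjoint_union_right]
      refine ⟨hdis, ?_⟩
      rw [Finset.disjoint_right]
      intro e he
      exact (mem_free.1 (hS'.1 he)).2.1
    · refine Finset.union_subset hB ?_
      intro e he
      have := hS'.1 he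
      unfold free at this
      exact (Finset.mem_sdiff.1 this).1
    · calc ((B ∪ S') \ B).card ≤ S'.card := by
            apply Finset.card_le_card
            intro e he
            rw [Finset.mem_sdiff, Finset.mem_union] at he
            exact he.1.resolve_left he.2
        _ ≤ m := by rw [hS'.2]; exact min_le_left _ _

lemma not_diag_of_mem {B : Finset (Sym2 (Fin n))} (hB : B ⊆ edges n) {x y : Fin n}
    (h : s(x, y) ∈ B) : x ≠ y := by
  have := hB h
  unfold edges at this
  rw [Finset.mem_filter] at this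
  simpa using this.2

end game

/-! ### The potential -/

section pot
variable {n : ℕ}

/-- indicator of Breaker's edges -/
noncomputable def bt (B : Finset (Sym2 (Fin n))) (x y : Fin n) : ℝ := if s(x, y) ∈ B then 1 else 0

lemma bt_comm (B : Finset (Sym2 (Fin n))) (x y : Fin n) : bt B x y = bt B y x := by
  unfold bt; rw [Sym2.eq_swap]

lemma bt_nonneg (B : Finset (Sym2 (Fin n))) (x y : Fin n) : 0 ≤ bt B x y := by
  unfold bt; split_ifs <;> norm_num

lemma bt_le_one (B : Finset (Sym2 (Fin n))) (x y : Fin n) : bt B x y ≤ 1 := by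
  unfold bt; split_ifs <;> norm_num

lemma bt_mono {B B' : Finset (Sym2 (Fin n))} (h : B ⊆ B') (x y : Fin n) : bt B x y ≤ bt B' x y := by
  unfold bt
  by_cases h1 : s(x, y) ∈ B
  · rw [if_pos h1, if_pos (h h1)]
  · rw [if_neg h1]; split_ifs <;> norm_num

lemma bt_self {B : Finset (Sym2 (Fin n))} (hB : B ⊆ edges n) (x : Fin n) : bt B x x = 0 := by
  unfold bt
  rw [if_neg]
  intro h
  exact not_diag_of_mem hB h rfl

/-- weighted degree -/
noncomputable def dd (B : Finset (Sym2 (Fin n))) (ω : Fin n → ℝ) (x : Fin n) : ℝ :=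
  ∑ y, bt B x y * ω y

/-- weighted number of ordered Breaker pairs -/
noncomputable def EE (B : Finset (Sym2 (Fin n))) (ω : Fin n → ℝ) : ℝ := ∑ x, ω x * dd B ω x

/-- the potential -/
noncomputable def Psi (μ : ℝ) (B : Finset (Sym2 (Fin n))) (ω : Fin n → ℝ) : ℝ :=
  ∑ x, ω x - μ * EE B ω

/-- indicator function of a set -/
noncomputable def ind (C : Finset (Fin n)) (x : Fin n) : ℝ := if x ∈ C then 1 else 0

/-- weights: `1` on `T`, `p` on `R` -/
noncomputable def om (p : ℝ) (T R : Finset (Fin n)) (x : Fin n) : ℝ := ind T x + p * ind R x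

lemma ind_nonneg (C : Finset (Fin n)) (x : Fin n) : 0 ≤ ind C x := by
  unfold ind; split_ifs <;> norm_num

lemma ind_le_one (C : Finset (Fin n)) (x : Fin n) : ind C x ≤ 1 := by
  unfold ind; split_ifs <;> norm_num

lemma sum_ind (C : Finset (Fin n)) : ∑ x, ind C x = C.card := by
  unfold ind
  rw [Finset.sum_ite_mem, Finset.univ_inter, Finset.sum_const, nsmul_eq_mul, mul_one]

lemma sum_ind_mul (C : Finset (Fin n)) (f : Fin n → ℝ) : ∑ x, ind C x * f x = ∑ x ∈ C, f x := by
  unfold ind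
  simp only [ite_mul, one_mul, zero_mul]
  rw [Finset.sum_ite_mem, Finset.univ_inter]

lemma om_empty (p : ℝ) (T : Finset (Fin n)) : om p T ∅ = ind T := by
  funext x; simp [om, ind]

lemma dd_mono {B B' : Finset (Sym2 (Fin n))} (hB : B ⊆ B') {ω ω' : Fin n → ℝ}
    (h0 : ∀ x, 0 ≤ ω x) (h : ∀ x, ω x ≤ ω' x) (x : Fin n) : dd B ω x ≤ dd B' ω' x := by
  unfold dd
  refine Finset.sum_le_sum (fun y _ => ?_)
  exact mul_le_mul (bt_mono hB x y) (h y) (h0 y) (bt_nonneg _ _ _)

lemma dd_nonneg (B : Finset (Sym2 (Fin n))) {ω : Fin n → ℝ} (h0 : ∀ x, 0 ≤ ω x) (x : Fin n) :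
    0 ≤ dd B ω x :=
  Finset.sum_nonneg (fun y _ => mul_nonneg (bt_nonneg _ _ _) (h0 y))

lemma EE_add (B : Finset (Sym2 (Fin n))) (ω δ : Fin n → ℝ) :
    EE B (fun x => ω x + δ x) = EE B ω + 2 * ∑ x, δ x * dd B ω x + EE B δ := by
  have h1 : ∀ x, dd B (fun x => ω x + δ x) x = dd B ω x + dd B δ x := by
    intro x
    unfold dd
    rw [← Finset.sum_add_distrib]
    exact Finset.sum_congr rfl (fun y _ => by ring)
  have h2 : ∑ x, ω x * dd B δ x = ∑ x, δ x * dd B ω x := by
    unfold dd
    simp only [Finset.mul_sum]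
    rw [Finset.sum_comm]
    refine Finset.sum_congr rfl (fun y _ => Finset.sum_congr rfl (fun x _ => ?_))
    rw [bt_comm B x y]; ring
  unfold EE
  simp only [h1]
  have h3 : ∀ x, (ω x + δ x) * (dd B ω x + dd B δ x)
      = ω x * dd B ω x + ω x * dd B δ x + δ x * dd B ω x + δ x * dd B δ x := by
    intro x; ring
  simp only [h3, Finset.sum_add_distrib]
  rw [h2]; ring

lemma Psi_add (μ : ℝ) (B : Finset (Sym2 (Fin n))) (ω δ : Fin n → ℝ) :
    Psi μ B (fun x => ω x + δ x)
      = Psi μ B ω + ∑ x, δ x * (1 - 2 * μ * dd B ω x) - μ * EE B δ := by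
  unfold Psi
  rw [EE_add, Finset.sum_add_distrib]
  have : ∑ x, δ x * (1 - 2 * μ * dd B ω x) = ∑ x, δ x - 2 * μ * ∑ x, δ x * dd B ω x := by
    rw [Finset.mul_sum, ← Finset.sum_sub_distrib]
    exact Finset.sum_congr rfl (fun x _ => by ring)
  rw [this]; ring

/-- changing one weight -/
lemma Psi_single {μ : ℝ} {B : Finset (Sym2 (Fin n))} (hB : B ⊆ edges n) (ω : Fin n → ℝ)
    (w : Fin n) (c : ℝ) :
    Psi μ B (fun x => ω x + c * ind {w} x) = Psi μ B ω + c * (1 - 2 * μ * dd B ω w) := by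
  rw [Psi_add]
  have h1 : ∑ x, c * ind {w} x * (1 - 2 * μ * dd B ω x) = c * (1 - 2 * μ * dd B ω w) := by
    simp only [mul_assoc]
    rw [← Finset.mul_sum, sum_ind_mul, Finset.sum_singleton]
  have h2 : EE B (fun x => c * ind {w} x) = 0 := by
    unfold EE
    have h3 : ∀ x, c * ind {w} x * dd B (fun x => c * ind {w} x) x
        = c * (ind {w} x * dd B (fun x => c * ind {w} x) x) := by intro x; ring
    simp only [h3]
    rw [← Finset.mul_sum, sum_ind_mul, Finset.sum_singleton]
    unfold dd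
    have h4 : ∀ y, bt B w y * (c * ind {w} y) = c * (ind {w} y * bt B w y) := by intro y; ring
    simp only [h4]
    rw [← Finset.mul_sum, sum_ind_mul, Finset.sum_singleton, bt_self hB]
    ring
  rw [h1, h2]; ring

lemma EE_ind_le (B : Finset (Sym2 (Fin n))) (W : Finset (Fin n)) (p : ℝ) :
    EE B (fun x => p * ind W x) ≤ p ^ 2 * (W.card : ℝ) ^ 2 := by
  have h1 : EE B (fun x => p * ind W x) = p ^ 2 * ∑ x ∈ W, ∑ y ∈ W, bt B x y := by
    unfold EE dd
    have h3 : ∀ x, p * ind W x * ∑ y, bt B x y * (p * ind W y)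
        = p ^ 2 * (ind W x * ∑ y ∈ W, bt B x y) := by
      intro x
      have h4 : ∑ y ∈ W, bt B x y = ∑ y, ind W y * bt B x y := (sum_ind_mul W _).symm
      rw [h4, Finset.mul_sum, Finset.mul_sum, Finset.mul_sum]
      refine Finset.sum_congr rfl (fun y _ => ?_)
      ring
    simp only [h3]
    rw [← Finset.mul_sum, sum_ind_mul]
  rw [h1]
  refine mul_le_mul_of_nonneg_left ?_ (sq_nonneg p)
  calc ∑ x ∈ W, ∑ y ∈ W, bt B x y ≤ ∑ x ∈ W, ∑ y ∈ W, (1 : ℝ) :=
        Finset.sum_le_sum (fun x _ => Finset.sum_le_sum (fun y _ => bt_le_one _ _ _))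
    _ = (W.card : ℝ) ^ 2 := by
        simp only [Finset.sum_const, nsmul_eq_mul, mul_one]; ring

/-- removing a set of vertices of weight `p` -/
lemma Psi_remove {μ p s : ℝ} (hμ : 0 ≤ μ) (hp : 0 ≤ p) {B : Finset (Sym2 (Fin n))}
    (ω : Fin n → ℝ) (W : Finset (Fin n)) (hs : ∀ w ∈ W, 1 - 2 * μ * dd B ω w ≤ s) :
    Psi μ B ω - p * s * W.card - μ * (p ^ 2 * (W.card : ℝ) ^ 2)
      ≤ Psi μ B (fun x => ω x + (-p) * ind W x) := by
  rw [Psi_add]
  have h1 : ∑ x, -p * ind W x * (1 - 2 * μ * dd B ω x)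
      = -p * ∑ x ∈ W, (1 - 2 * μ * dd B ω x) := by
    simp only [mul_assoc]
    rw [← Finset.mul_sum, sum_ind_mul]
  have h2 : ∑ x ∈ W, (1 - 2 * μ * dd B ω x) ≤ W.card * s := by
    rw [← nsmul_eq_mul]
    exact Finset.sum_le_card_nsmul _ _ _ hs
  have h3 := EE_ind_le B W (-p)
  rw [neg_sq] at h3
  rw [h1]
  nlinarith [mul_le_mul_of_nonneg_left h2 hp, mul_le_mul_of_nonneg_left h3 hμ]

/-- ordered pairs of a set of edges -/
lemma pairs_card (F : Finset (Sym2 (Fin n))) :
    ((Finset.univ : Finset (Fin n × Fin n)).filter (fun z => s(z.1, z.2) ∈ F)).card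
      ≤ 2 * F.card := by
  have h := Finset.card_le_mul_card_image_of_maps_to
    (s := (Finset.univ : Finset (Fin n × Fin n)).filter (fun z => s(z.1, z.2) ∈ F))
    (t := F) (f := fun z : Fin n × Fin n => s(z.1, z.2)) ?_ 2 ?_
  · exact h
  · intro z hz
    exact (Finset.mem_filter.1 hz).2
  · intro e _
    induction e with
    | h a b =>
      refine (Finset.card_le_card (t := {(a, b), (b, a)}) ?_).trans Finset.card_le_two
      intro z hz
      rw [Finset.mem_filter] at hz
      have := hz.2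
      rw [Sym2.eq_iff] at this
      rw [Finset.mem_insert, Finset.mem_singleton, Prod.ext_iff, Prod.ext_iff]
      exact this

/-- new Breaker edges -/
lemma EE_new {B B' F : Finset (Sym2 (Fin n))} {ω : Fin n → ℝ}
    (h0 : ∀ x, 0 ≤ ω x) (h1 : ∀ x, ω x ≤ 1)
    (hF : ∀ x y, s(x, y) ∈ B' → s(x, y) ∉ B → s(x, y) ∉ F → ω x * ω y = 0) :
    EE B' ω ≤ EE B ω + 2 * F.card := by
  have hpt : ∀ x y, bt B' x y * (ω x * ω y) ≤ bt B x y * (ω x * ω y) + bt F x y := by
    intro x y
    have hω : 0 ≤ ω x * ω y := mul_nonneg (h0 x) (h0 y)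
    have hω1 : ω x * ω y ≤ 1 := mul_le_one₀ (h1 x) (h0 y) (h1 y)
    unfold bt
    by_cases hB' : s(x, y) ∈ B'
    · by_cases hB : s(x, y) ∈ B
      · rw [if_pos hB', if_pos hB]
        split_ifs <;> linarith
      · by_cases hFF : s(x, y) ∈ F
        · rw [if_pos hB', if_neg hB, if_pos hFF]; linarith
        · rw [hF x y hB' hB hFF]
          rw [if_neg hFF]; simp
    · rw [if_neg hB']
      split_ifs <;> linarith
  have hE : ∀ B : Finset (Sym2 (Fin n)), EE B ω = ∑ x, ∑ y, bt B x y * (ω x * ω y) := by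
    intro B
    unfold EE dd
    refine Finset.sum_congr rfl (fun x _ => ?_)
    rw [Finset.mul_sum]
    exact Finset.sum_congr rfl (fun y _ => by ring)
  have hsum : ∑ x, ∑ y, bt F x y ≤ 2 * F.card := by
    have : ∑ x, ∑ y, bt F x y
        = (((Finset.univ : Finset (Fin n × Fin n)).filter (fun z => s(z.1, z.2) ∈ F)).card : ℝ) := by
      rw [← Finset.sum_product', Finset.univ_product_univ]
      unfold bt
      rw [Finset.sum_boole]
    rw [this]
    exact_mod_cast pairs_card F
  rw [hE, hE]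
  calc ∑ x, ∑ y, bt B' x y * (ω x * ω y)
      ≤ ∑ x, ∑ y, (bt B x y * (ω x * ω y) + bt F x y) :=
        Finset.sum_le_sum (fun x _ => Finset.sum_le_sum (fun y _ => hpt x y))
    _ = ∑ x, ∑ y, bt B x y * (ω x * ω y) + ∑ x, ∑ y, bt F x y := by
        simp only [Finset.sum_add_distrib]
    _ ≤ _ := by linarith

lemma om_nonneg {p : ℝ} (hp : 0 ≤ p) (T R : Finset (Fin n)) (x : Fin n) : 0 ≤ om p T R x := by
  unfold om
  have := ind_nonneg T x
  have := mul_nonneg hp (ind_nonneg R x)
  linarith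

lemma om_le_one {p : ℝ} (hp1 : p ≤ 1) {T R : Finset (Fin n)} (hTR : Disjoint T R)
    (x : Fin n) : om p T R x ≤ 1 := by
  unfold om ind
  by_cases h1 : x ∈ T
  · have h2 : x ∉ R := Finset.disjoint_left.1 hTR h1
    rw [if_pos h1, if_neg h2]; linarith
  · rw [if_neg h1]
    split_ifs <;> linarith

/-- the effect of one full round of the doubling phase -/
lemma step {m : ℕ} {μ p : ℝ} (hμ : 0 ≤ μ) (hp : p = 1 / (m + 1))
    {B B' : Finset (Sym2 (Fin n))} {T R G : Finset (Fin n)} {w : Fin n}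
    (hB : B ⊆ edges n) (hTR : Disjoint T R) (hGT : ∀ g ∈ G, g ∉ T)
    (hGR : ∀ g ∈ G, g ∉ R) (hw : w ∈ R)
    (hmax : ∀ w' ∈ R, 1 - 2 * μ * dd B (om p T R) w' ≤ 1 - 2 * μ * dd B (om p T R) w)
    (hs : 0 ≤ 1 - 2 * μ * dd B (om p T R) w)
    (hBB : B ⊆ B') (hfree : ∀ w' ∈ R, ∀ g ∈ G, s(g, w') ∉ B) (hcard : (B' \ B).card ≤ m) :
    Psi μ B (om p T R) - 2 * μ * m
      ≤ Psi μ B' (om p (insert w T)
          ((R.erase w).filter (fun w' => ∀ g ∈ G, s(g, w') ∉ B'))) := by
  set s : ℝ := 1 - 2 * μ * dd B (om p T R) w with hsdef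
  have hm0 : (0 : ℝ) < (m : ℝ) + 1 := by positivity
  have hp0 : 0 < p := by rw [hp]; positivity
  have hp1 : p ≤ 1 := by
    rw [hp, div_le_one hm0]
    have : (0 : ℝ) ≤ m := Nat.cast_nonneg m
    linarith
  have hpm : 1 - p = m * p := by rw [hp]; field_simp; ring
  have hwT : w ∉ T := Finset.disjoint_right.1 hTR hw
  -- first change
  have e1 : om p (insert w T) (R.erase w) = fun x => om p T R x + (1 - p) * ind {w} x := by
    funext x
    unfold om ind
    by_cases hx : x = w
    · subst hx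
      simp [hwT, hw]
    · simp [hx]
  have p1 : Psi μ B (om p (insert w T) (R.erase w)) = Psi μ B (om p T R) + (1 - p) * s := by
    rw [e1, Psi_single hB]
  have hTR' : Disjoint (insert w T) (R.erase w) := by
    rw [Finset.disjoint_left]
    intro x hx hx2
    rcases Finset.mem_insert.1 hx with rfl | hx
    · exact (Finset.notMem_erase _ _) hx2
    · exact Finset.disjoint_left.1 hTR hx (Finset.mem_of_mem_erase hx2)
  -- new Breaker edges
  set F := B' \ B with hF
  set FG := F.filter (fun e => ∃ g ∈ G, g ∈ e) with hFG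
  set F0 := F.filter (fun e => ¬ ∃ g ∈ G, g ∈ e) with hF0
  have hcF : FG.card + F0.card = F.card := Finset.card_filter_add_card_filter_not _
  have hwG : w ∉ G := fun h => hGR w h hw
  have hom0 : ∀ g ∈ G, om p (insert w T) (R.erase w) g = 0 := by
    intro g hg
    have h1 : g ∉ insert w T := by
      rw [Finset.mem_insert]
      rintro (rfl | h)
      · exact hwG hg
      · exact hGT g hg h
    have h2 : g ∉ R.erase w := fun h => hGR g hg (Finset.mem_of_mem_erase h)
    simp only [om, ind, if_neg h1, if_neg h2]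
    ring
  have p2 : EE B' (om p (insert w T) (R.erase w))
      ≤ EE B (om p (insert w T) (R.erase w)) + 2 * F0.card := by
    refine EE_new (om_nonneg hp0.le _ _) (om_le_one hp1 hTR') ?_
    intro x y h1 h2 h3
    have h4 : ∃ g ∈ G, g ∈ s(x, y) := by
      by_contra hcon
      apply h3
      rw [hF0, Finset.mem_filter, hF, Finset.mem_sdiff]
      exact ⟨⟨h1, h2⟩, hcon⟩
    obtain ⟨g, hg, hgxy⟩ := h4
    rw [Sym2.mem_iff] at hgxy
    rcases hgxy with rfl | rfl
    · rw [hom0 _ hg, zero_mul]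
    · rw [hom0 _ hg, mul_zero]
  have p2' : Psi μ B (om p (insert w T) (R.erase w)) - 2 * μ * F0.card
      ≤ Psi μ B' (om p (insert w T) (R.erase w)) := by
    unfold Psi
    nlinarith [mul_le_mul_of_nonneg_left p2 hμ]
  -- removed vertices
  set W := (R.erase w).filter (fun w' => ¬ ∀ g ∈ G, s(g, w') ∉ B') with hW
  set R' := (R.erase w).filter (fun w' => ∀ g ∈ G, s(g, w') ∉ B') with hR'
  have e3 : om p (insert w T) R' = fun x => om p (insert w T) (R.erase w) x + (-p) * ind W x := by
    funext x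
    unfold om ind
    by_cases hx : x ∈ R.erase w
    · by_cases hx2 : ∀ g ∈ G, s(g, x) ∉ B'
      · have h1 : x ∈ R' := by rw [hR', Finset.mem_filter]; exact ⟨hx, hx2⟩
        have h2 : x ∉ W := by
          rw [hW, Finset.mem_filter]
          rintro ⟨_, h⟩
          exact h hx2
        rw [if_pos h1, if_pos hx, if_neg h2]; ring
      · have h1 : x ∉ R' := by
          rw [hR', Finset.mem_filter]
          rintro ⟨_, h⟩
          exact hx2 h
        have h2 : x ∈ W := by rw [hW, Finset.mem_filter]; exact ⟨hx, hx2⟩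
        rw [if_neg h1, if_pos hx, if_pos h2]; ring
    · have h1 : x ∉ R' := by
        rw [hR', Finset.mem_filter]
        rintro ⟨h, _⟩
        exact hx h
      have h2 : x ∉ W := by
        rw [hW, Finset.mem_filter]
        rintro ⟨h, _⟩
        exact hx h
      rw [if_neg h1, if_neg hx, if_neg h2]; ring
  have hWs : ∀ w' ∈ W, 1 - 2 * μ * dd B' (om p (insert w T) (R.erase w)) w' ≤ s := by
    intro w' hw'
    have hw'R : w' ∈ R := Finset.mem_of_mem_erase (Finset.mem_filter.1 hw').1
    have h1 := hmax w' hw'R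
    have h2 : dd B (om p T R) w' ≤ dd B' (om p (insert w T) (R.erase w)) w' := by
      refine dd_mono hBB (om_nonneg hp0.le _ _) ?_ w'
      intro x
      rw [e1]
      have := mul_nonneg (by linarith : (0 : ℝ) ≤ 1 - p) (ind_nonneg {w} x)
      linarith
    nlinarith
  have p3 := Psi_remove (B := B') hμ hp0.le (om p (insert w T) (R.erase w)) W hWs
  rw [← e3] at p3
  -- counting
  have hWc : W.card ≤ FG.card := by
    have hch : ∀ w' : Fin n, ∃ e : Sym2 (Fin n), w' ∈ W → (∃ g ∈ G, e = s(g, w')) ∧ e ∈ FG := by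
      intro w'
      by_cases hw' : w' ∈ W
      · have h1 := (Finset.mem_filter.1 hw').2
        push Not at h1
        obtain ⟨g, hg, hgB⟩ := h1
        refine ⟨s(g, w'), fun _ => ⟨⟨g, hg, rfl⟩, ?_⟩⟩
        have hw'R : w' ∈ R := Finset.mem_of_mem_erase (Finset.mem_filter.1 hw').1
        rw [hFG, Finset.mem_filter, hF, Finset.mem_sdiff]
        exact ⟨⟨hgB, hfree w' hw'R g hg⟩, g, hg, Sym2.mem_mk_left _ _⟩
      · exact ⟨s(w', w'), fun h => absurd h hw'⟩
    choose f hf using hch
    refine Finset.card_le_card_of_injOn f (fun w' hw' => (hf w' hw').2) ?_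
    intro a ha b hb hab
    obtain ⟨⟨g, hg, hga⟩, _⟩ := hf a ha
    obtain ⟨⟨g', hg', hgb⟩, _⟩ := hf b hb
    rw [hga, hgb, Sym2.eq_iff] at hab
    rcases hab with ⟨_, h⟩ | ⟨_, h⟩
    · exact h
    · exfalso
      have haR : a ∈ R := Finset.mem_of_mem_erase (Finset.mem_filter.1 ha).1
      rw [h] at haR
      exact hGR g' hg' haR
  have c1 : (W.card : ℝ) ≤ FG.card := by exact_mod_cast hWc
  have c2 : (FG.card : ℝ) + F0.card ≤ m := by
    have : FG.card + F0.card ≤ m := by rw [hcF]; exact hcard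
    exact_mod_cast this
  have c3 : (0 : ℝ) ≤ W.card := Nat.cast_nonneg _
  have c4 : (0 : ℝ) ≤ F0.card := Nat.cast_nonneg _
  have c5 : p * (W.card : ℝ) ≤ 1 := by
    rw [hp, one_div, inv_mul_le_iff₀ hm0]
    linarith
  have c6 : p ^ 2 * (W.card : ℝ) ^ 2 ≤ 2 * FG.card := by
    have h1 : p ^ 2 * (W.card : ℝ) ^ 2 = (p * W.card) * (p * W.card) := by ring
    rw [h1]
    have h2 : (p * W.card) * (p * W.card) ≤ 1 * (p * W.card) :=
      mul_le_mul_of_nonneg_right c5 (by positivity)
    have h3 : p * (W.card : ℝ) ≤ W.card := by nlinarith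
    nlinarith
  have c7 : 0 ≤ (m * p - p * W.card) * s := by
    refine mul_nonneg ?_ hs
    nlinarith
  have c8 := mul_le_mul_of_nonneg_left c6 hμ
  have c9 := mul_le_mul_of_nonneg_left c2 hμ
  rw [hpm] at p1
  nlinarith

end pot

end Pool.Agent.Helper85.CliqueLB
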