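import Pool.Agent.Helper1.SD.Defs2

set_option autoImplicit false

/-!
Faces of the section of a good cone are simplices.
-/

namespace Pool.Agent.Helper1.SD

open Matrix

variable {N : ℕ} {K : Set (Fin N → ℝ)}

/-- members of the cone generated by a finite family -/
theorem ksl_mem_coneOf_range {m : ℕ} (b : Fin m → (Fin N → ℝ)) (hb : Function.Injective b)
    (x : Fin N → ℝ) :
    x ∈ coneOf (Set.range b) ↔ ∃ c : Fin m → ℝ, (∀ i, 0 ≤ c i) ∧ x = ∑ i, c i • b i := by
  classical
  constructor
  · rintro ⟨t, c, ht, hc, rfl⟩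
    refine ⟨fun i => if b i ∈ t then c (b i) else 0, fun i => ?_, ?_⟩
    · dsimp only
      split_ifs with h
      · exact hc _ h
      · exact le_rfl
    · have h1 : ∑ i, (if b i ∈ t then c (b i) else 0) • b i =
          ∑ i ∈ Finset.univ.filter (fun i => b i ∈ t), c (b i) • b i := by
        rw [Finset.sum_filter]
        refine Finset.sum_congr rfl fun i _ => ?_
        split_ifs with h
        · rfl
        · rw [zero_smul]
      rw [h1]
      have h2 : t = (Finset.univ.filter (fun i => b i ∈ t)).image b := by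
        ext v
        simp only [Finset.mem_image, Finset.mem_filter, Finset.mem_univ, true_and]
        constructor
        · intro hv
          obtain ⟨i, rfl⟩ := ht v hv
          exact ⟨i, hv, rfl⟩
        · rintro ⟨i, hi, rfl⟩
          exact hi
      conv_lhs => rw [h2]
      rw [Finset.sum_image fun i _ j _ h => hb h]
  · rintro ⟨c, hc, rfl⟩
    rcases isEmpty_or_nonempty (Fin m) with hm | hm
    · exact ⟨∅, fun _ => 0, by simp, by simp, by simp⟩
    · refine ⟨Finset.univ.image b, fun v => c (Function.invFun b v), fun v hv => ?_,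
        fun v hv => hc _, ?_⟩
      · obtain ⟨i, -, rfl⟩ := Finset.mem_image.1 hv
        exact ⟨i, rfl⟩
      · rw [Finset.sum_image fun i _ j _ h => hb h]
        refine Finset.sum_congr rfl fun i _ => ?_
        dsimp only
        rw [Function.leftInverse_invFun hb]

/-- every exposed face of the section comes from an element of the cone -/
theorem ksl_exposed {h : Fin N → ℝ} (hsd : dualOf K = K)
    (hpos : ∀ x ∈ K, x ≠ 0 → 0 < h ⬝ᵥ x) {F : Set (Fin N → ℝ)} (hF : F.Nonempty)
    (hE : IsExposed ℝ (slice K h) F) : ∃ g ∈ K, F = slice (perpIn K g) h := by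
  obtain ⟨l, hl⟩ := hE hF
  obtain ⟨x0, hx0⟩ := hF
  have hx0' := hx0
  rw [hl] at hx0'
  obtain ⟨hx0S, hx0m⟩ := hx0'
  -- the functional as a vector
  obtain ⟨a, ha⟩ : ∃ a : Fin N → ℝ, ∀ x, l x = a ⬝ᵥ x := by
    refine ⟨fun i => l (Pi.single i 1), fun x => ?_⟩
    have h1 : x = ∑ i, x i • (Pi.single i (1 : ℝ) : Fin N → ℝ) := by
      ext j
      simp [Finset.sum_apply, Pi.single_apply]
    conv_lhs => rw [h1]
    rw [map_sum]
    simp only [dotProduct, map_smul, smul_eq_mul]
    exact Finset.sum_congr rfl fun i _ => mul_comm _ _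
  have hscale : ∀ x ∈ K, x ≠ 0 → (h ⬝ᵥ x)⁻¹ • x ∈ slice K h := by
    intro x hx hx0
    have hp := hpos x hx hx0
    refine ⟨?_, ?_⟩
    · rw [← hsd]
      intro g hg
      rw [smul_dotProduct, smul_eq_mul]
      rw [← hsd] at hx
      exact mul_nonneg (inv_nonneg.2 hp.le) (hx g hg)
    · rw [dotProduct_smul, smul_eq_mul]
      exact inv_mul_cancel₀ hp.ne'
  refine ⟨(a ⬝ᵥ x0) • h - a, ?_, ?_⟩
  · rw [← hsd]
    intro x hx
    by_cases hx00 : x = 0
    · rw [hx00]; simp
    have hp := hpos x hx hx00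
    have h1 := hx0m _ (hscale x hx hx00)
    rw [ha, ha, dotProduct_smul, smul_eq_mul] at h1
    rw [sub_dotProduct, smul_dotProduct, smul_eq_mul]
    have h2 : a ⬝ᵥ x ≤ (a ⬝ᵥ x0) * (h ⬝ᵥ x) := by
      have h3 := mul_le_mul_of_nonneg_left h1 hp.le
      rw [← mul_assoc, mul_inv_cancel₀ hp.ne', one_mul] at h3
      linarith
    linarith
  · ext x
    rw [hl]
    constructor
    · rintro ⟨hxS, hxm⟩
      refine ⟨⟨hxS.1, ?_⟩, hxS.2⟩
      have h1 := hxm x0 hx0S
      have h2 := hx0m x hxS
      rw [ha, ha] at h1 h2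
      rw [sub_dotProduct, smul_dotProduct, smul_eq_mul, hxS.2]
      linarith
    · rintro ⟨⟨hxK, hx1⟩, hx2⟩
      refine ⟨⟨hxK, hx2⟩, fun y hy => ?_⟩
      rw [sub_dotProduct, smul_dotProduct, smul_eq_mul, hx2] at hx1
      have h2 := hx0m y hy
      rw [ha, ha] at h2
      rw [ha, ha]
      linarith

/-- Faces of dimension at most `k` of the section of a good cone are simplices. -/
theorem kSimplicial_slice {k : ℕ} {h : Fin N → ℝ} (hK : GoodCone k K)
    (hpos : ∀ x ∈ K, x ≠ 0 → 0 < h ⬝ᵥ x) : KSimplicial k (slice K h) := by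
  intro F hE hF hdim
  obtain ⟨g, hg, rfl⟩ := ksl_exposed hK.selfdual hpos hF hE
  rcases hK.ks g hg with hs | hs
  · obtain ⟨m, b, hb, hKb⟩ := hs
    have hmem := ksl_mem_coneOf_range b hb.injective
    have hbK : ∀ i, b i ∈ perpIn K g := by
      intro i
      rw [hKb, hmem]
      refine ⟨Pi.single i 1, fun j => ?_, ?_⟩
      · by_cases hj : j = i
        · subst hj; simp
        · simp [hj]
      · rw [Finset.sum_eq_single i]
        · simp
        · intro j _ hj; simp [hj]
        · intro hi; exact absurd (Finset.mem_univ i) hi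
    have hp : ∀ i, 0 < h ⬝ᵥ b i := fun i => hpos _ (hbK i).1 (hb.ne_zero i)
    have hm : m ≠ 0 := by
      rintro rfl
      obtain ⟨x, hx, hx1⟩ := hF
      rw [hKb, hmem] at hx
      obtain ⟨c, -, rfl⟩ := hx
      simp at hx1
    obtain ⟨m, rfl⟩ := Nat.exists_eq_succ_of_ne_zero hm
    refine ⟨m, fun i => (h ⬝ᵥ b i)⁻¹ • b i, ?_, ?_⟩
    · have hv : LinearIndependent ℝ (fun i => (h ⬝ᵥ b i)⁻¹ • b i) :=
        hb.units_smul (fun i => (Units.mk0 _ (hp i).ne')⁻¹)
      rw [affineIndependent_iff]
      intro s w _ hw i hi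
      exact linearIndependent_iff'.1 hv s w hw i hi
    · apply Set.Subset.antisymm
      · rintro x ⟨hx, hx1⟩
        rw [hKb, hmem] at hx
        obtain ⟨c, hc, rfl⟩ := hx
        have h1 : ∑ i, c i • b i = ∑ i, (c i * (h ⬝ᵥ b i)) • ((h ⬝ᵥ b i)⁻¹ • b i) := by
          refine Finset.sum_congr rfl fun i _ => ?_
          rw [smul_smul, mul_assoc, mul_inv_cancel₀ (hp i).ne', mul_one]
        rw [h1]
        refine (convex_convexHull ℝ _).sum_mem (fun i _ => mul_nonneg (hc i) (hp i).le) ?_
          (fun i _ => subset_convexHull ℝ _ ⟨i, rfl⟩)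
        rw [← hx1, dotProduct_sum]
        exact Finset.sum_congr rfl fun i _ => by rw [dotProduct_smul, smul_eq_mul]
      · refine convexHull_min ?_ ?_
        · rintro _ ⟨i, rfl⟩
          refine ⟨?_, ?_⟩
          · rw [hKb, hmem]
            refine ⟨Pi.single i (h ⬝ᵥ b i)⁻¹, fun j => ?_, ?_⟩
            · by_cases hj : j = i
              · subst hj; simp [(hp j).le]
              · simp [hj]
            · rw [Finset.sum_eq_single i]
              · simp
              · intro j _ hj; simp [hj]
              · intro hi; exact absurd (Finset.mem_univ i) hi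
          · rw [dotProduct_smul, smul_eq_mul]
            exact inv_mul_cancel₀ (hp i).ne'
        · rintro x ⟨hx, hx1⟩ y ⟨hy, hy1⟩ α β hα hβ hαβ
          rw [hKb, hmem] at hx hy
          obtain ⟨c, hc, rfl⟩ := hx
          obtain ⟨e, he, rfl⟩ := hy
          refine ⟨?_, ?_⟩
          · rw [hKb, hmem]
            refine ⟨fun i => α * c i + β * e i,
              fun i => add_nonneg (mul_nonneg hα (hc i)) (mul_nonneg hβ (he i)), ?_⟩
            rw [Finset.smul_sum, Finset.smul_sum, ← Finset.sum_add_distrib]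
            exact Finset.sum_congr rfl fun i _ => by rw [add_smul, smul_smul, smul_smul]
          · rw [dotProduct_add, dotProduct_smul, dotProduct_smul, hx1, hy1]
            simpa using hαβ
  · exfalso
    obtain ⟨x0, hx0⟩ := hF
    have hle : Submodule.span ℝ (perpIn K g) ≤
        Submodule.span ℝ {x0} ⊔ vectorSpan ℝ (slice (perpIn K g) h) := by
      rw [Submodule.span_le]
      intro x hx
      by_cases hx00 : x = 0
      · rw [hx00]; exact Submodule.zero_mem _
      have hp := hpos x hx.1 hx00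
      have hy : (h ⬝ᵥ x)⁻¹ • x ∈ slice (perpIn K g) h := by
        refine ⟨⟨?_, ?_⟩, ?_⟩
        · have hxK := hx.1
          rw [← hK.selfdual] at hxK ⊢
          intro z hz
          rw [smul_dotProduct, smul_eq_mul]
          exact mul_nonneg (inv_nonneg.2 hp.le) (hxK z hz)
        · rw [dotProduct_smul, hx.2, smul_zero]
        · rw [dotProduct_smul, smul_eq_mul]
          exact inv_mul_cancel₀ hp.ne'
      have h1 : x = (h ⬝ᵥ x) • x0 + (h ⬝ᵥ x) • ((h ⬝ᵥ x)⁻¹ • x -ᵥ x0) := by
        rw [vsub_eq_sub, smul_sub, smul_smul, mul_inv_cancel₀ hp.ne', one_smul]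
        abel
      rw [h1]
      exact Submodule.add_mem_sup (Submodule.smul_mem _ _ (Submodule.mem_span_singleton_self x0))
        (Submodule.smul_mem _ _ (vsub_mem_vectorSpan ℝ hy hx0))
    have h1 := Submodule.finrank_mono hle
    have h2 := Submodule.finrank_add_le_finrank_add_finrank (Submodule.span ℝ {x0})
      (vectorSpan ℝ (slice (perpIn K g) h))
    have h3 : Module.finrank ℝ (Submodule.span ℝ {x0}) ≤ 1 := by
      refine (finrank_span_le_card ({x0} : Set (Fin N → ℝ))).trans ?_
      simp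
    have h4 : Module.finrank ℝ (vectorSpan ℝ (slice (perpIn K g) h)) ≤ k := hdim
    omega

end Pool.Agent.Helper1.SD
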