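import Pool.Agent.Helper21.LR.Stmts

/-!
# LR-GENZERO: generic complex zero of an irreducible integer polynomial
-/

set_option autoImplicit false

namespace Pool.Agent.Helper85.LR

open Pool.Agent.Helper21.LR MvPolynomial Cardinal

/-- A countable field of characteristic zero embeds in the complex numbers. -/
lemma exists_embedding (K : Type) [Field K] [CharZero K] [Countable K] : Nonempty (K →+* ℂ) := by
  let M := MvPolynomial ℝ K
  let E := FractionRing M
  let L := AlgebraicClosure E
  have hLle : #L ≤ 𝔠 := by
    refine (Algebra.IsAlgebraic.cardinalMk_le_max E L).trans (max_le ?_ aleph0_le_continuum)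
    rw [FractionRing.cardinalMk]
    refine MvPolynomial.cardinalMk_le_max.trans (max_le (max_le ?_ ?_) aleph0_le_continuum)
    · exact (mk_le_aleph0 (α := K)).trans aleph0_le_continuum
    · rw [mk_real]
  have hLge : 𝔠 ≤ #L := by
    rw [← mk_real]
    let f : ℝ → L := fun r => algebraMap E L (algebraMap M E (X r))
    refine mk_le_of_injective (f := f) ?_
    intro a b h
    have h1 := (algebraMap E L).injective h
    have h2 := IsFractionRing.injective M E h1
    exact X_injective h2
  have hcard : #L = #ℂ := by
    rw [mk_complex]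
    exact le_antisymm hLle hLge
  have hM : CharZero M := inferInstance
  have hE : CharZero E := inferInstance
  have hL : CharZero L := inferInstance
  obtain ⟨e⟩ := IsAlgClosed.ringEquiv_of_equiv_of_charZero (K := L) (L := ℂ)
    (lt_of_lt_of_le aleph0_lt_continuum hLge) (Cardinal.eq.1 hcard)
  exact ⟨(e : L →+* ℂ).comp ((algebraMap E L).comp ((algebraMap M E).comp C))⟩

/-- LR-GENZERO -/
theorem genZero : SGenZero := by
  intro ι _ P hP hc
  have hprime : Prime P := hP.prime
  let J : Ideal (MvPolynomial ι ℤ) := Ideal.span {P}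
  have hJ : J.IsPrime := (Ideal.span_singleton_prime hprime.ne_zero).2 hprime
  let A := MvPolynomial ι ℤ ⧸ J
  have hcount : Countable (MvPolynomial ι ℤ) := by
    rw [← mk_le_aleph0_iff]
    refine MvPolynomial.cardinalMk_le_max.trans (max_le (max_le ?_ ?_) le_rfl)
    · exact mk_le_aleph0
    · exact mk_le_aleph0
  have hAc : Countable A := Quotient.countable
  have hA0 : ∀ n : ℤ, (n : A) = 0 → n = 0 := by
    intro n hn
    by_contra hn0
    have h1 : (Ideal.Quotient.mk J) (C n) = 0 := by
      rw [← hn]
      simp
    rw [Ideal.Quotient.eq_zero_iff_mem, Ideal.mem_span_singleton] at h1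
    obtain ⟨Q, hQ⟩ := h1
    have h2 : P * Q ≠ 0 := by
      rw [← hQ]
      simpa using hn0
    have h3 : P ≠ 0 := left_ne_zero_of_mul h2
    have h4 : Q ≠ 0 := right_ne_zero_of_mul h2
    have h5 := totalDegree_mul_of_isDomain h3 h4
    rw [← hQ, totalDegree_C] at h5
    have h6 : P.totalDegree = 0 := by omega
    exact hc _ (totalDegree_eq_zero_iff_eq_C.1 h6)
  have hchar : CharZero A := by
    refine ⟨fun a b hab => ?_⟩
    have h1 : (((a : ℤ) - b : ℤ) : A) = 0 := by
      push_cast
      rw [hab, sub_self]
    have := hA0 _ h1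
    omega
  have hdom : IsDomain A := inferInstance
  let K := FractionRing A
  have hKc : Countable K := by
    rw [← mk_le_aleph0_iff, FractionRing.cardinalMk]
    exact mk_le_aleph0
  have hK0 : CharZero K := inferInstance
  obtain ⟨σ⟩ := exists_embedding K
  let τ : MvPolynomial ι ℤ →+* ℂ := σ.comp ((algebraMap A K).comp (Ideal.Quotient.mk J))
  refine ⟨fun i => τ (X i), fun G => ?_⟩
  have h1 : aeval (fun i => τ (X i)) G = τ G := by
    have h2 : ((aeval (fun i => τ (X i)) : MvPolynomial ι ℤ →ₐ[ℤ] ℂ) : MvPolynomial ι ℤ →+* ℂ) =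
        τ := by
      apply MvPolynomial.ringHom_ext
      · intro r
        simp
      · intro i
        simp
    exact DFunLike.congr_fun h2 G
  rw [h1]
  have h2 : τ G = 0 ↔ Ideal.Quotient.mk J G = 0 := by
    change σ (algebraMap A K (Ideal.Quotient.mk J G)) = 0 ↔ _
    rw [map_eq_zero, IsFractionRing.to_map_eq_zero_iff]
  rw [h2, Ideal.Quotient.eq_zero_iff_mem, Ideal.mem_span_singleton]

end Pool.Agent.Helper85.LR
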