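import Pool.Agent.Helper26.Maz.Defs

/-!
# MAZ-VK: gluing of holonomies over an open cover
-/

set_option autoImplicit false

namespace Pool.Agent.Helper26.Maz

open Set Topology unitInterval

section vkbasic

variable {X : Type*} [TopologicalSpace X] {Γ : Type*} [Group Γ] {A : Set X}

/-- The segment in the unit interval. -/
noncomputable def vseg (a b : I) : Path a b where
  toFun := Icc.convexComb a b
  continuous_toFun := Icc.continuous_convexComb a b
  source' := by simp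
  target' := by simp

lemma vcc_mem {C : Set I} (hC : C.OrdConnected) {a b : I} (ha : a ∈ C) (hb : b ∈ C) (t : I) :
    Icc.convexComb a b t ∈ C := by
  rcases le_total a b with h | h
  · exact hC.out ha hb ⟨Icc.le_convexComb h t, Icc.convexComb_le h t⟩
  · rw [← Icc.convexComb_symm]
    exact hC.out hb ha ⟨Icc.le_convexComb h _, Icc.convexComb_le h _⟩

lemma HolOn.vk_congr (F : HolOn A Γ) {x y x' y' : X} (γ : Path x y) (γ' : Path x' y')
    (h : ∀ t, γ t = γ' t) : F.hol γ = F.hol γ' := by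
  have hx : x = x' := by rw [← γ.source, ← γ'.source, h]
  have hy : y = y' := by rw [← γ.target, ← γ'.target, h]
  subst hx hy
  have : γ = γ' := Path.ext (funext h)
  rw [this]

lemma HolOn.vk_refl (F : HolOn A Γ) {x : X} (hx : x ∈ A) : F.hol (Path.refl x) = 1 := by
  have h := F.trans (Path.refl x) (Path.refl x) (fun _ => hx) (fun _ => hx)
  rw [Path.refl_trans_refl] at h
  exact (mul_eq_left.1 h.symm)

/-- Two paths in a convex set. -/
lemma HolOn.vk_mid (F : HolOn A Γ) {Z : Type*} [TopologicalSpace Z] (m : Z → Z → I → Z)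
    (hm : Continuous fun p : Z × Z × I => m p.1 p.2.1 p.2.2)
    (m0 : ∀ a b, m a b 0 = a) (m1 : ∀ a b, m a b 1 = b) (mm : ∀ a u, m a a u = a)
    (C : Set Z) (hC : ∀ a ∈ C, ∀ b ∈ C, ∀ u, m a b u ∈ C)
    (f : Z → X) (hf : Continuous f) (hfC : ∀ z ∈ C, f z ∈ A)
    {a b : Z} (p q : Path a b) (hp : ∀ t, p t ∈ C) (hq : ∀ t, q t ∈ C) :
    F.hol (p.map hf) = F.hol (q.map hf) := by
  refine F.homot _ _
    { toFun := fun x => f (m (p x.2) (q x.2) x.1)
      continuous_toFun := hf.comp (hm.comp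
        (show Continuous fun x : I × I => ((p x.2 : Z), (q x.2 : Z), x.1) by fun_prop))
      map_zero_left := fun t => by simp [m0]
      map_one_left := fun t => by simp [m1]
      prop' := ?_ } ?_
  · intro u t ht
    rcases ht with rfl | rfl
    · simp [mm]
    · simp [mm]
  · intro p
    exact hfC _ (hC _ (hp _) _ (hq _) _)

/-- Additivity along the subpaths. -/
lemma HolOn.vk_sub (F : HolOn A Γ) {x y : X} (γ : Path x y) (C : Set I) (hC : C.OrdConnected)
    (h : ∀ t ∈ C, γ t ∈ A) {a b c : I} (ha : a ∈ C) (hb : b ∈ C) (hc : c ∈ C) :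
    F.hol (γ.subpath a b) * F.hol (γ.subpath b c) = F.hol (γ.subpath a c) := by
  have h1 : ∀ {a b : I}, a ∈ C → b ∈ C → ∀ t, γ.subpath a b t ∈ A := fun ha hb t =>
    h _ (vcc_mem hC ha hb t)
  rw [← F.trans _ _ (h1 ha hb) (h1 hb hc)]
  have h2 := F.vk_mid (Z := I) Icc.convexComb Icc.continuous_convexComb_prod
    (fun a b => by simp) (fun a b => by simp) (fun a u => by simp) C
    (fun a ha b hb u => vcc_mem hC ha hb u) γ γ.continuous h
    ((vseg a b).trans (vseg b c)) (vseg a c) (fun t => ?_) (fun t => vcc_mem hC ha hc t)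
  · refine Eq.trans ?_ (h2.trans ?_)
    · apply F.vk_congr
      intro t
      rw [Path.map_trans]
      rfl
    · exact F.vk_congr _ _ fun t => rfl
  · rw [Path.trans_apply]
    split_ifs
    · exact vcc_mem hC ha hb _
    · exact vcc_mem hC hb hc _

lemma HolOn.vk_sub' (F : HolOn A Γ) {x y : X} (γ : Path x y) (C : Set I) (hC : C.OrdConnected)
    (h : ∀ t ∈ C, γ t ∈ A) {a b c : I} (ha : a ∈ C) (hb : b ∈ C) (hc : c ∈ C) :
    (F.hol (γ.subpath a b))⁻¹ * F.hol (γ.subpath a c) = F.hol (γ.subpath b c) := by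
  rw [← F.vk_sub γ C hC h ha hb hc, inv_mul_cancel_left]

lemma HolOn.vk_self (F : HolOn A Γ) {x y : X} (γ : Path x y) {a : I} (h : γ a ∈ A) :
    F.hol (γ.subpath a a) = 1 := by
  rw [Path.subpath_self]
  exact F.vk_refl h

/-- The four sides of a rectangle. -/
lemma HolOn.vk_rect (F : HolOn A Γ) (f : I × I → X) (hf : Continuous f) (hfA : ∀ z, f z ∈ A)
    {x y z w : X} (β : Path x y) (ρ : Path y w) (l : Path x z) (τ : Path z w)
    (hβ : ∀ t, β t = f (0, t)) (hρ : ∀ t, ρ t = f (t, 1)) (hl : ∀ t, l t = f (t, 0))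
    (hτ : ∀ t, τ t = f (1, t)) : F.hol β * F.hol ρ = F.hol l * F.hol τ := by
  have hA : ∀ {x y : X} (γ : Path x y) (g : I → I × I), (∀ t, γ t = f (g t)) → ∀ t, γ t ∈ A :=
    fun γ g h t => by rw [h]; exact hfA _
  rw [← F.trans _ _ (hA β _ hβ) (hA ρ _ hρ), ← F.trans _ _ (hA l _ hl) (hA τ _ hτ)]
  let b' : Path ((0, 0) : I × I) (0, 1) := ⟨⟨fun t => (0, t), by fun_prop⟩, rfl, rfl⟩
  let r' : Path ((0, 1) : I × I) (1, 1) := ⟨⟨fun t => (t, 1), by fun_prop⟩, rfl, rfl⟩
  let l' : Path ((0, 0) : I × I) (1, 0) := ⟨⟨fun t => (t, 0), by fun_prop⟩, rfl, rfl⟩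
  let t' : Path ((1, 0) : I × I) (1, 1) := ⟨⟨fun t => (1, t), by fun_prop⟩, rfl, rfl⟩
  have h2 := F.vk_mid (Z := I × I)
    (fun a b u => (Icc.convexComb a.1 b.1 u, Icc.convexComb a.2 b.2 u))
    (by
      refine Continuous.prodMk ?_ ?_
      · exact Icc.continuous_convexComb_prod.comp
          (show Continuous fun p : (I × I) × (I × I) × I => (p.1.1, p.2.1.1, p.2.2) by fun_prop)
      · exact Icc.continuous_convexComb_prod.comp
          (show Continuous fun p : (I × I) × (I × I) × I => (p.1.2, p.2.1.2, p.2.2) by fun_prop))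
    (fun a b => by simp) (fun a b => by simp) (fun a u => by simp) univ
    (fun _ _ _ _ _ => mem_univ _) f hf (fun z _ => hfA z) (b'.trans r') (l'.trans t')
    (fun _ => mem_univ _) (fun _ => mem_univ _)
  refine Eq.trans ?_ (h2.trans ?_)
  · apply F.vk_congr
    intro t
    rw [Path.map_trans, Path.trans_apply, Path.trans_apply]
    split_ifs
    · exact hβ _
    · exact hρ _
  · apply F.vk_congr
    intro t
    rw [Path.map_trans, Path.trans_apply, Path.trans_apply]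
    split_ifs
    · exact (hl _).symm
    · exact (hτ _).symm

end vkbasic

section vkglue

variable {X : Type*} [TopologicalSpace X] {Γ : Type*} [Group Γ] {ι : Type*} {S : Set X}
  {O : ι → Set X}

/-- A potential along a path. -/
def VPot (F : ∀ i, HolOn (O i ∩ S) Γ) {x y : X} (γ : Path x y) (J : Set I) (a : I → Γ) : Prop :=
  ∀ t ∈ J, ∃ i, ∃ U ∈ 𝓝 t, U.OrdConnected ∧ (∀ z ∈ U, γ z ∈ O i) ∧
    ∀ z ∈ U ∩ J, ∀ z' ∈ U ∩ J, (a z)⁻¹ * a z' = (F i).hol (γ.subpath z z')

lemma vk_ball {t : I} {N : Set I} (hN : N ∈ 𝓝 t) :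
    ∃ C, C ∈ 𝓝 t ∧ IsOpen C ∧ C.OrdConnected ∧ C ⊆ N ∧ t ∈ C := by
  obtain ⟨ε, hε, h⟩ := Metric.mem_nhds_iff.1 hN
  refine ⟨Metric.ball t ε, Metric.ball_mem_nhds t hε, Metric.isOpen_ball, ⟨?_⟩, h,
    Metric.mem_ball_self hε⟩
  intro a ha b hb c hc
  rw [Metric.mem_ball, Subtype.dist_eq, Real.dist_eq, abs_lt] at *
  have h1 : (a : ℝ) ≤ c := hc.1
  have h2 : (c : ℝ) ≤ b := hc.2
  constructor <;> linarith [ha.1, ha.2, hb.1, hb.2]

variable (hO : ∀ i, IsOpen (O i)) (hS : S ⊆ ⋃ i, O i) {F : ∀ i, HolOn (O i ∩ S) Γ}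
  (hF : ∀ i j {x y : X} (γ : Path x y), (∀ t, γ t ∈ O i ∩ O j ∩ S) →
      (F i).hol γ = (F j).hol γ)

include hO hS in
lemma vk_local {x y : X} (γ : Path x y) (hγ : ∀ t, γ t ∈ S) (t : I) :
    ∃ i, ∃ C, C ∈ 𝓝 t ∧ IsOpen C ∧ C.OrdConnected ∧ t ∈ C ∧ ∀ z ∈ C, γ z ∈ O i := by
  obtain ⟨i, hi⟩ := mem_iUnion.1 (hS (hγ t))
  have h1 : γ ⁻¹' (O i) ∈ 𝓝 t := ((hO i).preimage γ.continuous).mem_nhds hi
  obtain ⟨C, h1, h2, h3, h4, h5⟩ := vk_ball h1
  exact ⟨i, C, h1, h2, h3, h5, h4⟩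

include hF in
/-- Potentials are unique up to a left constant. -/
lemma vk_unique {x y : X} (γ : Path x y) (hγ : ∀ t, γ t ∈ S) {a a' : I → Γ}
    (h : VPot F γ univ a) (h' : VPot F γ univ a') : (a 0)⁻¹ * a 1 = (a' 0)⁻¹ * a' 1 := by
  have hc : IsLocallyConstant (fun z => a' z * (a z)⁻¹) := by
    rw [IsLocallyConstant.iff_eventually_eq]
    intro t
    obtain ⟨i, U, hU, hUc, hUO, hUa⟩ := h t (mem_univ t)
    obtain ⟨j, V, hV, hVc, hVO, hVa⟩ := h' t (mem_univ t)
    filter_upwards [hU, hV] with z hzU hzV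
    have htU := mem_of_mem_nhds hU
    have htV := mem_of_mem_nhds hV
    have h1 := hUa t ⟨htU, mem_univ _⟩ z ⟨hzU, mem_univ _⟩
    have h2 := hVa t ⟨htV, mem_univ _⟩ z ⟨hzV, mem_univ _⟩
    have h3 : (F i).hol (γ.subpath t z) = (F j).hol (γ.subpath t z) :=
      hF i j _ fun s => ⟨⟨hUO _ (vcc_mem hUc htU hzU s), hVO _ (vcc_mem hVc htV hzV s)⟩, hγ _⟩
    rw [← h1, ← h2] at h3
    have h4 : a z = a t * ((a' t)⁻¹ * a' z) := by rw [← h3]; group
    rw [h4]
    group
  have h1 : a' 0 * (a 0)⁻¹ = a' 1 * (a 1)⁻¹ := hc.apply_eq_of_preconnectedSpace 0 1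
  have h2 : a' 1 = a' 0 * (a 0)⁻¹ * a 1 := by rw [h1]; group
  rw [h2]
  group

include hF in
/-- Extension of a potential. -/
lemma vk_extend {x y : X} (γ : Path x y) (hγ : ∀ t, γ t ∈ S) {i : ι} {C : Set I}
    (hCo : IsOpen C) (hC : C.OrdConnected) (hCO : ∀ z ∈ C, γ z ∈ O i) {s s' : I} (hs : s ∈ C)
    (hs' : s' ∈ C) (h : ∃ a, VPot F γ (Iic s) a) : ∃ a, VPot F γ (Iic s') a := by
  classical
  obtain ⟨a, ha⟩ := h
  rcases le_or_gt s' s with hle | hlt
  · refine ⟨a, fun t ht => ?_⟩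
    obtain ⟨j, U, hU, hUc, hUO, hUa⟩ := ha t (le_trans ht hle)
    exact ⟨j, U, hU, hUc, hUO, fun z hz z' hz' =>
      hUa z ⟨hz.1, le_trans hz.2 hle⟩ z' ⟨hz'.1, le_trans hz'.2 hle⟩⟩
  · have hCA : ∀ t ∈ C, γ t ∈ O i ∩ S := fun t ht => ⟨hCO t ht, hγ t⟩
    refine ⟨fun z => if z ≤ s then a z else a s * (F i).hol (γ.subpath s z), fun t ht => ?_⟩
    rcases lt_trichotomy t s with hts | hts | hts
    · obtain ⟨j, U, hU, hUc, hUO, hUa⟩ := ha t hts.le
      refine ⟨j, U ∩ Iio s, Filter.inter_mem hU (isOpen_Iio.mem_nhds hts),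
        hUc.inter ordConnected_Iio, fun z hz => hUO z hz.1, ?_⟩
      rintro z ⟨⟨hzU, hzs⟩, -⟩ z' ⟨⟨hzU', hzs'⟩, -⟩
      have hz1 : z ≤ s := le_of_lt hzs
      have hz2 : z' ≤ s := le_of_lt hzs'
      simp only [hz1, hz2, if_true]
      exact hUa z ⟨hzU, hz1⟩ z' ⟨hzU', hz2⟩
    · subst hts
      obtain ⟨j, U, hU, hUc, hUO, hUa⟩ := ha t (mem_Iic.2 le_rfl)
      have htU := mem_of_mem_nhds hU
      refine ⟨i, U ∩ C, Filter.inter_mem hU (hCo.mem_nhds hs), hUc.inter hC,
        fun z hz => hCO z hz.2, ?_⟩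
      have key : ∀ z ∈ U ∩ C, (if z ≤ t then a z else a t * (F i).hol (γ.subpath t z)) =
          a t * (F i).hol (γ.subpath t z) := by
        rintro z ⟨hzU, hzC⟩
        split_ifs with hzt
        · have h1 := hUa t ⟨htU, mem_Iic.2 le_rfl⟩ z ⟨hzU, hzt⟩
          have h2 : (F j).hol (γ.subpath t z) = (F i).hol (γ.subpath t z) :=
            hF j i _ fun s => ⟨⟨hUO _ (vcc_mem hUc htU hzU s), hCO _ (vcc_mem hC hs hzC s)⟩, hγ _⟩
          rw [← h2, ← h1]
          group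
        · rfl
      rintro z ⟨hz, -⟩ z' ⟨hz', -⟩
      simp only [key z hz, key z' hz']
      rw [mul_inv_rev, mul_assoc, inv_mul_cancel_left]
      exact (F i).vk_sub' γ C hC hCA hs hz.2 hz'.2
    · have htC : t ∈ C := hC.out hs hs' ⟨hts.le, ht⟩
      refine ⟨i, C ∩ Ioi s, Filter.inter_mem (hCo.mem_nhds htC) (isOpen_Ioi.mem_nhds hts),
        hC.inter ordConnected_Ioi, fun z hz => hCO z hz.1, ?_⟩
      rintro z ⟨⟨hzC, hzs⟩, -⟩ z' ⟨⟨hzC', hzs'⟩, -⟩
      have hz1 : ¬ z ≤ s := not_le_of_gt hzs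
      have hz2 : ¬ z' ≤ s := not_le_of_gt hzs'
      simp only [hz1, hz2, if_false]
      rw [mul_inv_rev, mul_assoc, inv_mul_cancel_left]
      exact (F i).vk_sub' γ C hC hCA hs hzC hzC'

include hO hS hF in
/-- Existence of potentials. -/
lemma vk_exists {x y : X} (γ : Path x y) (hγ : ∀ t, γ t ∈ S) : ∃ a, VPot F γ univ a := by
  have hclopen : IsClopen {s : I | ∃ a, VPot F γ (Iic s) a} := by
    constructor
    · rw [← isOpen_compl_iff, isOpen_iff_mem_nhds]
      intro t ht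
      obtain ⟨i, C, hCn, hCo, hC, htC, hCO⟩ := vk_local hO hS γ hγ t
      filter_upwards [hCn] with s hs hsP
      exact ht (vk_extend hF γ hγ hCo hC hCO hs htC hsP)
    · rw [isOpen_iff_mem_nhds]
      intro t ht
      obtain ⟨i, C, hCn, hCo, hC, htC, hCO⟩ := vk_local hO hS γ hγ t
      filter_upwards [hCn] with s hs
      exact vk_extend hF γ hγ hCo hC hCO htC hs ht
  have h0 : (0 : I) ∈ {s : I | ∃ a, VPot F γ (Iic s) a} := by
    refine ⟨fun _ => 1, fun t ht => ?_⟩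
    obtain ⟨i, C, hCn, hCo, hC, htC, hCO⟩ := vk_local hO hS γ hγ t
    refine ⟨i, C, hCn, hC, hCO, ?_⟩
    rintro z ⟨hzC, hz⟩ z' ⟨hzC', hz'⟩
    have e : z = z' := by
      rw [le_antisymm hz (nonneg' : (0 : I) ≤ z), le_antisymm hz' (nonneg' : (0 : I) ≤ z')]
    subst e
    rw [(F i).vk_self γ ⟨hCO z hzC, hγ z⟩]
    simp
  have h1 := hclopen.eq_univ ⟨0, h0⟩
  have h2 : (1 : I) ∈ {s : I | ∃ a, VPot F γ (Iic s) a} := by rw [h1]; trivial
  obtain ⟨a, ha⟩ := h2
  refine ⟨a, ?_⟩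
  have e : (Iic 1 : Set I) = univ := by
    ext z
    simp [le_one']
  rwa [e] at ha

open Classical in
/-- The glued holonomy. -/
noncomputable def vkHol (F : ∀ i, HolOn (O i ∩ S) Γ) {x y : X} (γ : Path x y) : Γ :=
  if h : ∃ a, VPot F γ univ a then (h.choose 0)⁻¹ * h.choose 1 else 1

include hF in
lemma vkHol_eq {x y : X} (γ : Path x y) (hγ : ∀ t, γ t ∈ S) {a : I → Γ}
    (h : VPot F γ univ a) : vkHol F γ = (a 0)⁻¹ * a 1 := by
  have hex : ∃ a, VPot F γ univ a := ⟨a, h⟩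
  rw [vkHol, dif_pos hex]
  exact vk_unique hF γ hγ hex.choose_spec h

include hF in
lemma vkHol_agree (i : ι) {x y : X} (γ : Path x y) (hγ : ∀ t, γ t ∈ O i ∩ S) :
    vkHol F γ = (F i).hol γ := by
  have h : VPot F γ univ (fun z => (F i).hol (γ.subpath 0 z)) := by
    intro t _
    refine ⟨i, univ, Filter.univ_mem, ordConnected_univ, fun z _ => (hγ z).1, ?_⟩
    intro z _ z' _
    exact (F i).vk_sub' γ univ ordConnected_univ (fun t _ => hγ t) (mem_univ _) (mem_univ _)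
      (mem_univ _)
  rw [vkHol_eq hF γ (fun t => (hγ t).2) h, (F i).vk_self γ (hγ 0), inv_one, one_mul]
  exact (F i).vk_congr _ _ fun t => by simp [Path.subpath]

/-- The maps of the interval onto its halves. -/
noncomputable def vhalf (c : I) (t : I) : I := Icc.convexComb c t ⟨1 / 2, by norm_num, by norm_num⟩

lemma coe_vhalf (c t : I) : (vhalf c t : ℝ) = (c + t) / 2 := by
  rw [vhalf, Icc.coe_convexComb]
  ring

lemma continuous_vhalf (c : I) : Continuous (vhalf c) :=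
  Icc.continuous_convexComb_prod.comp (show Continuous fun t : I =>
    ((c : I), (t : I), (⟨1 / 2, by norm_num, by norm_num⟩ : I)) by fun_prop)

lemma vhalf_mono (c : I) : Monotone (vhalf c) := by
  intro a b hab
  have h : (a : ℝ) ≤ b := hab
  change (vhalf c a : ℝ) ≤ vhalf c b
  rw [coe_vhalf, coe_vhalf]
  linarith

lemma vhalf_comb (c a b u : I) :
    Icc.convexComb (vhalf c a) (vhalf c b) u = vhalf c (Icc.convexComb a b u) := by
  apply Subtype.ext
  rw [Icc.coe_convexComb, coe_vhalf, coe_vhalf, coe_vhalf, Icc.coe_convexComb]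
  ring

/-- Restriction of a potential to a half. -/
lemma vk_half {x y x' y' : X} (γ : Path x y) (δ : Path x' y') (c : I)
    (h : ∀ t, δ (vhalf c t) = γ t) {a : I → Γ} (ha : VPot F δ univ a) :
    VPot F γ univ (fun t => a (vhalf c t)) := by
  intro t _
  obtain ⟨i, U, hU, hUc, hUO, hUa⟩ := ha (vhalf c t) (mem_univ _)
  refine ⟨i, vhalf c ⁻¹' U, (continuous_vhalf c).continuousAt hU,
    hUc.preimage_mono (vhalf_mono c), fun z hz => ?_, ?_⟩
  · rw [← h]
    exact hUO _ hz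
  · rintro z ⟨hz, -⟩ z' ⟨hz', -⟩
    rw [hUa _ ⟨hz, mem_univ _⟩ _ ⟨hz', mem_univ _⟩]
    apply (F i).vk_congr
    intro u
    change δ (Icc.convexComb (vhalf c z) (vhalf c z') u) = γ (Icc.convexComb z z' u)
    rw [vhalf_comb, h]

include hO hS hF in
lemma vkHol_trans {x y z : X} (γ : Path x y) (δ : Path y z) (hγ : ∀ t, γ t ∈ S)
    (hδ : ∀ t, δ t ∈ S) : vkHol F (γ.trans δ) = vkHol F γ * vkHol F δ := by
  have hγδ : ∀ t, γ.trans δ t ∈ S := by
    intro t
    rw [Path.trans_apply]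
    split_ifs
    · exact hγ _
    · exact hδ _
  obtain ⟨a, ha⟩ := vk_exists hO hS hF (γ.trans δ) hγδ
  have h0 : ∀ t, γ.trans δ (vhalf 0 t) = γ t := by
    intro t
    rw [Path.trans_apply]
    have h1 : (vhalf 0 t : ℝ) ≤ 1 / 2 := by
      rw [coe_vhalf]
      have := t.2.2
      simp only [Set.Icc.coe_zero]
      linarith
    rw [dif_pos h1]
    congr 1
    apply Subtype.ext
    simp only [coe_vhalf, Set.Icc.coe_zero]
    ring
  have h1 : ∀ t, γ.trans δ (vhalf 1 t) = δ t := by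
    intro t
    rw [Path.trans_apply]
    split_ifs with h
    · rw [coe_vhalf] at h
      simp only [Set.Icc.coe_one] at h
      have h2 : (t : ℝ) = 0 := le_antisymm (by linarith) t.2.1
      have h3 : t = 0 := Subtype.ext h2
      subst h3
      rw [δ.source]
      have h4 : (⟨2 * (vhalf 1 0 : ℝ), by rw [coe_vhalf]; norm_num⟩ : I) = 1 := by
        apply Subtype.ext
        simp [coe_vhalf]
      have h5 := γ.target
      rw [← h4] at h5
      exact h5
    · congr 1
      apply Subtype.ext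
      simp only [coe_vhalf, Set.Icc.coe_one]
      ring
  rw [vkHol_eq hF _ hγδ ha, vkHol_eq hF γ hγ (vk_half γ _ 0 h0 ha),
    vkHol_eq hF δ hδ (vk_half δ _ 1 h1 ha)]
  have e0 : vhalf 0 0 = 0 := Subtype.ext (by simp [coe_vhalf])
  have e1 : vhalf 1 1 = 1 := Subtype.ext (by simp [coe_vhalf])
  have e2 : vhalf 0 1 = vhalf 1 0 := Subtype.ext (by simp [coe_vhalf])
  rw [e0, e1, e2]
  group

include hO hS hF in
lemma vkHol_homot {x y : X} (γ γ' : Path x y) (h : Path.Homotopy γ γ') (hh : ∀ p, h p ∈ S) :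
    vkHol F γ = vkHol F γ' := by
  have hev : ∀ s t, h.eval s t ∈ S := fun s t => hh _
  have hc : IsLocallyConstant (fun s => vkHol F (h.eval s)) := by
    rw [IsLocallyConstant.iff_eventually_eq]
    intro s₀
    have h1 : ∀ᶠ s in 𝓝 s₀, ∀ t ∈ (univ : Set I), ∃ i, ∃ N ∈ 𝓝 t,
        ∀ u ∈ uIcc s₀ s, ∀ z ∈ N, h (u, z) ∈ O i := by
      apply isCompact_univ.eventually_forall_of_forall_eventually
      intro t _
      obtain ⟨i, hi⟩ := mem_iUnion.1 (hS (hh (s₀, t)))
      have h2 : h ⁻¹' (O i) ∈ 𝓝 (s₀, t) :=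
        ((hO i).preimage (map_continuous h)).mem_nhds hi
      rw [nhds_prod_eq, Filter.mem_prod_iff] at h2
      obtain ⟨J, hJ, N, hN, hJN⟩ := h2
      obtain ⟨C, hCn, hCo, hC, hCJ, hsC⟩ := vk_ball hJ
      obtain ⟨D, hDn, hDo, hD, hDN, htD⟩ := vk_ball hN
      rw [nhds_prod_eq]
      filter_upwards [Filter.prod_mem_prod hCn hDn] with p hp
      refine ⟨i, D, hDo.mem_nhds hp.2, fun u hu z hz => ?_⟩
      exact hJN ⟨hCJ (hC.uIcc_subset hsC hp.1 hu), hDN hz⟩
    filter_upwards [h1] with s hs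
    obtain ⟨a, ha⟩ := vk_exists hO hS hF (h.eval s₀) (hev s₀)
    choose i N hN hiN using fun t => hs t (mem_univ t)
    let vert : ∀ t : I, Path (h (s₀, t)) (h (s, t)) := fun t =>
      (⟨⟨fun u => h (Icc.convexComb s₀ s u, t), (map_continuous h).comp
        ((Icc.continuous_convexComb s₀ s).prodMk continuous_const)⟩, by simp, by simp⟩)
    have hu : ∀ u, Icc.convexComb s₀ s u ∈ uIcc s₀ s := fun u =>
      vcc_mem ordConnected_uIcc left_mem_uIcc right_mem_uIcc u
    have hb : VPot F (h.eval s) univ (fun t => a t * (F (i t)).hol (vert t)) := by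
      intro t _
      obtain ⟨j, U, hU, hUc, hUO, hUa⟩ := ha t (mem_univ t)
      obtain ⟨D, hDn, hDo, hD, hDN, htD⟩ := vk_ball (hN t)
      refine ⟨i t, U ∩ D, Filter.inter_mem hU hDn, hUc.inter hD, fun z hz => ?_, ?_⟩
      · exact hiN t s right_mem_uIcc z (hDN hz.2)
      · have key : ∀ z ∈ D, (F (i z)).hol (vert z) = (F (i t)).hol (vert z) := by
          intro z hz
          apply hF
          intro u
          exact ⟨⟨hiN z _ (hu u) z (mem_of_mem_nhds (hN z)), hiN t _ (hu u) z (hDN hz)⟩, hh _⟩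
        rintro z ⟨⟨hzU, hzD⟩, -⟩ z' ⟨⟨hzU', hzD'⟩, -⟩
        simp only [key z hzD, key z' hzD']
        have h2 : (a z)⁻¹ * a z' = (F (i t)).hol ((h.eval s₀).subpath z z') := by
          rw [hUa z ⟨hzU, mem_univ _⟩ z' ⟨hzU', mem_univ _⟩]
          apply hF
          intro u
          exact ⟨⟨hUO _ (vcc_mem hUc hzU hzU' u),
            hiN t s₀ left_mem_uIcc _ (hDN (vcc_mem hD hzD hzD' u))⟩, hev _ _⟩
        have h3 : (F (i t)).hol ((h.eval s₀).subpath z z') * (F (i t)).hol (vert z') =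
            (F (i t)).hol (vert z) * (F (i t)).hol ((h.eval s).subpath z z') := by
          refine (F (i t)).vk_rect
            (fun p => h (Icc.convexComb s₀ s p.1, Icc.convexComb z z' p.2)) ?_ ?_ _ _ _ _
            ?_ ?_ ?_ ?_
          · refine (map_continuous h).comp (Continuous.prodMk ?_ ?_)
            · exact (Icc.continuous_convexComb s₀ s).comp continuous_fst
            · exact (Icc.continuous_convexComb z z').comp continuous_snd
          · intro p
            exact ⟨hiN t _ (hu _) _ (hDN (vcc_mem hD hzD hzD' _)), hh _⟩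
          · intro v
            simp only [Icc.convexComb_zero]
            rfl
          · intro v
            simp only [Icc.convexComb_one]
            rfl
          · intro v
            simp only [Icc.convexComb_zero]
            rfl
          · intro v
            simp only [Icc.convexComb_one]
            rfl
        have h4 : (a z * (F (i t)).hol (vert z))⁻¹ * (a z' * (F (i t)).hol (vert z')) =
            ((F (i t)).hol (vert z))⁻¹ * (((a z)⁻¹ * a z') * (F (i t)).hol (vert z')) := by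
          group
        rw [h4, h2, h3, inv_mul_cancel_left]
    rw [vkHol_eq hF (h.eval s₀) (hev s₀) ha, vkHol_eq hF (h.eval s) (hev s) hb]
    have hconst : ∀ t : I, (t = 0 ∨ t = 1) → (F (i t)).hol (vert t) = 1 := by
      intro t ht
      have h5 : ∀ u, vert t u = h (s₀, t) := by
        intro u
        change h (Icc.convexComb s₀ s u, t) = h (s₀, t)
        rcases ht with rfl | rfl
        · rw [Path.Homotopy.source, Path.Homotopy.source]
        · rw [Path.Homotopy.target, Path.Homotopy.target]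
      rw [(F (i t)).vk_congr (vert t) (Path.refl (h (s₀, t))) h5]
      exact (F (i t)).vk_refl ⟨hiN t s₀ left_mem_uIcc t (mem_of_mem_nhds (hN t)), hh _⟩
    rw [hconst 0 (Or.inl rfl), hconst 1 (Or.inr rfl), mul_one, mul_one]
  have h1 := hc.apply_eq_of_preconnectedSpace 0 1
  simp only [Path.Homotopy.eval_zero, Path.Homotopy.eval_one] at h1
  exact h1

end vkglue

theorem HolOn.glue {X : Type*} [TopologicalSpace X] {Γ : Type*} [Group Γ]
    {ι : Type*} {S : Set X} (O : ι → Set X) (hO : ∀ i, IsOpen (O i))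
    (hS : S ⊆ ⋃ i, O i) (F : ∀ i, HolOn (O i ∩ S) Γ)
    (hF : ∀ i j {x y : X} (γ : Path x y), (∀ t, γ t ∈ O i ∩ O j ∩ S) →
      (F i).hol γ = (F j).hol γ) :
    ∃ H : HolOn S Γ, ∀ i {x y : X} (γ : Path x y), (∀ t, γ t ∈ O i ∩ S) →
      H.hol γ = (F i).hol γ :=
  ⟨{ hol := fun γ => vkHol F γ
     trans := fun γ δ hγ hδ => vkHol_trans hO hS hF γ δ hγ hδ
     homot := fun γ γ' h hh => vkHol_homot hO hS hF γ γ' h hh },
    fun i _ _ γ hγ => vkHol_agree hF i γ hγ⟩

end Pool.Agent.Helper26.Maz
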