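import Pool.Agent.Helper26.Maz.Defs

/-!
# MAZ-EX1: attaching a handle
-/

set_option autoImplicit false

namespace Pool.Agent.Helper26.Maz

open Set Topology

/-- The pushout of two closed embeddings of compact Hausdorff spaces. -/
theorem exists_pushout {K A H : Type} [TopologicalSpace K] [TopologicalSpace A]
    [TopologicalSpace H] [CompactSpace K] [CompactSpace A] [T2Space A] [CompactSpace H]
    [T2Space H] (j₁ : K → A) (j₂ : K → H) (c₁ : Continuous j₁) (n₁ : Function.Injective j₁)
    (c₂ : Continuous j₂) (n₂ : Function.Injective j₂) :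
    ∃ (W : Type) (_ : TopologicalSpace W), T2Space W ∧ ∃ (iA : A → W) (iH : H → W),
      Continuous iA ∧ Function.Injective iA ∧ Continuous iH ∧ Function.Injective iH ∧
      (∀ w, w ∈ range iA ∪ range iH) ∧ ∀ a h, iA a = iH h ↔ ∃ p, a = j₁ p ∧ h = j₂ p := by
  classical
  let 𝓕 : Type := {F : C(A, ℝ) × C(H, ℝ) // ∀ p, F.1 (j₁ p) = F.2 (j₂ p)}
  have e₁ : IsClosedEmbedding j₁ := c₁.isClosedEmbedding n₁
  have e₂ : IsClosedEmbedding j₂ := c₂.isClosedEmbedding n₂
  let ev : A ⊕ H → (𝓕 → ℝ) := Sum.elim (fun a F => F.1.1 a) (fun h F => F.1.2 h)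
  -- extension of functions
  have ext₁ : ∀ f : C(A, ℝ), ∃ F : 𝓕, F.1.1 = f := by
    intro f
    obtain ⟨g, hg⟩ := (f.comp ⟨j₁, c₁⟩).exists_extension e₂
    refine ⟨⟨(f, g), fun p => ?_⟩, rfl⟩
    have := DFunLike.congr_fun hg p
    exact this.symm
  have ext₂ : ∀ g : C(H, ℝ), ∃ F : 𝓕, F.1.2 = g := by
    intro g
    obtain ⟨f, hf⟩ := (g.comp ⟨j₂, c₂⟩).exists_extension e₁
    refine ⟨⟨(f, g), fun p => ?_⟩, rfl⟩
    have := DFunLike.congr_fun hf p
    exact this
  have sepA : ∀ a a' : A, (∀ F : 𝓕, F.1.1 a = F.1.1 a') → a = a' := by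
    intro a a' h
    by_contra hne
    obtain ⟨f, h0, h1, -⟩ := exists_continuous_zero_one_of_isClosed
      (isClosed_singleton (x := a)) (isClosed_singleton (x := a')) (by simpa using hne)
    obtain ⟨F, hF⟩ := ext₁ f
    have h2 := h F
    rw [hF, h0 rfl, h1 rfl] at h2
    exact zero_ne_one h2
  have sepH : ∀ a a' : H, (∀ F : 𝓕, F.1.2 a = F.1.2 a') → a = a' := by
    intro a a' h
    by_contra hne
    obtain ⟨f, h0, h1, -⟩ := exists_continuous_zero_one_of_isClosed
      (isClosed_singleton (x := a)) (isClosed_singleton (x := a')) (by simpa using hne)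
    obtain ⟨F, hF⟩ := ext₂ f
    have h2 := h F
    rw [hF, h0 rfl, h1 rfl] at h2
    exact zero_ne_one h2
  have sepAH : ∀ (a : A) (h : H), (∀ F : 𝓕, F.1.1 a = F.1.2 h) → ∃ p, a = j₁ p ∧ h = j₂ p := by
    intro a h hF
    have hmem : h ∈ range j₂ := by
      by_contra hne
      obtain ⟨g, h0, h1, -⟩ := exists_continuous_zero_one_of_isClosed e₂.isClosed_range
        (isClosed_singleton (x := h)) (by simpa using hne)
      let F : 𝓕 := ⟨(0, g), fun p => (h0 (mem_range_self p)).symm⟩
      have h2 : (0 : ℝ) = g h := hF F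
      rw [h1 rfl] at h2
      exact zero_ne_one h2
    obtain ⟨p, rfl⟩ := hmem
    refine ⟨p, ?_, rfl⟩
    apply sepA
    intro F
    rw [F.2 p]
    exact hF F
  refine ⟨range ev, inferInstance, inferInstance, fun a => ⟨ev (Sum.inl a), mem_range_self _⟩,
    fun h => ⟨ev (Sum.inr h), mem_range_self _⟩, ?_, ?_, ?_, ?_, ?_, ?_⟩
  · refine Continuous.subtype_mk (continuous_pi fun F => ?_) _
    exact F.1.1.continuous
  · intro a a' h
    exact sepA a a' fun F => congrFun (congrArg Subtype.val h) F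
  · refine Continuous.subtype_mk (continuous_pi fun F => ?_) _
    exact F.1.2.continuous
  · intro a a' h
    exact sepH a a' fun F => congrFun (congrArg Subtype.val h) F
  · rintro ⟨w, (a | h), rfl⟩
    · exact Or.inl ⟨a, rfl⟩
    · exact Or.inr ⟨h, rfl⟩
  · intro a h
    constructor
    · intro e
      exact sepAH a h fun F => congrFun (congrArg Subtype.val e) F
    · rintro ⟨p, rfl, rfl⟩
      apply Subtype.ext
      funext F
      exact F.2 p

lemma continuous_toB : Continuous toB :=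
  continuous_fst.prodMk (Continuous.subtype_mk (continuous_subtype_val.comp continuous_snd) _)

lemma toB_injective : Function.Injective toB := by
  rintro ⟨a, b⟩ ⟨a', b'⟩ h
  have h1 : a = a' := congrArg Prod.fst h
  have h2 : (b : EuclideanSpace ℝ (Fin 3)) = b' :=
    congrArg (fun q : C4 × B3 => (q.2 : EuclideanSpace ℝ (Fin 3))) h
  rw [h1, Subtype.ext h2]

lemma continuous_bz : Continuous bz :=
  Continuous.subtype_mk (continuous_subtype_val.comp AddCircle.continuous_toCircle) _

lemma bz_injective : Function.Injective bz := by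
  intro t t' h
  have h1 : (AddCircle.toCircle t : ℂ) = AddCircle.toCircle t' :=
    congrArg (fun q : D2 => (q : ℂ)) h
  exact AddCircle.injective_toCircle (by norm_num) (Subtype.ext h1)

/-- MAZ-EX1 -/
theorem exists_W (φ : C26 × D2 → C4 × S2) (hφ : IsTube φ) :
    ∃ (W : Type) (_ : TopologicalSpace W), IsMazur W := by
  have hB3 : CompactSpace B3 := isCompact_iff_compactSpace.1 (isCompact_closedBall _ _)
  have hD2 : CompactSpace D2 := isCompact_iff_compactSpace.1 (isCompact_closedBall _ _)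
  obtain ⟨W, tW, hT2, iA, iH, c1, n1, c2, n2, hr, h⟩ := exists_pushout
    (K := C26 × D2) (A := C4 × B3) (H := D2 × D2) (fun p => toB (φ p)) (fun p => (bz p.1, p.2))
    (continuous_toB.comp hφ.1) (toB_injective.comp hφ.2.1)
    ((continuous_bz.comp continuous_fst).prodMk continuous_snd)
    (by
      rintro ⟨t, s⟩ ⟨t', s'⟩ h
      simp only [Prod.mk.injEq] at h
      rw [bz_injective h.1, h.2])
  refine ⟨W, tW, hT2, φ, iA, iH, hφ, c1, n1, c2, n2, hr, fun a q => ?_⟩
  rw [h]
  constructor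
  · rintro ⟨⟨t, s⟩, h1, h2⟩
    exact ⟨t, s, h1, h2⟩
  · rintro ⟨t, s, h1, h2⟩
    exact ⟨(t, s), h1, h2⟩

end Pool.Agent.Helper26.Maz
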