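import Pool.Agent.Helper85.CliqueLB2

/-!
# Maker's greedy lower bound in the `(m : m)` clique game
-/

set_option autoImplicit false

namespace Pool.Agent.Helper85.CliqueLB

open Pool.Agent.Helper65.CliqueGame
open scoped Classical

section stages

lemma EE_nonneg {n : ℕ} (B : Finset (Sym2 (Fin n))) {ω : Fin n → ℝ} (h0 : ∀ x, 0 ≤ ω x) :
    0 ≤ EE B ω :=
  Finset.sum_nonneg (fun x _ => mul_nonneg (h0 x) (dd_nonneg B h0 x))

lemma EE_mono {n : ℕ} {B B' : Finset (Sym2 (Fin n))} (hB : B ⊆ B') {ω ω' : Fin n → ℝ}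
    (h0 : ∀ x, 0 ≤ ω x) (h : ∀ x, ω x ≤ ω' x) : EE B ω ≤ EE B' ω' :=
  Finset.sum_le_sum (fun x _ => mul_le_mul (h x) (dd_mono hB h0 h x) (dd_nonneg B h0 x)
    ((h0 x).trans (h x)))

lemma EE_ind_zero {n : ℕ} {B : Finset (Sym2 (Fin n))} {T : Finset (Fin n)}
    (h : ∀ x ∈ T, ∀ y ∈ T, s(x, y) ∉ B) : EE B (ind T) = 0 := by
  unfold EE
  rw [sum_ind_mul]
  refine Finset.sum_eq_zero (fun x hx => ?_)
  rw [dd_ind]
  rw [Nat.cast_eq_zero, Finset.card_eq_zero, Finset.filter_eq_empty_iff]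
  exact fun y hy => h x hx y hy

lemma ind_mono {n : ℕ} {C C' : Finset (Fin n)} (h : C ⊆ C') (x : Fin n) : ind C x ≤ ind C' x := by
  unfold ind
  by_cases h1 : x ∈ C
  · rw [if_pos h1, if_pos (h h1)]
  · rw [if_neg h1]; split_ifs <;> norm_num

/-- Maker can build a clique with `j` vertices in a large set without Breaker edges. -/
theorem build {m : ℕ} (hm : 1 ≤ m) : ∀ j : ℕ, ∃ N t : ℕ, ∀ (n q : ℕ)
    (M B : Finset (Sym2 (Fin n))) (C : Finset (Fin n)), Disjoint M B → B ⊆ edges n →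
    N ≤ C.card → (∀ x ∈ C, ∀ y ∈ C, s(x, y) ∉ B) →
    (∀ M' B' G, M ⊆ M' → B ⊆ B' → Disjoint M' B' → B' ⊆ edges n → G ⊆ C → G.card = j →
      (∀ x ∈ G, ∀ y ∈ G, x ≠ y → s(x, y) ∈ M') → (B' \ B).card ≤ m * t →
      MakerWins n m q true M' B') →
    MakerWins n m q true M B := by
  intro j
  induction j with
  | zero =>
    refine ⟨0, 0, ?_⟩
    intro n q M B C hMB hB _ _ hcont
    exact hcont M B ∅ (Finset.Subset.refl _) (Finset.Subset.refl _) hMB hB
      (Finset.empty_subset _) rfl (by simp) (by simp)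
  | succ j ih =>
    obtain ⟨N, t, ih⟩ := ih
    set τ := 2 * (N * (2 * m + 1)) with hτ
    refine ⟨(m + 1) * τ + 1, τ + t, ?_⟩
    intro n q M B C hMB hB hC hCB hcont
    have hCne : C.Nonempty := by
      rw [← Finset.card_pos]; omega
    obtain ⟨v, hv⟩ := hCne
    have hce : (C.erase v).card = C.card - 1 := Finset.card_erase_of_mem hv
    refine star hm v τ M B (C.erase v) hMB hB (Finset.notMem_erase _ _)
      (fun u hu => hCB v hv u (Finset.mem_of_mem_erase hu)) (by omega) ?_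
    intro M' B' T h1 h2 h3 h4 h5 h6 h7 h8
    have hTC : T ⊆ C := h5.trans (Finset.erase_subset _ _)
    have hm0 : (0 : ℝ) < m := by exact_mod_cast hm
    -- prune
    obtain ⟨C1, hC1T, hC1a, hC1b, _⟩ := prune h4 (1 / (4 * m)) T
    have hEE : EE B' (ind T) ≤ 2 * (m * τ) := by
      have e1 := EE_new (B := B) (B' := B') (F := B' \ B) (ω := ind T) (ind_nonneg T)
        (ind_le_one T) (fun x y g1 g2 g3 => absurd (Finset.mem_sdiff.2 ⟨g1, g2⟩) g3)
      rw [EE_ind_zero (fun x hx y hy => hCB x (hTC hx) y (hTC hy))] at e1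
      have e2 : ((B' \ B).card : ℝ) ≤ m * τ := by exact_mod_cast h8
      linarith
    have hPsiT : (τ : ℝ) / 2 ≤ Psi (1 / (4 * m)) B' (ind T) := by
      unfold Psi
      rw [sum_ind, h6]
      have : 1 / (4 * (m : ℝ)) * EE B' (ind T) ≤ 1 / (4 * m) * (2 * (m * τ)) :=
        mul_le_mul_of_nonneg_left hEE (by positivity)
      have e3 : 1 / (4 * (m : ℝ)) * (2 * (m * τ)) = τ / 2 := by field_simp; ring
      linarith
    have hC1c : N * (2 * m + 1) ≤ C1.card := by
      have e4 : Psi (1 / (4 * m)) B' (ind C1) ≤ C1.card := by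
        unfold Psi
        rw [sum_ind]
        have := mul_nonneg (by positivity : (0 : ℝ) ≤ 1 / (4 * m))
          (EE_nonneg B' (ind_nonneg C1))
        linarith
      have e5 : (τ : ℝ) / 2 ≤ C1.card := by linarith
      have e6 : (τ : ℝ) = 2 * ((N * (2 * m + 1) : ℕ) : ℝ) := by rw [hτ]; push_cast; ring
      rw [e6] at e5
      have e7 : ((N * (2 * m + 1) : ℕ) : ℝ) ≤ C1.card := by linarith
      exact_mod_cast e7
    have hdeg : ∀ u ∈ C1, (C1.filter (fun w => s(u, w) ∈ B')).card ≤ 2 * m := by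
      intro u hu
      have e8 := hC1b u hu
      have e9 : 2 * (1 / (4 * (m : ℝ))) = 1 / (2 * m) := by field_simp; ring
      rw [e9, one_div, inv_mul_lt_iff₀ (by positivity), mul_one] at e8
      have e10 : (C1.filter (fun w => s(u, w) ∈ B')).card < 2 * m := by exact_mod_cast e8
      omega
    obtain ⟨I, hIC1, hIc, hIB⟩ := indep h4 (2 * m) N C1 hdeg hC1c
    refine ih n q M' B' I h3 h4 hIc.ge hIB ?_
    intro M'' B'' G g1 g2 g3 g4 g5 g6 g7 g8
    have hGT : G ⊆ T := g5.trans (hIC1.trans hC1T)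
    have hvG : v ∉ G := fun h => Finset.notMem_erase _ _ (h5 (hGT h))
    refine hcont M'' B'' (insert v G) (h1.trans g1) (h2.trans g2) g3 g4 ?_ ?_ ?_ ?_
    · intro x hx
      rcases Finset.mem_insert.1 hx with rfl | hx
      · exact hv
      · exact hTC (hGT hx)
    · rw [Finset.card_insert_of_notMem hvG, g6]
    · intro x hx y hy hxy
      by_cases hxv : x = v
      · have hyG : y ∈ G := Finset.mem_of_mem_insert_of_ne hy (by rw [← hxv]; exact hxy.symm)
        rw [hxv]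
        exact g1 (h7 y (hGT hyG))
      · have hxG := Finset.mem_of_mem_insert_of_ne hx hxv
        by_cases hyv : y = v
        · rw [hyv, Sym2.eq_swap]
          exact g1 (h7 x (hGT hxG))
        · exact g7 x hxG y (Finset.mem_of_mem_insert_of_ne hy hyv) hxy
    · have : (B'' \ B).card ≤ (B'' \ B').card + (B' \ B).card := by
        refine (Finset.card_le_card ?_).trans (Finset.card_union_le _ _)
        intro e he
        rw [Finset.mem_sdiff] at he
        rw [Finset.mem_union, Finset.mem_sdiff, Finset.mem_sdiff]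
        by_cases heB : e ∈ B'
        · exact Or.inr ⟨heB, he.2⟩
        · exact Or.inl ⟨he.1, heB⟩
      nlinarith

/-- one stage of the strategy -/
theorem stage {m : ℕ} (hm : 1 ≤ m) {μ p : ℝ} (hμ : 0 < μ) (hp : p = 1 / (m + 1))
    (hρ : 0 ≤ p - 4 * μ * m) : ∃ c X0 : ℝ, 0 ≤ c ∧ ∀ (n q : ℕ) (M B : Finset (Sym2 (Fin n)))
    (K C : Finset (Fin n)), Disjoint M B → B ⊆ edges n → Disjoint K C →
    (∀ x ∈ K, ∀ y ∈ K, x ≠ y → s(x, y) ∈ M) → (∀ x ∈ K, ∀ y ∈ C, s(x, y) ∈ M) →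
    X0 ≤ Psi μ B (ind C) →
    (∀ M' B' K' C', Disjoint M' B' → B' ⊆ edges n → Disjoint K' C' →
      (∀ x ∈ K', ∀ y ∈ K', x ≠ y → s(x, y) ∈ M') → (∀ x ∈ K', ∀ y ∈ C', s(x, y) ∈ M') →
      K'.card = K.card + m → (p - 4 * μ * m) * Psi μ B (ind C) - c ≤ Psi μ B' (ind C') →
      MakerWins n m q true M' B') →
    MakerWins n m q true M B := by
  obtain ⟨N, t, hbuild⟩ := build hm m
  have hm0 : (0 : ℝ) < m := by exact_mod_cast hm
  have hp0 : 0 < p := by rw [hp]; positivity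
  have hp1 : p ≤ 1 := by
    have hm0 : (0 : ℝ) < (m : ℝ) + 1 := by positivity
    rw [hp, div_le_one hm0]
    linarith
  set Δ : ℕ := ⌈1 / (2 * μ)⌉₊ with hΔ
  have hΔ1 : 1 / (2 * μ) ≤ Δ := Nat.le_ceil _
  refine ⟨p * ((m + m * (Δ + m * t) : ℕ) + 2 * μ * (m * t)), ((N * (Δ + 1) : ℕ) : ℝ),
    by positivity, ?_⟩
  intro n q M B K C hMB hB hKC hK hKCM hX0 hcont
  obtain ⟨C1, hC1C, hC1a, hC1b, hC1c⟩ := prune hB μ C
  have hC1Psi : Psi μ B (ind C1) ≤ C1.card := by
    unfold Psi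
    rw [sum_ind]
    have := mul_nonneg hμ.le (EE_nonneg B (ind_nonneg C1))
    linarith
  have hC1N : N * (Δ + 1) ≤ C1.card := by
    have : ((N * (Δ + 1) : ℕ) : ℝ) ≤ C1.card := by linarith
    exact_mod_cast this
  have hdeg : ∀ u ∈ C1, (C1.filter (fun w => s(u, w) ∈ B)).card ≤ Δ := by
    intro u hu
    have e1 := hC1b u hu
    have e2 : ((C1.filter (fun w => s(u, w) ∈ B)).card : ℝ) < 1 / (2 * μ) := by
      rw [lt_div_iff₀ (by positivity)]
      linarith
    have e3 : ((C1.filter (fun w => s(u, w) ∈ B)).card : ℝ) < Δ := lt_of_lt_of_le e2 hΔ1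
    exact_mod_cast e3.le
  obtain ⟨I, hIC1, hIc, hIB⟩ := indep hB Δ N C1 hdeg hC1N
  refine hbuild n q M B I hMB hB hIc.ge hIB ?_
  intro M' B' G g1 g2 g3 g4 g5 g6 g7 g8
  have hGC1 : G ⊆ C1 := g5.trans hIC1
  set R0 := (C1 \ G).filter (fun w => ∀ g ∈ G, s(g, w) ∉ B') with hR0
  have hR0C1 : R0 ⊆ C1 := (Finset.filter_subset _ _).trans Finset.sdiff_subset
  refine dup hm hμ.le hp G g6.le R0.card M' B' ∅ R0 le_rfl g3 g4 (Finset.disjoint_empty_left _)
    (by simp) ?_ (by simp) ?_ ?_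
  · intro g hg h
    exact (Finset.mem_sdiff.1 (Finset.mem_filter.1 h).1).2 hg
  · intro w hw g hg
    exact (Finset.mem_filter.1 hw).2 g hg
  intro M'' B'' T' k1 k2 k3 k4 k5 k6 k7
  rw [Finset.empty_union] at k5
  have hKG : Disjoint K G :=
    Finset.disjoint_of_subset_right (hGC1.trans hC1C) hKC
  have hGT' : Disjoint G T' := by
    rw [Finset.disjoint_right]
    intro x hx
    exact (Finset.mem_sdiff.1 (Finset.mem_filter.1 (k5 hx)).1).2
  have hMM : M ⊆ M'' := g1.trans k1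
  refine hcont M'' B'' (K ∪ G) T' k3 k4 ?_ ?_ ?_ ?_ ?_
  · rw [Finset.disjoint_union_left]
    exact ⟨Finset.disjoint_of_subset_right ((k5.trans hR0C1).trans hC1C) hKC, hGT'⟩
  · intro x hx y hy hxy
    rcases Finset.mem_union.1 hx with hx | hx
    · rcases Finset.mem_union.1 hy with hy | hy
      · exact hMM (hK x hx y hy hxy)
      · exact hMM (hKCM x hx y (hC1C (hGC1 hy)))
    · rcases Finset.mem_union.1 hy with hy | hy
      · rw [Sym2.eq_swap]
        exact hMM (hKCM y hy x (hC1C (hGC1 hx)))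
      · exact k1 (g7 x hx y hy hxy)
  · intro x hx y hy
    rcases Finset.mem_union.1 hx with hx | hx
    · exact hMM (hKCM x hx y (hC1C (hR0C1 (k5 hy))))
    · exact k6 x hx y hy
  · rw [Finset.card_union_of_disjoint hKG, g6]
  · -- the estimate
    have e1 : Psi μ B' (om p ∅ R0) = p * R0.card - μ * (p ^ 2 * EE B' (ind R0)) := by
      have h1 : om p ∅ R0 = fun x => p * ind R0 x := by
        funext x
        simp [om, ind]
      rw [h1]
      unfold Psi
      have h2 : EE B' (fun x => p * ind R0 x) = p ^ 2 * EE B' (ind R0) := by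
        unfold EE dd
        rw [Finset.mul_sum]
        refine Finset.sum_congr rfl (fun x _ => ?_)
        have h3 : ∑ y, bt B' x y * (p * ind R0 y) = p * ∑ y, bt B' x y * ind R0 y := by
          rw [Finset.mul_sum]
          exact Finset.sum_congr rfl (fun y _ => by ring)
        rw [h3]; ring
      rw [h2, ← Finset.mul_sum, sum_ind]
    have e2 : EE B' (ind R0) ≤ EE B (ind C1) + 2 * (m * t) := by
      have h1 := EE_new (B := B) (B' := B') (F := B' \ B) (ω := ind R0) (ind_nonneg R0)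
        (ind_le_one R0) (fun x y a1 a2 a3 => absurd (Finset.mem_sdiff.2 ⟨a1, a2⟩) a3)
      have h2 : ((B' \ B).card : ℝ) ≤ m * t := by exact_mod_cast g8
      have h3 : EE B (ind R0) ≤ EE B (ind C1) :=
        EE_mono (Finset.Subset.refl _) (ind_nonneg R0) (ind_mono hR0C1)
      linarith
    have e3 : C1.card ≤ R0.card + (m + m * (Δ + m * t)) := by
      have h1 : R0.card + ((C1 \ G).filter (fun w => ¬ ∀ g ∈ G, s(g, w) ∉ B')).card
          = (C1 \ G).card := Finset.card_filter_add_card_filter_not _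
      have h2 : (C1 \ G).card + G.card = C1.card := Finset.card_sdiff_add_card_eq_card hGC1
      have h3 : ((C1 \ G).filter (fun w => ¬ ∀ g ∈ G, s(g, w) ∉ B')).card
          ≤ m * (Δ + m * t) := by
        have h4 : (C1 \ G).filter (fun w => ¬ ∀ g ∈ G, s(g, w) ∉ B')
            ⊆ G.biUnion (fun g => C1.filter (fun w => s(g, w) ∈ B')) := by
          intro w hw
          rw [Finset.mem_filter] at hw
          obtain ⟨hw1, hw2⟩ := hw
          push Not at hw2
          obtain ⟨g, hg, hgw⟩ := hw2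
          rw [Finset.mem_biUnion]
          exact ⟨g, hg, Finset.mem_filter.2 ⟨(Finset.mem_sdiff.1 hw1).1, hgw⟩⟩
        refine (Finset.card_le_card h4).trans ?_
        refine (Finset.card_biUnion_le).trans ?_
        rw [← g6, ← smul_eq_mul]
        refine Finset.sum_le_card_nsmul _ _ _ ?_
        intro g hg
        have h5 : C1.filter (fun w => s(g, w) ∈ B')
            ⊆ C1.filter (fun w => s(g, w) ∈ B) ∪
              (C1.filter (fun w => s(g, w) ∉ B)).filter (fun w => ¬ s(g, w) ∉ B') := by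
          intro w hw
          rw [Finset.mem_filter] at hw
          rw [Finset.mem_union, Finset.mem_filter, Finset.mem_filter, Finset.mem_filter, not_not]
          by_cases h6 : s(g, w) ∈ B
          · exact Or.inl ⟨hw.1, h6⟩
          · exact Or.inr ⟨⟨hw.1, h6⟩, hw.2⟩
        refine (Finset.card_le_card h5).trans ((Finset.card_union_le _ _).trans ?_)
        rw [g6]
        exact Nat.add_le_add (hdeg g (hGC1 hg))
          (card_new g _ (fun u hu => (Finset.mem_filter.1 hu).2) g8)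
      omega
    have e3' : (C1.card : ℝ) ≤ R0.card + ((m + m * (Δ + m * t) : ℕ) : ℝ) := by
      exact_mod_cast e3
    have e4 : (R0.card : ℝ) ≤ C1.card := by exact_mod_cast Finset.card_le_card hR0C1
    have e5 : 0 ≤ EE B' (ind R0) := EE_nonneg _ (ind_nonneg _)
    have e6 : p ^ 2 * EE B' (ind R0) ≤ p * EE B' (ind R0) := by
      refine mul_le_mul_of_nonneg_right ?_ e5
      nlinarith
    have hPC1 : Psi μ B (ind C1) = C1.card - μ * EE B (ind C1) := by
      unfold Psi; rw [sum_ind]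
    rw [e1] at k7
    set W : ℝ := ((m + m * (Δ + m * t) : ℕ) : ℝ) with hW
    have f1 : (p - 4 * μ * m) * Psi μ B (ind C) ≤ (p - 4 * μ * m) * Psi μ B (ind C1) :=
      mul_le_mul_of_nonneg_left hC1a hρ
    have f2 : p * (C1.card - W - μ * (EE B (ind C1) + 2 * (m * t)))
        ≤ p * R0.card - μ * (p ^ 2 * EE B' (ind R0)) := by
      have a1 : p * (C1.card - W) ≤ p * R0.card :=
        mul_le_mul_of_nonneg_left (by linarith) hp0.le
      have a2 : μ * (p ^ 2 * EE B' (ind R0)) ≤ μ * (p * EE B' (ind R0)) :=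
        mul_le_mul_of_nonneg_left e6 hμ.le
      have a3 : (μ * p) * EE B' (ind R0) ≤ (μ * p) * (EE B (ind C1) + 2 * (m * t)) :=
        mul_le_mul_of_nonneg_left e2 (by positivity)
      nlinarith
    have f3 : 2 * μ * m * R0.card ≤ 2 * μ * m * (2 * Psi μ B (ind C1)) :=
      mul_le_mul_of_nonneg_left (e4.trans hC1c) (by positivity)
    have f4 : p * Psi μ B (ind C1) = p * (C1.card - μ * EE B (ind C1)) := by rw [hPC1]
    nlinarith

/-- many stages -/
theorem stages {m : ℕ} (hm : 1 ≤ m) {μ p : ℝ} (hμ : 0 < μ) (hp : p = 1 / (m + 1))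
    (hρ : 0 < p - 4 * μ * m) : ∃ X : ℝ, 0 < X ∧ ∀ (n q r : ℕ),
    q ≤ m * r → X ≤ (p - 4 * μ * m) ^ r * n → MakerWins n m q true ∅ ∅ := by
  obtain ⟨c, X0, hc, hst⟩ := stage hm hμ hp hρ.le
  set ρ := p - 4 * μ * m with hρdef
  have hm0 : (1 : ℝ) ≤ m := by exact_mod_cast hm
  have hp2 : p ≤ 1 / 2 := by
    rw [hp]
    exact one_div_le_one_div_of_le (by norm_num) (by linarith)
  have hρ2 : ρ ≤ 1 / 2 := by
    have : 0 ≤ 4 * μ * m := by positivity
    linarith
  have hρ1 : ρ ≤ 1 := by linarith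
  refine ⟨|X0| + 2 * c + 1, by positivity, ?_⟩
  intro n q r
  -- general position
  have key : ∀ (r : ℕ) (M B : Finset (Sym2 (Fin n))) (K C : Finset (Fin n)), Disjoint M B →
      B ⊆ edges n → Disjoint K C → (∀ x ∈ K, ∀ y ∈ K, x ≠ y → s(x, y) ∈ M) →
      (∀ x ∈ K, ∀ y ∈ C, s(x, y) ∈ M) → q ≤ K.card + m * r →
      X0 + 2 * c ≤ ρ ^ r * (Psi μ B (ind C) + 2 * c) → 0 ≤ Psi μ B (ind C) + 2 * c →
      MakerWins n m q true M B := by
    intro r
    induction r with
    | zero =>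
      intro M B K C _ _ _ hK _ hq _ _
      refine wins_of_clique hm _ true M B le_rfl ?_
      obtain ⟨A, hAK, hA⟩ := Finset.exists_subset_card_eq (s := K) (n := q) (by simpa using hq)
      exact ⟨A, hA, fun u hu v hv huv => hK u (hAK hu) v (hAK hv) huv⟩
    | succ r ih =>
      intro M B K C hMB hB hKC hK hKCM hq hX hpos
      have hle : ρ ^ (r + 1) * (Psi μ B (ind C) + 2 * c) ≤ Psi μ B (ind C) + 2 * c :=
        mul_le_of_le_one_left hpos (pow_le_one₀ hρ.le hρ1)
      refine hst n q M B K C hMB hB hKC hK hKCM (by linarith) ?_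
      intro M' B' K' C' h1 h2 h3 h4 h5 h6 h7
      have h8 : ρ * (Psi μ B (ind C) + 2 * c) ≤ Psi μ B' (ind C') + 2 * c := by
        have : ρ * (2 * c) ≤ 1 / 2 * (2 * c) := mul_le_mul_of_nonneg_right hρ2 (by linarith)
        nlinarith
      refine ih M' B' K' C' h1 h2 h3 h4 h5 ?_ ?_ ?_
      · rw [h6]
        calc q ≤ K.card + m * (r + 1) := hq
          _ = K.card + m + m * r := by ring
      · calc X0 + 2 * c ≤ ρ ^ (r + 1) * (Psi μ B (ind C) + 2 * c) := hX
          _ = ρ ^ r * (ρ * (Psi μ B (ind C) + 2 * c)) := by ring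
          _ ≤ ρ ^ r * (Psi μ B' (ind C') + 2 * c) :=
              mul_le_mul_of_nonneg_left h8 (pow_nonneg hρ.le _)
      · exact le_trans (mul_nonneg hρ.le hpos) h8
  intro hq hX
  have hPsi : Psi μ (∅ : Finset (Sym2 (Fin n))) (ind Finset.univ) = n := by
    unfold Psi
    rw [EE_ind_zero (by simp), sum_ind]
    simp
  refine key r ∅ ∅ ∅ Finset.univ (Finset.disjoint_empty_left _) (Finset.empty_subset _)
    (Finset.disjoint_empty_left _) (by simp) (by simp) (by simpa using hq) ?_ ?_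
  · rw [hPsi]
    have h1 : ρ ^ r * (n : ℝ) ≤ ρ ^ r * (n + 2 * c) :=
      mul_le_mul_of_nonneg_left (by linarith) (pow_nonneg hρ.le _)
    have h2 := le_abs_self X0
    linarith
  · rw [hPsi]; positivity

end stages

/-- Maker's greedy lower bound. -/
theorem lower_bound (m : ℕ) (hm : 1 ≤ m) (ε : ℝ) (hε : 0 < ε) : ∃ n₀ : ℕ, ∀ n ≥ n₀, ∀ q : ℕ,
    (q : ℝ) ≤ (1 - ε) * (m / Real.logb 2 (m + 1)) * Real.logb 2 n →
      MakerWins n m q true ∅ ∅ := by
  have hm0 : (1 : ℝ) ≤ m := by exact_mod_cast hm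
  set c := Real.logb 2 (m + 1) with hc
  have h2c : (2 : ℝ) ^ c = m + 1 := Real.rpow_logb (by norm_num) (by norm_num) (by linarith)
  have hc1 : 1 ≤ c := by
    rw [hc, Real.le_logb_iff_rpow_le (by norm_num) (by linarith)]
    rw [Real.rpow_one]; linarith
  set p : ℝ := 1 / (m + 1) with hp
  set ρ : ℝ := (2 : ℝ) ^ (-(c + ε / 2)) with hρ
  have hρ0 : 0 < ρ := Real.rpow_pos_of_pos (by norm_num) _
  have hρp : ρ < p := by
    have h1 : p = (2 : ℝ) ^ (-c) := by
      rw [Real.rpow_neg (by norm_num), h2c, hp, one_div]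
    rw [h1, hρ]
    exact Real.rpow_lt_rpow_of_exponent_lt (by norm_num) (by linarith)
  set μ : ℝ := (p - ρ) / (4 * m) with hμ
  have hμ0 : 0 < μ := div_pos (by linarith) (by linarith)
  have hρμ : p - 4 * μ * m = ρ := by
    rw [hμ]; field_simp; ring
  obtain ⟨X, hX0, hst⟩ := stages hm hμ0 hp (by rw [hρμ]; exact hρ0)
  rw [hρμ] at hst
  -- size of n
  set A : ℝ := 2 / ε * (c + ε / 2 + Real.logb 2 X) with hA
  refine ⟨⌈(2 : ℝ) ^ A⌉₊ + 1, ?_⟩
  intro n hn q hq
  have hn0 : (2 : ℝ) ^ A ≤ n := by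
    have h1 : (2 : ℝ) ^ A ≤ ⌈(2 : ℝ) ^ A⌉₊ := Nat.le_ceil _
    have h2 : (⌈(2 : ℝ) ^ A⌉₊ : ℝ) ≤ n := by exact_mod_cast (by omega : ⌈(2 : ℝ) ^ A⌉₊ ≤ n)
    linarith
  have hn1 : (1 : ℝ) ≤ n := by exact_mod_cast (by omega : 1 ≤ n)
  set L := Real.logb 2 n with hL
  have hnL : (2 : ℝ) ^ L = n := Real.rpow_logb (by norm_num) (by norm_num) (by linarith)
  have hL0 : 0 ≤ L := Real.logb_nonneg (by norm_num) hn1
  have hLA : A ≤ L := by
    rw [hL, Real.le_logb_iff_rpow_le (by norm_num) (by linarith)]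
    exact hn0
  set r := ⌈(q : ℝ) / m⌉₊ with hr
  have hqr : q ≤ m * r := by
    have h1 : (q : ℝ) / m ≤ r := Nat.le_ceil _
    rw [div_le_iff₀ (by linarith)] at h1
    have h2 : (q : ℝ) ≤ ((m * r : ℕ) : ℝ) := by push_cast; linarith
    exact_mod_cast h2
  refine hst n q r hqr ?_
  have hr1 : (r : ℝ) ≤ (1 - ε) * L / c + 1 := by
    have h1 : (r : ℝ) < (q : ℝ) / m + 1 := Nat.ceil_lt_add_one (by positivity)
    have h2 : (q : ℝ) / m ≤ (1 - ε) * L / c := by
      rw [div_le_iff₀ (by linarith)]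
      calc (q : ℝ) ≤ (1 - ε) * (m / c) * L := hq
        _ = (1 - ε) * L / c * m := by ring
    linarith
  have hexp : Real.logb 2 X ≤ L - r * (c + ε / 2) := by
    have h1 : (r : ℝ) * (c + ε / 2) ≤ ((1 - ε) * L / c + 1) * (c + ε / 2) :=
      mul_le_mul_of_nonneg_right hr1 (by linarith)
    have h2 : ((1 - ε) * L / c + 1) * (c + ε / 2)
        = (1 - ε) * L + (1 - ε) * (ε / (2 * c)) * L + (c + ε / 2) := by
      field_simp
    have h3 : (1 - ε) + (1 - ε) * (ε / (2 * c)) ≤ 1 - ε / 2 := by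
      have h4 : 0 ≤ ε / (2 * c) := by positivity
      have h5 : ε / (2 * c) ≤ ε / 2 := by
        apply div_le_div_of_nonneg_left hε.le (by norm_num) (by linarith)
      by_cases h6 : ε ≤ 1
      · nlinarith
      · push Not at h6
        nlinarith
    have h7 : ((1 - ε) + (1 - ε) * (ε / (2 * c))) * L ≤ (1 - ε / 2) * L :=
      mul_le_mul_of_nonneg_right h3 hL0
    have h8 : c + ε / 2 + Real.logb 2 X ≤ ε / 2 * L := by
      have : ε / 2 * A = c + ε / 2 + Real.logb 2 X := by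
        rw [hA]; field_simp
      rw [← this]
      exact mul_le_mul_of_nonneg_left hLA (by linarith)
    nlinarith
  have hfin : ρ ^ r * (n : ℝ) = (2 : ℝ) ^ (L - r * (c + ε / 2)) := by
    rw [← hnL, hρ, ← Real.rpow_natCast, ← Real.rpow_mul (by norm_num),
      ← Real.rpow_add (by norm_num)]
    congr 1
    ring
  rw [hfin]
  calc X = (2 : ℝ) ^ (Real.logb 2 X) := (Real.rpow_logb (by norm_num) (by norm_num) hX0).symm
    _ ≤ _ := Real.rpow_le_rpow_of_exponent_le (by norm_num) hexp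

end Pool.Agent.Helper85.CliqueLB
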