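import Mathlib

/-!
# Box complexes of graphs and the coindex

Definitions used in the statement about the coindex gap of the two box complexes of a graph.
-/

namespace Pool.Agent.Helper85.Box

open Metric

/-- The unit sphere `S^n` of Euclidean `(n+1)`-space, with its antipodal map `x ↦ -x`. -/
abbrev Sph (n : ℕ) : Type := sphere (0 : EuclideanSpace ℝ (Fin (n + 1))) 1

/-- The coindex of a space `X` with involution `ν`: the supremum of `-1` (the empty sphere) and of
all `n` such that there is a continuous map `f : S^n → X` with `f (-x) = ν (f x)`. -/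
noncomputable def coind (X : Type) [TopologicalSpace X] (ν : X → X) : EReal :=
  sSup ({-1} ∪ {r : EReal | ∃ n : ℕ, r = (n : EReal) ∧
    ∃ f : Sph n → X, Continuous f ∧ ∀ x, f (-x) = ν (f x)})

/-- A simplicial complex on the signed vertices `(v, true) = +v` and `(v, false) = -v`,
given by its family of simplices, and closed under exchanging the signs. -/
structure SignedComplex (V : Type) where
  faces : Set (Set (V × Bool))
  down : ∀ S ∈ faces, ∀ T, T ⊆ S → T ∈ faces
  symm : ∀ S ∈ faces, {p : V × Bool | (p.1, !p.2) ∈ S} ∈ faces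

/-- The geometric realisation (barycentric coordinates) of a complex on finitely many vertices. -/
def SignedComplex.space {V : Type} [Fintype V] (K : SignedComplex V) : Type :=
  {f : V × Bool → ℝ // (∀ p, 0 ≤ f p) ∧ ∑ p, f p = 1 ∧ {p | f p ≠ 0} ∈ K.faces}

instance {V : Type} [Fintype V] (K : SignedComplex V) : TopologicalSpace K.space :=
  instTopologicalSpaceSubtype

/-- Sum over signed vertices is invariant under the exchange of signs. -/
lemma sum_flip {V : Type} [Fintype V] (f : V × Bool → ℝ) :
    ∑ p : V × Bool, f (p.1, !p.2) = ∑ p : V × Bool, f p := by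
  rw [Fintype.sum_prod_type, Fintype.sum_prod_type]
  simp [add_comm]

/-- The involution `+v ↔ -v` on the geometric realisation. -/
def SignedComplex.inv {V : Type} [Fintype V] (K : SignedComplex V) (f : K.space) : K.space :=
  ⟨fun p => f.1 (p.1, !p.2), fun p => f.2.1 _, by rw [sum_flip]; exact f.2.2.1,
    K.symm _ f.2.2.2⟩

/-- The vertices that occur positively in a set of signed vertices. -/
def pos {V : Type} (S : Set (V × Bool)) : Set V := {v | (v, true) ∈ S}

/-- The vertices that occur negatively in a set of signed vertices. -/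
def neg {V : Type} (S : Set (V × Bool)) : Set V := {v | (v, false) ∈ S}

/-- The common neighbours of a set of vertices. -/
def CN {V : Type} (G : SimpleGraph V) (A : Set V) : Set V := {v | ∀ a ∈ A, G.Adj a v}

lemma CN_anti {V : Type} (G : SimpleGraph V) {A A' : Set V} (h : A ⊆ A') : CN G A' ⊆ CN G A := by
  intro v hv a ha
  exact hv a (h ha)

/-- The box complex `B₀(G)`: all `A' ⊎ A''` with `A'`, `A''` disjoint and `G[A', A'']` complete. -/
def B0 {V : Type} (G : SimpleGraph V) : SignedComplex V where
  faces := {S | Disjoint (pos S) (neg S) ∧ ∀ a ∈ pos S, ∀ b ∈ neg S, G.Adj a b}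
  down := by
    rintro S ⟨h1, h2⟩ T hT
    have hp : pos T ⊆ pos S := fun v hv => hT hv
    have hn : neg T ⊆ neg S := fun v hv => hT hv
    exact ⟨h1.mono hp hn, fun a ha b hb => h2 a (hp ha) b (hn hb)⟩
  symm := by
    rintro S ⟨h1, h2⟩
    exact ⟨h1.symm, fun a ha b hb => (h2 b hb a ha).symm⟩

/-- The box complex `B(G)`: all simplices `A' ⊎ A''` of `B₀(G)` such that both `A'` and `A''` have
a common neighbour. -/
def B {V : Type} (G : SimpleGraph V) : SignedComplex V where
  faces := {S | S ∈ (B0 G).faces ∧ (CN G (pos S)).Nonempty ∧ (CN G (neg S)).Nonempty}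
  down := by
    rintro S ⟨h1, h2, h3⟩ T hT
    have hp : pos T ⊆ pos S := fun v hv => hT hv
    have hn : neg T ⊆ neg S := fun v hv => hT hv
    exact ⟨(B0 G).down S h1 T hT, h2.mono (CN_anti G hp), h3.mono (CN_anti G hn)⟩
  symm := by
    rintro S ⟨h1, h2, h3⟩
    exact ⟨(B0 G).symm S h1, h3, h2⟩

end Pool.Agent.Helper85.Box
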