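import Pool.Agent.Helper85.CliqueLB1

/-!
# Maker's greedy strategy: the phases of one stage
-/

set_option autoImplicit false

namespace Pool.Agent.Helper85.CliqueLB

open Pool.Agent.Helper65.CliqueGame
open scoped Classical

section phases
variable {n m q : ℕ}

/-- the doubling phase -/
lemma dup (hm : 1 ≤ m) {μ p : ℝ} (hμ : 0 ≤ μ) (hp : p = 1 / (m + 1)) (G : Finset (Fin n))
    (hG : G.card ≤ m) : ∀ (k : ℕ) (M B : Finset (Sym2 (Fin n))) (T R : Finset (Fin n)),
    R.card ≤ k → Disjoint M B → B ⊆ edges n → Disjoint T R → (∀ g ∈ G, g ∉ T) →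
    (∀ g ∈ G, g ∉ R) → (∀ g ∈ G, ∀ w ∈ T, s(g, w) ∈ M) → (∀ w ∈ R, ∀ g ∈ G, s(g, w) ∉ B) →
    (∀ M' B' T', M ⊆ M' → B ⊆ B' → Disjoint M' B' → B' ⊆ edges n → T' ⊆ T ∪ R →
      (∀ g ∈ G, ∀ w ∈ T', s(g, w) ∈ M') →
      Psi μ B (om p T R) - 2 * μ * m * k ≤ Psi μ B' (ind T') → MakerWins n m q true M' B') →
    MakerWins n m q true M B := by
  have hp0 : 0 < p := by rw [hp]; positivity
  have hp1 : p ≤ 1 := by
    have hm0 : (0 : ℝ) < (m : ℝ) + 1 := by positivity
    rw [hp, div_le_one hm0]
    have : (0 : ℝ) ≤ m := Nat.cast_nonneg m
    linarith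
  intro k
  induction k with
  | zero =>
    intro M B T R hR hMB hB hTR hGT hGR hTM hRB hcont
    have hR0 : R = ∅ := Finset.card_eq_zero.1 (Nat.le_zero.1 hR)
    subst hR0
    refine hcont M B T (Finset.Subset.refl _) (Finset.Subset.refl _) hMB hB
      Finset.subset_union_left hTM ?_
    rw [om_empty]; simp
  | succ k ih =>
    intro M B T R hR hMB hB hTR hGT hGR hTM hRB hcont
    by_cases hR0 : R = ∅
    · subst hR0
      refine hcont M B T (Finset.Subset.refl _) (Finset.Subset.refl _) hMB hB
        Finset.subset_union_left hTM ?_
      rw [om_empty]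
      have : 0 ≤ 2 * μ * m * ((k + 1 : ℕ) : ℝ) := by positivity
      linarith
    obtain ⟨w, hw, hmax⟩ := Finset.exists_max_image R
      (fun w => 1 - 2 * μ * dd B (om p T R) w) (Finset.nonempty_iff_ne_empty.2 hR0)
    have hwT : w ∉ T := Finset.disjoint_right.1 hTR hw
    have hwG : w ∉ G := fun h => hGR w h hw
    have hRe : (R.erase w).card ≤ k := by
      rw [Finset.card_erase_of_mem hw]; omega
    have hμmk : 0 ≤ 2 * μ * m := by positivity
    by_cases hs : 0 ≤ 1 - 2 * μ * dd B (om p T R) w
    · -- take `w`
      by_cases hD : (G.image (fun g => s(g, w))).filter (fun e => e ∉ M) = ∅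
      · -- already joined
        have hwM : ∀ g ∈ G, s(g, w) ∈ M := by
          intro g hg
          by_contra hcon
          have : s(g, w) ∈ (G.image (fun g => s(g, w))).filter (fun e => e ∉ M) := by
            rw [Finset.mem_filter]
            exact ⟨Finset.mem_image_of_mem _ hg, hcon⟩
          rw [hD] at this
          exact absurd this (Finset.notMem_empty _)
        have e1 : om p (insert w T) (R.erase w) = fun x => om p T R x + (1 - p) * ind {w} x := by
          funext x
          unfold om ind
          by_cases hx : x = w
          · subst hx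
            simp [hwT, hw]
          · simp [hx]
        refine ih M B (insert w T) (R.erase w) hRe hMB hB ?_ ?_ ?_ ?_ ?_ ?_
        · rw [Finset.disjoint_left]
          intro x hx hx2
          rcases Finset.mem_insert.1 hx with rfl | hx
          · exact (Finset.notMem_erase _ _) hx2
          · exact Finset.disjoint_left.1 hTR hx (Finset.mem_of_mem_erase hx2)
        · intro g hg h
          rcases Finset.mem_insert.1 h with rfl | h
          · exact hwG hg
          · exact hGT g hg h
        · intro g hg h
          exact hGR g hg (Finset.mem_of_mem_erase h)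
        · intro g hg x hx
          rcases Finset.mem_insert.1 hx with rfl | hx
          · exact hwM g hg
          · exact hTM g hg x hx
        · intro x hx g hg
          exact hRB x (Finset.mem_of_mem_erase hx) g hg
        · intro M' B' T' h1 h2 h3 h4 h5 h6 h7
          refine hcont M' B' T' h1 h2 h3 h4 ?_ h6 ?_
          · intro x hx
            have := h5 hx
            rw [Finset.mem_union, Finset.mem_insert, Finset.mem_erase] at this
            rw [Finset.mem_union]
            rcases this with (rfl | h) | h
            · exact Or.inr hw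
            · exact Or.inl h
            · exact Or.inr h.2
          · rw [e1, Psi_single hB] at h7
            have : 0 ≤ (1 - p) * (1 - 2 * μ * dd B (om p T R) w) :=
              mul_nonneg (by linarith) hs
            push_cast
            nlinarith
      · -- a round
        refine round hMB hB (D := (G.image (fun g => s(g, w))).filter (fun e => e ∉ M)) ?_
          (Finset.nonempty_iff_ne_empty.2 hD) ?_ ?_
        · intro e he
          rw [Finset.mem_filter, Finset.mem_image] at he
          obtain ⟨⟨g, hg, rfl⟩, heM⟩ := he
          rw [mem_free]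
          refine ⟨?_, heM, hRB w hw g hg⟩
          rw [Sym2.mk_isDiag_iff]
          rintro rfl
          exact hwG hg
        · exact (Finset.card_filter_le _ _).trans (Finset.card_image_le.trans hG)
        · intro M' B' hM' hB' hdis hBe hc
          have hMM : M ⊆ M' := Finset.subset_union_left.trans hM'
          have hwM : ∀ g ∈ G, s(g, w) ∈ M' := by
            intro g hg
            by_cases hin : s(g, w) ∈ M
            · exact hMM hin
            · apply hM'
              rw [Finset.mem_union, Finset.mem_filter]
              exact Or.inr ⟨Finset.mem_image_of_mem _ hg, hin⟩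
          have hstep := step hμ hp hB hTR hGT hGR hw hmax hs hB' hRB hc
          set R' := (R.erase w).filter (fun w' => ∀ g ∈ G, s(g, w') ∉ B') with hR'
          refine ih M' B' (insert w T) R' ((Finset.card_filter_le _ _).trans hRe) hdis hBe
            ?_ ?_ ?_ ?_ ?_ ?_
          · rw [Finset.disjoint_left]
            intro x hx hx2
            have hx2' := (Finset.mem_filter.1 hx2).1
            rcases Finset.mem_insert.1 hx with rfl | hx
            · exact (Finset.notMem_erase _ _) hx2'
            · exact Finset.disjoint_left.1 hTR hx (Finset.mem_of_mem_erase hx2')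
          · intro g hg h
            rcases Finset.mem_insert.1 h with rfl | h
            · exact hwG hg
            · exact hGT g hg h
          · intro g hg h
            exact hGR g hg (Finset.mem_of_mem_erase (Finset.mem_filter.1 h).1)
          · intro g hg x hx
            rcases Finset.mem_insert.1 hx with rfl | hx
            · exact hwM g hg
            · exact hMM (hTM g hg x hx)
          · intro x hx g hg
            exact (Finset.mem_filter.1 hx).2 g hg
          · intro M'' B'' T' h1 h2 h3 h4 h5 h6 h7
            refine hcont M'' B'' T' (hMM.trans h1) (hB'.trans h2) h3 h4 ?_ h6 ?_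
            · intro x hx
              have := h5 hx
              rw [Finset.mem_union, Finset.mem_insert, hR', Finset.mem_filter,
                Finset.mem_erase] at this
              rw [Finset.mem_union]
              rcases this with (rfl | h) | h
              · exact Or.inr hw
              · exact Or.inl h
              · exact Or.inr h.1.2
            · push_cast
              nlinarith
    · -- drop `w`
      have e1 : om p T (R.erase w) = fun x => om p T R x + (-p) * ind {w} x := by
        funext x
        unfold om ind
        by_cases hx : x = w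
        · subst hx
          simp [hwT, hw]
        · simp [hx]
      refine ih M B T (R.erase w) hRe hMB hB ?_ hGT ?_ hTM ?_ ?_
      · exact Finset.disjoint_of_subset_right (Finset.erase_subset _ _) hTR
      · intro g hg h
        exact hGR g hg (Finset.mem_of_mem_erase h)
      · intro x hx g hg
        exact hRB x (Finset.mem_of_mem_erase hx) g hg
      · intro M' B' T' h1 h2 h3 h4 h5 h6 h7
        refine hcont M' B' T' h1 h2 h3 h4
          (h5.trans (Finset.union_subset_union_right (Finset.erase_subset _ _))) h6 ?_
        rw [e1, Psi_single hB] at h7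
        push Not at hs
        have : 0 ≤ (-p) * (1 - 2 * μ * dd B (om p T R) w) := by nlinarith
        push_cast
        nlinarith

/-- number of vertices of `U` joined to `v` by new Breaker edges -/
lemma card_new {B B' : Finset (Sym2 (Fin n))} (v : Fin n) (U : Finset (Fin n))
    (hU : ∀ u ∈ U, s(v, u) ∉ B) (h : (B' \ B).card ≤ m) :
    (U.filter (fun u => ¬ s(v, u) ∉ B')).card ≤ m := by
  refine le_trans (Finset.card_le_card_of_injOn (fun u => s(v, u)) ?_ ?_) h
  · intro u hu
    rw [Finset.mem_coe, Finset.mem_filter, not_not] at hu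
    exact Finset.mem_coe.2 (Finset.mem_sdiff.2 ⟨hu.2, hU u hu.1⟩)
  · intro a _ b _ hab
    exact Sym2.congr_right.1 hab

/-- Maker joins one vertex `v` to many vertices of `U`. -/
lemma star (hm : 1 ≤ m) (v : Fin n) : ∀ (τ : ℕ) (M B : Finset (Sym2 (Fin n)))
    (U : Finset (Fin n)), Disjoint M B → B ⊆ edges n → v ∉ U → (∀ u ∈ U, s(v, u) ∉ B) →
    (m + 1) * τ ≤ U.card →
    (∀ M' B' T, M ⊆ M' → B ⊆ B' → Disjoint M' B' → B' ⊆ edges n → T ⊆ U → T.card = τ →
      (∀ u ∈ T, s(v, u) ∈ M') → (B' \ B).card ≤ m * τ → MakerWins n m q true M' B') →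
    MakerWins n m q true M B := by
  intro τ
  induction τ with
  | zero =>
    intro M B U hMB hB hv hU hc hcont
    exact hcont M B ∅ (Finset.Subset.refl _) (Finset.Subset.refl _) hMB hB
      (Finset.empty_subset _) rfl (by simp) (by simp)
  | succ τ ih =>
    intro M B U hMB hB hv hU hc hcont
    have hUne : U.Nonempty := by
      rw [← Finset.card_pos]
      have : 0 < (m + 1) * (τ + 1) := by positivity
      omega
    obtain ⟨u, hu⟩ := hUne
    have hvu : v ≠ u := by rintro rfl; exact hv hu
    have hce : (U.erase u).card = U.card - 1 := Finset.card_erase_of_mem hu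
    have hc' : (m + 1) * τ + m + 1 ≤ U.card := by
      have : (m + 1) * (τ + 1) = (m + 1) * τ + m + 1 := by ring
      omega
    by_cases huM : s(v, u) ∈ M
    · refine ih M B (U.erase u) hMB hB (fun h => hv (Finset.mem_of_mem_erase h))
        (fun x hx => hU x (Finset.mem_of_mem_erase hx)) (by omega) ?_
      intro M' B' T h1 h2 h3 h4 h5 h6 h7 h8
      refine hcont M' B' (insert u T) h1 h2 h3 h4 ?_ ?_ ?_ ?_
      · intro x hx
        rcases Finset.mem_insert.1 hx with rfl | hx
        · exact hu
        · exact Finset.mem_of_mem_erase (h5 hx)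
      · rw [Finset.card_insert_of_notMem (fun h => Finset.notMem_erase _ _ (h5 h)), h6]
      · intro x hx
        rcases Finset.mem_insert.1 hx with rfl | hx
        · exact h1 huM
        · exact h7 x hx
      · nlinarith
    · refine round hMB hB (D := {s(v, u)}) ?_ (Finset.singleton_nonempty _) (by simpa using hm) ?_
      · rw [Finset.singleton_subset_iff, mem_free]
        refine ⟨?_, huM, hU u hu⟩
        rw [Sym2.mk_isDiag_iff]
        exact hvu
      · intro M' B' hM' hB' hdis hBe hcard
        have hMM : M ⊆ M' := Finset.subset_union_left.trans hM'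
        have huM' : s(v, u) ∈ M' := hM' (by simp)
        set U' := (U.erase u).filter (fun x => s(v, x) ∉ B') with hU'
        have hcU : (m + 1) * τ ≤ U'.card := by
          have h1 : U'.card + ((U.erase u).filter (fun x => ¬ s(v, x) ∉ B')).card
              = (U.erase u).card := Finset.card_filter_add_card_filter_not _
          have h2 := card_new (B := B) (B' := B') v (U.erase u)
            (fun x hx => hU x (Finset.mem_of_mem_erase hx)) hcard
          omega
        refine ih M' B' U' hdis hBe
          (fun h => hv (Finset.mem_of_mem_erase (Finset.mem_filter.1 h).1))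
          (fun x hx => (Finset.mem_filter.1 hx).2) hcU ?_
        intro M'' B'' T h1 h2 h3 h4 h5 h6 h7 h8
        have hTU : ∀ x ∈ T, x ∈ U.erase u := fun x hx => (Finset.mem_filter.1 (h5 hx)).1
        refine hcont M'' B'' (insert u T) (hMM.trans h1) (hB'.trans h2) h3 h4 ?_ ?_ ?_ ?_
        · intro x hx
          rcases Finset.mem_insert.1 hx with rfl | hx
          · exact hu
          · exact Finset.mem_of_mem_erase (hTU x hx)
        · rw [Finset.card_insert_of_notMem (fun h => Finset.notMem_erase _ _ (hTU _ h)), h6]
        · intro x hx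
          rcases Finset.mem_insert.1 hx with rfl | hx
          · exact h1 huM'
          · exact h7 x hx
        · have : (B'' \ B).card ≤ (B'' \ B').card + (B' \ B).card := by
            refine (Finset.card_le_card ?_).trans (Finset.card_union_le _ _)
            intro e he
            rw [Finset.mem_sdiff] at he
            rw [Finset.mem_union, Finset.mem_sdiff, Finset.mem_sdiff]
            by_cases heB : e ∈ B'
            · exact Or.inr ⟨heB, he.2⟩
            · exact Or.inl ⟨he.1, heB⟩
          nlinarith

/-- an independent set in a graph with bounded degrees -/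
lemma indep {B : Finset (Sym2 (Fin n))} (hB : B ⊆ edges n) (Δ : ℕ) :
    ∀ (r : ℕ) (C : Finset (Fin n)), (∀ v ∈ C, (C.filter (fun u => s(v, u) ∈ B)).card ≤ Δ) →
      r * (Δ + 1) ≤ C.card → ∃ I ⊆ C, I.card = r ∧ ∀ x ∈ I, ∀ y ∈ I, s(x, y) ∉ B := by
  intro r
  induction r with
  | zero =>
    intro C _ _
    exact ⟨∅, Finset.empty_subset _, rfl, by simp⟩
  | succ r ih =>
    intro C hdeg hc
    have hCne : C.Nonempty := by
      rw [← Finset.card_pos]
      have : 0 < (r + 1) * (Δ + 1) := by positivity
      omega
    obtain ⟨v, hv⟩ := hCne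
    set C' := (C.erase v).filter (fun u => s(v, u) ∉ B) with hC'
    have hC'C : C' ⊆ C := (Finset.filter_subset _ _).trans (Finset.erase_subset _ _)
    have h1 : C'.card + ((C.erase v).filter (fun x => ¬ s(v, x) ∉ B)).card
        = (C.erase v).card := Finset.card_filter_add_card_filter_not _
    have h2 : ((C.erase v).filter (fun x => ¬ s(v, x) ∉ B)).card ≤ Δ := by
      refine (Finset.card_le_card ?_).trans (hdeg v hv)
      intro x hx
      rw [Finset.mem_filter, not_not] at hx
      rw [Finset.mem_filter]
      exact ⟨Finset.mem_of_mem_erase hx.1, hx.2⟩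
    have h3 : (C.erase v).card = C.card - 1 := Finset.card_erase_of_mem hv
    have h4 : (r + 1) * (Δ + 1) = r * (Δ + 1) + Δ + 1 := by ring
    obtain ⟨I, hI, hIc, hIB⟩ := ih C' (fun x hx => (Finset.card_le_card
      (Finset.filter_subset_filter _ hC'C)).trans (hdeg x (hC'C hx))) (by omega)
    have hvI : v ∉ I := by
      intro h
      exact Finset.notMem_erase _ _ (Finset.mem_filter.1 (hI h)).1
    refine ⟨insert v I, ?_, ?_, ?_⟩
    · intro x hx
      rcases Finset.mem_insert.1 hx with rfl | hx
      · exact hv
      · exact hC'C (hI hx)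
    · rw [Finset.card_insert_of_notMem hvI, hIc]
    · intro x hx y hy
      by_cases hxv : x = v
      · by_cases hyv : y = v
        · rw [hxv, hyv]
          exact fun h => not_diag_of_mem hB h rfl
        · rw [hxv]
          exact (Finset.mem_filter.1 (hI (Finset.mem_of_mem_insert_of_ne hy hyv))).2
      · have hx' := Finset.mem_of_mem_insert_of_ne hx hxv
        by_cases hyv : y = v
        · rw [hyv, Sym2.eq_swap]
          exact (Finset.mem_filter.1 (hI hx')).2
        · exact hIB x hx' y (Finset.mem_of_mem_insert_of_ne hy hyv)

lemma dd_ind (B : Finset (Sym2 (Fin n))) (C : Finset (Fin n)) (v : Fin n) :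
    dd B (ind C) v = ((C.filter (fun u => s(v, u) ∈ B)).card : ℝ) := by
  unfold dd
  have h1 : ∀ y, bt B v y * ind C y = ind C y * bt B v y := fun y => mul_comm _ _
  simp only [h1]
  rw [sum_ind_mul]
  unfold bt
  rw [Finset.sum_boole]

/-- pruning the vertices of large Breaker degree -/
lemma prune {B : Finset (Sym2 (Fin n))} (hB : B ⊆ edges n) (μ : ℝ)
    (C : Finset (Fin n)) : ∃ C1 ⊆ C, Psi μ B (ind C) ≤ Psi μ B (ind C1) ∧
      (∀ v ∈ C1, 2 * μ * ((C1.filter (fun u => s(v, u) ∈ B)).card : ℝ) < 1) ∧
      (C1.card : ℝ) ≤ 2 * Psi μ B (ind C1) := by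
  have hne : (C.powerset.filter (fun C' => Psi μ B (ind C) ≤ Psi μ B (ind C'))).Nonempty :=
    ⟨C, by simp⟩
  obtain ⟨C1, hC1, hmin⟩ := Finset.exists_min_image _ (fun C' : Finset (Fin n) => C'.card) hne
  rw [Finset.mem_filter, Finset.mem_powerset] at hC1
  have hdeg : ∀ v ∈ C1, 2 * μ * ((C1.filter (fun u => s(v, u) ∈ B)).card : ℝ) < 1 := by
    intro v hv
    by_contra hcon
    push Not at hcon
    have e1 : ind (C1.erase v) = fun x => ind C1 x + (-1) * ind {v} x := by
      funext x
      unfold ind
      by_cases hx : x = v
      · subst hx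
        simp [hv]
      · simp [hx]
    have h1 : Psi μ B (ind C1) ≤ Psi μ B (ind (C1.erase v)) := by
      rw [e1, Psi_single hB, dd_ind]
      linarith
    have h2 := hmin (C1.erase v) (by
      rw [Finset.mem_filter, Finset.mem_powerset]
      exact ⟨(Finset.erase_subset _ _).trans hC1.1, hC1.2.trans h1⟩)
    rw [Finset.card_erase_of_mem hv] at h2
    have : 0 < C1.card := Finset.card_pos.2 ⟨v, hv⟩
    omega
  refine ⟨C1, hC1.1, hC1.2, hdeg, ?_⟩
  have h1 : 2 * μ * EE B (ind C1) ≤ C1.card := by
    unfold EE
    rw [sum_ind_mul, Finset.mul_sum]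
    calc ∑ v ∈ C1, 2 * μ * dd B (ind C1) v ≤ ∑ v ∈ C1, (1 : ℝ) := by
          refine Finset.sum_le_sum (fun v hv => ?_)
          rw [dd_ind]
          exact (hdeg v hv).le
      _ = C1.card := by simp
  unfold Psi
  rw [sum_ind]
  linarith

end phases

end Pool.Agent.Helper85.CliqueLB
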