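import Mathlib

/-!
# A binate tower step for groups with a parity character

`Good w` says that no element of odd parity is an involution.
`Tow w` is the group of pairs `(g, m)`, `g : ℤ → Γ` with only finitely many odd coordinates and
`m : ℤ`, multiplied as in a wreath product with the shift.
-/

namespace Pool.Agent.Helper85

open Set

/-- No odd element squares to one. -/
def Good {Γ : Type} [Group Γ] (w : Γ →* ℤˣ) : Prop := ∀ g : Γ, w g = -1 → g * g ≠ 1

/-- Functions `ℤ → Γ` with finitely many odd coordinates, together with a shift. -/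
@[ext] structure Tow {Γ : Type} [Group Γ] (w : Γ →* ℤˣ) where
  g : ℤ → Γ
  m : ℤ
  fin : {k | w (g k) ≠ 1}.Finite

namespace Tow

variable {Γ : Type} [Group Γ] {w : Γ →* ℤˣ}

instance : Mul (Tow w) where
  mul x y :=
    { g := fun k => x.g k * y.g (k - x.m)
      m := x.m + y.m
      fin := by
        have h2 : {k | w (y.g (k - x.m)) ≠ 1}.Finite := by
          have := y.fin.preimage (f := fun k : ℤ => k - x.m)
            (fun a _ b _ h => by simpa using h)
          exact this
        refine (x.fin.union h2).subset ?_
        intro k hk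
        simp only [mem_setOf_eq, mem_union] at *
        by_contra hcon
        push Not at hcon
        apply hk
        rw [map_mul, hcon.1, hcon.2, one_mul] }

instance : One (Tow w) where
  one := { g := fun _ => 1, m := 0, fin := by simp }

instance : Inv (Tow w) where
  inv x :=
    { g := fun k => (x.g (k + x.m))⁻¹
      m := -x.m
      fin := by
        have h2 : {k | w (x.g (k + x.m)) ≠ 1}.Finite := by
          have := x.fin.preimage (f := fun k : ℤ => k + x.m)
            (fun a _ b _ h => by simpa using h)
          exact this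
        refine h2.subset ?_
        intro k hk
        simp only [mem_setOf_eq, map_inv, ne_eq, inv_eq_one] at *
        exact hk }

@[simp] lemma mul_g (x y : Tow w) (k : ℤ) : (x * y).g k = x.g k * y.g (k - x.m) := rfl
@[simp] lemma mul_m (x y : Tow w) : (x * y).m = x.m + y.m := rfl
@[simp] lemma one_g (k : ℤ) : (1 : Tow w).g k = 1 := rfl
@[simp] lemma one_m : (1 : Tow w).m = 0 := rfl
@[simp] lemma inv_g (x : Tow w) (k : ℤ) : (x⁻¹).g k = (x.g (k + x.m))⁻¹ := rfl
@[simp] lemma inv_m (x : Tow w) : (x⁻¹).m = -x.m := rfl

instance : Group (Tow w) :=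
  Group.ofLeftAxioms
    (by
      intro x y z
      ext k
      · simp [mul_assoc, sub_sub]
      · simp [add_assoc])
    (by
      intro x
      ext k
      · simp
      · simp)
    (by
      intro x
      ext k
      · simp
      · simp)

/-- The parity character of the tower: the product of the parities of all coordinates. -/
noncomputable def par (w : Γ →* ℤˣ) : Tow w →* ℤˣ where
  toFun x := ∏ᶠ k, w (x.g k)
  map_one' := by simp
  map_mul' := by
    intro x y
    have h1 : (Function.mulSupport fun k => w (x.g k)).Finite := x.fin
    have h2 : (Function.mulSupport fun k => w (y.g (k - x.m))).Finite := by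
      have := y.fin.preimage (f := fun k : ℤ => k - x.m)
        (fun a _ b _ h => by simpa using h)
      exact this
    have h3 : ∏ᶠ k, w (y.g (k - x.m)) = ∏ᶠ k, w (y.g k) :=
      finprod_comp_equiv (Equiv.subRight x.m) (f := fun k => w (y.g k))
    simp only [mul_g, map_mul]
    rw [finprod_mul_distrib h1 h2, h3]

lemma par_apply (x : Tow w) : par w x = ∏ᶠ k, w (x.g k) := rfl

lemma good_par (hw : Good w) : Good (par w) := by
  intro x hx hxx
  have hm : x.m = 0 := by
    have := congrArg Tow.m hxx
    simp at this
    omega
  have h1 : ∀ k, w (x.g k) = 1 := by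
    intro k
    rcases Int.units_eq_one_or (w (x.g k)) with h | h
    · exact h
    · exfalso
      apply hw _ h
      have := congrArg (fun z => Tow.g z k) hxx
      simpa [hm] using this
  have : par w x = 1 := by
    rw [par_apply]
    simp [h1]
  rw [this] at hx
  exact absurd hx (by decide)

/-- The embedding at coordinate zero. -/
def emb (w : Γ →* ℤˣ) : Γ →* Tow w where
  toFun a :=
    { g := fun k => if k = 0 then a else 1
      m := 0
      fin := by
        refine (Set.finite_singleton (0 : ℤ)).subset ?_
        intro k hk
        simp only [mem_setOf_eq, mem_singleton_iff] at *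
        by_contra h
        apply hk
        simp [h] }
  map_one' := by
    ext k
    · simp
    · rfl
  map_mul' := by
    intro a b
    ext k
    · by_cases hk : k = 0 <;> simp [hk]
    · simp

@[simp] lemma emb_g (a : Γ) (k : ℤ) : (emb w a).g k = if k = 0 then a else 1 := rfl
@[simp] lemma emb_m (a : Γ) : (emb w a).m = 0 := rfl

lemma par_emb (a : Γ) : par w (emb w a) = w a := by
  rw [par_apply, finprod_eq_single _ (0 : ℤ)]
  · simp
  · intro k hk
    simp [hk]

open Classical in
/-- The repetition map on even elements. -/
noncomputable def rep (w : Γ →* ℤˣ) (n : Γ) : Tow w :=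
  if h : w n = 1 then
    { g := fun k => if 1 ≤ k then n else 1
      m := 0
      fin := by
        have : {k : ℤ | w (if 1 ≤ k then n else 1) ≠ 1} = ∅ := by
          ext k
          by_cases hk : 1 ≤ k <;> simp [hk, h]
        rw [this]
        exact Set.finite_empty }
  else 1

lemma rep_g {n : Γ} (h : w n = 1) (k : ℤ) : (rep w n).g k = if 1 ≤ k then n else 1 := by
  simp [rep, h]

lemma rep_m (n : Γ) : (rep w n).m = 0 := by
  by_cases h : w n = 1 <;> simp [rep, h]

lemma rep_one : rep w (1 : Γ) = 1 := by
  ext k
  · rw [rep_g (by simp)]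
    simp
  · rw [rep_m]; rfl

lemma rep_mul {a b : Γ} (ha : w a = 1) (hb : w b = 1) : rep w (a * b) = rep w a * rep w b := by
  ext k
  · rw [rep_g (by rw [map_mul, ha, hb, one_mul]), mul_g, rep_g ha, rep_g hb, rep_m, sub_zero]
    by_cases hk : 1 ≤ k <;> simp [hk]
  · simp [rep_m]

lemma par_rep {n : Γ} (h : w n = 1) : par w (rep w n) = 1 := by
  rw [par_apply]
  have : ∀ k, w ((rep w n).g k) = 1 := by
    intro k
    rw [rep_g h]
    by_cases hk : 1 ≤ k <;> simp [hk, h]
  simp [this]

lemma rep_even (n : Γ) : par w (rep w n) = 1 := by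
  by_cases h : w n = 1
  · exact par_rep h
  · simp [rep, h]

lemma emb_rep_comm (a n : Γ) : emb w a * rep w n = rep w n * emb w a := by
  by_cases h : w n = 1
  · ext k
    · rw [mul_g, mul_g, rep_g h, emb_g, emb_m, sub_zero, rep_g h, rep_m, sub_zero, emb_g]
      by_cases hk : k = 0
      · simp [hk]
      · simp [hk]
    · simp [rep_m]
  · simp [rep, h]

/-- The shift. -/
def sh (w : Γ →* ℤˣ) : Tow w where
  g := fun _ => 1
  m := -1
  fin := by simp

lemma par_sh : par w (sh w) = 1 := by
  rw [par_apply]
  simp [sh]

lemma sh_rep {n : Γ} (h : w n = 1) : sh w * rep w n * (sh w)⁻¹ = emb w n * rep w n := by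
  ext k
  · rw [mul_g, mul_g, mul_g, rep_g h, emb_g, emb_m, sub_zero, rep_g h]
    simp only [sh, inv_g, one_mul, inv_one, mul_one, sub_neg_eq_add]
    by_cases hk : k = 0
    · simp [hk]
    · by_cases h1 : 1 ≤ k
      · have : 1 ≤ k + 1 := by omega
        simp [hk, h1, this]
      · have : ¬ (1 ≤ k + 1) := by omega
        simp [hk, h1, this]
  · simp [sh, rep_m]

end Tow

end Pool.Agent.Helper85
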