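import Mathlib
import Pool.Agent.Helper85.Tow

/-!
# Null-homotopies of labelled walls

Local cocycles with values in a group, and the main inductive construction.
-/

namespace Pool.Agent.Helper85

set_option linter.unusedSectionVars false

open Topology Filter Set

/-- `c` is a cocycle in a neighbourhood of `x`. -/
def LocCoc {X : Type} [TopologicalSpace X] {G : Type} [Group G] (c : X → X → G) (x : X) : Prop :=
  ∃ U ∈ 𝓝 x, ∀ a ∈ U, ∀ b ∈ U, ∀ d ∈ U, c a b * c b d = c a d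

section LocCoc

variable {X Y : Type} [TopologicalSpace X] [TopologicalSpace Y] {G H : Type} [Group G] [Group H]

lemma LocCoc.congr {c c' : X → X → G} {x : X} (h : LocCoc c x)
    (h2 : ∃ U ∈ 𝓝 x, ∀ a ∈ U, ∀ b ∈ U, c' a b = c a b) : LocCoc c' x := by
  obtain ⟨U, hU, h⟩ := h
  obtain ⟨V, hV, h2⟩ := h2
  refine ⟨U ∩ V, inter_mem hU hV, ?_⟩
  intro a ha b hb d hd
  rw [h2 a ha.2 b hb.2, h2 b hb.2 d hd.2, h2 a ha.2 d hd.2]
  exact h a ha.1 b hb.1 d hd.1

lemma LocCoc.comp {c : Y → Y → G} {f : X → Y} {x : X} (h : LocCoc c (f x))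
    (hf : ContinuousAt f x) : LocCoc (fun a b => c (f a) (f b)) x := by
  obtain ⟨U, hU, h⟩ := h
  exact ⟨f ⁻¹' U, hf hU, fun a ha b hb d hd => h _ ha _ hb _ hd⟩

lemma locCoc_one (x : X) : LocCoc (fun _ _ => (1 : G)) x :=
  ⟨univ, univ_mem, by intros; simp⟩

lemma LocCoc.mul {c c' : X → X → G} {x : X} (h : LocCoc c x) (h' : LocCoc c' x)
    (hc : ∀ a b d e, c a b * c' d e = c' d e * c a b) : LocCoc (fun a b => c a b * c' a b) x := by
  obtain ⟨U, hU, h⟩ := h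
  obtain ⟨V, hV, h'⟩ := h'
  refine ⟨U ∩ V, inter_mem hU hV, ?_⟩
  intro a ha b hb d hd
  calc c a b * c' a b * (c b d * c' b d) = c a b * (c' a b * c b d) * c' b d := by
        simp only [mul_assoc]
    _ = c a b * (c b d * c' a b) * c' b d := by rw [hc b d a b]
    _ = (c a b * c b d) * (c' a b * c' b d) := by simp only [mul_assoc]
    _ = c a d * c' a d := by rw [h a ha.1 b hb.1 d hd.1, h' a ha.2 b hb.2 d hd.2]

lemma LocCoc.map {c : X → X → G} {x : X} (h : LocCoc c x) (φ : G → H)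
    (hφ : ∀ a b d e, φ (c a b * c d e) = φ (c a b) * φ (c d e)) :
    LocCoc (fun a b => φ (c a b)) x := by
  obtain ⟨U, hU, h⟩ := h
  refine ⟨U, hU, ?_⟩
  intro a ha b hb d hd
  rw [← hφ, h a ha b hb d hd]

lemma LocCoc.gauge {c : X → X → G} {x : X} (h : LocCoc c x) (k : X → G) :
    LocCoc (fun a b => k a * c a b * (k b)⁻¹) x := by
  obtain ⟨U, hU, h⟩ := h
  refine ⟨U, hU, ?_⟩
  intro a ha b hb d hd
  show k a * c a b * (k b)⁻¹ * (k b * c b d * (k d)⁻¹) = k a * c a d * (k d)⁻¹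
  rw [← h a ha b hb d hd]
  group

lemma locCoc_of_gauge {x : X} (k : X → G) : LocCoc (fun a b => (k a)⁻¹ * k b) x :=
  ⟨univ, univ_mem, by intros; group⟩

end LocCoc

/-- clamp to `[-1, 1]` -/
noncomputable def cl (r : ℝ) : ℝ := max (-1) (min 1 r)

lemma continuous_cl : Continuous cl := by unfold cl; fun_prop

lemma cl_of_ge {r : ℝ} (h : 1 ≤ r) : cl r = 1 := by
  unfold cl; rw [min_eq_left h]; norm_num

lemma cl_of_le {r : ℝ} (h : r ≤ -1) : cl r = -1 := by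
  unfold cl; rw [min_eq_right (by linarith)]; exact max_eq_left h

lemma cl_of_mem {r : ℝ} (h : -1 ≤ r) (h' : r ≤ 1) : cl r = r := by
  unfold cl; rw [min_eq_right h']; exact max_eq_right h

lemma neg_one_le_cl (r : ℝ) : -1 ≤ cl r := le_max_left _ _

lemma cl_le_one (r : ℝ) : cl r ≤ 1 := by
  unfold cl; exact max_le (by norm_num) (min_le_left _ _)

lemma cl_cl (r : ℝ) : cl (cl r) = cl r := cl_of_mem (neg_one_le_cl r) (cl_le_one r)

lemma cl_neg (r : ℝ) : cl (-r) = -cl r := by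
  rcases le_total r (-1) with h | h
  · rw [cl_of_le h, cl_of_ge (by linarith)]; norm_num
  · rcases le_total r 1 with h' | h'
    · rw [cl_of_mem h h', cl_of_mem (by linarith) (by linarith)]
    · rw [cl_of_ge h', cl_of_le (by linarith)]

lemma abs_cl_lt {r : ℝ} (h : |cl r| < 1) : |r| < 1 := by
  rw [abs_lt] at *
  constructor
  · by_contra hc
    push Not at hc
    rw [cl_of_le hc] at h
    linarith [h.1]
  · by_contra hc
    push Not at hc
    rw [cl_of_ge hc] at h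
    linarith [h.2]

/-- A null-homotopy of the wall labelled by `ρ` over the open set `{f > 0}`. -/
def Null {Z : Type} [TopologicalSpace Z] {Γ : Type} [Group Γ] (w : Γ →* ℤˣ) (ρ : Z → Z → Γ)
    (f : Z → ℝ) : Prop :=
  ∃ (Γ' : Type) (_ : Group Γ') (w' : Γ' →* ℤˣ) (ι : Γ →* Γ'), Good w' ∧ (∀ g, w' (ι g) = w g) ∧
    ∃ (h : Z × ℝ × ℝ → ℝ) (c : Z × ℝ × ℝ → Z × ℝ × ℝ → Γ'),
      (∀ X, 0 < f X.1 → ContinuousAt h X) ∧
      (∀ x r u, 1 ≤ r → h (x, r, u) = 1) ∧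
      (∀ x r u, r ≤ -1 → h (x, r, u) = -1) ∧
      (∀ x r u, (u ≤ 0 ∨ 1 ≤ u) → h (x, r, u) = cl r) ∧
      (∀ X, 0 < f X.1 → |h X| < 1 → LocCoc c X) ∧
      (∀ X Y, w' (c X Y) = 1) ∧
      (∀ x y r r' u u', 0 < f x → 0 < f y → u ≤ 0 → u' ≤ 0 →
        c (x, r, u) (y, r', u') = ι (ρ x y)) ∧
      (∀ x y r r' u u', 1 ≤ u → 1 ≤ u' → c (x, r, u) (y, r', u') = 1)

section Step

variable {Z : Type} [TopologicalSpace Z] (fA fB : Z → ℝ)

noncomputable def psi0 (x : Z) : ℝ := fA x / (fA x + fB x)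

noncomputable def psi (x : Z) : ℝ := max 0 (min 1 (3 * psi0 fA fB x - 1))

noncomputable def del (x : Z) : ℝ := max (-2) (min 2 (14 - 16 * psi0 fA fB x))

noncomputable def mm (q : ℝ) : ℝ := min |q| (10 - q)

noncomputable def rr (X : Z × ℝ × ℝ) : ℝ := |X.2.1| - mm X.2.2 + del fA fB X.1

noncomputable def GG (X : Z × ℝ × ℝ) : Z × ℝ × ℝ :=
  (X.1, rr fA fB X, min (psi fA fB X.1) (2 - X.2.2))

open Classical in
noncomputable def hXi (h : Z × ℝ × ℝ → ℝ) (X : Z × ℝ × ℝ) : ℝ :=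
  if 0 < X.2.2 ∧ 0 < fA X.1 then h (GG fA fB X) else cl (rr fA fB X)

variable {fA fB}

lemma del_le (x : Z) : del fA fB x ≤ 2 := max_le (by norm_num) (min_le_left _ _)

lemma le_del (x : Z) : -2 ≤ del fA fB x := le_max_left _ _

lemma continuousAt_psi0 (hA : Continuous fA) (hB : Continuous fB) {x : Z}
    (hx : 0 < fA x + fB x) : ContinuousAt (psi0 fA fB) x := by
  unfold psi0
  exact hA.continuousAt.div (hA.continuousAt.add hB.continuousAt) hx.ne'

lemma continuousAt_psi (hA : Continuous fA) (hB : Continuous fB) {x : Z}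
    (hx : 0 < fA x + fB x) : ContinuousAt (psi fA fB) x := by
  have := continuousAt_psi0 hA hB hx
  unfold psi
  fun_prop

lemma continuousAt_del (hA : Continuous fA) (hB : Continuous fB) {x : Z}
    (hx : 0 < fA x + fB x) : ContinuousAt (del fA fB) x := by
  have := continuousAt_psi0 hA hB hx
  unfold del
  fun_prop

lemma continuous_mm : Continuous mm := by unfold mm; fun_prop

lemma continuousAt_rr (hA : Continuous fA) (hB : Continuous fB) {X : Z × ℝ × ℝ}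
    (hx : 0 < fA X.1 + fB X.1) : ContinuousAt (rr fA fB) X := by
  have h1 : ContinuousAt (fun X : Z × ℝ × ℝ => del fA fB X.1) X :=
    (continuousAt_del hA hB hx).comp continuousAt_fst
  have h2 : Continuous (fun X : Z × ℝ × ℝ => |X.2.1| - mm X.2.2) := by
    have := continuous_mm
    fun_prop
  unfold rr
  exact h2.continuousAt.add h1

lemma continuousAt_GG (hA : Continuous fA) (hB : Continuous fB) {X : Z × ℝ × ℝ}
    (hx : 0 < fA X.1 + fB X.1) : ContinuousAt (GG fA fB) X := by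
  have h1 : ContinuousAt (fun X : Z × ℝ × ℝ => psi fA fB X.1) X :=
    (continuousAt_psi hA hB hx).comp continuousAt_fst
  have h2 := continuousAt_rr hA hB hx
  unfold GG
  fun_prop

/-- Facts on a null-homotopy used in the step. -/
structure HH (h : Z × ℝ × ℝ → ℝ) : Prop where
  top : ∀ x r u, 1 ≤ r → h (x, r, u) = 1
  bot : ∀ x r u, r ≤ -1 → h (x, r, u) = -1
  ends : ∀ x r u, (u ≤ 0 ∨ 1 ≤ u) → h (x, r, u) = cl r

lemma psi0_zero {x : Z} (hx : fA x = 0) : psi0 fA fB x = 0 := by simp [psi0, hx]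

lemma ev_fst {p : Z → Prop} {X : Z × ℝ × ℝ} (h : ∀ᶠ x in 𝓝 X.1, p x) :
    ∀ᶠ Y in 𝓝 X, p Y.1 := continuousAt_fst.eventually h

lemma ev_snd {p : ℝ → Prop} {X : Z × ℝ × ℝ} (h : ∀ᶠ x in 𝓝 X.2.2, p x) :
    ∀ᶠ Y in 𝓝 X, p Y.2.2 := by
  have : ContinuousAt (fun Y : Z × ℝ × ℝ => Y.2.2) X := by fun_prop
  exact this.eventually h

lemma ev_mid {p : ℝ → Prop} {X : Z × ℝ × ℝ} (h : ∀ᶠ x in 𝓝 X.2.1, p x) :
    ∀ᶠ Y in 𝓝 X, p Y.2.1 := by
  have : ContinuousAt (fun Y : Z × ℝ × ℝ => Y.2.1) X := by fun_prop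
  exact this.eventually h

lemma ev_cl {h : Z × ℝ × ℝ → ℝ} (H : HH h) (hA : Continuous fA) (hB : Continuous fB)
    (hA0 : ∀ x, 0 ≤ fA x) {X : Z × ℝ × ℝ}
    (hx : 0 < fA X.1 + fB X.1) (hc : X.2.2 ≤ 0 ∨ fA X.1 ≤ 0) :
    ∀ᶠ Y in 𝓝 X, hXi fA fB h Y = cl (rr fA fB Y) := by
  have hp0 : ContinuousAt (psi0 fA fB) X.1 := continuousAt_psi0 hA hB hx
  rcases hc with hq | hf
  · rcases lt_or_eq_of_le hq with hq | hq
    · have : ∀ᶠ Y : Z × ℝ × ℝ in 𝓝 X, Y.2.2 < 0 := ev_snd (p := fun q => q < 0) (gt_mem_nhds hq)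
      filter_upwards [this] with Y hY
      unfold hXi
      rw [if_neg]
      rintro ⟨h1, -⟩
      linarith
    · by_cases h23 : 2 / 3 < psi0 fA fB X.1
      · have h1 : ∀ᶠ Y : Z × ℝ × ℝ in 𝓝 X, 2 / 3 < psi0 fA fB Y.1 :=
          ev_fst (p := fun x => 2 / 3 < psi0 fA fB x) (hp0.eventually (lt_mem_nhds h23))
        have h2 : ∀ᶠ Y : Z × ℝ × ℝ in 𝓝 X, Y.2.2 < 1 :=
          ev_snd (p := fun q => q < 1) (gt_mem_nhds (by linarith))
        filter_upwards [h1, h2] with Y h1 h2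
        unfold hXi
        split_ifs with hc
        · unfold GG
          apply H.ends
          right
          have : psi fA fB Y.1 = 1 := by
            unfold psi
            rw [min_eq_left (by linarith)]
            norm_num
          rw [this]
          exact le_min le_rfl (by linarith)
        · rfl
      · push Not at h23
        have h1 : ∀ᶠ Y : Z × ℝ × ℝ in 𝓝 X, psi0 fA fB Y.1 < 3 / 4 :=
          ev_fst (p := fun x => psi0 fA fB x < 3 / 4)
            (hp0.eventually (gt_mem_nhds (by linarith)))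
        have h2 : ∀ᶠ Y : Z × ℝ × ℝ in 𝓝 X, |Y.2.2| < 1 := by
          refine ev_snd (p := fun q => |q| < 1) ?_
          have : ContinuousAt (fun q : ℝ => |q|) X.2.2 := by fun_prop
          exact this.eventually (gt_mem_nhds (by rw [hq]; norm_num))
        filter_upwards [h1, h2] with Y h1 h2
        have hr : 1 ≤ rr fA fB Y := by
          have hd : del fA fB Y.1 = 2 := by
            unfold del
            rw [min_eq_left (by linarith)]
            norm_num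
          unfold rr
          rw [hd]
          have : mm Y.2.2 ≤ |Y.2.2| := min_le_left _ _
          have := abs_nonneg Y.2.1
          linarith
        unfold hXi
        split_ifs with hc
        · unfold GG
          rw [H.top _ _ _ hr, cl_of_ge hr]
        · rfl
  · have hf0 : fA X.1 = 0 := le_antisymm hf (hA0 _)
    have h1 : ∀ᶠ Y : Z × ℝ × ℝ in 𝓝 X, psi0 fA fB Y.1 < 1 / 3 :=
      ev_fst (p := fun x => psi0 fA fB x < 1 / 3)
        (hp0.eventually (gt_mem_nhds (by rw [psi0_zero hf0]; norm_num)))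
    filter_upwards [h1] with Y h1
    unfold hXi
    split_ifs with hc
    · unfold GG
      apply H.ends
      left
      have : psi fA fB Y.1 = 0 := by
        unfold psi
        have : min 1 (3 * psi0 fA fB Y.1 - 1) ≤ 0 := (min_le_right _ _).trans (by linarith)
        exact max_eq_left this
      rw [this]
      exact min_le_left _ _
    · rfl

lemma hXi_cont {h : Z × ℝ × ℝ → ℝ} (H : HH h) (hA : Continuous fA) (hB : Continuous fB)
    (hA0 : ∀ x, 0 ≤ fA x) (hcont : ∀ X : Z × ℝ × ℝ, 0 < fA X.1 → ContinuousAt h X)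
    {X : Z × ℝ × ℝ} (hx : 0 < fA X.1 + fB X.1) : ContinuousAt (hXi fA fB h) X := by
  by_cases hc : 0 < X.2.2 ∧ 0 < fA X.1
  · have h1 : ContinuousAt (fun Y => h (GG fA fB Y)) X := by
      have h2 : ContinuousAt h (GG fA fB X) := hcont _ (by simpa [GG] using hc.2)
      exact ContinuousAt.comp (f := GG fA fB) (g := h) h2 (continuousAt_GG hA hB hx)
    refine h1.congr ?_
    have e1 : ∀ᶠ Y : Z × ℝ × ℝ in 𝓝 X, 0 < Y.2.2 :=
      ev_snd (p := fun q => 0 < q) (lt_mem_nhds hc.1)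
    have e2 : ∀ᶠ Y : Z × ℝ × ℝ in 𝓝 X, 0 < fA Y.1 :=
      ev_fst (p := fun x => 0 < fA x) (hA.continuousAt.eventually (lt_mem_nhds hc.2))
    filter_upwards [e1, e2] with Y e1 e2
    unfold hXi
    rw [if_pos ⟨e1, e2⟩]
  · have hc' : X.2.2 ≤ 0 ∨ fA X.1 ≤ 0 := by
      by_contra hcon
      push Not at hcon
      exact hc hcon
    have h1 : ContinuousAt (fun Y => cl (rr fA fB Y)) X :=
      ContinuousAt.comp (f := rr fA fB) (g := cl) continuous_cl.continuousAt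
        (continuousAt_rr hA hB hx)
    refine h1.congr ?_
    filter_upwards [ev_cl H hA hB hA0 hx hc'] with Y hY
    rw [hY]

lemma hXi_top {h : Z × ℝ × ℝ → ℝ} (H : HH h) {X : Z × ℝ × ℝ} (hr : 1 ≤ rr fA fB X) :
    hXi fA fB h X = 1 := by
  unfold hXi
  split_ifs
  · exact H.top _ _ _ hr
  · exact cl_of_ge hr

lemma hXi_bot {h : Z × ℝ × ℝ → ℝ} (H : HH h) {X : Z × ℝ × ℝ} (hr : rr fA fB X ≤ -1) :
    hXi fA fB h X = -1 := by
  unfold hXi
  split_ifs
  · exact H.bot _ _ _ hr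
  · exact cl_of_le hr

variable {Γ : Type} [Group Γ] {w : Γ →* ℤˣ}

/-- The (even) cocycle obtained by repetition. -/
noncomputable def bb {Γ' : Type} [Group Γ'] (w' : Γ' →* ℤˣ) (ι : Γ →* Γ') (ρ : Z → Z → Γ)
    (x y : Z) : Tow w' := Tow.rep w' (ι (ρ x y))

open Classical in
noncomputable def ca {Γ' : Type} [Group Γ'] (w' : Γ' →* ℤˣ) (ι : Γ →* Γ') (ρ : Z → Z → Γ)
    (β : Z → Γ) (X Y : Z × ℝ × ℝ) : Tow w' :=
  if 0 < X.2.1 then
    (if 0 < Y.2.1 then Tow.emb w' (ι (ρ X.1 Y.1)) else (Tow.emb w' (ι (β X.1)))⁻¹)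
  else (if 0 < Y.2.1 then Tow.emb w' (ι (β Y.1)) else 1)

open Classical in
noncomputable def cb {Γ' : Type} [Group Γ'] (w' : Γ' →* ℤˣ) (ι : Γ →* Γ') (ρ : Z → Z → Γ)
    (fA fB : Z → ℝ) (c : Z × ℝ × ℝ → Z × ℝ × ℝ → Γ') (X Y : Z × ℝ × ℝ) : Tow w' :=
  if 0 < X.2.2 ∧ 0 < Y.2.2 then
    (if 0 < fA X.1 ∧ 0 < fA Y.1 then Tow.rep w' (c (GG fA fB X) (GG fA fB Y))
      else bb w' ι ρ X.1 Y.1)
  else 1

open Classical in
noncomputable def gg {Γ' : Type} [Group Γ'] (w' : Γ' →* ℤˣ) (X : Z × ℝ × ℝ) : Tow w' :=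
  if 0 < X.2.1 then Tow.sh w' else 1

open Classical in
noncomputable def cXi {Γ' : Type} [Group Γ'] (w' : Γ' →* ℤˣ) (ι : Γ →* Γ') (ρ : Z → Z → Γ)
    (β : Z → Γ) (fA fB : Z → ℝ) (c : Z × ℝ × ℝ → Z × ℝ × ℝ → Γ') (X Y : Z × ℝ × ℝ) : Tow w' :=
  if 4 < X.2.2 ∧ 4 < Y.2.2 then gg w' X * bb w' ι ρ X.1 Y.1 * (gg w' Y)⁻¹
  else ca w' ι ρ β X Y * cb w' ι ρ fA fB c X Y

section Labels

variable {Γ' : Type} [Group Γ'] {w' : Γ' →* ℤˣ} {ι : Γ →* Γ'} {ρ : Z → Z → Γ} {β : Z → Γ}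
  {c : Z × ℝ × ℝ → Z × ℝ × ℝ → Γ'}

lemma ca_cb_comm (X Y X' Y' : Z × ℝ × ℝ) :
    ca w' ι ρ β X Y * cb w' ι ρ fA fB c X' Y' = cb w' ι ρ fA fB c X' Y' * ca w' ι ρ β X Y := by
  have key : ∀ (a : Γ') (n : Γ'), (Tow.emb w' a)⁻¹ * Tow.rep w' n =
      Tow.rep w' n * (Tow.emb w' a)⁻¹ := by
    intro a n
    rw [← map_inv, Tow.emb_rep_comm]
  unfold ca cb bb
  split_ifs <;> simp [key, Tow.emb_rep_comm]

lemma ca_even (hι : ∀ g, w' (ι g) = w g) (hρ : ∀ x y, w (ρ x y) = 1) (hβ : ∀ x, w (β x) = 1)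
    (X Y : Z × ℝ × ℝ) : Tow.par w' (ca w' ι ρ β X Y) = 1 := by
  unfold ca
  split_ifs <;> simp [Tow.par_emb, hι, hρ, hβ]

lemma cb_even (X Y : Z × ℝ × ℝ) : Tow.par w' (cb w' ι ρ fA fB c X Y) = 1 := by
  unfold cb bb
  split_ifs <;> simp [Tow.rep_even]

lemma gg_even (X : Z × ℝ × ℝ) : Tow.par w' (gg w' X) = 1 := by
  unfold gg
  split_ifs <;> simp [Tow.par_sh]

lemma cXi_even (hι : ∀ g, w' (ι g) = w g) (hρ : ∀ x y, w (ρ x y) = 1) (hβ : ∀ x, w (β x) = 1)
    (X Y : Z × ℝ × ℝ) : Tow.par w' (cXi w' ι ρ β fA fB c X Y) = 1 := by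
  unfold cXi
  split_ifs
  · rw [map_mul, map_mul, map_inv, gg_even, gg_even]
    unfold bb
    rw [Tow.rep_even]
    simp
  · rw [map_mul, ca_even hι hρ hβ, cb_even, one_mul]

lemma locCoc_bb (hι : ∀ g, w' (ι g) = w g) (hρ : ∀ x y, w (ρ x y) = 1) {x : Z}
    (h : LocCoc ρ x) : LocCoc (bb w' ι ρ) x := by
  unfold bb
  refine h.map (fun g => Tow.rep w' (ι g)) ?_
  intro a b d e
  rw [map_mul]
  exact Tow.rep_mul (by rw [hι, hρ]) (by rw [hι, hρ])

end Labels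

end Step

end Pool.Agent.Helper85
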