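import Mathlib
import Pool.Agent.Helper85.Null

namespace Pool.Agent.Helper85

set_option linter.unusedSectionVars false

open Topology Filter Set

section

variable {Z : Type} [TopologicalSpace Z] {fA fB : Z → ℝ}
  {Γ : Type} [Group Γ] {w : Γ →* ℤˣ}
  {Γ' : Type} [Group Γ'] {w' : Γ' →* ℤˣ} {ι : Γ →* Γ'} {ρ : Z → Z → Γ} {β : Z → Γ}
  {h : Z × ℝ × ℝ → ℝ} {c : Z × ℝ × ℝ → Z × ℝ × ℝ → Γ'}

/-- All hypotheses on the data over `{fA > 0}` and `{fB > 0}`. -/
structure Dat (fA fB : Z → ℝ) (w : Γ →* ℤˣ) (w' : Γ' →* ℤˣ) (ι : Γ →* Γ') (ρ : Z → Z → Γ)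
    (β : Z → Γ) (h : Z × ℝ × ℝ → ℝ) (c : Z × ℝ × ℝ → Z × ℝ × ℝ → Γ') : Prop where
  hι : ∀ g, w' (ι g) = w g
  hρ : ∀ x y, w (ρ x y) = 1
  hβ : ∀ x, w (β x) = 1
  cA : Continuous fA
  cB : Continuous fB
  A0 : ∀ x, 0 ≤ fA x
  B0 : ∀ x, 0 ≤ fB x
  H : HH h
  hcont : ∀ X : Z × ℝ × ℝ, 0 < fA X.1 → ContinuousAt h X
  hloc : ∀ X : Z × ℝ × ℝ, 0 < fA X.1 → |h X| < 1 → LocCoc c X
  ceven : ∀ X Y, w' (c X Y) = 1
  c0 : ∀ x y r r' u u', 0 < fA x → 0 < fA y → u ≤ 0 → u' ≤ 0 →
        c (x, r, u) (y, r', u') = ι (ρ x y)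
  c1 : ∀ x y r r' u u', 1 ≤ u → 1 ≤ u' → c (x, r, u) (y, r', u') = 1
  rloc : ∀ x, 0 < fA x + fB x → LocCoc ρ x
  rB : ∀ x y, 0 < fB x → 0 < fB y → ρ x y = (β x)⁻¹ * β y

lemma mm_nonneg {q : ℝ} (hq : q ≤ 10) : 0 ≤ mm q := le_min (abs_nonneg _) (by linarith)

lemma locCoc_ca (D : Dat fA fB w w' ι ρ β h c) {X : Z × ℝ × ℝ} (hx : 0 < fA X.1 + fB X.1)
    (hz : |hXi fA fB h X| < 1) (hq : X.2.2 ≤ 4) : LocCoc (ca w' ι ρ β) X := by
  rcases lt_trichotomy X.2.1 0 with hp | hp | hp
  · refine (locCoc_one (G := Tow w') X).congr ⟨{Y | Y.2.1 < 0}, ?_, ?_⟩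
    · exact ev_mid (p := fun q => q < 0) (gt_mem_nhds hp)
    · intro a ha b hb
      have ha' : ¬ (0 < a.2.1) := not_lt.mpr (le_of_lt ha)
      have hb' : ¬ (0 < b.2.1) := not_lt.mpr (le_of_lt hb)
      simp [ca, ha', hb']
  · -- crossing
    have hB : 0 < fB X.1 := by
      by_contra hcon
      have hB0 : fB X.1 = 0 := le_antisymm (not_lt.mp hcon) (D.B0 _)
      have hA : 0 < fA X.1 := by linarith
      have h1 : psi0 fA fB X.1 = 1 := by
        unfold psi0; rw [hB0, add_zero]; exact div_self hA.ne'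
      have hd : del fA fB X.1 = -2 := by
        unfold del; rw [h1]; norm_num
      have : rr fA fB X ≤ -1 := by
        unfold rr
        rw [hd, hp]
        have := mm_nonneg (q := X.2.2) (by linarith)
        simp
        linarith
      rw [hXi_bot D.H this] at hz
      norm_num at hz
    refine (locCoc_of_gauge (G := Tow w') (x := X)
      (fun Y => if 0 < Y.2.1 then Tow.emb w' (ι (β Y.1)) else 1)).congr
      ⟨{Y | 0 < fB Y.1}, ?_, ?_⟩
    · exact ev_fst (p := fun x => 0 < fB x) (D.cB.continuousAt.eventually (lt_mem_nhds hB))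
    · intro a ha b hb
      have := D.rB a.1 b.1 ha hb
      by_cases h1 : 0 < a.2.1 <;> by_cases h2 : 0 < b.2.1 <;> simp [ca, h1, h2, this]
  · have h1 : LocCoc (fun x y => Tow.emb w' (ι (ρ x y))) X.1 := by
      refine (D.rloc X.1 hx).map (fun g => Tow.emb w' (ι g)) ?_
      intro a b d e
      simp
    have h2 : LocCoc (fun a b : Z × ℝ × ℝ => Tow.emb w' (ι (ρ a.1 b.1))) X :=
      LocCoc.comp (f := fun Y : Z × ℝ × ℝ => Y.1) h1 continuousAt_fst
    refine h2.congr ⟨{Y | 0 < Y.2.1}, ?_, ?_⟩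
    · exact ev_mid (p := fun q => 0 < q) (lt_mem_nhds hp)
    · intro a ha b hb
      have ha' : 0 < a.2.1 := ha
      have hb' : 0 < b.2.1 := hb
      simp [ca, ha', hb']

lemma locCoc_bb' (D : Dat fA fB w w' ι ρ β h c) {X : Z × ℝ × ℝ} (hx : 0 < fA X.1 + fB X.1) :
    LocCoc (fun a b : Z × ℝ × ℝ => bb w' ι ρ a.1 b.1) X :=
  LocCoc.comp (f := fun Y : Z × ℝ × ℝ => Y.1) (locCoc_bb D.hι D.hρ (D.rloc _ hx))
    continuousAt_fst

lemma locCoc_cb (D : Dat fA fB w w' ι ρ β h c) {X : Z × ℝ × ℝ} (hx : 0 < fA X.1 + fB X.1)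
    (hz : |hXi fA fB h X| < 1) : LocCoc (cb w' ι ρ fA fB c) X := by
  have hp0 : ContinuousAt (psi0 fA fB) X.1 := continuousAt_psi0 D.cA D.cB hx
  rcases lt_trichotomy X.2.2 0 with hq | hq | hq
  · refine (locCoc_one (G := Tow w') X).congr ⟨{Y | Y.2.2 < 0}, ?_, ?_⟩
    · exact ev_snd (p := fun q => q < 0) (gt_mem_nhds hq)
    · intro a ha b hb
      have ha' : ¬ (0 < a.2.2) := not_lt.mpr (le_of_lt ha)
      simp [cb, ha']
  · -- q = 0
    have h23 : 2 / 3 < psi0 fA fB X.1 := by
      by_contra hcon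
      push Not at hcon
      have hr : 1 ≤ rr fA fB X := by
        have hd : del fA fB X.1 = 2 := by
          unfold del
          rw [min_eq_left (by linarith)]
          norm_num
        unfold rr
        rw [hd, hq]
        have h1 : mm 0 ≤ 0 := by
          have : mm 0 ≤ |(0:ℝ)| := min_le_left _ _
          simpa using this
        have h2 := abs_nonneg X.2.1
        linarith
      rw [hXi_top D.H hr] at hz
      norm_num at hz
    refine (locCoc_one (G := Tow w') X).congr
      ⟨{Y | 2 / 3 < psi0 fA fB Y.1 ∧ Y.2.2 < 1}, ?_, ?_⟩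
    · exact (ev_fst (p := fun x => 2 / 3 < psi0 fA fB x)
        (hp0.eventually (lt_mem_nhds h23))).and
        (ev_snd (p := fun q => q < 1) (gt_mem_nhds (by linarith)))
    · intro a ha b hb
      have hpsi : ∀ x, 2 / 3 < psi0 fA fB x → psi fA fB x = 1 := by
        intro x hx
        unfold psi
        rw [min_eq_left (by linarith)]
        norm_num
      have hApos : ∀ x, 2 / 3 < psi0 fA fB x → 0 < fA x := by
        intro x hx
        by_contra hcon
        have : fA x = 0 := le_antisymm (not_lt.mp hcon) (D.A0 _)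
        rw [psi0_zero this] at hx
        norm_num at hx
      unfold cb
      split_ifs with h1 h2
      · have : c (GG fA fB a) (GG fA fB b) = 1 := by
          unfold GG
          apply D.c1
          · rw [hpsi _ ha.1]; exact le_min le_rfl (by linarith [ha.2])
          · rw [hpsi _ hb.1]; exact le_min le_rfl (by linarith [hb.2])
        rw [this, Tow.rep_one]
      · exact absurd ⟨hApos _ ha.1, hApos _ hb.1⟩ h2
      · rfl
  · by_cases hA : 0 < fA X.1
    · have hz' : |h (GG fA fB X)| < 1 := by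
        have : hXi fA fB h X = h (GG fA fB X) := by
          unfold hXi; rw [if_pos ⟨hq, hA⟩]
        rwa [this] at hz
      have h1 : LocCoc c (GG fA fB X) := D.hloc _ (by simpa [GG] using hA) hz'
      have h2 : LocCoc (fun a b => c (GG fA fB a) (GG fA fB b)) X :=
        LocCoc.comp (f := GG fA fB) h1 (continuousAt_GG D.cA D.cB hx)
      have h3 : LocCoc (fun a b => Tow.rep w' (c (GG fA fB a) (GG fA fB b))) X := by
        refine h2.map (fun g => Tow.rep w' g) ?_
        intro a b d e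
        exact Tow.rep_mul (D.ceven _ _) (D.ceven _ _)
      refine h3.congr ⟨{Y | 0 < fA Y.1 ∧ 0 < Y.2.2}, ?_, ?_⟩
      · exact (ev_fst (p := fun x => 0 < fA x)
          (D.cA.continuousAt.eventually (lt_mem_nhds hA))).and
          (ev_snd (p := fun q => 0 < q) (lt_mem_nhds hq))
      · intro a ha b hb
        unfold cb
        rw [if_pos ⟨ha.2, hb.2⟩, if_pos ⟨ha.1, hb.1⟩]
    · have hA0 : fA X.1 = 0 := le_antisymm (not_lt.mp hA) (D.A0 _)
      refine (locCoc_bb' D hx).congr ⟨{Y | psi0 fA fB Y.1 < 1 / 3 ∧ 0 < Y.2.2}, ?_, ?_⟩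
      · exact (ev_fst (p := fun x => psi0 fA fB x < 1 / 3)
          (hp0.eventually (gt_mem_nhds (by rw [psi0_zero hA0]; norm_num)))).and
          (ev_snd (p := fun q => 0 < q) (lt_mem_nhds hq))
      · intro a ha b hb
        have hpsi : ∀ x, psi0 fA fB x < 1 / 3 → psi fA fB x = 0 := by
          intro x hx
          unfold psi
          have : min 1 (3 * psi0 fA fB x - 1) ≤ 0 := (min_le_right _ _).trans (by linarith)
          exact max_eq_left this
        unfold cb
        rw [if_pos ⟨ha.2, hb.2⟩]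
        split_ifs with h2
        · have : c (GG fA fB a) (GG fA fB b) = ι (ρ a.1 b.1) := by
            unfold GG
            apply D.c0 _ _ _ _ _ _ h2.1 h2.2
            · rw [hpsi _ ha.1]; exact min_le_left _ _
            · rw [hpsi _ hb.1]; exact min_le_left _ _
          rw [this]; rfl
        · rfl

lemma locCoc_cXi (D : Dat fA fB w w' ι ρ β h c) {X : Z × ℝ × ℝ} (hx : 0 < fA X.1 + fB X.1)
    (hz : |hXi fA fB h X| < 1) : LocCoc (cXi w' ι ρ β fA fB c) X := by
  by_cases h4 : X.2.2 ≤ 4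
  · have h1 : LocCoc (fun a b => ca w' ι ρ β a b * cb w' ι ρ fA fB c a b) X :=
      (locCoc_ca D hx hz h4).mul (locCoc_cb D hx hz) (fun a b d e => ca_cb_comm a b d e)
    rcases lt_or_eq_of_le h4 with h4 | h4
    · refine h1.congr ⟨{Y | Y.2.2 < 4}, ev_snd (p := fun q => q < 4) (gt_mem_nhds h4), ?_⟩
      intro a ha b hb
      unfold cXi
      rw [if_neg]
      rintro ⟨h, -⟩
      have : a.2.2 < 4 := ha
      linarith
    · -- on the boundary the two formulas agree
      have hp0 : X.2.1 ≠ 0 := by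
        intro hp
        have : rr fA fB X ≤ -1 := by
          unfold rr
          have h1 : mm X.2.2 = 4 := by
            unfold mm; rw [h4]; norm_num
          have h2 := del_le (fA := fA) (fB := fB) X.1
          rw [h1, hp]
          simp
          linarith
        rw [hXi_bot D.H this] at hz
        norm_num at hz
      have hsign : ∃ V ∈ 𝓝 X, ∀ a ∈ V, ∀ b ∈ V, ((0 : ℝ) < a.2.1 ↔ 0 < b.2.1) := by
        rcases lt_or_gt_of_ne hp0 with hp | hp
        · refine ⟨{Y | Y.2.1 < 0}, ev_mid (p := fun q => q < 0) (gt_mem_nhds hp), ?_⟩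
          intro a ha b hb
          have ha' : ¬ (0 < a.2.1) := not_lt.mpr (le_of_lt ha)
          have hb' : ¬ (0 < b.2.1) := not_lt.mpr (le_of_lt hb)
          simp [ha', hb']
        · refine ⟨{Y | 0 < Y.2.1}, ev_mid (p := fun q => 0 < q) (lt_mem_nhds hp), ?_⟩
          intro a ha b hb
          have ha' : (0 < a.2.1) := ha
          have hb' : (0 < b.2.1) := hb
          simp [ha', hb']
      obtain ⟨V, hV, hV2⟩ := hsign
      refine h1.congr ⟨V, hV, ?_⟩
      intro a ha b hb
      unfold cXi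
      split_ifs with hab
      swap
      · rfl
      have hcb : cb w' ι ρ fA fB c a b = bb w' ι ρ a.1 b.1 := by
        unfold cb
        rw [if_pos ⟨by linarith [hab.1], by linarith [hab.2]⟩]
        split_ifs with h2
        · have : c (GG fA fB a) (GG fA fB b) = ι (ρ a.1 b.1) := by
            unfold GG
            apply D.c0 _ _ _ _ _ _ h2.1 h2.2
            · exact (min_le_right _ _).trans (by linarith [hab.1])
            · exact (min_le_right _ _).trans (by linarith [hab.2])
          rw [this]; rfl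
        · rfl
      show gg w' a * bb w' ι ρ a.1 b.1 * (gg w' b)⁻¹ = ca w' ι ρ β a b * cb w' ι ρ fA fB c a b
      rw [hcb]
      by_cases hpa : 0 < a.2.1
      · have hpb : 0 < b.2.1 := (hV2 a ha b hb).mp hpa
        simp only [gg, ca, hpa, hpb, if_true]
        exact Tow.sh_rep (by rw [D.hι, D.hρ])
      · have hpb : ¬ 0 < b.2.1 := fun h => hpa ((hV2 a ha b hb).mpr h)
        simp [gg, ca, hpa, hpb]
  · push Not at h4
    refine ((locCoc_bb' D hx).gauge (gg w')).congr
      ⟨{Y | 4 < Y.2.2}, ev_snd (p := fun q => 4 < q) (lt_mem_nhds h4), ?_⟩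
    intro a ha b hb
    unfold cXi
    rw [if_pos ⟨ha, hb⟩]

/-! ### The reparametrisation -/

noncomputable def uu (u : ℝ) : ℝ := max 0 (min 1 u)

noncomputable def FF (fA fB : Z → ℝ) (X : Z × ℝ × ℝ) : Z × ℝ × ℝ :=
  (X.1, (10 - del fA fB X.1 + cl X.2.1) * (1 - 2 * uu X.2.2),
    -10 + 40 * (cl X.2.1 + 1) * min (uu X.2.2) (1 - uu X.2.2))

lemma continuousAt_FF (hA : Continuous fA) (hB : Continuous fB) {X : Z × ℝ × ℝ}
    (hx : 0 < fA X.1 + fB X.1) : ContinuousAt (FF fA fB) X := by
  have h1 : ContinuousAt (fun X : Z × ℝ × ℝ => del fA fB X.1) X :=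
    (continuousAt_del hA hB hx).comp continuousAt_fst
  have h2 := continuous_cl
  unfold FF uu
  fun_prop

lemma uu_of_le {u : ℝ} (h : u ≤ 0) : uu u = 0 := by
  unfold uu
  exact max_eq_left ((min_le_right _ _).trans h)

lemma uu_of_ge {u : ℝ} (h : 1 ≤ u) : uu u = 1 := by
  unfold uu
  rw [min_eq_left h]; norm_num

lemma uu_nonneg (u : ℝ) : 0 ≤ uu u := le_max_left _ _

lemma uu_le_one (u : ℝ) : uu u ≤ 1 := max_le (by norm_num) (min_le_left _ _)

lemma rr_FF_top {x : Z} {r u : ℝ} (hr : 1 ≤ r) : 1 ≤ rr fA fB (FF fA fB (x, r, u)) := by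
  unfold rr FF
  simp only
  rw [cl_of_ge hr]
  have h0 := uu_nonneg u
  have h1 := uu_le_one u
  have hd1 := del_le (fA := fA) (fB := fB) x
  have hd2 := le_del (fA := fA) (fB := fB) x
  set v := uu u
  set d := del fA fB x
  set s := min v (1 - v) with hs
  have hs0 : 0 ≤ s := le_min h0 (by linarith)
  have hs1 : s ≤ 1 / 2 := by
    rcases le_total v (1 / 2) with h | h
    · exact (min_le_left _ _).trans h
    · exact (min_le_right _ _).trans (by linarith)
  have habs : |(10 - d + 1) * (1 - 2 * v)| = (11 - d) * (1 - 2 * s) := by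
    rw [abs_mul, abs_of_nonneg (by linarith : (0:ℝ) ≤ 10 - d + 1)]
    have : |1 - 2 * v| = 1 - 2 * s := by
      rcases le_total v (1 / 2) with h | h
      · rw [abs_of_nonneg (by linarith), hs, min_eq_left (by linarith)]
      · rw [abs_of_nonpos (by linarith), hs, min_eq_right (by linarith)]
        ring
    rw [this]; ring
  rw [habs]
  have hq : -10 + 40 * (1 + 1) * s = 80 * s - 10 := by ring
  rw [hq]
  have hsd : s * d ≤ s * 2 := mul_le_mul_of_nonneg_left hd1 hs0
  have hsd' : s * (-2) ≤ s * d := mul_le_mul_of_nonneg_left hd2 hs0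
  have hmain : (11 - d) * (1 - 2 * s) + d ≥ 11 - 26 * s := by nlinarith
  rcases le_total s (1 / 8) with h | h
  · have hm : mm (80 * s - 10) ≤ 10 - 80 * s := by
      unfold mm
      refine (min_le_left _ _).trans ?_
      rw [abs_of_nonpos (by linarith)]
      linarith
    linarith
  · rcases le_total s (3 / 16) with h' | h'
    · have hm : mm (80 * s - 10) ≤ 80 * s - 10 := by
        unfold mm
        refine (min_le_left _ _).trans ?_
        rw [abs_of_nonneg (by linarith)]
      linarith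
    · have hm : mm (80 * s - 10) ≤ 10 - (80 * s - 10) := min_le_right _ _
      linarith

lemma rr_FF_bot {x : Z} {r u : ℝ} (hr : r ≤ -1) : rr fA fB (FF fA fB (x, r, u)) ≤ -1 := by
  unfold rr FF
  simp only
  rw [cl_of_le hr]
  have h0 := uu_nonneg u
  have h1 := uu_le_one u
  have hd1 := del_le (fA := fA) (fB := fB) x
  have hd2 := le_del (fA := fA) (fB := fB) x
  set v := uu u
  set d := del fA fB x
  have hm : mm (-10 + 40 * (-1 + 1) * min v (1 - v)) = 10 := by
    unfold mm
    norm_num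
  rw [hm]
  have habs : |(10 - d + -1) * (1 - 2 * v)| ≤ 9 - d := by
    rw [abs_mul, abs_of_nonneg (by linarith : (0:ℝ) ≤ 10 - d + -1)]
    have : |1 - 2 * v| ≤ 1 := by
      rw [abs_le]; constructor <;> linarith
    nlinarith
  linarith

lemma rr_FF_end {x : Z} {r u : ℝ} (hu : u ≤ 0 ∨ 1 ≤ u) :
    rr fA fB (FF fA fB (x, r, u)) = cl r := by
  have hc1 := neg_one_le_cl r
  have hc2 := cl_le_one r
  have hd1 := del_le (fA := fA) (fB := fB) x
  have hd2 := le_del (fA := fA) (fB := fB) x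
  unfold rr FF
  simp only
  rcases hu with hu | hu
  · rw [uu_of_le hu]
    have hm : mm (-10 + 40 * (cl r + 1) * min 0 (1 - 0)) = 10 := by
      unfold mm
      norm_num
    rw [hm]
    have : (10 - del fA fB x + cl r) * (1 - 2 * 0) = 10 - del fA fB x + cl r := by ring
    rw [this, abs_of_nonneg (by linarith)]
    ring
  · rw [uu_of_ge hu]
    have hm : mm (-10 + 40 * (cl r + 1) * min 1 (1 - 1)) = 10 := by
      unfold mm
      norm_num
    rw [hm]
    have : (10 - del fA fB x + cl r) * (1 - 2 * 1) = -(10 - del fA fB x + cl r) := by ring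
    rw [this, abs_neg, abs_of_nonneg (by linarith)]
    ring

lemma q_FF_end {x : Z} {r u : ℝ} (hu : u ≤ 0 ∨ 1 ≤ u) :
    (FF fA fB (x, r, u)).2.2 = -10 := by
  unfold FF
  simp only
  rcases hu with hu | hu
  · rw [uu_of_le hu]; norm_num
  · rw [uu_of_ge hu]; norm_num

lemma p_FF_zero {x : Z} {r u : ℝ} (hu : u ≤ 0) :
    0 < (FF fA fB (x, r, u)).2.1 := by
  have hc1 := neg_one_le_cl r
  have hd1 := del_le (fA := fA) (fB := fB) x
  unfold FF
  simp only
  rw [uu_of_le hu]
  linarith

lemma p_FF_one {x : Z} {r u : ℝ} (hu : 1 ≤ u) :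
    (FF fA fB (x, r, u)).2.1 < 0 := by
  have hc1 := neg_one_le_cl r
  have hd1 := del_le (fA := fA) (fB := fB) x
  unfold FF
  simp only
  rw [uu_of_ge hu]
  linarith

/-- One step of the induction. -/
lemma null_step {w : Γ →* ℤˣ} {ρ : Z → Z → Γ} {fA fB : Z → ℝ} {β : Z → Γ}
    (hN : Null w ρ fA) (hρ : ∀ x y, w (ρ x y) = 1) (hβ : ∀ x, w (β x) = 1)
    (cA : Continuous fA) (cB : Continuous fB) (A0 : ∀ x, 0 ≤ fA x) (B0 : ∀ x, 0 ≤ fB x)
    (rloc : ∀ x, 0 < fA x + fB x → LocCoc ρ x)
    (rB : ∀ x y, 0 < fB x → 0 < fB y → ρ x y = (β x)⁻¹ * β y) :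
    Null w ρ (fun x => fA x + fB x) := by
  obtain ⟨Γ', _, w', ι, hgood, hι, h, c, hcont, htop, hbot, hends, hloc, ceven, c0, c1⟩ := hN
  have H : HH h := ⟨htop, hbot, hends⟩
  have D : Dat fA fB w w' ι ρ β h c :=
    ⟨hι, hρ, hβ, cA, cB, A0, B0, H, hcont, hloc, ceven, c0, c1, rloc, rB⟩
  refine ⟨Tow w', inferInstance, Tow.par w', (Tow.emb w').comp ι, Tow.good_par hgood, ?_,
    fun X => hXi fA fB h (FF fA fB X), fun X Y => cXi w' ι ρ β fA fB c (FF fA fB X) (FF fA fB Y),
    ?_, ?_, ?_, ?_, ?_, ?_, ?_, ?_⟩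
  · intro g
    rw [MonoidHom.comp_apply, Tow.par_emb, hι]
  · intro X hX
    have h1 : ContinuousAt (hXi fA fB h) (FF fA fB X) :=
      hXi_cont H cA cB A0 hcont (by simpa [FF] using hX)
    exact ContinuousAt.comp (f := FF fA fB) (g := hXi fA fB h) h1 (continuousAt_FF cA cB hX)
  · intro x r u hr
    exact hXi_top H (rr_FF_top hr)
  · intro x r u hr
    exact hXi_bot H (rr_FF_bot hr)
  · intro x r u hu
    have hq := q_FF_end (fA := fA) (fB := fB) (x := x) (r := r) hu
    have : ¬ (0 < (FF fA fB (x, r, u)).2.2 ∧ 0 < fA (FF fA fB (x, r, u)).1) := by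
      rintro ⟨h1, -⟩
      rw [hq] at h1
      norm_num at h1
    show hXi fA fB h (FF fA fB (x, r, u)) = cl r
    unfold hXi
    rw [if_neg this, rr_FF_end hu, cl_cl]
  · intro X hX hz
    have h1 : LocCoc (cXi w' ι ρ β fA fB c) (FF fA fB X) :=
      locCoc_cXi D (by simpa [FF] using hX) hz
    exact LocCoc.comp (f := FF fA fB) h1 (continuousAt_FF cA cB hX)
  · intro X Y
    exact cXi_even hι hρ hβ _ _
  · intro x y r r' u u' hx hy hu hu'
    have hq := q_FF_end (fA := fA) (fB := fB) (x := x) (r := r) (u := u) (Or.inl hu)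
    have hq' := q_FF_end (fA := fA) (fB := fB) (x := y) (r := r') (u := u') (Or.inl hu')
    have hp := p_FF_zero (fA := fA) (fB := fB) (x := x) (r := r) (u := u) hu
    have hp' := p_FF_zero (fA := fA) (fB := fB) (x := y) (r := r') (u := u') hu'
    show cXi w' ι ρ β fA fB c (FF fA fB (x, r, u)) (FF fA fB (y, r', u')) = _
    unfold cXi
    rw [if_neg (by rw [hq]; norm_num)]
    unfold ca cb
    rw [if_pos hp, if_pos hp', if_neg (by rw [hq]; norm_num)]
    simp [FF]
  · intro x y r r' u u' hu hu'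
    have hq := q_FF_end (fA := fA) (fB := fB) (x := x) (r := r) (u := u) (Or.inr hu)
    have hp := p_FF_one (fA := fA) (fB := fB) (x := x) (r := r) (u := u) hu
    have hp' := p_FF_one (fA := fA) (fB := fB) (x := y) (r := r') (u := u') hu'
    show cXi w' ι ρ β fA fB c (FF fA fB (x, r, u)) (FF fA fB (y, r', u')) = _
    unfold cXi
    rw [if_neg (by rw [hq]; norm_num)]
    unfold ca cb
    rw [if_neg (not_lt.mpr hp.le), if_neg (not_lt.mpr hp'.le), if_neg (by rw [hq]; norm_num)]
    simp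

/-- The induction over a finite family of trivialising open sets. -/
lemma null_finset {w : Γ →* ℤˣ} (hw : Good w) {ρ : Z → Z → Γ} {I : Type} (f : I → Z → ℝ)
    (β : I → Z → Γ)
    (hρ : ∀ x y, w (ρ x y) = 1) (hβ : ∀ i x, w (β i x) = 1)
    (cf : ∀ i, Continuous (f i)) (f0 : ∀ i x, 0 ≤ f i x)
    (rB : ∀ i x y, 0 < f i x → 0 < f i y → ρ x y = (β i x)⁻¹ * β i y) (s : Finset I) :
    Null w ρ (fun x => ∑ i ∈ s, f i x) := by
  classical
  induction s using Finset.induction_on with
  | empty =>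
    refine ⟨Γ, inferInstance, w, MonoidHom.id Γ, hw, fun _ => rfl, fun X => cl X.2.1,
      fun _ _ => 1, ?_, ?_, ?_, ?_, ?_, ?_, ?_, ?_⟩
    · intro X hX
      simp at hX
    · intro x r u hr
      exact cl_of_ge hr
    · intro x r u hr
      exact cl_of_le hr
    · intro x r u hu
      rfl
    · intro X hX
      simp at hX
    · intro X Y
      simp
    · intro x y r r' u u' hx
      simp at hx
    · intros
      rfl
  | insert i s his ih =>
    have h1 : Null w ρ (fun x => (∑ j ∈ s, f j x) + f i x) := by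
      refine null_step (fA := fun x => ∑ j ∈ s, f j x) (fB := f i) ih hρ (hβ i) ?_ (cf i) ?_
        (f0 i) ?_ (rB i)
      · exact continuous_finsetSum _ (fun j _ => cf j)
      · intro x
        exact Finset.sum_nonneg (fun j _ => f0 j x)
      · intro x hx
        have : ∃ j, 0 < f j x := by
          by_contra hcon
          push Not at hcon
          have h1 : ∑ j ∈ s, f j x ≤ 0 := Finset.sum_nonpos (fun j _ => hcon j)
          have h2 := hcon i
          linarith
        obtain ⟨j, hj⟩ := this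
        refine ⟨{y | 0 < f j y}, (cf j).continuousAt.eventually (lt_mem_nhds hj), ?_⟩
        intro a ha b hb d hd
        rw [rB j a b ha hb, rB j b d hb hd, rB j a d ha hd]
        group
    have h2 : (fun x => ∑ j ∈ insert i s, f j x) = fun x => (∑ j ∈ s, f j x) + f i x := by
      funext x
      rw [Finset.sum_insert his, add_comm]
    rw [h2]
    exact h1

end

end Pool.Agent.Helper85
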