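import Mathlib
import Pool.Agent.Helper85.Null2

namespace Pool.Agent.Helper85

set_option linter.unusedSectionVars false

open Topology Filter Set

/-- Projective local cocycle with the right parities. -/
def PL {S : Type} [TopologicalSpace S] {Γ : Type} [Group Γ] (w : Γ →* ℤˣ) (ν : S → S)
    (C : S → S → Γ) (x : S) : Prop :=
  ∃ U ∈ 𝓝 x, (∀ a b d, (a ∈ U ∨ ν a ∈ U) → (b ∈ U ∨ ν b ∈ U) → (d ∈ U ∨ ν d ∈ U) →
      C a b * C b d = C a d) ∧
    (∀ a ∈ U, ∀ b ∈ U, w (C a b) = 1) ∧ (∀ a ∈ U, ∀ b ∈ U, w (C a (ν b)) = -1)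

/-- An equivariant wall structure on a space with involution. -/
def Str (S : Type) [TopologicalSpace S] (ν : S → S) : Prop :=
  ∃ (Γ : Type) (_ : Group Γ) (w : Γ →* ℤˣ), Good w ∧ (∃ κ, w κ = -1) ∧
    ∃ (h : S → ℝ) (C : S → S → Γ), Continuous h ∧ (∀ x, h (ν x) = - h x) ∧
      ∀ x, |h x| < 1 → PL w ν C x

lemma PL.symm {S : Type} [TopologicalSpace S] {Γ : Type} [Group Γ] {w : Γ →* ℤˣ} {ν : S → S}
    {C : S → S → Γ} (hν : ∀ x, ν (ν x) = x) (cν : Continuous ν) {x : S} (h : PL w ν C x) :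
    PL w ν C (ν x) := by
  obtain ⟨U, hU, h1, h2, h3⟩ := h
  have hmem : ∀ a, a ∈ ν ⁻¹' U ∨ ν a ∈ ν ⁻¹' U → a ∈ U ∨ ν a ∈ U := by
    intro a ha
    rcases ha with ha | ha
    · right; exact ha
    · left
      simpa [hν] using ha
  have hself : ∀ a, (a ∈ U ∨ ν a ∈ U) → C a a = 1 := by
    intro a ha
    have := h1 a a a ha ha ha
    simpa using this
  -- w (C a (ν a)) = -1 whenever a ∈ ν ⁻¹' U
  have hodd : ∀ a, ν a ∈ U → w (C a (ν a)) = -1 := by
    intro a ha
    have e1 : C a (ν a) * C (ν a) a = 1 := by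
      rw [h1 a (ν a) a (Or.inr ha) (Or.inl ha) (Or.inr ha), hself a (Or.inr ha)]
    have e2 : w (C (ν a) a) = -1 := by
      have := h3 (ν a) ha (ν a) ha
      rwa [hν] at this
    have e3 := congrArg w e1
    rw [map_mul, e2, map_one] at e3
    rcases Int.units_eq_one_or (w (C a (ν a))) with h | h
    · rw [h] at e3; exact absurd e3 (by decide)
    · exact h
  have heven : ∀ a, ν a ∈ U → ∀ b, ν b ∈ U → w (C a b) = 1 := by
    intro a ha b hb
    have e1 : C a b = C a (ν a) * C (ν a) (ν b) * C (ν b) b := by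
      rw [h1 a (ν a) (ν b) (Or.inr ha) (Or.inl ha) (Or.inl hb),
        h1 a (ν b) b (Or.inr ha) (Or.inl hb) (Or.inr hb)]
    have e2 : w (C (ν b) b) = -1 := by
      have := h3 (ν b) hb (ν b) hb
      rwa [hν] at this
    rw [e1, map_mul, map_mul, hodd a ha, h2 _ ha _ hb, e2]
    decide
  refine ⟨ν ⁻¹' U, ?_, ?_, ?_, ?_⟩
  · apply cν.continuousAt.preimage_mem_nhds
    rwa [hν]
  · intro a b d ha hb hd
    exact h1 a b d (hmem a ha) (hmem b hb) (hmem d hd)
  · intro a ha b hb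
    exact heven a ha b hb
  · intro a ha b hb
    have e1 : C a (ν b) = C a b * C b (ν b) := by
      rw [h1 a b (ν b) (Or.inr ha) (Or.inr hb) (Or.inl hb)]
    rw [e1, map_mul, heven a ha b hb, hodd b hb]
    decide

open Classical in
/-- The even part of a projective cocycle. -/
noncomputable def rho {S : Type} {Γ : Type} [Group Γ] (w : Γ →* ℤˣ) (C : S → S → Γ) (x y : S) :
    Γ := if w (C x y) = 1 then C x y else 1

lemma rho_even {S : Type} {Γ : Type} [Group Γ] (w : Γ →* ℤˣ) (C : S → S → Γ) (x y : S) :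
    w (rho w C x y) = 1 := by
  unfold rho
  split_ifs with h
  · exact h
  · simp

lemma rho_eq {S : Type} {Γ : Type} [Group Γ] {w : Γ →* ℤˣ} {C : S → S → Γ} {x y : S}
    (h : w (C x y) = 1) : rho w C x y = C x y := by
  unfold rho
  rw [if_pos h]

section

variable {S S' : Type} [TopologicalSpace S] [TopologicalSpace S'] {Γ Γ' : Type} [Group Γ]
  [Group Γ']

structure DD (ν : S → S) (ν' : S' → S') (t : S' → ℝ) (π : S' → S) (w : Γ →* ℤˣ) (h : S → ℝ)
    (C : S → S → Γ) (w' : Γ' →* ℤˣ) (ι : Γ →* Γ') (κ : Γ') (f : S → ℝ)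
    (hN : S × ℝ × ℝ → ℝ) (cN : S × ℝ × ℝ → S × ℝ × ℝ → Γ') : Prop where
  νν : ∀ x, ν (ν x) = x
  νν' : ∀ X, ν' (ν' X) = X
  cν' : Continuous ν'
  ct : Continuous t
  todd : ∀ X, t (ν' X) = - t X
  cπ : ∀ X, |t X| < 1 → ContinuousAt π X
  πodd : ∀ X, |t X| < 1 → π (ν' X) = ν (π X)
  ch : Continuous h
  hodd : ∀ x, h (ν x) = - h x
  hPL : ∀ x, |h x| < 1 → PL w ν C x
  hι : ∀ g, w' (ι g) = w g
  κodd : w' κ = -1
  cf : Continuous f
  fpos : ∀ x, |h x| ≤ 1 / 2 → 0 < f x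
  hcont : ∀ X : S × ℝ × ℝ, 0 < f X.1 → ContinuousAt hN X
  top : ∀ x r u, 1 ≤ r → hN (x, r, u) = 1
  bot : ∀ x r u, r ≤ -1 → hN (x, r, u) = -1
  ends : ∀ x r u, (u ≤ 0 ∨ 1 ≤ u) → hN (x, r, u) = cl r
  hloc : ∀ X : S × ℝ × ℝ, 0 < f X.1 → |hN X| < 1 → LocCoc cN X
  ceven : ∀ X Y, w' (cN X Y) = 1
  c0 : ∀ x y r r' u u', 0 < f x → 0 < f y → u ≤ 0 → u' ≤ 0 →
        cN (x, r, u) (y, r', u') = ι (rho w C x y)
  c1 : ∀ x y r r' u u', 1 ≤ u → 1 ≤ u' → cN (x, r, u) (y, r', u') = 1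

open Classical in
noncomputable def HD (h : S → ℝ) (f : S → ℝ) (hN : S × ℝ × ℝ → ℝ) (z : S × ℝ) : ℝ :=
  if 0 < f z.1 then hN (z.1, 2 * h z.1, z.2) else cl (2 * h z.1)

noncomputable def chi (t : ℝ) : ℝ := max 0 (min 1 (3 - 4 * t))

noncomputable def ED (h : S → ℝ) (f : S → ℝ) (hN : S × ℝ × ℝ → ℝ) (t : S' → ℝ) (π : S' → S)
    (X : S') : ℝ := chi (t X) * HD h f hN (π X, 4 * t X - 1)

open Classical in
noncomputable def hD (h : S → ℝ) (f : S → ℝ) (hN : S × ℝ × ℝ → ℝ) (t : S' → ℝ) (π : S' → S)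
    (ν' : S' → S') (X : S') : ℝ :=
  if 0 ≤ t X then ED h f hN t π X else - ED h f hN t π (ν' X)

noncomputable def GD (h : S → ℝ) (t : S' → ℝ) (π : S' → S) (X : S') : S × ℝ × ℝ :=
  (π X, 2 * h (π X), 4 * t X - 1)

open Classical in
noncomputable def Chat (h : S → ℝ) (t : S' → ℝ) (π : S' → S) (C : S → S → Γ) (ι : Γ →* Γ')
    (cN : S × ℝ × ℝ → S × ℝ × ℝ → Γ') (X Y : S') : Γ' :=
  if t X < 1 / 4 ∧ t Y < 1 / 4 then ι (C (π X) (π Y)) else cN (GD h t π X) (GD h t π Y)

open Classical in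
noncomputable def eD (t : S' → ℝ) (ν' : S' → S') (X : S') : S' := if 0 ≤ t X then X else ν' X

open Classical in
noncomputable def kD (t : S' → ℝ) (κ : Γ') (X : S') : Γ' := if 0 ≤ t X then 1 else κ

noncomputable def CD (h : S → ℝ) (t : S' → ℝ) (π : S' → S) (C : S → S → Γ) (ι : Γ →* Γ')
    (cN : S × ℝ × ℝ → S × ℝ × ℝ → Γ') (ν' : S' → S') (κ : Γ') (X Y : S') : Γ' :=
  (kD t κ X)⁻¹ * Chat h t π C ι cN (eD t ν' X) (eD t ν' Y) * kD t κ Y

variable {ν : S → S} {ν' : S' → S'} {t : S' → ℝ} {π : S' → S} {w : Γ →* ℤˣ} {h : S → ℝ}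
    {C : S → S → Γ} {w' : Γ' →* ℤˣ} {ι : Γ →* Γ'} {κ : Γ'} {f : S → ℝ}
    {hN : S × ℝ × ℝ → ℝ} {cN : S × ℝ × ℝ → S × ℝ × ℝ → Γ'}

lemma HD_end (D : DD ν ν' t π w h C w' ι κ f hN cN) {z : S} {u : ℝ} (hu : u ≤ 0 ∨ 1 ≤ u) :
    HD h f hN (z, u) = cl (2 * h z) := by
  unfold HD
  split_ifs with hc
  · exact D.ends _ _ _ hu
  · rfl

lemma HD_cont (D : DD ν ν' t π w h C w' ι κ f hN cN) (z : S × ℝ) :
    ContinuousAt (HD h f hN) z := by
  have ch := D.ch
  by_cases hf : 0 < f z.1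
  · have h1 : ContinuousAt (fun y : S × ℝ => ((y.1, 2 * h y.1, y.2) : S × ℝ × ℝ)) z := by
      fun_prop
    have h2 : ContinuousAt (fun y : S × ℝ => hN (y.1, 2 * h y.1, y.2)) z :=
      ContinuousAt.comp (f := fun y : S × ℝ => ((y.1, 2 * h y.1, y.2) : S × ℝ × ℝ)) (g := hN)
        (D.hcont _ hf) h1
    refine h2.congr ?_
    have e1 : ∀ᶠ y : S × ℝ in 𝓝 z, 0 < f y.1 :=
      continuousAt_fst.eventually (D.cf.continuousAt.eventually (lt_mem_nhds hf))
    filter_upwards [e1] with y hy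
    unfold HD
    rw [if_pos hy]
  · have hh : 1 / 2 < |h z.1| := by
      by_contra hcon
      exact hf (D.fpos _ (not_lt.mp hcon))
    have h2 : ContinuousAt (fun y : S × ℝ => cl (2 * h y.1)) z := by
      have := continuous_cl
      fun_prop
    refine h2.congr ?_
    have e1 : ∀ᶠ y : S × ℝ in 𝓝 z, 1 / 2 < |h y.1| := by
      have : ContinuousAt (fun y : S × ℝ => |h y.1|) z := by fun_prop
      exact this.eventually (lt_mem_nhds hh)
    filter_upwards [e1] with y hy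
    unfold HD
    split_ifs with hc
    · rcases lt_abs.mp hy with h3 | h3
      · rw [D.top _ _ _ (by linarith), cl_of_ge (by linarith)]
      · rw [D.bot _ _ _ (by linarith), cl_of_le (by linarith)]
    · rfl

lemma continuous_chi : Continuous chi := by unfold chi; fun_prop

lemma chi_one {s : ℝ} (hs : s ≤ 1 / 2) : chi s = 1 := by
  unfold chi
  rw [min_eq_left (by linarith)]
  norm_num

lemma chi_zero {s : ℝ} (hs : 3 / 4 ≤ s) : chi s = 0 := by
  unfold chi
  exact max_eq_left ((min_le_right _ _).trans (by linarith))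

lemma ED_cont (D : DD ν ν' t π w h C w' ι κ f hN cN) {X : S'} (hX : -1 < t X) :
    ContinuousAt (ED h f hN t π) X := by
  by_cases h1 : t X < 1
  · have hp := D.cπ X (abs_lt.mpr ⟨hX, h1⟩)
    have ct := D.ct
    have h2 : ContinuousAt (fun Y => ((π Y, 4 * t Y - 1) : S × ℝ)) X := by fun_prop
    have h3 : ContinuousAt (fun Y => HD h f hN (π Y, 4 * t Y - 1)) X :=
      ContinuousAt.comp (f := fun Y => ((π Y, 4 * t Y - 1) : S × ℝ)) (g := HD h f hN)
        (HD_cont D _) h2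
    have h4 : ContinuousAt (fun Y => chi (t Y)) X :=
      (continuous_chi.comp ct).continuousAt
    exact h4.mul h3
  · push Not at h1
    have e1 : ∀ᶠ Y in 𝓝 X, 3 / 4 < t Y :=
      D.ct.continuousAt.eventually (lt_mem_nhds (by linarith))
    have : ContinuousAt (fun _ : S' => (0 : ℝ)) X := continuousAt_const
    refine this.congr ?_
    filter_upwards [e1] with Y hY
    unfold ED
    rw [chi_zero hY.le, zero_mul]

lemma ED_collar (D : DD ν ν' t π w h C w' ι κ f hN cN) {X : S'} (hX : t X ≤ 1 / 4) :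
    ED h f hN t π X = cl (2 * h (π X)) := by
  unfold ED
  rw [chi_one (by linarith), HD_end D (Or.inl (by linarith)), one_mul]

lemma hD_cont (D : DD ν ν' t π w h C w' ι κ f hN cN) : Continuous (hD h f hN t π ν') := by
  rw [continuous_iff_continuousAt]
  intro X
  rcases lt_trichotomy (t X) 0 with h0 | h0 | h0
  · have h1 : ContinuousAt (fun Y => - ED h f hN t π (ν' Y)) X := by
      have h2 : ContinuousAt (ED h f hN t π) (ν' X) := ED_cont D (by rw [D.todd]; linarith)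
      exact (ContinuousAt.comp (f := ν') (g := ED h f hN t π) h2 D.cν'.continuousAt).neg
    refine h1.congr ?_
    filter_upwards [D.ct.continuousAt.eventually (gt_mem_nhds h0)] with Y hY
    unfold hD
    rw [if_neg (not_le.mpr hY)]
  · have hp := D.cπ X (by rw [h0]; norm_num)
    have ch := D.ch
    have h1 : ContinuousAt (fun Y => cl (2 * h (π Y))) X := by
      have h2 : Continuous (fun y : S => cl (2 * h y)) := by
        have := continuous_cl
        fun_prop
      exact ContinuousAt.comp (f := π) (g := fun y => cl (2 * h y)) h2.continuousAt hp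
    refine h1.congr ?_
    have e1 : ∀ᶠ Y in 𝓝 X, t Y < 1 / 4 :=
      D.ct.continuousAt.eventually (gt_mem_nhds (by linarith))
    have e2 : ∀ᶠ Y in 𝓝 X, -(1 / 4) < t Y :=
      D.ct.continuousAt.eventually (lt_mem_nhds (by linarith))
    filter_upwards [e1, e2] with Y h3 h4
    unfold hD
    split_ifs with hc
    · rw [ED_collar D h3.le]
    · rw [ED_collar D (by rw [D.todd]; linarith),
        D.πodd Y (abs_lt.mpr ⟨by linarith, by linarith⟩), D.hodd, mul_neg, cl_neg, neg_neg]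
  · have h1 : ContinuousAt (ED h f hN t π) X := ED_cont D (by linarith)
    refine h1.congr ?_
    filter_upwards [D.ct.continuousAt.eventually (lt_mem_nhds h0)] with Y hY
    unfold hD
    rw [if_pos (le_of_lt hY)]

lemma hD_odd (D : DD ν ν' t π w h C w' ι κ f hN cN) (X : S') :
    hD h f hN t π ν' (ν' X) = - hD h f hN t π ν' X := by
  rcases lt_trichotomy (t X) 0 with h0 | h0 | h0
  · unfold hD
    rw [if_pos (by rw [D.todd]; linarith), if_neg (not_le.mpr h0), neg_neg]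
  · unfold hD
    rw [if_pos (by rw [D.todd]; linarith), if_pos h0.ge,
      ED_collar D (by rw [D.todd]; linarith), ED_collar D (by linarith),
      D.πodd X (by rw [h0]; norm_num), D.hodd, mul_neg, cl_neg]
  · unfold hD
    rw [if_neg (by rw [D.todd]; linarith), D.νν', if_pos h0.le]

lemma GD_cont (D : DD ν ν' t π w h C w' ι κ f hN cN) {X : S'} (hX : |t X| < 1) :
    ContinuousAt (GD h t π) X := by
  have hp := D.cπ X hX
  have ct := D.ct
  have ch := D.ch
  have h2 : ContinuousAt (fun Y => 4 * t Y - 1) X := by fun_prop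
  have h3 : ContinuousAt (fun Y => 2 * h (π Y)) X :=
    (ContinuousAt.comp (f := π) (g := h) D.ch.continuousAt hp).const_mul 2
  unfold GD
  exact hp.prodMk (h3.prodMk h2)

/-- PL for the old structure pulled back to the collar. -/
lemma collar_PL (D : DD ν ν' t π w h C w' ι κ f hN cN) {X : S'}
    (hz : |cl (2 * h (π X))| < 1) :
    PL w ν C (π X) ∧ |h (π X)| < 1 / 2 := by
  have h1 := abs_cl_lt hz
  have h2 : |h (π X)| < 1 / 2 := by
    rw [abs_mul] at h1
    norm_num at h1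
    linarith
  exact ⟨D.hPL _ (by linarith), h2⟩

/-- The local structure of `Chat` in the open upper half. -/
lemma Chat_loc (D : DD ν ν' t π w h C w' ι κ f hN cN) {X : S'} (hX : 0 < t X)
    (hz : |hD h f hN t π ν' X| < 1) :
    LocCoc (Chat h t π C ι cN) X ∧
      ∃ U ∈ 𝓝 X, ∀ a ∈ U, ∀ b ∈ U, w' (Chat h t π C ι cN a b) = 1 := by
  have hzE : |ED h f hN t π X| < 1 := by
    unfold hD at hz
    rwa [if_pos hX.le] at hz
  rcases lt_trichotomy (t X) (1 / 4) with h0 | h0 | h0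
  · -- collar
    rw [ED_collar D h0.le] at hzE
    have habs : |t X| < 1 := abs_lt.mpr ⟨by linarith, by linarith⟩
    obtain ⟨⟨U, hU, h1, h2, h3⟩, -⟩ := collar_PL D hzE
    have hp := D.cπ X habs
    have hV : {Y | t Y < 1 / 4} ∩ π ⁻¹' U ∈ 𝓝 X :=
      inter_mem (D.ct.continuousAt.eventually (gt_mem_nhds h0)) (hp hU)
    have heq : ∀ a ∈ {Y | t Y < 1 / 4} ∩ π ⁻¹' U, ∀ b ∈ {Y | t Y < 1 / 4} ∩ π ⁻¹' U,
        Chat h t π C ι cN a b = ι (C (π a) (π b)) := by
      intro a ha b hb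
      unfold Chat
      rw [if_pos ⟨ha.1, hb.1⟩]
    refine ⟨⟨_, hV, ?_⟩, ⟨_, hV, ?_⟩⟩
    · intro a ha b hb d hd
      rw [heq a ha b hb, heq b hb d hd, heq a ha d hd, ← map_mul,
        h1 _ _ _ (Or.inl ha.2) (Or.inl hb.2) (Or.inl hd.2)]
    · intro a ha b hb
      rw [heq a ha b hb, D.hι, h2 _ ha.2 _ hb.2]
  · -- boundary of the collar
    rw [ED_collar D h0.le] at hzE
    have habs : |t X| < 1 := abs_lt.mpr ⟨by linarith, by linarith⟩
    obtain ⟨⟨U, hU, h1, h2, h3⟩, h4⟩ := collar_PL D hzE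
    have hp := D.cπ X habs
    have hf : 0 < f (π X) := D.fpos _ h4.le
    have hU2 : {Y | 0 < f (π Y)} ∩ π ⁻¹' U ∈ 𝓝 X := by
      refine inter_mem ?_ (hp hU)
      have : ContinuousAt (fun Y => f (π Y)) X :=
        ContinuousAt.comp (f := π) (g := f) D.cf.continuousAt hp
      exact this.eventually (lt_mem_nhds hf)
    have heq : ∀ a ∈ {Y | 0 < f (π Y)} ∩ π ⁻¹' U, ∀ b ∈ {Y | 0 < f (π Y)} ∩ π ⁻¹' U,
        Chat h t π C ι cN a b = cN (GD h t π a) (GD h t π b) := by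
      intro a ha b hb
      unfold Chat
      split_ifs with hc
      · have : cN (GD h t π a) (GD h t π b) = ι (rho w C (π a) (π b)) := by
          unfold GD
          exact D.c0 _ _ _ _ _ _ ha.1 hb.1 (by linarith [hc.1]) (by linarith [hc.2])
        rw [this, rho_eq (h2 _ ha.2 _ hb.2)]
      · rfl
    have hloc : LocCoc cN (GD h t π X) := by
      apply D.hloc _ hf
      unfold GD
      rw [D.ends _ _ _ (Or.inl (by linarith))]
      exact hzE
    refine ⟨?_, ⟨_, hU2, ?_⟩⟩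
    · exact (LocCoc.comp (f := GD h t π) hloc (GD_cont D habs)).congr ⟨_, hU2, heq⟩
    · intro a ha b hb
      rw [heq a ha b hb, D.ceven]
  · have hV : {Y | 1 / 4 < t Y} ∈ 𝓝 X := D.ct.continuousAt.eventually (lt_mem_nhds h0)
    have heq : ∀ a ∈ {Y | 1 / 4 < t Y}, ∀ b ∈ {Y | 1 / 4 < t Y},
        Chat h t π C ι cN a b = cN (GD h t π a) (GD h t π b) := by
      intro a ha b hb
      unfold Chat
      rw [if_neg]
      rintro ⟨h1, -⟩
      have : 1 / 4 < t a := ha
      linarith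
    refine ⟨?_, ⟨_, hV, ?_⟩⟩
    swap
    · intro a ha b hb
      rw [heq a ha b hb, D.ceven]
    by_cases h12 : 1 / 2 < t X
    · refine (locCoc_one (G := Γ') X).congr ⟨{Y | 1 / 2 < t Y},
        D.ct.continuousAt.eventually (lt_mem_nhds h12), ?_⟩
      intro a ha b hb
      have ha' : 1 / 2 < t a := ha
      have hb' : 1 / 2 < t b := hb
      rw [heq a (by show 1 / 4 < t a; linarith) b (by show 1 / 4 < t b; linarith)]
      unfold GD
      exact D.c1 _ _ _ _ _ _ (by linarith) (by linarith)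
    · push Not at h12
      have habs : |t X| < 1 := abs_lt.mpr ⟨by linarith, by linarith⟩
      have hH : |HD h f hN (π X, 4 * t X - 1)| < 1 := by
        unfold ED at hzE
        rwa [chi_one h12, one_mul] at hzE
      have hf : 0 < f (π X) := by
        by_contra hcon
        have hh : 1 / 2 < |h (π X)| := by
          by_contra hcon2
          exact hcon (D.fpos _ (not_lt.mp hcon2))
        unfold HD at hH
        rw [if_neg hcon] at hH
        have := abs_cl_lt hH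
        rw [abs_mul] at this
        norm_num at this
        linarith
      have hloc : LocCoc cN (GD h t π X) := by
        apply D.hloc _ hf
        unfold HD at hH
        rwa [if_pos hf] at hH
      exact (LocCoc.comp (f := GD h t π) hloc (GD_cont D habs)).congr ⟨_, hV, heq⟩

lemma CD_cocycle_of {X Y W : S'}
    (h1 : Chat h t π C ι cN (eD t ν' X) (eD t ν' Y) * Chat h t π C ι cN (eD t ν' Y) (eD t ν' W) =
      Chat h t π C ι cN (eD t ν' X) (eD t ν' W)) :
    CD h t π C ι cN ν' κ X Y * CD h t π C ι cN ν' κ Y W = CD h t π C ι cN ν' κ X W := by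
  unfold CD
  rw [← h1]
  group

lemma CD_PL_pos (D : DD ν ν' t π w h C w' ι κ f hN cN) {X : S'} (hX : 0 < t X)
    (hz : |hD h f hN t π ν' X| < 1) : PL w' ν' (CD h t π C ι cN ν' κ) X := by
  obtain ⟨⟨U, hU, h1⟩, ⟨V, hV, h2⟩⟩ := Chat_loc D hX hz
  have hW : {Y | 0 < t Y} ∈ 𝓝 X := D.ct.continuousAt.eventually (lt_mem_nhds hX)
  have hmem : ∀ a, (a ∈ U ∩ V ∩ {Y | 0 < t Y} ∨ ν' a ∈ U ∩ V ∩ {Y | 0 < t Y}) →
      eD t ν' a ∈ U ∩ V := by
    intro a ha
    rcases ha with ha | ha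
    · have : 0 < t a := ha.2
      unfold eD
      rw [if_pos this.le]
      exact ha.1
    · have h3 : 0 < t (ν' a) := ha.2
      rw [D.todd] at h3
      unfold eD
      rw [if_neg (by linarith)]
      exact ha.1
  refine ⟨U ∩ V ∩ {Y | 0 < t Y}, inter_mem (inter_mem hU hV) hW, ?_, ?_, ?_⟩
  · intro a b d ha hb hd
    apply CD_cocycle_of
    exact h1 _ (hmem a ha).1 _ (hmem b hb).1 _ (hmem d hd).1
  · intro a ha b hb
    have ta : 0 < t a := ha.2
    have tb : 0 < t b := hb.2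
    have e1 := (hmem a (Or.inl ha)).2
    have e2 := (hmem b (Or.inl hb)).2
    unfold CD
    rw [map_mul, map_mul, h2 _ e1 _ e2]
    unfold kD
    rw [if_pos ta.le, if_pos tb.le]
    simp
  · intro a ha b hb
    have ta : 0 < t a := ha.2
    have tb : 0 < t b := hb.2
    have e1 := (hmem a (Or.inl ha)).2
    have e2 := (hmem (ν' b) (Or.inr (by rw [D.νν']; exact hb))).2
    unfold CD
    rw [map_mul, map_mul, h2 _ e1 _ e2]
    unfold kD
    rw [if_pos ta.le, if_neg (by rw [D.todd]; linarith), D.κodd]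
    simp

lemma CD_PL_zero (D : DD ν ν' t π w h C w' ι κ f hN cN) {X : S'} (hX : t X = 0)
    (hz : |hD h f hN t π ν' X| < 1) : PL w' ν' (CD h t π C ι cN ν' κ) X := by
  have habs : |t X| < 1 := by rw [hX]; norm_num
  have hzE : |cl (2 * h (π X))| < 1 := by
    unfold hD at hz
    rw [if_pos hX.ge, ED_collar D (by linarith)] at hz
    exact hz
  obtain ⟨⟨U, hU, h1, h2, h3⟩, -⟩ := collar_PL D hzE
  have hp := D.cπ X habs
  have hW : {Y | |t Y| < 1 / 4} ∈ 𝓝 X := by
    have : ContinuousAt (fun Y => |t Y|) X := by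
      have := D.ct
      fun_prop
    exact this.eventually (gt_mem_nhds (by show |t X| < 1 / 4; rw [hX]; norm_num))
  have hself : ∀ a, (a ∈ U ∨ ν a ∈ U) → C a a = 1 := by
    intro a ha
    have := h1 a a a ha ha ha
    simpa using this
  -- positions
  have hpos : ∀ a, (a ∈ {Y | |t Y| < 1 / 4} ∩ π ⁻¹' U ∨ ν' a ∈ {Y | |t Y| < 1 / 4} ∩ π ⁻¹' U) →
      |t (eD t ν' a)| < 1 / 4 ∧ (π (eD t ν' a) ∈ U ∨ ν (π (eD t ν' a)) ∈ U) := by
    intro a ha
    have hta : |t a| < 1 / 4 := by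
      rcases ha with ha | ha
      · exact ha.1
      · have : |t (ν' a)| < 1 / 4 := ha.1
        rwa [D.todd, abs_neg] at this
    have hodd := D.πodd a (by linarith)
    unfold eD
    split_ifs with hc
    · refine ⟨hta, ?_⟩
      rcases ha with ha | ha
      · left; exact ha.2
      · right
        have : π (ν' a) ∈ U := ha.2
        rwa [hodd] at this
    · refine ⟨by rwa [D.todd, abs_neg], ?_⟩
      rw [hodd, D.νν]
      rcases ha with ha | ha
      · right; exact ha.2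
      · left
        have : π (ν' a) ∈ U := ha.2
        rwa [hodd] at this
  have hChat : ∀ a b, (a ∈ {Y | |t Y| < 1 / 4} ∩ π ⁻¹' U ∨ ν' a ∈ {Y | |t Y| < 1 / 4} ∩ π ⁻¹' U) →
      (b ∈ {Y | |t Y| < 1 / 4} ∩ π ⁻¹' U ∨ ν' b ∈ {Y | |t Y| < 1 / 4} ∩ π ⁻¹' U) →
      Chat h t π C ι cN (eD t ν' a) (eD t ν' b) =
        ι (C (π (eD t ν' a)) (π (eD t ν' b))) := by
    intro a b ha hb
    unfold Chat
    rw [if_pos ⟨(abs_lt.mp (hpos a ha).1).2, (abs_lt.mp (hpos b hb).1).2⟩]
  have hcoc : ∀ a b d, (a ∈ {Y | |t Y| < 1 / 4} ∩ π ⁻¹' U ∨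
      ν' a ∈ {Y | |t Y| < 1 / 4} ∩ π ⁻¹' U) →
      (b ∈ {Y | |t Y| < 1 / 4} ∩ π ⁻¹' U ∨ ν' b ∈ {Y | |t Y| < 1 / 4} ∩ π ⁻¹' U) →
      (d ∈ {Y | |t Y| < 1 / 4} ∩ π ⁻¹' U ∨ ν' d ∈ {Y | |t Y| < 1 / 4} ∩ π ⁻¹' U) →
      CD h t π C ι cN ν' κ a b * CD h t π C ι cN ν' κ b d = CD h t π C ι cN ν' κ a d := by
    intro a b d ha hb hd
    apply CD_cocycle_of
    rw [hChat a b ha hb, hChat b d hb hd, hChat a d ha hd, ← map_mul,
      h1 _ _ _ (hpos a ha).2 (hpos b hb).2 (hpos d hd).2]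
  -- parity of C on all combinations
  have p1 : ∀ y ∈ U, w (C (ν y) y) = -1 := by
    intro y hy
    have e1 : C y (ν y) * C (ν y) y = 1 := by
      rw [h1 y (ν y) y (Or.inl hy) (Or.inr (by rwa [D.νν])) (Or.inl hy), hself y (Or.inl hy)]
    have e3 := congrArg w e1
    rw [map_mul, h3 _ hy _ hy, map_one] at e3
    rcases Int.units_eq_one_or (w (C (ν y) y)) with h | h
    · rw [h] at e3; exact absurd e3 (by decide)
    · exact h
  have p2 : ∀ y ∈ U, ∀ z ∈ U, w (C (ν y) z) = -1 := by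
    intro y hy z hz
    have e1 : C (ν y) z = C (ν y) y * C y z := by
      rw [h1 (ν y) y z (Or.inr (by rwa [D.νν])) (Or.inl hy) (Or.inl hz)]
    rw [e1, map_mul, p1 y hy, h2 y hy z hz]
    decide
  have p3 : ∀ y ∈ U, ∀ z ∈ U, w (C (ν y) (ν z)) = 1 := by
    intro y hy z hz
    have e1 : C (ν y) (ν z) = C (ν y) y * C y (ν z) := by
      rw [h1 (ν y) y (ν z) (Or.inr (by rwa [D.νν])) (Or.inl hy) (Or.inr (by rwa [D.νν]))]
    rw [e1, map_mul, p1 y hy, h3 y hy z hz]
    decide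
  have heven : ∀ a ∈ {Y | |t Y| < 1 / 4} ∩ π ⁻¹' U, ∀ b ∈ {Y | |t Y| < 1 / 4} ∩ π ⁻¹' U,
      w' (CD h t π C ι cN ν' κ a b) = 1 := by
    intro a ha b hb
    have hta : |t a| < 1 / 4 := ha.1
    have htb : |t b| < 1 / 4 := hb.1
    have oa := D.πodd a (by linarith)
    have ob := D.πodd b (by linarith)
    unfold CD
    rw [map_mul, map_mul, hChat a b (Or.inl ha) (Or.inl hb), D.hι]
    unfold kD eD
    split_ifs with hc1 hc2 hc2
    · rw [h2 _ ha.2 _ hb.2]; simp
    · rw [ob, h3 _ ha.2 _ hb.2, D.κodd]; simp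
    · rw [oa, p2 _ ha.2 _ hb.2, map_inv, D.κodd]; simp
    · rw [oa, ob, p3 _ ha.2 _ hb.2, map_inv, D.κodd]; simp
  refine ⟨{Y | |t Y| < 1 / 4} ∩ π ⁻¹' U, inter_mem hW (hp hU), hcoc, heven, ?_⟩
  intro a ha b hb
  have e1 := hcoc a b (ν' b) (Or.inl ha) (Or.inl hb) (Or.inr (by rw [D.νν']; exact hb))
  rw [← e1, map_mul, heven a ha b hb, one_mul]
  have htb : |t b| < 1 / 4 := hb.1
  have ob := D.πodd b (by linarith)
  unfold CD
  rw [map_mul, map_mul, hChat b (ν' b) (Or.inl hb) (Or.inr (by rw [D.νν']; exact hb)), D.hι]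
  have hbb : w (C (π b) (π b)) = 1 := h2 _ hb.2 _ hb.2
  have hnn : w (C (ν (π b)) (ν (π b))) = 1 := p3 _ hb.2 _ hb.2
  rcases lt_trichotomy (t b) 0 with h0 | h0 | h0
  · have k1 : kD t κ b = κ := by unfold kD; rw [if_neg (not_le.mpr h0)]
    have k2 : kD t κ (ν' b) = 1 := by unfold kD; rw [if_pos (by rw [D.todd]; linarith)]
    have q1 : eD t ν' b = ν' b := by unfold eD; rw [if_neg (not_le.mpr h0)]
    have q2 : eD t ν' (ν' b) = ν' b := by unfold eD; rw [if_pos (by rw [D.todd]; linarith)]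
    rw [k1, k2, q1, q2, ob, hnn, map_inv, D.κodd]
    simp
  · have k1 : kD t κ b = 1 := by unfold kD; rw [if_pos h0.ge]
    have k2 : kD t κ (ν' b) = 1 := by unfold kD; rw [if_pos (by rw [D.todd]; linarith)]
    have q1 : eD t ν' b = b := by unfold eD; rw [if_pos h0.ge]
    have q2 : eD t ν' (ν' b) = ν' b := by unfold eD; rw [if_pos (by rw [D.todd]; linarith)]
    rw [k1, k2, q1, q2, ob, h3 _ hb.2 _ hb.2]
    simp
  · have k1 : kD t κ b = 1 := by unfold kD; rw [if_pos h0.le]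
    have k2 : kD t κ (ν' b) = κ := by unfold kD; rw [if_neg (by rw [D.todd]; linarith)]
    have q1 : eD t ν' b = b := by unfold eD; rw [if_pos h0.le]
    have q2 : eD t ν' (ν' b) = b := by
      unfold eD; rw [if_neg (by rw [D.todd]; linarith), D.νν']
    rw [k1, k2, q1, q2, hbb, D.κodd]
    simp

lemma CD_PL (D : DD ν ν' t π w h C w' ι κ f hN cN) {X : S'}
    (hz : |hD h f hN t π ν' X| < 1) : PL w' ν' (CD h t π C ι cN ν' κ) X := by
  rcases lt_trichotomy (t X) 0 with h0 | h0 | h0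
  · have h1 : |hD h f hN t π ν' (ν' X)| < 1 := by
      rw [hD_odd D, abs_neg]; exact hz
    have h2 := CD_PL_pos D (X := ν' X) (by rw [D.todd]; linarith) h1
    have h3 := h2.symm D.νν' D.cν'
    rwa [D.νν'] at h3
  · exact CD_PL_zero D h0 hz
  · exact CD_PL_pos D h0 hz

end

/-- The doubling step: an equivariant wall structure on `S` gives one on the suspension-like space. -/
theorem str_double {S S' : Type} [MetricSpace S] [CompactSpace S] [TopologicalSpace S']
    {ν : S → S} {ν' : S' → S'} {t : S' → ℝ} {π : S' → S}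
    (νν : ∀ x, ν (ν x) = x) (νν' : ∀ X, ν' (ν' X) = X) (cν' : Continuous ν')
    (ct : Continuous t) (todd : ∀ X, t (ν' X) = - t X)
    (cπ : ∀ X, |t X| < 1 → ContinuousAt π X)
    (πodd : ∀ X, |t X| < 1 → π (ν' X) = ν (π X)) (hS : Str S ν) : Str S' ν' := by
  classical
  obtain ⟨Γ, _, w, hw, ⟨κ, hκ⟩, h, C, ch, hodd, hPL⟩ := hS
  -- radii
  have hr : ∀ i : {x : S // |h x| < 1}, ∃ r > 0, ∃ U : Set S, Metric.ball i.1 r ⊆ U ∧
      (∀ a b d, (a ∈ U ∨ ν a ∈ U) → (b ∈ U ∨ ν b ∈ U) → (d ∈ U ∨ ν d ∈ U) →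
        C a b * C b d = C a d) ∧ (∀ a ∈ U, ∀ b ∈ U, w (C a b) = 1) := by
    rintro ⟨x, hx⟩
    obtain ⟨U, hU, h1, h2, h3⟩ := hPL x hx
    obtain ⟨r, hr, hball⟩ := Metric.mem_nhds_iff.mp hU
    exact ⟨r, hr, U, hball, h1, h2⟩
  choose r hr U hU h1 h2 using hr
  let ff : {x : S // |h x| < 1} → S → ℝ := fun i y => max 0 (r i - dist y i.1)
  let β : {x : S // |h x| < 1} → S → Γ := fun i y => rho w C i.1 y
  have cf : ∀ i, Continuous (ff i) := by
    intro i
    show Continuous fun y => max 0 (r i - dist y i.1)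
    fun_prop
  have f0 : ∀ i x, 0 ≤ ff i x := fun i x => le_max_left _ _
  have fball : ∀ i x, 0 < ff i x → x ∈ U i := by
    intro i x hx
    apply hU i
    rw [Metric.mem_ball]
    by_contra hcon
    push Not at hcon
    have : ff i x = 0 := max_eq_left (by linarith)
    linarith
  have hcenter : ∀ i, i.1 ∈ U i := fun i => hU i (Metric.mem_ball_self (hr i))
  have rB : ∀ i x y, 0 < ff i x → 0 < ff i y → rho w C x y = (β i x)⁻¹ * β i y := by
    intro i x y hx hy
    have hx' := fball i x hx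
    have hy' := fball i y hy
    have hc := hcenter i
    show rho w C x y = (rho w C i.1 x)⁻¹ * rho w C i.1 y
    rw [rho_eq (h2 i x hx' y hy'), rho_eq (h2 i _ hc _ hx'), rho_eq (h2 i _ hc _ hy'),
      ← h1 i i.1 x y (Or.inl hc) (Or.inl hx') (Or.inl hy')]
    group
  have hM : IsCompact {x : S | |h x| ≤ 1 / 2} :=
    (isClosed_le (by fun_prop) continuous_const).isCompact
  obtain ⟨s, hs⟩ := hM.elim_finite_subcover (fun i => {y | 0 < ff i y})
    (fun i => isOpen_lt continuous_const (cf i)) (by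
      intro x hx
      have hx1 : |h x| < 1 := lt_of_le_of_lt hx (by norm_num)
      rw [mem_iUnion]
      refine ⟨⟨x, hx1⟩, ?_⟩
      show 0 < max 0 (r ⟨x, hx1⟩ - dist x x)
      rw [dist_self, sub_zero]
      exact lt_max_of_lt_right (hr _))
  have hN := null_finset hw ff β (rho_even w C) (fun i x => rho_even w C _ _) cf f0 rB s
  obtain ⟨Γ', _, w', ι, hgood, hι, hNf, cN, hcont, htop, hbot, hends, hloc, ceven, c0, c1⟩ := hN
  have D : DD ν ν' t π w h C w' ι (ι κ) (fun x => ∑ i ∈ s, ff i x) hNf cN :=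
    { νν := νν
      νν' := νν'
      cν' := cν'
      ct := ct
      todd := todd
      cπ := cπ
      πodd := πodd
      ch := ch
      hodd := hodd
      hPL := hPL
      hι := hι
      κodd := by rw [hι, hκ]
      cf := continuous_finsetSum _ (fun j _ => cf j)
      fpos := by
        intro x hx
        obtain ⟨i, hi⟩ := mem_iUnion.mp (hs hx)
        obtain ⟨his, hi⟩ := mem_iUnion.mp hi
        exact Finset.sum_pos' (fun j _ => f0 j x) ⟨i, his, hi⟩
      hcont := hcont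
      top := htop
      bot := hbot
      ends := hends
      hloc := hloc
      ceven := ceven
      c0 := c0
      c1 := c1 }
  exact ⟨Γ', inferInstance, w', hgood, ⟨ι κ, by rw [hι, hκ]⟩, _, _, hD_cont D, hD_odd D,
    fun X hX => CD_PL D hX⟩

end Pool.Agent.Helper85
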