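import Mathlib
import Pool.Agent.Helper85.Tow

namespace Pool.Agent.Helper85

open Topology Filter Set Metric

/-- the two-sphere -/
abbrev S2 : Type := sphere (0 : EuclideanSpace ℝ (Fin 3)) 1

section discrete

variable {Γ : Type} [Group Γ] {w : Γ →* ℤˣ}

/-- Abstract data: a labelling of near-antipodal pairs. -/
structure AntiLab (w : Γ →* ℤˣ) (ε : ℝ) (T : S2 → S2 → Γ) : Prop where
  odd : ∀ x y : S2, dist x (-y) < ε → w (T x y) = -1
  inv : ∀ x y : S2, dist x (-y) < ε → T y x = (T x y)⁻¹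
  cyc : ∀ x y z u : S2, dist x (-y) < ε → dist y (-z) < ε → dist z (-u) < ε → dist u (-x) < ε →
    T x y * T y z * T z u * T u x = 1

lemma dist_neg_left' (x y : S2) : dist (-x) y = dist x (-y) := by
  rw [Subtype.dist_eq, Subtype.dist_eq, dist_eq_norm, dist_eq_norm]
  simp only [coe_neg_sphere]
  rw [show -(x : EuclideanSpace ℝ (Fin 3)) - y = -((x : EuclideanSpace ℝ (Fin 3)) - -y) by abel,
    norm_neg]

lemma dist_neg_neg' (x y : S2) : dist (-x) (-y) = dist x y := by
  rw [dist_neg_left', neg_neg]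

noncomputable def DDt (T : S2 → S2 → Γ) (x z : S2) : Γ := T x (-x) * T (-x) z

variable {ε : ℝ} {T : S2 → S2 → Γ}

lemma DDt_mul (hε : 0 < ε) (A : AntiLab w ε T) {x z y : S2} (h1 : dist x z < ε) (h2 : dist z y < ε)
    (h3 : dist x y < ε) : DDt T x z * DDt T z y = DDt T x y := by
  unfold DDt
  have hc := A.cyc (-x) z (-z) y (by rw [dist_neg_neg']; exact h1)
    (by rw [neg_neg, dist_self]; exact hε)
    (by rw [dist_neg_neg']; exact h2) (by rw [neg_neg, dist_comm]; exact h3)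
  have hi := A.inv (-x) y (by rw [dist_neg_neg']; exact h3)
  rw [hi] at hc
  have h4 : T (-x) z * T z (-z) * T (-z) y = T (-x) y := by
    rw [mul_inv_eq_one] at hc
    exact hc
  calc T x (-x) * T (-x) z * (T z (-z) * T (-z) y)
      = T x (-x) * (T (-x) z * T z (-z) * T (-z) y) := by simp only [mul_assoc]
    _ = T x (-x) * T (-x) y := by rw [h4]

lemma DDt_self (hε : 0 < ε) (A : AntiLab w ε T) (x : S2) : DDt T x x = 1 := by
  unfold DDt
  rw [A.inv x (-x) (by rw [neg_neg, dist_self]; exact hε)]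
  group

lemma DDt_inv (hε : 0 < ε) (A : AntiLab w ε T) {x z : S2} (h1 : dist x z < ε) :
    DDt T x z = (DDt T z x)⁻¹ := by
  have h2 : dist z x < ε := by rwa [dist_comm]
  have := DDt_mul hε A h1 h2 (by rwa [dist_self])
  rw [DDt_self hε A] at this
  exact eq_inv_of_mul_eq_one_left this

lemma DDt_even (hε : 0 < ε) (A : AntiLab w ε T) {x z : S2} (h1 : dist x z < ε) :
    w (DDt T x z) = 1 := by
  unfold DDt
  rw [map_mul, A.odd x (-x) (by rw [neg_neg, dist_self]; exact hε),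
    A.odd (-x) z (by rw [dist_neg_neg']; exact h1)]
  decide

lemma DDt_neg (hε : 0 < ε) (A : AntiLab w ε T) {x z : S2} (h1 : dist x z < ε) :
    DDt T (-x) (-z) = (T x (-x))⁻¹ * DDt T x z * T z (-z) := by
  unfold DDt
  rw [neg_neg]
  have hc := A.cyc x (-x) z (-z) (by rw [neg_neg, dist_self]; exact hε)
    (by rw [dist_neg_neg']; exact h1) (by rw [neg_neg, dist_self]; exact hε)
    (by rw [dist_neg_neg', dist_comm]; exact h1)
  have hi := A.inv x (-z) (by rw [neg_neg]; exact h1)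
  rw [hi, mul_inv_eq_one] at hc
  have hx := A.inv x (-x) (by rw [neg_neg, dist_self]; exact hε)
  rw [← hc, hx]
  group

/-- row products -/
noncomputable def rowP (T : S2 → S2 → Γ) (X : ℕ → S2) : ℕ → Γ
  | 0 => 1
  | m + 1 => rowP T X m * DDt T (X m) (X (m + 1))

lemma rowP_hom (hε : 0 < ε) (A : AntiLab w ε T) (X Y : ℕ → S2) (n : ℕ)
    (hX : ∀ m < n, dist (X m) (X (m + 1)) < ε) (hY : ∀ m < n, dist (Y m) (Y (m + 1)) < ε)
    (hXY : ∀ m ≤ n, dist (X m) (Y m) < ε) (hXY' : ∀ m < n, dist (X m) (Y (m + 1)) < ε)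
    (m : ℕ) (hm : m ≤ n) :
    rowP T X m * DDt T (X m) (Y m) = DDt T (X 0) (Y 0) * rowP T Y m := by
  induction m with
  | zero => simp [rowP]
  | succ m ih =>
    have hm' : m < n := hm
    have e1 : DDt T (X m) (X (m + 1)) * DDt T (X (m + 1)) (Y (m + 1)) = DDt T (X m) (Y (m + 1)) :=
      DDt_mul hε A (hX m hm') (hXY (m + 1) hm) (hXY' m hm')
    have e2 : DDt T (X m) (Y m) * DDt T (Y m) (Y (m + 1)) = DDt T (X m) (Y (m + 1)) :=
      DDt_mul hε A (hXY m hm'.le) (hY m hm') (hXY' m hm')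
    simp only [rowP]
    rw [mul_assoc, e1, ← e2, ← mul_assoc, ih hm'.le]
    simp only [mul_assoc]

lemma rowP_even (hε : 0 < ε) (A : AntiLab w ε T) (X : ℕ → S2) (n : ℕ)
    (hX : ∀ m < n, dist (X m) (X (m + 1)) < ε) (m : ℕ) (hm : m ≤ n) : w (rowP T X m) = 1 := by
  induction m with
  | zero => simp [rowP]
  | succ m ih =>
    simp only [rowP]
    rw [map_mul, ih (by omega), DDt_even hε A (hX m hm), one_mul]

lemma rowP_rev (hε : 0 < ε) (A : AntiLab w ε T) (X : ℕ → S2) (n : ℕ)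
    (hX : ∀ m < n, dist (X m) (X (m + 1)) < ε) (m : ℕ) (hm : m ≤ n) :
    rowP T X n = rowP T X (n - m) * (rowP T (fun i => X (n - i)) m)⁻¹ := by
  induction m with
  | zero => simp [rowP]
  | succ m ih =>
    rw [ih (by omega)]
    obtain ⟨k, hk⟩ : ∃ k, n - m = k + 1 := ⟨n - m - 1, by omega⟩
    have hk' : n - (m + 1) = k := by omega
    rw [hk, hk']
    simp only [rowP]
    rw [hk, hk', mul_inv_rev, ← mul_assoc]
    congr 1
    rw [DDt_inv hε A (hX k (by omega))]

lemma rowP_neg (hε : 0 < ε) (A : AntiLab w ε T) (X : ℕ → S2) (n : ℕ)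
    (hX : ∀ m < n, dist (X m) (X (m + 1)) < ε) (m : ℕ) (hm : m ≤ n) :
    rowP T (fun i => -X i) m = (T (X 0) (-X 0))⁻¹ * rowP T X m * T (X m) (-X m) := by
  induction m with
  | zero => simp [rowP]
  | succ m ih =>
    simp only [rowP]
    rw [ih (by omega), DDt_neg hε A (hX m hm)]
    group

/-- The grid argument. -/
lemma grid_absurd (hw : Good w) (hε : 0 < ε) (A : AntiLab w ε T) (n : ℕ) (X : ℕ → ℕ → S2)
    (p : S2)
    (h1 : ∀ j ≤ n, ∀ m < n, dist (X m j) (X (m + 1) j) < ε)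
    (h2 : ∀ j < n, ∀ m ≤ n, dist (X m j) (X m (j + 1)) < ε)
    (h3 : ∀ j < n, ∀ m < n, dist (X m j) (X (m + 1) (j + 1)) < ε)
    (h4 : ∀ j ≤ n, X 0 j = p) (h5 : ∀ j ≤ n, X n j = -p)
    (h6 : ∀ m ≤ n, X m n = - X (n - m) 0) : False := by
  have hrow : ∀ j ≤ n, rowP T (fun i => X i 0) n = rowP T (fun i => X i j) n := by
    intro j hj
    induction j with
    | zero => rfl
    | succ j ih =>
      rw [ih (by omega)]
      have := rowP_hom hε A (fun i => X i j) (fun i => X i (j + 1)) n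
        (fun m hm => h1 j (by omega) m hm) (fun m hm => h1 (j + 1) hj m hm)
        (fun m hm => h2 j (by omega) m hm) (fun m hm => h3 j (by omega) m hm) n le_rfl
      rw [h5 j (by omega), h5 (j + 1) hj, h4 j (by omega), h4 (j + 1) hj, DDt_self hε A,
        DDt_self hε A, mul_one, one_mul] at this
      exact this
  have e1 := hrow n le_rfl
  have hrev : ∀ m < n, dist (X (n - m) 0) (X (n - (m + 1)) 0) < ε := by
    intro m hm
    obtain ⟨k, hk⟩ : ∃ k, n - m = k + 1 := ⟨n - m - 1, by omega⟩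
    have hk' : n - (m + 1) = k := by omega
    rw [hk, hk', dist_comm]
    exact h1 0 (by omega) k (by omega)
  have e2 : rowP T (fun i => X i n) n = rowP T (fun i => -X (n - i) 0) n := by
    have : ∀ m ≤ n, rowP T (fun i => X i n) m = rowP T (fun i => -X (n - i) 0) m := by
      intro m hm
      induction m with
      | zero => rfl
      | succ m ih =>
        simp only [rowP]
        rw [ih (by omega), h6 m (by omega), h6 (m + 1) hm]
    exact this n le_rfl
  have e3 := rowP_neg hε A (fun i => X (n - i) 0) n hrev n le_rfl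
  have e4 := rowP_rev hε A (fun i => X i 0) n (fun m hm => h1 0 (by omega) m hm) n le_rfl
  simp only [Nat.sub_self, Nat.sub_zero] at e3 e4
  have hP0 : rowP T (fun i => X i 0) 0 = 1 := rfl
  rw [hP0, one_mul] at e4
  have hR : rowP T (fun i => X i 0) n =
      (T (X n 0) (-X n 0))⁻¹ * (rowP T (fun i => X i 0) n)⁻¹ * T (X 0 0) (-X 0 0) := by
    calc rowP T (fun i => X i 0) n = rowP T (fun i => -X (n - i) 0) n := by rw [e1, e2]
      _ = _ := by rw [e3, e4, inv_inv]
  rw [h5 0 (by omega), h4 0 (by omega), neg_neg] at hR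
  have hκ : T (-p) p = (T p (-p))⁻¹ := A.inv p (-p) (by rw [neg_neg, dist_self]; exact hε)
  rw [hκ, inv_inv] at hR
  set R := rowP T (fun i => X i 0) n with hRdef
  set κ := T p (-p) with hκdef
  have hwR : w R = 1 := rowP_even hε A _ n (fun m hm => h1 0 (by omega) m hm) n le_rfl
  have hwκ : w κ = -1 := A.odd p (-p) (by rw [neg_neg, dist_self]; exact hε)
  have hg : w (R⁻¹ * κ) = -1 := by rw [map_mul, map_inv, hwR, hwκ]; simp
  apply hw _ hg
  calc R⁻¹ * κ * (R⁻¹ * κ) = R⁻¹ * (κ * R⁻¹ * κ) := by simp only [mul_assoc]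
    _ = R⁻¹ * R := by rw [← hR]
    _ = 1 := by group

end discrete

/-! ### The homotopy of half great circles -/

noncomputable def FvecFun (s t : ℝ) : Fin 3 → ℝ :=
  ![Real.cos (Real.pi * s), Real.sin (Real.pi * s) * Real.cos (Real.pi * t),
    Real.sin (Real.pi * s) * Real.sin (Real.pi * t)]

noncomputable def Fvec (z : ℝ × ℝ) : EuclideanSpace ℝ (Fin 3) :=
  WithLp.toLp 2 (FvecFun z.1 z.2)

lemma Fvec_norm (z : ℝ × ℝ) : ‖Fvec z‖ = 1 := by
  rw [EuclideanSpace.norm_eq]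
  rw [Real.sqrt_eq_one]
  simp only [Fvec, FvecFun, Fin.sum_univ_three, Real.norm_eq_abs, sq_abs]
  simp
  have h1 := Real.sin_sq_add_cos_sq (Real.pi * z.1)
  have h2 := Real.sin_sq_add_cos_sq (Real.pi * z.2)
  nlinarith [h1, h2]

noncomputable def Fpt (z : ℝ × ℝ) : S2 := ⟨Fvec z, by rw [mem_sphere_zero_iff_norm]; exact Fvec_norm z⟩

lemma continuous_Fpt : Continuous Fpt := by
  unfold Fpt
  refine Continuous.subtype_mk ?_ _
  unfold Fvec
  refine (PiLp.continuous_toLp 2 _).comp ?_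
  refine continuous_pi ?_
  intro i
  fin_cases i <;> simp [FvecFun] <;> fun_prop

theorem antiLab_absurd {Γ : Type} [Group Γ] {w : Γ →* ℤˣ} {ε : ℝ} {T : S2 → S2 → Γ}
    (hw : Good w) (hε : 0 < ε) (A : AntiLab w ε T) : False := by
  have hK : IsCompact (Icc (0:ℝ) 1 ×ˢ Icc (0:ℝ) 1) := isCompact_Icc.prod isCompact_Icc
  have huc := hK.uniformContinuousOn_of_continuous continuous_Fpt.continuousOn
  rw [Metric.uniformContinuousOn_iff] at huc
  obtain ⟨δ, hδ, huc⟩ := huc ε hε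
  obtain ⟨n, hn⟩ := exists_nat_gt (1 / δ)
  have hnpos : (0 : ℝ) < n := lt_trans (by positivity) hn
  have hn0 : 0 < n := by exact_mod_cast hnpos
  have h1n : 1 / (n : ℝ) < δ := by
    rw [div_lt_iff₀ hnpos]
    rw [div_lt_iff₀ hδ] at hn
    linarith
  have hmem : ∀ i j : ℕ, i ≤ n → j ≤ n →
      (((i : ℝ) / n, (j : ℝ) / n) : ℝ × ℝ) ∈ Icc (0:ℝ) 1 ×ˢ Icc (0:ℝ) 1 := by
    intro i j hi hj
    have hi' : (i : ℝ) ≤ n := by exact_mod_cast hi
    have hj' : (j : ℝ) ≤ n := by exact_mod_cast hj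
    refine ⟨⟨by positivity, ?_⟩, ⟨by positivity, ?_⟩⟩
    · exact (div_le_one hnpos).mpr hi'
    · exact (div_le_one hnpos).mpr hj'
  have hstep : ∀ i : ℕ, dist ((i : ℝ) / n) (((i + 1 : ℕ) : ℝ) / n) < δ := by
    intro i
    rw [Real.dist_eq]
    push_cast
    rw [show (i : ℝ) / n - (i + 1) / n = -(1 / n) by ring, abs_neg, abs_of_pos (by positivity)]
    exact h1n
  refine grid_absurd hw hε A n (fun i j => Fpt ((i : ℝ) / n, (j : ℝ) / n)) (Fpt (0, 0))
    ?_ ?_ ?_ ?_ ?_ ?_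
  · intro j hj m hm
    apply huc _ (hmem _ _ hm.le hj) _ (hmem _ _ hm hj)
    rw [Prod.dist_eq, dist_self, max_lt_iff]
    exact ⟨hstep m, hδ⟩
  · intro j hj m hm
    apply huc _ (hmem _ _ hm hj.le) _ (hmem _ _ hm hj)
    rw [Prod.dist_eq, dist_self, max_lt_iff]
    exact ⟨hδ, hstep j⟩
  · intro j hj m hm
    apply huc _ (hmem _ _ hm.le hj.le) _ (hmem _ _ hm hj)
    rw [Prod.dist_eq, max_lt_iff]
    exact ⟨hstep m, hstep j⟩
  · intro j hj
    apply Subtype.ext
    simp only [Fpt, Fvec, FvecFun]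
    simp
  · intro j hj
    apply Subtype.ext
    rw [coe_neg_sphere]
    simp only [Fpt, Fvec, FvecFun]
    rw [div_self hnpos.ne']
    ext i
    fin_cases i <;> simp
  · intro m hm
    apply Subtype.ext
    rw [coe_neg_sphere]
    simp only [Fpt, Fvec, FvecFun]
    have hm' : ((n - m : ℕ) : ℝ) = n - m := by push_cast [hm]; ring
    rw [hm', div_self hnpos.ne']
    have e1 : Real.pi * (((n : ℝ) - m) / n) = Real.pi - Real.pi * (m / n) := by
      field_simp
    rw [e1, Real.cos_pi_sub, Real.sin_pi_sub]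
    ext i
    fin_cases i <;> simp

end Pool.Agent.Helper85
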