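import Mathlib
import Pool.Agent.Helper85.Box
import Pool.Agent.Helper85.Obstruct
import Pool.Agent.Helper85.Double

namespace Pool.Agent.Helper85

open Topology Filter Set Metric Box

/-- A parity labelling of the edges of a graph, trivial on closed 4-walks. -/
structure GraphLab {V : Type} (G : SimpleGraph V) {Γ : Type} [Group Γ] (w : Γ →* ℤˣ)
    (τ : V → V → Γ) : Prop where
  odd : ∀ u v, G.Adj u v → w (τ u v) = -1
  inv : ∀ u v, G.Adj u v → τ v u = (τ u v)⁻¹
  cyc : ∀ u v x y, G.Adj u v → G.Adj v x → G.Adj x y → G.Adj y u →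
    τ u v * τ v x * τ x y * τ y u = 1

/-- A graph with a good labelling admits no equivariant map `S² → B(G)`. -/
theorem no_map_S2 {V : Type} [Fintype V] {G : SimpleGraph V} {Γ : Type} [Group Γ]
    {w : Γ →* ℤˣ} {τ : V → V → Γ} (hw : Good w) (L : GraphLab G w τ)
    (f : S2 → (B G).space) (hf : Continuous f) (hodd : ∀ x, f (-x) = (B G).inv (f x)) :
    False := by
  classical
  -- V is nonempty
  have hV : Nonempty V := by
    obtain ⟨p⟩ : Nonempty S2 := ⟨Fpt (0, 0)⟩
    by_contra hcon
    rw [not_nonempty_iff] at hcon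
    have := (f p).2.2.1
    simp at this
  have hN : (0 : ℝ) < Fintype.card V := by exact_mod_cast Fintype.card_pos
  set N : ℝ := (Fintype.card V : ℝ) with hNdef
  -- choice of the vertex
  have hchoice : ∀ x : S2, ∃ c : V,
      (1 / 3 ≤ ∑ v, (f x).1 (v, true) → 1 / (3 * N) ≤ (f x).1 (c, true)) ∧
      (∑ v, (f x).1 (v, true) < 1 / 3 → ∀ v, (f x).1 (v, false) ≠ 0 → G.Adj v c) := by
    intro x
    by_cases hx : 1 / 3 ≤ ∑ v, (f x).1 (v, true)
    · have : ∃ c, 1 / (3 * N) ≤ (f x).1 (c, true) := by
        by_contra hcon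
        push Not at hcon
        have h1 : ∑ v, (f x).1 (v, true) < ∑ _v : V, 1 / (3 * N) :=
          Finset.sum_lt_sum_of_nonempty Finset.univ_nonempty (fun v _ => hcon v)
        rw [Finset.sum_const, Finset.card_univ, nsmul_eq_mul, ← hNdef] at h1
        have h2 : N * (1 / (3 * N)) = 1 / 3 := by field_simp
        linarith
      obtain ⟨c, hc⟩ := this
      exact ⟨c, fun _ => hc, fun h => absurd hx (not_le.mpr h)⟩
    · obtain ⟨c, hc⟩ := (f x).2.2.2.2.2
      refine ⟨c, fun h => absurd h hx, fun _ v hv => hc v hv⟩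
  choose c hc1 hc2 using hchoice
  -- uniform continuity
  have huc : UniformContinuous fun x => (f x).1 :=
    CompactSpace.uniformContinuous_of_continuous (continuous_subtype_val.comp hf)
  rw [Metric.uniformContinuous_iff] at huc
  obtain ⟨ε, hε, huc⟩ := huc (1 / (3 * N)) (by positivity)
  have hclose : ∀ x z : S2, dist x z < ε → ∀ p, |(f x).1 p - (f z).1 p| < 1 / (3 * N) := by
    intro x z hxz p
    have := huc hxz
    rw [← Real.dist_eq]
    exact lt_of_le_of_lt (dist_le_pi_dist _ _ p) this
  have hflip : ∀ x : S2, ∀ v b, (f (-x)).1 (v, b) = (f x).1 (v, !b) := by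
    intro x v b
    rw [hodd]
    rfl
  have htot : ∀ x : S2, ∑ v, (f x).1 (v, true) + ∑ v, (f x).1 (v, false) = 1 := by
    intro x
    have := (f x).2.2.1
    rw [Fintype.sum_prod_type] at this
    simp only [Fintype.sum_bool, Finset.sum_add_distrib] at this
    exact this
  have hadj : ∀ x y : S2, dist x (-y) < ε → G.Adj (c x) (c y) := by
    intro x y hxy
    have hcl := hclose x (-y) hxy
    have hface := (f (-y)).2.2.2
    have hB0 : (∀ a, (f (-y)).1 (a, true) ≠ 0 → ∀ b, (f (-y)).1 (b, false) ≠ 0 → G.Adj a b) :=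
      fun a ha b hb => hface.1.2 a ha b hb
    by_cases hx : 1 / 3 ≤ ∑ v, (f x).1 (v, true)
    · have h1 := hc1 x hx
      have h2 : (f (-y)).1 (c x, true) ≠ 0 := by
        intro h0
        have := hcl (c x, true)
        rw [h0, sub_zero] at this
        have := lt_of_le_of_lt (le_abs_self _) this
        linarith
      by_cases hy : 1 / 3 ≤ ∑ v, (f y).1 (v, true)
      · have h3 := hc1 y hy
        have h4 : (f (-y)).1 (c y, false) ≠ 0 := by
          rw [hflip]
          have : (0 : ℝ) < 1 / (3 * N) := by positivity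
          simp only [Bool.not_false]
          linarith
        exact hB0 _ h2 _ h4
      · have h3 := hc2 y (not_le.mp hy)
        apply h3
        rw [hflip] at h2
        simpa using h2
    · have h1 := hc2 x (not_le.mp hx)
      by_cases hy : 1 / 3 ≤ ∑ v, (f y).1 (v, true)
      · have h3 := hc1 y hy
        have h4 : (f x).1 (c y, false) ≠ 0 := by
          intro h0
          have := hcl (c y, false)
          rw [h0, zero_sub, abs_neg, hflip] at this
          have := lt_of_le_of_lt (le_abs_self _) this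
          simp only [Bool.not_false] at this
          linarith
        exact (h1 _ h4).symm
      · exfalso
        push Not at hx hy
        have e1 := htot x
        have e2 : ∑ v, (f (-y)).1 (v, false) = ∑ v, (f y).1 (v, true) := by
          apply Finset.sum_congr rfl
          intro v _
          rw [hflip]
          rfl
        have e3 : ∑ v, (f x).1 (v, false) - ∑ v, (f (-y)).1 (v, false) < 1 / 3 := by
          rw [← Finset.sum_sub_distrib]
          have h5 : ∑ v, ((f x).1 (v, false) - (f (-y)).1 (v, false)) <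
              ∑ _v : V, 1 / (3 * N) :=
            Finset.sum_lt_sum_of_nonempty Finset.univ_nonempty
              (fun v _ => lt_of_le_of_lt (le_abs_self _) (hcl (v, false)))
          rw [Finset.sum_const, Finset.card_univ, nsmul_eq_mul, ← hNdef] at h5
          have h2 : N * (1 / (3 * N)) = 1 / 3 := by field_simp
          linarith
        rw [e2] at e3
        linarith
  have hsym : ∀ x y : S2, dist x (-y) < ε → dist y (-x) < ε := by
    intro x y h
    rw [dist_comm, dist_neg_left']
    exact h
  refine antiLab_absurd (T := fun x y => τ (c x) (c y)) hw hε ⟨?_, ?_, ?_⟩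
  · intro x y h
    exact L.odd _ _ (hadj x y h)
  · intro x y h
    exact L.inv _ _ (hadj x y h)
  · intro x y z u h1 h2 h3 h4
    exact L.cyc _ _ _ _ (hadj _ _ h1) (hadj _ _ h2) (hadj _ _ h3) (hadj _ _ h4)

/-- Extraction of a finite labelled graph from an equivariant wall structure. -/
theorem exists_graph {S : Type} [MetricSpace S] [CompactSpace S] {ν : S → S}
    (νν : ∀ x, ν (ν x) = x) (νiso : ∀ x y, dist (ν x) (ν y) = dist x y) (hS : Str S ν)
    [Nonempty S] :
    ∃ (V : Type) (_ : Fintype V) (G : SimpleGraph V),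
      (∃ f : S → (B0 G).space, Continuous f ∧ ∀ x, f (ν x) = (B0 G).inv (f x)) ∧
      ∃ (Γ : Type) (_ : Group Γ) (w : Γ →* ℤˣ) (τ : V → V → Γ), Good w ∧ GraphLab G w τ := by
  classical
  obtain ⟨Γ, _, w, hw, -, h, C, ch, hodd, hPL⟩ := hS
  -- Lebesgue number
  have hM : IsCompact {x : S | |h x| ≤ 1 / 2} :=
    (isClosed_le (by fun_prop) continuous_const).isCompact
  have hr : ∀ i : {x : S // |h x| < 1}, ∃ U : Set S, U ∈ 𝓝 i.1 ∧
      ((∀ a b d, (a ∈ U ∨ ν a ∈ U) → (b ∈ U ∨ ν b ∈ U) → (d ∈ U ∨ ν d ∈ U) →
        C a b * C b d = C a d) ∧ (∀ a ∈ U, ∀ b ∈ U, w (C a b) = 1) ∧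
        (∀ a ∈ U, ∀ b ∈ U, w (C a (ν b)) = -1)) := by
    rintro ⟨x, hx⟩
    exact hPL x hx
  choose U hU hU2 using hr
  obtain ⟨lam, hlam, hleb⟩ := lebesgue_number_lemma_of_metric hM
    (c := fun i : {x : S // |h x| < 1} => interior (U i)) (fun i => isOpen_interior) (by
      intro x hx
      have hx1 : |h x| < 1 := lt_of_le_of_lt hx (by norm_num)
      rw [mem_iUnion]
      exact ⟨⟨x, hx1⟩, mem_interior_iff_mem_nhds.mpr (hU ⟨x, hx1⟩)⟩)
  have hleb' : ∀ x : S, |h x| ≤ 1 / 2 → ∃ i, ball x lam ⊆ U i := by
    intro x hx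
    obtain ⟨i, hi⟩ := hleb x hx
    exact ⟨i, hi.trans interior_subset⟩
  -- uniform continuity of h
  have huc : UniformContinuous h := CompactSpace.uniformContinuous_of_continuous ch
  rw [Metric.uniformContinuous_iff] at huc
  obtain ⟨η, hη, huc⟩ := huc (1 / 2) (by norm_num)
  obtain ⟨ε, hε, hε1, hε2⟩ : ∃ ε > 0, 4 * ε ≤ lam ∧ 2 * ε ≤ η := by
    refine ⟨min (lam / 4) (η / 2), by positivity, ?_, ?_⟩
    · have := min_le_left (lam / 4) (η / 2); linarith
    · have := min_le_right (lam / 4) (η / 2); linarith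
  -- the net
  have hP : IsCompact {x : S | 0 ≤ h x} := (isClosed_le continuous_const ch).isCompact
  obtain ⟨s, hs1, hs2⟩ := hP.elim_nhds_subcover (fun x => ball x ε)
    (fun x _ => ball_mem_nhds x hε)
  have hsymd : ∀ x y, dist x (ν y) = dist y (ν x) := by
    intro x y
    rw [← νiso x (ν y), νν, dist_comm]
  -- basic facts for close pairs
  have key : ∀ u v : S, 0 ≤ h u → 0 ≤ h v → dist u (ν v) < 2 * ε → |h u| ≤ 1 / 2 := by
    intro u v hu hv hd
    have h1 := huc (a := u) (b := ν v) (lt_of_lt_of_le hd hε2)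
    rw [Real.dist_eq, hodd] at h1
    have h2 := abs_lt.mp h1
    rw [abs_of_nonneg hu]
    linarith [h2.2]
  let V : Type := {x : S // x ∈ s}
  let G : SimpleGraph V :=
    { Adj := fun u v => u ≠ v ∧ dist u.1 (ν v.1) < 2 * ε
      symm := by
        constructor
        rintro u v ⟨h1, h2⟩
        exact ⟨h1.symm, by rw [hsymd]; exact h2⟩
      loopless := by
        constructor
        rintro u ⟨h1, -⟩
        exact h1 rfl }
  have hnonneg : ∀ u : V, 0 ≤ h u.1 := fun u => hs1 u.1 u.2
  have hne : ∀ u : V, ¬ dist u.1 (ν u.1) < 2 * ε := by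
    intro u hd
    obtain ⟨i, hi⟩ := hleb' u.1 (key _ _ (hnonneg u) (hnonneg u) hd)
    have hu1 : u.1 ∈ U i := hi (mem_ball_self hlam)
    have hu2 : ν u.1 ∈ U i := hi (by rw [mem_ball, dist_comm]; linarith)
    have e1 := (hU2 i).2.1 _ hu1 _ hu2
    have e2 := (hU2 i).2.2 _ hu1 _ hu1
    rw [e1] at e2
    exact absurd e2 (by decide)
  refine ⟨V, inferInstance, G, ?_, Γ, inferInstance, w, fun u v => C u.1 v.1, hw, ?_⟩
  · -- the equivariant map into B0
    let num : S → V × Bool → ℝ := fun x p =>
      if p.2 then max 0 (ε - dist x p.1.1) else max 0 (ε - dist (ν x) p.1.1)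
    have cν : Continuous ν := (Isometry.of_dist_eq νiso).continuous
    have hnum0 : ∀ x p, 0 ≤ num x p := by
      intro x p
      show 0 ≤ if p.2 then _ else _
      split_ifs <;> exact le_max_left _ _
    have hcont : ∀ p, Continuous fun x => num x p := by
      rintro ⟨v, b⟩
      cases b
      · exact continuous_const.max (continuous_const.sub (cν.dist continuous_const))
      · exact continuous_const.max (continuous_const.sub (continuous_id.dist continuous_const))
    have hflip : ∀ x v b, num (ν x) (v, b) = num x (v, !b) := by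
      intro x v b
      cases b
      · show max 0 (ε - dist (ν (ν x)) v.1) = max 0 (ε - dist x v.1)
        rw [νν]
      · rfl
    have htotflip : ∀ x, ∑ p, num (ν x) p = ∑ p, num x p := by
      intro x
      rw [← sum_flip (num x)]
      apply Finset.sum_congr rfl
      rintro ⟨v, b⟩ _
      exact hflip x v b
    have htot1 : ∀ x, 0 ≤ h x → 0 < ∑ p, num x p := by
      intro x hx
      obtain ⟨y, hy⟩ := mem_iUnion.mp (hs2 hx)
      obtain ⟨hys, hy⟩ := mem_iUnion.mp hy
      refine Finset.sum_pos' (fun p _ => hnum0 x p) ⟨(⟨y, hys⟩, true), Finset.mem_univ _, ?_⟩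
      show 0 < max 0 (ε - dist x y)
      apply lt_max_of_lt_right
      rw [mem_ball] at hy
      linarith
    have htot : ∀ x, 0 < ∑ p, num x p := by
      intro x
      rcases le_total 0 (h x) with hx | hx
      · exact htot1 x hx
      · rw [← htotflip]
        apply htot1
        rw [hodd]
        linarith
    have hsupp : ∀ x, {p | num x p / ∑ q, num x q ≠ 0} ∈ (B0 G).faces := by
      intro x
      have hpos1 : ∀ v : V, num x (v, true) / ∑ q, num x q ≠ 0 → dist x v.1 < ε := by
        intro v hv
        by_contra hcon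
        apply hv
        have : num x (v, true) = 0 := max_eq_left (by linarith)
        rw [this, zero_div]
      have hneg1 : ∀ v : V, num x (v, false) / ∑ q, num x q ≠ 0 → dist (ν x) v.1 < ε := by
        intro v hv
        by_contra hcon
        apply hv
        have : num x (v, false) = 0 := max_eq_left (by linarith)
        rw [this, zero_div]
      have hd : ∀ u v : V, num x (u, true) / ∑ q, num x q ≠ 0 →
          num x (v, false) / ∑ q, num x q ≠ 0 → dist u.1 (ν v.1) < 2 * ε := by
        intro u v hu hv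
        have h1 := hpos1 u hu
        have h2 := hneg1 v hv
        have h3 : dist x (ν v.1) < ε := by
          rw [← νiso, νν]; exact h2
        calc dist u.1 (ν v.1) ≤ dist u.1 x + dist x (ν v.1) := dist_triangle _ _ _
          _ < 2 * ε := by rw [dist_comm u.1 x]; linarith
      have hnn : ∀ u v : V, num x (u, true) / ∑ q, num x q ≠ 0 →
          num x (v, false) / ∑ q, num x q ≠ 0 → u ≠ v := by
        intro u v hu hv huv
        subst huv
        exact hne u (hd u u hu hv)
      refine ⟨?_, ?_⟩
      · rw [Set.disjoint_left]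
        intro v hv1 hv2
        exact hnn v v hv1 hv2 rfl
      · intro a ha b hb
        exact ⟨hnn a b ha hb, hd a b ha hb⟩
    refine ⟨fun x => ⟨fun p => num x p / ∑ q, num x q, fun p => div_nonneg (hnum0 x p) (htot x).le,
      ?_, hsupp x⟩, ?_, ?_⟩
    · rw [← Finset.sum_div]
      exact div_self (htot x).ne'
    · refine Continuous.subtype_mk ?_ _
      refine continuous_pi ?_
      intro p
      refine (hcont p).div ?_ (fun x => (htot x).ne')
      exact continuous_finsetSum _ (fun q _ => hcont q)
    · intro x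
      apply Subtype.ext
      funext p
      obtain ⟨v, b⟩ := p
      show num (ν x) (v, b) / ∑ q, num (ν x) q = num x (v, !b) / ∑ q, num x q
      rw [hflip, htotflip]
  · -- labels
    have hU4 : ∀ u v : V, G.Adj u v → ∃ i, ball u.1 lam ⊆ U i := by
      intro u v huv
      exact hleb' u.1 (key _ _ (hnonneg u) (hnonneg v) huv.2)
    refine ⟨?_, ?_, ?_⟩
    · intro u v huv
      obtain ⟨i, hi⟩ := hU4 u v huv
      have h1 : u.1 ∈ U i := hi (mem_ball_self hlam)
      have h2 : ν v.1 ∈ U i := hi (by rw [mem_ball, dist_comm]; linarith [huv.2])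
      have := (hU2 i).2.2 _ h1 _ h2
      rwa [νν] at this
    · intro u v huv
      obtain ⟨i, hi⟩ := hU4 u v huv
      have h1 : u.1 ∈ U i := hi (mem_ball_self hlam)
      have h2 : ν v.1 ∈ U i := hi (by rw [mem_ball, dist_comm]; linarith [huv.2])
      have e1 := (hU2 i).1 v.1 u.1 v.1 (Or.inr h2) (Or.inl h1) (Or.inr h2)
      have e2 := (hU2 i).1 v.1 v.1 v.1 (Or.inr h2) (Or.inr h2) (Or.inr h2)
      have e3 : C v.1 v.1 = 1 := by simpa using e2
      rw [e3] at e1
      exact eq_inv_of_mul_eq_one_left e1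
    · intro u v x y huv hvx hxy hyu
      obtain ⟨i, hi⟩ := hU4 u v huv
      have d1 := huv.2
      have d2 := hvx.2
      have d3 := hyu.2
      have h1 : u.1 ∈ U i := hi (mem_ball_self hlam)
      have h2 : ν v.1 ∈ U i := hi (by rw [mem_ball, dist_comm]; linarith)
      have h3 : x.1 ∈ U i := by
        apply hi
        rw [mem_ball]
        have e1 : dist (ν v.1) x.1 < 2 * ε := by
          rw [← νiso, νν]; exact d2
        calc dist x.1 u.1 ≤ dist x.1 (ν v.1) + dist (ν v.1) u.1 := dist_triangle _ _ _
          _ < 4 * ε := by rw [dist_comm x.1, dist_comm (ν v.1) u.1]; linarith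
          _ ≤ lam := hε1
      have h4 : ν y.1 ∈ U i := by
        apply hi
        rw [mem_ball, ← νiso, νν]
        linarith
      have e1 := (hU2 i).1 u.1 v.1 x.1 (Or.inl h1) (Or.inr h2) (Or.inl h3)
      have e2 := (hU2 i).1 u.1 x.1 y.1 (Or.inl h1) (Or.inl h3) (Or.inr h4)
      have e3 := (hU2 i).1 u.1 y.1 u.1 (Or.inl h1) (Or.inr h4) (Or.inl h1)
      have e4 := (hU2 i).1 u.1 u.1 u.1 (Or.inl h1) (Or.inl h1) (Or.inl h1)
      have e5 : C u.1 u.1 = 1 := by simpa using e4
      show C u.1 v.1 * C v.1 x.1 * C x.1 y.1 * C y.1 u.1 = 1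
      rw [e1, e2, e3, e5]

end Pool.Agent.Helper85
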