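import Pool.Agent.Helper28.JM.Defs

/-!
# Quadratic generation is the same for a lattice and its region (MP_c39200_al)
-/

set_option autoImplicit false

namespace Pool.Agent.Helper85.JM

open MvPolynomial Pool.Agent.Helper28.JM

section
variable {L : Type*} [Lattice L] (c : L → Pt)

/-- The lower left and the upper right corner of a pair. -/
def corner : Sym2 L → Pt × Pt :=
  Sym2.lift ⟨fun a b => (c (a ⊓ b), c (a ⊔ b)), fun a b => by
    change (c (a ⊓ b), c (a ⊔ b)) = (c (b ⊓ a), c (b ⊔ a))
    rw [inf_comm, sup_comm]⟩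

lemma corner_mk (a b : L) : corner c s(a, b) = (c (a ⊓ b), c (a ⊔ b)) := rfl

variable {c} (hc : Function.Injective c) (hsup : ∀ a b, c (a ⊔ b) = c a ⊔ c b)
  (hinf : ∀ a b, c (a ⊓ b) = c a ⊓ c b)

include hc hinf in
lemma le_iff (a b : L) : a ≤ b ↔ c a ≤ c b := by
  rw [← inf_eq_left, ← hc.eq_iff, hinf, inf_eq_left]

include hc hinf in
/-- Incomparable elements, in one of the two orders. -/
lemma inc_cases {a b : L} (hab : ¬ a ≤ b) (hba : ¬ b ≤ a) :
    ((c a).1 < (c b).1 ∧ (c b).2 < (c a).2) ∨ ((c b).1 < (c a).1 ∧ (c a).2 < (c b).2) := by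
  rw [le_iff hc hinf, Prod.le_def] at hab hba
  omega

include hsup hinf in
/-- The corners of a pair of incomparable elements. -/
lemma corner_of_lt {a b : L} (h1 : (c a).1 < (c b).1) (h2 : (c b).2 < (c a).2) :
    corner c s(a, b) = (((c a).1, (c b).2), ((c b).1, (c a).2)) := by
  rw [corner_mk, hsup, hinf]
  ext
  · simp [h1.le]
  · simp [h2.le]
  · simp [h1.le]
  · simp [h2.le]

include hc hinf in
/-- Every incomparable pair can be written in the good order. -/
lemma exists_rep (p : IncPair L) :
    ∃ a b : L, p.1 = s(a, b) ∧ (c a).1 < (c b).1 ∧ (c b).2 < (c a).2 := by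
  obtain ⟨s, a, b, rfl, hab, hba⟩ := p
  rcases inc_cases hc hinf hab hba with h | h
  · exact ⟨a, b, rfl, h⟩
  · exact ⟨b, a, Sym2.eq_swap, h⟩

include hc hsup hinf in
lemma corner_injective : Function.Injective (fun p : IncPair L => corner c p.1) := by
  intro p q hpq
  obtain ⟨a, b, hp, h1, h2⟩ := exists_rep hc hinf p
  obtain ⟨a', b', hq, h1', h2'⟩ := exists_rep hc hinf q
  apply Subtype.ext
  simp only [hp, hq] at hpq ⊢
  rw [corner_of_lt hsup hinf h1 h2, corner_of_lt hsup hinf h1' h2'] at hpq
  simp only [Prod.mk.injEq] at hpq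
  obtain ⟨⟨e1, e2⟩, e3, e4⟩ := hpq
  have ea : a = a' := hc (Prod.ext e1 e4)
  have eb : b = b' := hc (Prod.ext e3 e2)
  rw [ea, eb]

include hc hsup hinf in
lemma range_corner : Set.range (fun p : IncPair L => corner c p.1) = Mn (Set.range c) := by
  ext R
  constructor
  · rintro ⟨p, rfl⟩
    obtain ⟨a, b, hp, h1, h2⟩ := exists_rep hc hinf p
    simp only [hp]
    rw [corner_of_lt hsup hinf h1 h2]
    exact ⟨h1, h2, ⟨a, rfl⟩, ⟨b, rfl⟩⟩
  · rintro ⟨h1, h2, ⟨a, ha⟩, ⟨b, hb⟩⟩
    have h1' : (c a).1 < (c b).1 := by rw [ha, hb]; exact h1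
    have h2' : (c b).2 < (c a).2 := by rw [ha, hb]; exact h2
    have hab : ¬ a ≤ b := by
      rw [le_iff hc hinf, Prod.le_def]; omega
    have hba : ¬ b ≤ a := by
      rw [le_iff hc hinf, Prod.le_def]; omega
    refine ⟨⟨s(a, b), a, b, rfl, hab, hba⟩, ?_⟩
    simp only
    rw [corner_of_lt hsup hinf h1' h2', ha, hb]

variable (K : Type*) [Field K]

include hc hsup hinf in
lemma phi_rename (q : MvPolynomial (IncPair L) K) :
    phi K (rename (fun p : IncPair L => corner c p.1) q) = rename c (joinMeetMap K L q) := by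
  have h : (phi K).comp (rename (fun p : IncPair L => corner c p.1)) =
      (rename c).comp (joinMeetMap K L) := by
    apply MvPolynomial.algHom_ext
    intro p
    rw [AlgHom.comp_apply, AlgHom.comp_apply, rename_X, phi, joinMeetMap, aeval_X, aeval_X]
    obtain ⟨a, b, hp, h1, h2⟩ := exists_rep hc hinf p
    rw [hp, corner_of_lt hsup hinf h1 h2]
    have e : pairPoly K L s(a, b) = X a * X b - X (a ⊔ b) * X (a ⊓ b) := rfl
    rw [e, map_sub, map_mul, map_mul, rename_X, rename_X, rename_X, rename_X, fR]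
    have e1 : c (a ⊓ b) = ((c a).1, (c b).2) := by
      have := corner_of_lt hsup hinf h1 h2
      rw [corner_mk] at this
      exact congrArg Prod.fst this
    have e2 : c (a ⊔ b) = ((c b).1, (c a).2) := by
      have := corner_of_lt hsup hinf h1 h2
      rw [corner_mk] at this
      exact congrArg Prod.snd this
    rw [e1, e2]
    simp only
    rw [mul_comm (X ((c b).1, (c a).2)) (X ((c a).1, (c b).2))]
  exact congrArg (fun F => F q) h

end

theorem transfer (K : Type*) [Field K] (L : Type*) [Lattice L] (c : L → Pt)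
    (hc : Function.Injective c) (hsup : ∀ a b, c (a ⊔ b) = c a ⊔ c b)
    (hinf : ∀ a b, c (a ⊓ b) = c a ⊓ c b) :
    GeneratedByQuadrics (definingIdeal K L) ↔ QG K (Set.range c) := by
  set ι : IncPair L → Pt × Pt := fun p => corner c p.1 with hι
  have hinj : Function.Injective ι := corner_injective hc hsup hinf
  have hran : Set.range ι = Mn (Set.range c) := range_corner hc hsup hinf
  have hphi : ∀ q : MvPolynomial (IncPair L) K, phi K (rename ι q) = rename c (joinMeetMap K L q) :=
    phi_rename hc hsup hinf K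
  have hker : ∀ q : MvPolynomial (IncPair L) K,
      q ∈ definingIdeal K L ↔ phi K (rename ι q) = 0 := by
    intro q
    rw [hphi, definingIdeal, RingHom.mem_ker]
    constructor
    · intro h
      change (joinMeetMap K L) q = 0 at h
      rw [h, map_zero]
    · intro h
      change (joinMeetMap K L) q = 0
      exact rename_injective c hc (by rw [h, map_zero])
  have hsupp : ∀ q : MvPolynomial (IncPair L) K, rename ι q ∈ supported K (Mn (Set.range c)) := by
    classical
    intro q
    rw [mem_supported, ← hran]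
    intro x hx
    have := vars_rename ι q hx
    rw [Finset.mem_image] at this
    obtain ⟨y, _, rfl⟩ := this
    exact ⟨y, rfl⟩
  have hex : ∀ p ∈ supported K (Mn (Set.range c)), ∃ q, rename ι q = p := by
    intro p hp
    rw [mem_supported, ← hran] at hp
    exact exists_rename_eq_of_vars_subset_range p ι hinj hp
  constructor
  · intro hG p hp hp0
    obtain ⟨q, rfl⟩ := hex p hp
    have hq : q ∈ definingIdeal K L := (hker q).2 hp0
    rw [hG] at hq
    have h1 := Ideal.mem_map_of_mem (rename ι : MvPolynomial (IncPair L) K →ₐ[K] _) hq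
    rw [Ideal.map_span] at h1
    refine Ideal.span_mono ?_ h1
    rintro _ ⟨r, ⟨hr1, hr2⟩, rfl⟩
    refine ⟨hsupp r, (hker r).1 hr1, ?_⟩
    exact hr2.rename_isHomogeneous
  · intro hQ
    apply le_antisymm
    · intro q hq
      have h1 := hQ _ (hsupp q) ((hker q).1 hq)
      have h2 := Ideal.mem_map_of_mem (killCompl hinj : MvPolynomial (Pt × Pt) K →ₐ[K] _) h1
      rw [killCompl_rename_app, quadI, Ideal.map_span] at h2
      refine Ideal.span_mono ?_ h2
      rintro _ ⟨r, ⟨hr1, hr2, hr3⟩, rfl⟩
      obtain ⟨r', rfl⟩ := hex r hr1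
      change killCompl hinj (rename ι r') ∈ _
      rw [killCompl_rename_app]
      refine ⟨(hker r').2 hr2, ?_⟩
      exact (IsHomogeneous.rename_isHomogeneous_iff hinj).1 hr3
    · rw [Ideal.span_le]
      rintro q ⟨hq, _⟩
      exact hq

end Pool.Agent.Helper85.JM
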