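import Mathlib
import Pool.Agent.Helper85.Graph

namespace Pool.Agent.Helper85

open Topology Filter Set Metric Box

/-- Pull back of an equivariant wall structure. -/
lemma Str.pull {S₁ S₂ : Type} [TopologicalSpace S₁] [TopologicalSpace S₂] {ν₁ : S₁ → S₁}
    {ν₂ : S₂ → S₂} (g : S₁ → S₂) (hg : Continuous g) (hodd : ∀ x, g (ν₁ x) = ν₂ (g x))
    (hS : Str S₂ ν₂) : Str S₁ ν₁ := by
  obtain ⟨Γ, _, w, hw, hκ, h, C, ch, ho, hPL⟩ := hS
  refine ⟨Γ, inferInstance, w, hw, hκ, fun x => h (g x), fun x y => C (g x) (g y), ch.comp hg,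
    fun x => by show h (g (ν₁ x)) = -h (g x); rw [hodd, ho], ?_⟩
  intro x hx
  obtain ⟨U, hU, h1, h2, h3⟩ := hPL (g x) hx
  have hm : ∀ a, (a ∈ g ⁻¹' U ∨ ν₁ a ∈ g ⁻¹' U) → (g a ∈ U ∨ ν₂ (g a) ∈ U) := by
    intro a ha
    rcases ha with ha | ha
    · exact Or.inl ha
    · right
      rw [← hodd]
      exact ha
  refine ⟨g ⁻¹' U, hg.continuousAt hU, ?_, ?_, ?_⟩
  · intro a b d ha hb hd
    exact h1 _ _ _ (hm a ha) (hm b hb) (hm d hd)
  · intro a ha b hb
    exact h2 _ ha _ hb
  · intro a ha b hb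
    show w (C (g a) (g (ν₁ b))) = -1
    rw [hodd]
    exact h3 _ ha _ hb

/-- An injective linear map induces an odd continuous map of unit spheres. -/
lemma exists_odd_map {E F : Type} [NormedAddCommGroup E] [NormedSpace ℝ E]
    [FiniteDimensional ℝ E] [NormedAddCommGroup F] [NormedSpace ℝ F] (L : E →ₗ[ℝ] F)
    (hL : Function.Injective L) :
    ∃ g : sphere (0 : E) 1 → sphere (0 : F) 1, Continuous g ∧ ∀ x, g (-x) = -(g x) := by
  have hne : ∀ x : sphere (0 : E) 1, L x.1 ≠ 0 := by
    intro x hx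
    have h0 : x.1 = 0 := by
      apply hL
      rw [hx, map_zero]
    have h1 : ‖x.1‖ = 1 := by
      have := x.2
      rwa [mem_sphere_zero_iff_norm] at this
    rw [h0, norm_zero] at h1
    norm_num at h1
  have cL : Continuous fun x : sphere (0 : E) 1 => L x.1 :=
    (LinearMap.continuous_of_finiteDimensional L).comp continuous_subtype_val
  refine ⟨fun x => ⟨‖L x.1‖⁻¹ • L x.1, ?_⟩, ?_, ?_⟩
  · rw [mem_sphere_zero_iff_norm, norm_smul, norm_inv, norm_norm]
    exact inv_mul_cancel₀ (norm_ne_zero_iff.mpr (hne x))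
  · refine Continuous.subtype_mk ?_ _
    exact (cL.norm.inv₀ (fun x => norm_ne_zero_iff.mpr (hne x))).smul cL
  · intro x
    apply Subtype.ext
    simp

lemma good_zpow : Good (zpowersHom ℤˣ (-1) : Multiplicative ℤ →* ℤˣ) := by
  intro g hg hgg
  have h1 : g = 1 := by
    have h2 : Multiplicative.toAdd g + Multiplicative.toAdd g = 0 := by
      have := congrArg Multiplicative.toAdd hgg
      simpa using this
    have h3 : Multiplicative.toAdd g = 0 := by omega
    exact h3
  rw [h1, map_one] at hg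
  exact absurd hg (by decide)

/-- The zero-sphere in `ℝ`. -/
lemma str_zero : Str (sphere (0 : ℝ) 1) (fun x => -x) := by
  refine ⟨Multiplicative ℤ, inferInstance, zpowersHom ℤˣ (-1), good_zpow,
    ⟨Multiplicative.ofAdd 1, by simp⟩, fun x => x.1, fun _ _ => 1, continuous_subtype_val,
    fun x => by simp, ?_⟩
  intro x hx
  exfalso
  have := x.2
  rw [mem_sphere_zero_iff_norm, Real.norm_eq_abs] at this
  linarith

open Classical in
/-- The projection of the sphere of `E × ℝ` onto the sphere of `E`. -/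
noncomputable def prS {E : Type} [NormedAddCommGroup E] [NormedSpace ℝ E]
    (d : sphere (0 : E) 1) (X : sphere (0 : E × ℝ) 1) : sphere (0 : E) 1 :=
  if h : ‖X.1.1‖ = 1 then ⟨X.1.1, by rw [mem_sphere_zero_iff_norm]; exact h⟩ else d

lemma norm_fst_of_lt {E : Type} [NormedAddCommGroup E] [NormedSpace ℝ E]
    (X : sphere (0 : E × ℝ) 1) (h : |X.1.2| < 1) : ‖X.1.1‖ = 1 := by
  have := X.2
  rw [mem_sphere_zero_iff_norm, Prod.norm_def, Real.norm_eq_abs] at this
  rcases le_total ‖X.1.1‖ |X.1.2| with h1 | h1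
  · rw [max_eq_right h1] at this
    linarith
  · rw [max_eq_left h1] at this
    exact this

lemma str_sphere_succ {E : Type} [NormedAddCommGroup E] [NormedSpace ℝ E]
    [FiniteDimensional ℝ E] [Nontrivial E] (hS : Str (sphere (0 : E) 1) (fun x => -x)) :
    Str (sphere (0 : E × ℝ) 1) (fun x => -x) := by
  have : ProperSpace E := FiniteDimensional.proper_real E
  have : CompactSpace (sphere (0 : E) 1) := isCompact_iff_compactSpace.mp (isCompact_sphere 0 1)
  obtain ⟨d⟩ : Nonempty (sphere (0 : E) 1) :=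
    (NormedSpace.sphere_nonempty.mpr zero_le_one).to_subtype
  refine str_double (t := fun X : sphere (0 : E × ℝ) 1 => X.1.2) (π := prS d)
    (fun x => neg_neg x) (fun x => neg_neg x) continuous_neg
    (continuous_snd.comp continuous_subtype_val) (fun X => by simp) ?_ ?_ hS
  · intro X hX
    rw [Topology.IsInducing.subtypeVal.continuousAt_iff]
    have h1 : ContinuousAt (fun Y : sphere (0 : E × ℝ) 1 => Y.1.1) X :=
      (continuous_fst.comp continuous_subtype_val).continuousAt
    refine h1.congr ?_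
    have h2 : ContinuousAt (fun Y : sphere (0 : E × ℝ) 1 => |Y.1.2|) X :=
      (continuous_abs.comp (continuous_snd.comp continuous_subtype_val)).continuousAt
    filter_upwards [h2.eventually (gt_mem_nhds hX)] with Y hY
    have h3 := norm_fst_of_lt Y hY
    show Y.1.1 = (prS d Y).1
    unfold prS
    rw [dif_pos h3]
  · intro X hX
    have h3 := norm_fst_of_lt X hX
    have h4 : ‖(-X).1.1‖ = 1 := by simpa using h3
    apply Subtype.ext
    unfold prS
    rw [dif_pos h3, dif_pos h4]
    simp

lemma str_sphere (k : ℕ) : ∃ (E : Type) (_ : NormedAddCommGroup E) (_ : NormedSpace ℝ E),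
    FiniteDimensional ℝ E ∧ Module.finrank ℝ E = k + 1 ∧
      Str (sphere (0 : E) 1) (fun x => -x) := by
  induction k with
  | zero => exact ⟨ℝ, inferInstance, inferInstance, inferInstance, by simp, str_zero⟩
  | succ k ih =>
    obtain ⟨E, i1, i2, hfin, hrank, hS⟩ := ih
    have : Nontrivial E := Module.nontrivial_of_finrank_pos (R := ℝ) (by rw [hrank]; omega)
    refine ⟨E × ℝ, inferInstance, inferInstance, inferInstance, ?_, str_sphere_succ hS⟩
    rw [Module.finrank_prod, hrank, Module.finrank_self]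

/-- All Euclidean spheres carry an equivariant wall structure with a good group. -/
theorem str_Sph (k : ℕ) : Str (Sph k) (fun x => -x) := by
  obtain ⟨E, i1, i2, hfin, hrank, hS⟩ := str_sphere k
  have hr : Module.finrank ℝ (EuclideanSpace ℝ (Fin (k + 1))) = Module.finrank ℝ E := by
    rw [hrank]; simp
  obtain ⟨g, hg, hodd⟩ := exists_odd_map (LinearEquiv.ofFinrankEq _ _ hr).toLinearMap
    (LinearEquiv.injective _)
  exact hS.pull g hg hodd

/-- Restriction of an equivariant map from a higher sphere to `S²`. -/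
lemma exists_S2_to (n : ℕ) (hn : 2 ≤ n) :
    ∃ g : S2 → Sph n, Continuous g ∧ ∀ x, g (-x) = -(g x) := by
  let L : EuclideanSpace ℝ (Fin 3) →ₗ[ℝ] EuclideanSpace ℝ (Fin (n + 1)) :=
    { toFun := fun x => WithLp.toLp 2 (fun i => if h : (i : ℕ) < 3 then x ⟨i, h⟩ else 0)
      map_add' := by
        intro x y
        ext i
        by_cases h : (i : ℕ) < 3 <;> simp [h]
      map_smul' := by
        intro c x
        ext i
        by_cases h : (i : ℕ) < 3 <;> simp [h] }
  have hL : Function.Injective L := by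
    intro x y hxy
    ext j
    have h1 : (L x) ⟨j, by omega⟩ = (L y) ⟨j, by omega⟩ := by rw [hxy]
    simpa [L] using h1
  exact exists_odd_map L hL

theorem main (k : ℕ) : ∃ (V : Type) (_ : Fintype V) (G : SimpleGraph V),
    (∃ f : Sph k → (B0 G).space, Continuous f ∧ ∀ x, f (-x) = (B0 G).inv (f x)) ∧
    ∀ n : ℕ, 2 ≤ n → ¬ ∃ f : Sph n → (B G).space, Continuous f ∧
      ∀ x, f (-x) = (B G).inv (f x) := by
  have : CompactSpace (Sph k) := isCompact_iff_compactSpace.mp (isCompact_sphere 0 1)
  have : Nonempty (Sph k) := by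
    have : Nontrivial (EuclideanSpace ℝ (Fin (k + 1))) :=
      Module.nontrivial_of_finrank_pos (R := ℝ) (by simp)
    exact (NormedSpace.sphere_nonempty.mpr zero_le_one).to_subtype
  obtain ⟨V, i1, G, hf, Γ, i2, w, τ, hw, hL⟩ := exists_graph (S := Sph k) (ν := fun x => -x)
    (fun x => neg_neg x) (fun x y => by
      rw [Subtype.dist_eq, Subtype.dist_eq]
      simp only [coe_neg_sphere]
      exact dist_neg_neg _ _) (str_Sph k)
  refine ⟨V, i1, G, hf, ?_⟩
  rintro n hn ⟨f, hf, hodd⟩
  obtain ⟨g, hg, hgodd⟩ := exists_S2_to n hn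
  exact no_map_S2 hw hL (fun x => f (g x)) (hf.comp hg) (fun x => by rw [hgodd, hodd])

end Pool.Agent.Helper85
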