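import Mathlib

/-!
# Embeddings of a number field in the algebraic closure of the p-adic numbers
-/

set_option autoImplicit false

namespace Pool.Agent.Helper85.Sub

open NumberField Polynomial IsDedekindDomain

section A
variable {K : Type} [Field K] [NumberField K] {p : ℕ} [hp : Fact p.Prime]

lemma norm_le_one_of_isIntegral {x : PadicAlgCl p} (hx : IsIntegral ℤ x) : ‖x‖ ≤ 1 := by
  have h1 : x ∈ (NormedField.valuation (K := PadicAlgCl p)).integer := by
    refine (Valuation.integer.integers _).mem_of_integral ?_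
    exact hx.tower_top
  rw [Valuation.mem_integer_iff] at h1
  exact_mod_cast h1

lemma norm_emb_le_one (σ : K →+* PadicAlgCl p) (x : 𝓞 K) : ‖σ x‖ ≤ 1 := by
  refine norm_le_one_of_isIntegral ?_
  have := x.isIntegral_coe
  exact map_isIntegral_int σ this

lemma norm_p (σ : K →+* PadicAlgCl p) : ‖σ (p : K)‖ = (p : ℝ)⁻¹ := by
  rw [map_natCast, ← map_natCast (algebraMap ℚ_[p] (PadicAlgCl p))]
  rw [PadicAlgCl.norm_extends, Padic.norm_p]

/-- The prime ideal of an embedding. -/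
noncomputable def qI (σ : K →+* PadicAlgCl p) : Ideal (𝓞 K) where
  carrier := {x | ‖σ x‖ < 1}
  add_mem' := by
    intro a b ha hb
    simp only [Set.mem_ofPred_eq] at ha hb ⊢
    rw [show ((a + b : 𝓞 K) : K) = (a : K) + (b : K) from rfl, map_add]
    exact (IsUltrametricDist.norm_add_le_max _ _).trans_lt (max_lt ha hb)
  zero_mem' := by simp
  smul_mem' := by
    intro c x hx
    simp only [Set.mem_ofPred_eq] at hx ⊢
    rw [smul_eq_mul, show ((c * x : 𝓞 K) : K) = (c : K) * (x : K) from rfl, map_mul, norm_mul]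
    exact mul_lt_one_of_nonneg_of_lt_one_right (norm_emb_le_one σ c) (norm_nonneg _) hx

lemma mem_qI {σ : K →+* PadicAlgCl p} {x : 𝓞 K} : x ∈ qI σ ↔ ‖σ x‖ < 1 := Iff.rfl

/-- The prime ideal of an embedding. -/
noncomputable def qH (σ : K →+* PadicAlgCl p) : HeightOneSpectrum (𝓞 K) where
  asIdeal := qI σ
  isPrime := by
    refine ⟨?_, ?_⟩
    · intro h
      rw [Ideal.eq_top_iff_one, mem_qI] at h
      simp at h
    · intro x y hxy
      by_contra h
      push Not at h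
      rw [mem_qI, mem_qI, not_lt, not_lt] at h
      rw [mem_qI, show ((x * y : 𝓞 K) : K) = (x : K) * (y : K) from rfl, map_mul,
        norm_mul] at hxy
      nlinarith [h.1, h.2, norm_nonneg (σ (x:K)), norm_nonneg (σ (y:K))]
  ne_bot := by
    intro h
    have h1 : (p : 𝓞 K) ∈ qI σ := by
      rw [mem_qI]
      have : ((p : 𝓞 K) : K) = (p : K) := by simp
      rw [this, norm_p]
      exact inv_lt_one_of_one_lt₀ (by exact_mod_cast hp.out.one_lt)
    rw [h] at h1
    simp only [Ideal.mem_bot, Nat.cast_eq_zero] at h1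
    exact hp.out.ne_zero h1

lemma mem_qH {σ : K →+* PadicAlgCl p} {x : 𝓞 K} : x ∈ (qH σ).asIdeal ↔ ‖σ x‖ < 1 := Iff.rfl

lemma p_mem_qH (σ : K →+* PadicAlgCl p) : (p : 𝓞 K) ∈ (qH σ).asIdeal := by
  rw [mem_qH]
  have : ((p : 𝓞 K) : K) = (p : K) := by simp
  rw [this, norm_p]
  exact inv_lt_one_of_one_lt₀ (by exact_mod_cast hp.out.one_lt)

lemma norm_emb_eq_one {σ : K →+* PadicAlgCl p} {x : 𝓞 K} (hx : x ∉ (qH σ).asIdeal) :
    ‖σ x‖ = 1 := by
  rw [mem_qH, not_lt] at hx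
  exact le_antisymm (norm_emb_le_one σ x) hx

/-- Norms of the ideals over `p` are powers of `p`. -/
lemma absNorm_pow (P : HeightOneSpectrum (𝓞 K)) (hP : (p : 𝓞 K) ∈ P.asIdeal) :
    ∃ f : ℕ, f ≠ 0 ∧ Ideal.absNorm P.asIdeal = p ^ f := by
  have : P.asIdeal.LiesOver (Ideal.span {(p : ℤ)}) := by
    constructor
    have hmax : (Ideal.span {(p : ℤ)}).IsMaximal :=
      PrincipalIdealRing.isMaximal_of_irreducible (Nat.prime_iff_prime_int.mp hp.out).irreducible
    refine hmax.eq_of_le ?_ ?_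
    · have := P.isPrime
      exact (Ideal.comap_isPrime (algebraMap ℤ (𝓞 K)) P.asIdeal).ne_top
    · rw [Ideal.span_singleton_le_iff_mem, Ideal.mem_under]
      simpa using hP
  have h := Ideal.absNorm_eq_pow_inertiaDeg' P.asIdeal hp.out
  refine ⟨_, ?_, h⟩
  intro h0
  rw [h0, pow_zero] at h
  have := HeightOneSpectrum.one_lt_absNorm P
  omega

lemma mk_le_one_iff (P : HeightOneSpectrum (𝓞 K)) (x : K) :
    FinitePlace.mk P x ≤ 1 ↔ P.valuation K x ≤ 1 := by
  rw [FinitePlace.mk_apply, FinitePlace.norm_embedding']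
  have h := WithZeroMulInt.toNNReal_strictMono (HeightOneSpectrum.one_lt_absNorm_nnreal P)
  rw [← NNReal.coe_one, NNReal.coe_le_coe,
    ← map_one (WithZeroMulInt.toNNReal (HeightOneSpectrum.absNorm_ne_zero P))]
  exact h.le_iff_le

lemma mk_eq_zpow (P : HeightOneSpectrum (𝓞 K)) {x : K} (hx : x ≠ 0) :
    ∃ m : ℤ, FinitePlace.mk P x = (Ideal.absNorm P.asIdeal : ℝ) ^ m := by
  have h0 : P.valuation K x ≠ 0 := (Valuation.ne_zero_iff _).2 hx
  refine ⟨(WithZero.unzero h0).toAdd, ?_⟩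
  rw [FinitePlace.mk_apply, FinitePlace.norm_embedding', WithZeroMulInt.toNNReal_neg_apply _ h0]
  push_cast
  rfl

lemma norm_le_one_of_mk_le_one (σ : K →+* PadicAlgCl p) {x : K}
    (hx : FinitePlace.mk (qH σ) x ≤ 1) : ‖σ x‖ ≤ 1 := by
  rw [mk_le_one_iff] at hx
  obtain ⟨n, d, h⟩ := HeightOneSpectrum.exists_primeCompl_mul_eq_of_integer (qH σ) x hx
  have hd : ‖σ ((d : 𝓞 K) : K)‖ = 1 := norm_emb_eq_one d.2
  have h1 : ‖σ x‖ * ‖σ ((d : 𝓞 K) : K)‖ = ‖σ (n : K)‖ := by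
    rw [← norm_mul, ← map_mul]
    rw [show x * ((d : 𝓞 K) : K) = (n : K) from h]
  rw [hd, mul_one] at h1
  rw [h1]
  exact norm_emb_le_one σ n

lemma norm_eq_one_of_mk_eq_one (σ : K →+* PadicAlgCl p) {x : K}
    (hx : FinitePlace.mk (qH σ) x = 1) : ‖σ x‖ = 1 := by
  refine le_antisymm (norm_le_one_of_mk_le_one σ hx.le) ?_
  have h1 : FinitePlace.mk (qH σ) x⁻¹ ≤ 1 := by
    rw [map_inv₀, hx, inv_one]
  have h2 := norm_le_one_of_mk_le_one σ h1
  rw [map_inv₀, norm_inv] at h2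
  by_contra h
  push Not at h
  have h3 : 0 < ‖σ x‖ := by
    rw [norm_pos_iff]
    intro h0
    have : x = 0 := by simpa using h0
    rw [this, map_zero] at hx
    exact zero_ne_one hx
  have := (one_lt_inv₀ h3).2 h
  linarith

/-- The place of the embedding is a power of its norm. -/
lemma exists_pow (σ : K →+* PadicAlgCl p) :
    ∃ n : ℕ, n ≠ 0 ∧ ∀ x : K, FinitePlace.mk (qH σ) x = ‖σ x‖ ^ n := by
  obtain ⟨f, hf, hN⟩ := absNorm_pow (qH σ) (p_mem_qH σ)
  have hp1 : (1 : ℝ) < p := by exact_mod_cast hp.out.one_lt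
  have hp0 : (p : K) ≠ 0 := by exact_mod_cast hp.out.ne_zero
  have hN1 : (1 : ℝ) < (Ideal.absNorm (qH σ).asIdeal : ℝ) := by
    exact_mod_cast HeightOneSpectrum.one_lt_absNorm (qH σ)
  have hNp : (Ideal.absNorm (qH σ).asIdeal : ℝ) = (p : ℝ) ^ f := by
    rw [hN]; push_cast; rfl
  obtain ⟨e', he'⟩ := mk_eq_zpow (qH σ) hp0
  have hlt : FinitePlace.mk (qH σ) (p : K) < 1 := by
    have := (FinitePlace.norm_lt_one_iff_mem K (qH σ) (p : 𝓞 K)).2 (p_mem_qH σ)
    rw [FinitePlace.mk_apply]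
    simpa using this
  have he'0 : e' < 0 := by
    rw [he'] at hlt
    by_contra h
    push Not at h
    have := one_le_zpow₀ hN1.le h
    linarith
  obtain ⟨e, he⟩ : ∃ e : ℕ, e' = -(e : ℤ) := ⟨e'.natAbs, by omega⟩
  have he0 : e ≠ 0 := by
    rintro rfl
    simp at he
    omega
  subst he
  refine ⟨e * f, mul_ne_zero he0 hf, ?_⟩
  intro x
  by_cases hx : x = 0
  · subst hx
    rw [map_zero, map_zero, norm_zero, zero_pow (mul_ne_zero he0 hf)]
  obtain ⟨m, hm⟩ := mk_eq_zpow (qH σ) hx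
  have hy : FinitePlace.mk (qH σ) (x ^ e * (p : K) ^ m) = 1 := by
    rw [map_mul, map_pow, map_zpow₀, hm, he', ← zpow_natCast, ← zpow_mul, ← zpow_mul,
      ← zpow_add₀ (by linarith : (Ideal.absNorm (qH σ).asIdeal : ℝ) ≠ 0)]
    have : m * (e : ℤ) + -(e : ℤ) * m = 0 := by ring
    rw [this, zpow_zero]
  have h1 := norm_eq_one_of_mk_eq_one σ hy
  rw [map_mul, map_pow, map_zpow₀, norm_mul, norm_pow, norm_zpow, norm_p, inv_zpow] at h1
  have hpm : (p : ℝ) ^ m ≠ 0 := zpow_ne_zero _ (by linarith)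
  have h2 : ‖σ x‖ ^ e = (p : ℝ) ^ m := by
    field_simp at h1
    exact h1
  rw [hm, pow_mul, h2, hNp, ← zpow_natCast, ← zpow_natCast, ← zpow_mul, ← zpow_mul, mul_comm]

end A

end Pool.Agent.Helper85.Sub
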