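import Pool.Agent.Helper85.SubLOCM1

/-!
# Counting the embeddings over a prime ideal; conjugacy
-/

set_option autoImplicit false

namespace Pool.Agent.Helper85.Sub

open NumberField Polynomial IsDedekindDomain

section B
variable {K : Type} [Field K] [NumberField K] {p : ℕ} [hp : Fact p.Prime]

/-- A generator of a power of a prime ideal. -/
lemma exists_gen (P : HeightOneSpectrum (𝓞 K)) :
    ∃ (h : ℕ) (x : 𝓞 K), h ≠ 0 ∧ x ≠ 0 ∧ Ideal.span {x} = P.asIdeal ^ h := by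
  have hP : P.asIdeal ∈ nonZeroDivisors (Ideal (𝓞 K)) :=
    mem_nonZeroDivisors_of_ne_zero P.ne_bot
  set h := Fintype.card (ClassGroup (𝓞 K)) with hh
  have h1 : (ClassGroup.mk0 ⟨P.asIdeal, hP⟩) ^ h = 1 := pow_card_eq_one
  rw [← map_pow] at h1
  have h2 : (P.asIdeal ^ h) ∈ nonZeroDivisors (Ideal (𝓞 K)) := pow_mem hP h
  have h3 : ClassGroup.mk0 ⟨P.asIdeal ^ h, h2⟩ = 1 := by
    rw [← h1]
    congr 1
  rw [ClassGroup.mk0_eq_one_iff] at h3
  obtain ⟨x, hx⟩ := h3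
  refine ⟨h, x, Fintype.card_ne_zero, ?_, hx.symm⟩
  rintro rfl
  have h4 : P.asIdeal ^ h = ⊥ := by
    rw [hx]; simp
  exact P.ne_bot (eq_zero_of_pow_eq_zero h4)
where
  eq_zero_of_pow_eq_zero {I : Ideal (𝓞 K)} {h : ℕ} (hI : I ^ h = ⊥) : I = ⊥ :=
    pow_eq_zero_iff_of_pos' hI
  pow_eq_zero_iff_of_pos' {I : Ideal (𝓞 K)} {h : ℕ} (hI : I ^ h = 0) : I = 0 :=
    pow_eq_zero_iff_aux hI
  pow_eq_zero_iff_aux {I : Ideal (𝓞 K)} {h : ℕ} (hI : I ^ h = 0) : I = 0 :=
    (eq_zero_or_neZero I).elim id (fun hn => absurd hI (pow_ne_zero h hn.1))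

lemma mk_eq_inv_pow (P : HeightOneSpectrum (𝓞 K)) {h : ℕ} {x : 𝓞 K} (hx : x ≠ 0)
    (hxP : Ideal.span {x} = P.asIdeal ^ h) :
    FinitePlace.mk P (x : K) = ((Ideal.absNorm P.asIdeal : ℝ) ^ h)⁻¹ := by
  have h1 := FinitePlace.apply_mul_absNorm_pow_eq_one (FinitePlace.mk P) hx
  rw [FinitePlace.maximalIdeal_mk, hxP, multiplicity_pow_self P.ne_bot
    (fun hu => P.isPrime.ne_top (Ideal.isUnit_iff.1 hu))] at h1
  exact eq_inv_of_mul_eq_one_left h1

lemma prod_norm (P : HeightOneSpectrum (𝓞 K)) (hP : (p : 𝓞 K) ∈ P.asIdeal) {h : ℕ} {x : 𝓞 K}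
    (hx : x ≠ 0) (hxP : Ideal.span {x} = P.asIdeal ^ h) :
    ∏ σ : K →+* PadicAlgCl p, ‖σ (x : K)‖ = FinitePlace.mk P (x : K) := by
  obtain ⟨f, hf, hN⟩ := absNorm_pow P hP
  have h1 := Algebra.norm_eq_prod_embeddings (L := K) ℚ (PadicAlgCl p) (x : K)
  have h2 : ∏ σ : K →+* PadicAlgCl p, σ (x : K) = ∏ σ : K →ₐ[ℚ] PadicAlgCl p, σ (x : K) := by
    refine Fintype.prod_equiv (RingHom.equivRatAlgHom K (PadicAlgCl p)) _ _ ?_
    intro σ
    rfl
  rw [← norm_prod, h2, ← h1, ← Algebra.coe_norm_int, mk_eq_inv_pow P hx hxP]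
  have h3 : Ideal.absNorm (Ideal.span {x}) = (Algebra.norm ℤ x).natAbs :=
    Ideal.absNorm_span_singleton x
  rw [hxP, map_pow, hN, ← pow_mul] at h3
  have h4 : ‖(algebraMap ℚ (PadicAlgCl p)) ((Algebra.norm ℤ x : ℤ) : ℚ)‖
      = ‖((Algebra.norm ℤ x).natAbs : ℚ_[p])‖ := by
    rw [map_intCast, ← map_intCast (algebraMap ℚ_[p] (PadicAlgCl p)), PadicAlgCl.norm_extends]
    rcases Int.natAbs_eq (Algebra.norm ℤ x) with h5 | h5
    · conv_lhs => rw [h5]
      simp
    · conv_lhs => rw [h5]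
      simp
  rw [h4, ← h3, hN]
  push_cast
  rw [norm_pow, Padic.norm_p, inv_pow, pow_mul]

lemma mk_lt_one_of_gen (P : HeightOneSpectrum (𝓞 K)) {h : ℕ} {x : 𝓞 K} (h0 : h ≠ 0)
    (hxP : Ideal.span {x} = P.asIdeal ^ h) : FinitePlace.mk P (x : K) < 1 := by
  have := (FinitePlace.norm_lt_one_iff_mem K P x).2 ?_
  · exact this
  · have h1 : x ∈ P.asIdeal ^ h := by
      rw [← hxP]; exact Ideal.mem_span_singleton_self x
    exact Ideal.pow_le_self h0 h1

/-- The number of embeddings over `P` and their absolute values. -/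
lemma card_fiber (P : HeightOneSpectrum (𝓞 K)) (hP : (p : 𝓞 K) ∈ P.asIdeal) :
    ∃ n : ℕ, n ≠ 0 ∧ (∃ σ₀ : K →+* PadicAlgCl p, qH σ₀ = P) ∧
      Nat.card {σ : K →+* PadicAlgCl p // qH σ = P} = n ∧
      ∀ σ : K →+* PadicAlgCl p, qH σ = P → ∀ x : K, FinitePlace.mk P x = ‖σ x‖ ^ n := by
  classical
  obtain ⟨h, x, h0, hx, hxP⟩ := exists_gen P
  have hprod := prod_norm P hP hx hxP
  have hlt := mk_lt_one_of_gen P h0 hxP
  have hpos : 0 < FinitePlace.mk P (x : K) := by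
    rw [FinitePlace.pos_iff]
    exact_mod_cast hx
  have hout : ∀ σ : K →+* PadicAlgCl p, qH σ ≠ P → ‖σ (x : K)‖ = 1 := by
    intro σ hσ
    refine norm_emb_eq_one ?_
    intro hmem
    apply hσ
    have h1 : P.asIdeal ^ h ≤ (qH σ).asIdeal := by
      rw [← hxP, Ideal.span_singleton_le_iff_mem]
      exact hmem
    have h2 : P.asIdeal ≤ (qH σ).asIdeal := (qH σ).isPrime.le_of_pow_le h1
    have h3 : P.asIdeal = (qH σ).asIdeal := P.isMaximal.eq_of_le (qH σ).isPrime.ne_top h2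
    exact (HeightOneSpectrum.ext h3).symm
  have hne : ∃ σ₀ : K →+* PadicAlgCl p, qH σ₀ = P := by
    by_contra hcon
    push Not at hcon
    rw [Finset.prod_eq_one (fun σ _ => hout σ (hcon σ))] at hprod
    linarith
  obtain ⟨σ₀, hσ₀⟩ := hne
  obtain ⟨n, hn0, hn⟩ := exists_pow σ₀
  rw [hσ₀] at hn
  have hp1 : (1 : ℝ) < p := by exact_mod_cast hp.out.one_lt
  have hall : ∀ σ : K →+* PadicAlgCl p, qH σ = P → ∀ x : K, FinitePlace.mk P x = ‖σ x‖ ^ n := by
    intro σ hσ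
    obtain ⟨m, hm0, hm⟩ := exists_pow σ
    rw [hσ] at hm
    have h1 := hn (p : K)
    rw [hm (p : K), norm_p, norm_p] at h1
    have h2 : m = n := by
      refine pow_right_injective₀ (M₀ := ℝ) (a := (p : ℝ)⁻¹) (by positivity) ?_ h1
      intro h3
      rw [inv_eq_one] at h3
      linarith
    rw [← h2]
    exact hm
  refine ⟨n, hn0, ⟨σ₀, hσ₀⟩, ?_, hall⟩
  rw [Nat.card_eq_fintype_card, Fintype.card_subtype]
  set c := (Finset.univ.filter (fun σ : K →+* PadicAlgCl p => qH σ = P)).card with hc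
  have h1 : ∏ σ : K →+* PadicAlgCl p, ‖σ (x : K)‖ ^ n = (FinitePlace.mk P (x : K)) ^ c := by
    rw [← Finset.prod_filter_mul_prod_filter_not Finset.univ (fun σ => qH σ = P)]
    rw [Finset.prod_congr rfl (g := fun _ => FinitePlace.mk P (x : K))
      (s₁ := Finset.univ.filter (fun σ : K →+* PadicAlgCl p => qH σ = P))]
    · rw [Finset.prod_const, ← hc]
      rw [Finset.prod_eq_one, mul_one]
      intro σ hσ
      rw [hout σ (Finset.mem_filter.1 hσ).2, one_pow]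
    · intro σ hσ
      exact (hall σ (Finset.mem_filter.1 hσ).2 x).symm
  rw [Finset.prod_pow, hprod] at h1
  have h2 := pow_right_injective₀ hpos hlt.ne h1
  exact h2.symm

/-- Embeddings with the same absolute value are conjugate over `ℚ_p`. -/
lemma isConjRoot_of_norm_eq {σ σ' : K →+* PadicAlgCl p} (h : ∀ x : K, ‖σ x‖ = ‖σ' x‖) (θ : K) :
    IsConjRoot ℚ_[p] (σ θ) (σ' θ) := by
  classical
  set g := minpoly ℚ_[p] (σ θ) with hg
  have hint : IsIntegral ℚ_[p] (σ θ) := Algebra.IsIntegral.isIntegral _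
  have hint' : IsIntegral ℚ_[p] (σ' θ) := Algebra.IsIntegral.isIntegral _
  have key : aeval (σ' θ) g = 0 := by
    by_contra hne
    have hpos : 0 < ‖aeval (σ' θ) g‖ := norm_pos_iff.2 hne
    set R : ℝ := max 1 (max ‖σ θ‖ ‖σ' θ‖) with hR
    have hR1 : 1 ≤ R := le_max_left _ _
    set δ : ℝ := ‖aeval (σ' θ) g‖ / (2 * R ^ g.natDegree) with hδ
    have hδ0 : 0 < δ := by positivity
    -- choose rational approximations
    have happ : ∀ i : ℕ, ∃ q : ℚ, ‖(q : ℚ_[p]) - g.coeff i‖ < δ := by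
      intro i
      obtain ⟨q, hq⟩ := Padic.rat_dense p (g.coeff i) hδ0
      refine ⟨q, ?_⟩
      rw [← norm_neg]
      simpa using hq
    choose q hq using happ
    set r : ℚ[X] := ∑ i ∈ Finset.range (g.natDegree + 1), C (q i) * X ^ i with hr
    have heval : ∀ τ : K →+* PadicAlgCl p, ‖τ θ‖ ≤ R →
        ‖τ (aeval θ r) - aeval (τ θ) g‖ ≤ δ * R ^ g.natDegree := by
      intro τ hτ
      have h1 : τ (aeval θ r) - aeval (τ θ) g = ∑ i ∈ Finset.range (g.natDegree + 1),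
          algebraMap ℚ_[p] (PadicAlgCl p) ((q i : ℚ_[p]) - g.coeff i) * (τ θ) ^ i := by
        rw [aeval_eq_sum_range (p := g), hr, map_sum, map_sum, ← Finset.sum_sub_distrib]
        refine Finset.sum_congr rfl ?_
        intro i _
        rw [map_mul, aeval_C, map_pow, aeval_X, map_mul, map_pow, Algebra.smul_def, map_sub,
          sub_mul]
        congr 2
        rw [eq_ratCast, map_ratCast, map_ratCast]
      rw [h1]
      refine IsUltrametricDist.norm_sum_le_of_forall_le_of_nonneg (by positivity) ?_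
      intro i hi
      rw [norm_mul, norm_pow, PadicAlgCl.norm_extends]
      have h2 : ‖τ θ‖ ^ i ≤ R ^ g.natDegree := by
        calc ‖τ θ‖ ^ i ≤ R ^ i := pow_le_pow_left₀ (norm_nonneg _) hτ i
          _ ≤ R ^ g.natDegree := pow_le_pow_right₀ hR1 (by
              have := Finset.mem_range.1 hi; omega)
      exact mul_le_mul (hq i).le h2 (by positivity) hδ0.le
    have hδR : δ * R ^ g.natDegree = ‖aeval (σ' θ) g‖ / 2 := by
      rw [hδ]
      field_simp
    have e1 := heval σ ((le_max_left _ _).trans (le_max_right _ _))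
    have e2 := heval σ' ((le_max_right _ _).trans (le_max_right _ _))
    rw [hg, minpoly.aeval, ← hg, sub_zero, hδR, h] at e1
    rw [hδR] at e2
    have e3 : ‖aeval (σ' θ) g‖ ≤ max ‖σ' (aeval θ r)‖ ‖σ' (aeval θ r) - aeval (σ' θ) g‖ := by
      have : aeval (σ' θ) g = σ' (aeval θ r) + -(σ' (aeval θ r) - aeval (σ' θ) g) := by ring
      conv_lhs => rw [this]
      refine (IsUltrametricDist.norm_add_le_max _ _).trans ?_
      rw [norm_neg]
    have e4 := e3.trans (max_le e1 e2)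
    linarith
  rw [isConjRoot_iff_aeval_eq_zero hint]
  exact key

end B

end Pool.Agent.Helper85.Sub
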